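import Pool.Agent.MinMod.NumTab

/-!
Conv: convexity of the majorants.

PROOF.  For `0 ≤ lo i ≤ up i` the function `ψ_i F = up_i max F 0 - lo_i max (-F) 0` (`= max (up_i F) (lo_i F)`) is nondecreasing and convex.
`FT D X i j x c = A + B x c + C x^2` with `C ≥ 0` (`rR`, `m2R`, powers are nonnegative).  With `x = (1-u) x0 + u x1`, `c = (1-v) c0 + v c1`:
`x c = ∑ weights * x_a c_b` exactly and `x^2 ≤ (1-u) x0^2 + u x1^2`, so `FT x c ≤ ∑_{a,b} w_{ab} FT x_a c_b`, hence `ψ_i (FT x c) ≤ ∑ w_{ab} ψ_i (FT x_a c_b)`.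
`tailR` is convex on `[0, ∞)` (`x^3`: `(1-u) x0^3 + u x1^3 - x^3 ≥ 0` for `x0, x1 ≥ 0`).  So `VV` at `(x, c)` is at most the weighted mean of the
four values, and each value is at most its `max 0`.  `convL`: the same, `FL` is affine in `x`.
-/

namespace Pool.Agent.MinMod

private theorem psi_a {a b : ℝ} (hab : b ≤ a) (F : ℝ) :
    a * F ≤ a * max F 0 - b * max (-F) 0 := by
  rcases le_total 0 F with h | h
  · rw [max_eq_left h, max_eq_right (by linarith)]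
    linarith
  · rw [max_eq_right h, max_eq_left (by linarith)]
    nlinarith

private theorem psi_b {a b : ℝ} (hab : b ≤ a) (F : ℝ) :
    b * F ≤ a * max F 0 - b * max (-F) 0 := by
  rcases le_total 0 F with h | h
  · rw [max_eq_left h, max_eq_right (by linarith)]
    nlinarith
  · rw [max_eq_right h, max_eq_left (by linarith)]
    linarith

private theorem psi_cv {a b : ℝ} (hb : 0 ≤ b) (hab : b ≤ a) {F F1 F2 F3 F4 w1 w2 w3 w4 : ℝ}
    (h1 : 0 ≤ w1) (h2 : 0 ≤ w2) (h3 : 0 ≤ w3) (h4 : 0 ≤ w4)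
    (hF : F ≤ w1 * F1 + w2 * F2 + w3 * F3 + w4 * F4) :
    a * max F 0 - b * max (-F) 0 ≤ w1 * (a * max F1 0 - b * max (-F1) 0) +
      w2 * (a * max F2 0 - b * max (-F2) 0) + w3 * (a * max F3 0 - b * max (-F3) 0) +
      w4 * (a * max F4 0 - b * max (-F4) 0) := by
  have ha : 0 ≤ a := hb.trans hab
  rcases le_total 0 F with h | h
  · have e : a * max F 0 - b * max (-F) 0 = a * F := by
      rw [max_eq_left h, max_eq_right (by linarith)]
      ring
    rw [e]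
    have e1 := mul_le_mul_of_nonneg_left (psi_a hab F1) h1
    have e2 := mul_le_mul_of_nonneg_left (psi_a hab F2) h2
    have e3 := mul_le_mul_of_nonneg_left (psi_a hab F3) h3
    have e4 := mul_le_mul_of_nonneg_left (psi_a hab F4) h4
    have e5 := mul_le_mul_of_nonneg_left hF ha
    linarith
  · have e : a * max F 0 - b * max (-F) 0 = b * F := by
      rw [max_eq_right h, max_eq_left (by linarith)]
      ring
    rw [e]
    have e1 := mul_le_mul_of_nonneg_left (psi_b hab F1) h1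
    have e2 := mul_le_mul_of_nonneg_left (psi_b hab F2) h2
    have e3 := mul_le_mul_of_nonneg_left (psi_b hab F3) h3
    have e4 := mul_le_mul_of_nonneg_left (psi_b hab F4) h4
    have e5 := mul_le_mul_of_nonneg_left hF hb
    linarith

private theorem vv_cv (up lo : List ℕ) (hlu : ∀ i < 9, lo.getD i 0 ≤ up.getD i 0)
    {t t1 t2 t3 t4 w1 w2 w3 w4 : ℝ} {F F1 F2 F3 F4 : ℕ → ℝ}
    (h1 : 0 ≤ w1) (h2 : 0 ≤ w2) (h3 : 0 ≤ w3) (h4 : 0 ≤ w4)
    (ht : t ≤ w1 * t1 + w2 * t2 + w3 * t3 + w4 * t4)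
    (hF : ∀ i, F i ≤ w1 * F1 i + w2 * F2 i + w3 * F3 i + w4 * F4 i) :
    VV up lo t F ≤ w1 * VV up lo t1 F1 + w2 * VV up lo t2 F2 + w3 * VV up lo t3 F3 +
      w4 * VV up lo t4 F4 := by
  unfold VV
  have key : ∑ i ∈ Finset.range 9, ((up.getD i 0 : ℝ) / 2 ^ 64 * max (F i) 0 -
        (lo.getD i 0 : ℝ) / 2 ^ 64 * max (-F i) 0) ≤
      ∑ i ∈ Finset.range 9, (w1 * ((up.getD i 0 : ℝ) / 2 ^ 64 * max (F1 i) 0 -
        (lo.getD i 0 : ℝ) / 2 ^ 64 * max (-F1 i) 0) +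
        w2 * ((up.getD i 0 : ℝ) / 2 ^ 64 * max (F2 i) 0 -
        (lo.getD i 0 : ℝ) / 2 ^ 64 * max (-F2 i) 0) +
        w3 * ((up.getD i 0 : ℝ) / 2 ^ 64 * max (F3 i) 0 -
        (lo.getD i 0 : ℝ) / 2 ^ 64 * max (-F3 i) 0) +
        w4 * ((up.getD i 0 : ℝ) / 2 ^ 64 * max (F4 i) 0 -
        (lo.getD i 0 : ℝ) / 2 ^ 64 * max (-F4 i) 0)) := by
    refine Finset.sum_le_sum fun i hi => ?_
    have h5 : (lo.getD i 0 : ℝ) ≤ (up.getD i 0 : ℝ) := by
      exact_mod_cast hlu i (Finset.mem_range.1 hi)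
    exact psi_cv (by positivity) (by gcongr) h1 h2 h3 h4 (hF i)
  rw [Finset.sum_add_distrib, Finset.sum_add_distrib, Finset.sum_add_distrib, ← Finset.mul_sum,
    ← Finset.mul_sum, ← Finset.mul_sum, ← Finset.mul_sum] at key
  linarith

private theorem tail_cv (D : Dat) {x0 x1 u : ℝ} (h0 : 0 ≤ x0) (h1 : 0 ≤ x1) (hu0 : 0 ≤ u)
    (hu1 : u ≤ 1) :
    tailR D ((1 - u) * x0 + u * x1) ≤ (1 - u) * tailR D x0 + u * tailR D x1 := by
  unfold tailR
  have hF : (0 : ℝ) ≤ (D.Fn : ℝ) / 2 ^ 144 := by positivity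
  have e : (1 - u) * x0 ^ 3 + u * x1 ^ 3 - ((1 - u) * x0 + u * x1) ^ 3 =
      u * (1 - u) * ((x0 - x1) ^ 2 * ((2 - u) * x0 + (1 + u) * x1)) := by ring
  have e1 : 0 ≤ u * (1 - u) * ((x0 - x1) ^ 2 * ((2 - u) * x0 + (1 + u) * x1)) := by
    have a1 : 0 ≤ 1 - u := by linarith
    have a2 : 0 ≤ 2 - u := by linarith
    positivity
  have e2 : ((1 - u) * x0 + u * x1) ^ 3 * ((D.Fn : ℝ) / 2 ^ 144) ≤
      ((1 - u) * x0 ^ 3 + u * x1 ^ 3) * ((D.Fn : ℝ) / 2 ^ 144) :=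
    mul_le_mul_of_nonneg_right (by linarith) hF
  linarith

private theorem FT_cv (D : Dat) (X i j : ℕ) {x0 x1 c0 c1 u v : ℝ} (hu0 : 0 ≤ u) (hu1 : u ≤ 1) :
    FT D X i j ((1 - u) * x0 + u * x1) ((1 - v) * c0 + v * c1) ≤
      (1 - u) * (1 - v) * FT D X i j x0 c0 + (1 - u) * v * FT D X i j x0 c1 +
      u * (1 - v) * FT D X i j x1 c0 + u * v * FT D X i j x1 c1 := by
  unfold FT
  have hC : 0 ≤ (256 : ℝ) ^ ((6 : ℤ) - i) *
      (∑ g ∈ Finset.range 48, m2R D g * rR (48 * i + (46 - 2 * X) + g) (jj i j)) := by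
    refine mul_nonneg (by positivity) (Finset.sum_nonneg fun g _ => mul_nonneg ?_ ?_)
    · unfold m2R
      positivity
    · unfold rR
      positivity
  generalize (∑ g ∈ Finset.range 48, m2R D g * rR (48 * i + (46 - 2 * X) + g) (jj i j)) = R at hC ⊢
  generalize (∑ g ∈ Finset.range 48, m2R D g * bR g *
    (1 - rR (48 * i + (46 - 2 * X) + g) (jj i j))) = S
  generalize (∑ g ∈ Finset.range 48, muR D g * aR (48 * i + (46 - 2 * X) + g) (jj i j)) = A
  generalize (256 : ℝ) ^ ((6 : ℤ) - i) = Q at hC ⊢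
  generalize (16 : ℝ) ^ ((6 : ℤ) - i) = P
  have h1 : 0 ≤ Q * R * (u * (1 - u) * (x0 - x1) ^ 2) := by
    have a1 : 0 ≤ 1 - u := by linarith
    positivity
  nlinarith [h1]

theorem convT (D : Dat) (up lo : List ℕ) (hlu : ∀ i < 9, lo.getD i 0 ≤ up.getD i 0) (X j : ℕ) {x0 x1 c0 c1 u v : ℝ}
    (h0 : 0 ≤ x0) (h1 : 0 ≤ x1) (hu0 : 0 ≤ u) (hu1 : u ≤ 1) (hv0 : 0 ≤ v) (hv1 : v ≤ 1) :
    VV up lo (tailR D ((1 - u) * x0 + u * x1))
        (fun i => FT D X i j ((1 - u) * x0 + u * x1) ((1 - v) * c0 + v * c1)) ≤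
      (1 - u) * ((1 - v) * max 0 (VV up lo (tailR D x0) (fun i => FT D X i j x0 c0)) +
          v * max 0 (VV up lo (tailR D x0) (fun i => FT D X i j x0 c1))) +
        u * ((1 - v) * max 0 (VV up lo (tailR D x1) (fun i => FT D X i j x1 c0)) +
          v * max 0 (VV up lo (tailR D x1) (fun i => FT D X i j x1 c1))) := by
  have a1 : 0 ≤ 1 - u := by linarith
  have a2 : 0 ≤ 1 - v := by linarith
  have ht := tail_cv D h0 h1 hu0 hu1
  have key := vv_cv up lo hlu (t := tailR D ((1 - u) * x0 + u * x1)) (t1 := tailR D x0)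
    (t2 := tailR D x0) (t3 := tailR D x1) (t4 := tailR D x1)
    (mul_nonneg a1 a2) (mul_nonneg a1 hv0) (mul_nonneg hu0 a2) (mul_nonneg hu0 hv0)
    (by nlinarith) (fun i => FT_cv D X i j (x0 := x0) (x1 := x1) (c0 := c0) (c1 := c1) (v := v)
      hu0 hu1)
  refine key.trans ?_
  have b1 := mul_le_mul_of_nonneg_left
    (le_max_right 0 (VV up lo (tailR D x0) (fun i => FT D X i j x0 c0))) (mul_nonneg a1 a2)
  have b2 := mul_le_mul_of_nonneg_left
    (le_max_right 0 (VV up lo (tailR D x0) (fun i => FT D X i j x0 c1))) (mul_nonneg a1 hv0)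
  have b3 := mul_le_mul_of_nonneg_left
    (le_max_right 0 (VV up lo (tailR D x1) (fun i => FT D X i j x1 c0))) (mul_nonneg hu0 a2)
  have b4 := mul_le_mul_of_nonneg_left
    (le_max_right 0 (VV up lo (tailR D x1) (fun i => FT D X i j x1 c1))) (mul_nonneg hu0 hv0)
  linarith

theorem convL (D : Dat) (up lo : List ℕ) (hlu : ∀ i < 9, lo.getD i 0 ≤ up.getD i 0) (k : ℕ) {x0 x1 u : ℝ}
    (h0 : 0 ≤ x0) (h1 : 0 ≤ x1) (hu0 : 0 ≤ u) (hu1 : u ≤ 1) :
    VV up lo (tailR D ((1 - u) * x0 + u * x1)) (fun i => FL D k i ((1 - u) * x0 + u * x1)) ≤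
      (1 - u) * VV up lo (tailR D x0) (fun i => FL D k i x0) + u * VV up lo (tailR D x1) (fun i => FL D k i x1) := by
  have a1 : 0 ≤ 1 - u := by linarith
  have ht := tail_cv D h0 h1 hu0 hu1
  have key := vv_cv up lo hlu (t := tailR D ((1 - u) * x0 + u * x1)) (t1 := tailR D x0)
    (t2 := tailR D x1) (t3 := 0) (t4 := 0) (w3 := 0) (w4 := 0)
    (F := fun i => FL D k i ((1 - u) * x0 + u * x1)) (F1 := fun i => FL D k i x0)
    (F2 := fun i => FL D k i x1) (F3 := fun i => 0) (F4 := fun i => 0)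
    a1 hu0 le_rfl le_rfl (by linarith) (fun i => by
      unfold FL
      apply le_of_eq
      ring)
  linarith

end Pool.Agent.MinMod
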