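import Mathlib

/-!
LogU: an upper bound for `64 - log (R / 2^64)` in integers (scale `2^60`).

PROOF.
* `log_ratio`: with `u = 1 / (2 k + 1)`, `log ((k+1)/k) = log ((1+u)/(1-u)) = 2 (u + u^3/3 + u^5/5 + ...)`
  (`Real.hasSum_log_sub_log_of_abs_lt_one`); lower bound: the first three terms; upper bound: the tail is at most
  `2 u^7 / (7 (1 - u^2))`.
* `tabLog_le`: by induction on `i ≤ 64` from the lower bound and the decided inequality
  `(tabLog[i+1] - tabLog[i]) * 15 q^5 ≤ 2^61 (15 q^4 + 5 q^2 + 3)`, `q = 2 (64 + i) + 1` (`u = 1/q`).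
* `L2L ≤ 2^60 log 2` is `tabLog_le` for `i = 64`; `2^60 log 2 ≤ L2U` by summing the upper bounds (`decide`).
* `Uu_spec`: `n = log2 R`, `2^n ≤ R < 2^(n+1)`; `m = ⌊R 2^60 / 2^n⌋ ∈ [2^60, 2^61)`, `i = m / 2^54 - 64 < 64`,
  `mi = (64 + i) 2^54 ≤ m`, `δ = (m - mi)/mi ≥ s / 2^60`, `0 ≤ δ ≤ 1/64`.  `R / 2^64 ≥ m / 2^60 * 2^(n - 64)`, so
  `log (R / 2^64) ≥ log (m / 2^60) + (n - 64) log 2`, `log (m / 2^60) = log (1 + i/64) + log (1 + δ)` and
  `log (1 + δ) ≥ log (1 + s') ≥ s' - s'^2/2 + s'^3/3 - s'^4/4`, `s' = s / 2^60` (for `s' ≥ 0`; derivative of the difference is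
  `s'^4 / (1 + s')`), and `p / 2^60` is at most this (a floor).  For the truncated subtraction use `(a - b : ℕ) ≥ a - b` in `ℝ`.
-/

namespace Pool.Agent.MinMod

/-- Lower bounds of `log (1 + i / 64)`, scale `2^60`. -/
def tabLog : List ℕ := [0, 17875110068749725, 35477307009320933, 52814799206539782, 69895430200823235,
  86726699994911789, 103315784827579028, 119669555544804071, 135794594686116353, 151697212392455642,
  167383461231760952, 182859150029460689, 198129856782953157, 213200940731928775, 228077553649894809,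
  242764650416434393, 257266998924489267, 271589189372234309, 285735642984854125, 299710620207687056,
  313518228408725470, 327162429125313905, 340647044887033826, 353975765644174821, 367152154828839888,
  380179655073592886, 393061593610607951, 405801187372504632, 418401547814431742, 430865685475482371,
  443196514296168622, 455396855707445384, 467469442505637042, 479416922526579703, 491241862131335704,
  502946749514958934, 514533997848981928, 526005948267552380, 537364872706462012, 548612976603679471,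
  559752401469416462, 570785227333218436, 581713475075074079, 592539108647078098, 603264037191756278,
  613890117062767627, 624419153753333075, 634852903737401303, 645193076228247683, 655441334858910106,
  665599299288593859, 675668546738925088, 685650613463697225, 695546996155535803, 705359153292702972,
  715088506429072753, 724736441430130505, 734304309657684302, 743793429105821065, 753205085490495568,
  762540533295005043, 771800996773475478, 780987670914367085, 790101722365895330, 799144290325159807]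

/-- Lower bound of `log 2`, scale `2^60`. -/
def L2L : ℕ := 799144290325159807

/-- Upper bound of `log 2`, scale `2^60`. -/
def L2U : ℕ := 799144290325166013

/-- The upper bound of `(64 - log (R / 2^64)) * 2^60`. -/
def Uu (R : ℕ) : ℕ :=
  let n := Nat.log2 R
  let m := Nat.shiftRight (Nat.mul R (Nat.pow 2 60)) n
  let i := Nat.sub (Nat.shiftRight m 54) 64
  let mi := Nat.mul (Nat.add 64 i) (Nat.pow 2 54)
  let s := Nat.div (Nat.mul (Nat.sub m mi) (Nat.pow 2 60)) mi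
  let p := Nat.div (Nat.sub (Nat.add (Nat.mul (Nat.mul 12 (Nat.pow 2 180)) s) (Nat.mul (Nat.mul 4 (Nat.pow 2 60)) (Nat.pow s 3)))
    (Nat.add (Nat.mul (Nat.mul 6 (Nat.pow 2 120)) (Nat.pow s 2)) (Nat.mul 3 (Nat.pow s 4)))) (Nat.mul 12 (Nat.pow 2 180))
  let ln := Nat.add (tabLog.getD i 0) p
  bif Nat.ble n 64 then Nat.sub (Nat.add (Nat.mul 64 (Nat.pow 2 60)) (Nat.mul (Nat.sub 64 n) L2U)) ln
  else Nat.sub (Nat.sub (Nat.mul 64 (Nat.pow 2 60)) (Nat.mul (Nat.sub n 64) L2L)) ln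

/-- three terms of the series for `log ((k+1)/k)` -/
theorem log_ratio_ge {a : ℝ} (ha : 0 < a) :
    2 * (1 / (2 * a + 1)) + 2 / 3 * (1 / (2 * a + 1)) ^ 3 + 2 / 5 * (1 / (2 * a + 1)) ^ 5 ≤
      Real.log (1 + a⁻¹) := by
  have h := Real.hasSum_log_one_add_inv ha
  have h2 := sum_le_hasSum (Finset.range 3) (fun k _ => by positivity) h
  simp only [Finset.sum_range_succ, Finset.sum_range_zero] at h2
  norm_num at h2 ⊢
  linarith

theorem tab_step : ∀ i < 64, 15 * (129 + 2 * i) ^ 5 * tabLog.getD (i + 1) 0 ≤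
    15 * (129 + 2 * i) ^ 5 * tabLog.getD i 0 +
      2 ^ 61 * (15 * (129 + 2 * i) ^ 4 + 5 * (129 + 2 * i) ^ 2 + 3) := by
  decide +kernel

theorem tabLog_le (i : ℕ) (hi : i ≤ 64) : (tabLog.getD i 0 : ℝ) ≤ 2 ^ 60 * Real.log (1 + (i : ℝ) / 64) := by
  induction i with
  | zero => simp [tabLog]
  | succ i ih =>
    have h1 := ih (by omega)
    have h2 := tab_step i (by omega)
    have h3 : (15 * (129 + 2 * (i : ℝ)) ^ 5 * (tabLog.getD (i + 1) 0 : ℝ)) ≤
        15 * (129 + 2 * (i : ℝ)) ^ 5 * (tabLog.getD i 0 : ℝ) +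
          2 ^ 61 * (15 * (129 + 2 * (i : ℝ)) ^ 4 + 5 * (129 + 2 * (i : ℝ)) ^ 2 + 3) := by
      exact_mod_cast h2
    have ha : (0 : ℝ) < 64 + i := by positivity
    have h4 := log_ratio_ge ha
    have h5 : Real.log (1 + (((i + 1 : ℕ) : ℝ)) / 64) =
        Real.log (1 + (i : ℝ) / 64) + Real.log (1 + (64 + (i : ℝ))⁻¹) := by
      rw [← Real.log_mul (by positivity) (by positivity)]
      congr 1
      push_cast
      field_simp
      ring
    rw [h5]
    have hq : (0 : ℝ) < 129 + 2 * (i : ℝ) := by positivity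
    have e1 : (1 : ℝ) / (2 * (64 + i) + 1) = 1 / (129 + 2 * i) := by
      congr 1
      ring
    rw [e1] at h4
    have h6 : 2 ^ 60 * (2 * (1 / (129 + 2 * (i : ℝ))) + 2 / 3 * (1 / (129 + 2 * (i : ℝ))) ^ 3 +
        2 / 5 * (1 / (129 + 2 * (i : ℝ))) ^ 5) =
        2 ^ 61 * (15 * (129 + 2 * (i : ℝ)) ^ 4 + 5 * (129 + 2 * (i : ℝ)) ^ 2 + 3) /
          (15 * (129 + 2 * (i : ℝ)) ^ 5) := by
      field_simp
      ring
    have h7 : (tabLog.getD (i + 1) 0 : ℝ) ≤ (tabLog.getD i 0 : ℝ) +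
        2 ^ 61 * (15 * (129 + 2 * (i : ℝ)) ^ 4 + 5 * (129 + 2 * (i : ℝ)) ^ 2 + 3) /
          (15 * (129 + 2 * (i : ℝ)) ^ 5) := by
      rw [← sub_le_iff_le_add', le_div_iff₀ (by positivity)]
      linarith
    rw [← h6] at h7
    have h8 := mul_le_mul_of_nonneg_left h4 (by positivity : (0 : ℝ) ≤ 2 ^ 60)
    linarith

theorem L2_bounds : (L2L : ℝ) ≤ 2 ^ 60 * Real.log 2 ∧ 2 ^ 60 * Real.log 2 ≤ (L2U : ℝ) := by
  constructor
  · have h := tabLog_le 64 le_rfl
    have h1 : tabLog.getD 64 0 = L2L := by decide +kernel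
    rw [h1] at h
    norm_num at h ⊢
    exact h
  · have t : |(2⁻¹ : ℝ)| = 2⁻¹ := by rw [abs_of_pos]; norm_num
    have z := Real.abs_log_sub_add_sum_range_le (show |(2⁻¹ : ℝ)| < 1 by rw [t]; norm_num) 62
    rw [t] at z
    have e : (1 : ℝ) - 2⁻¹ = 2⁻¹ := by norm_num
    rw [e, Real.log_inv] at z
    have z2 := (abs_le.1 z).1
    simp only [Finset.sum_range_succ, Finset.sum_range_zero] at z2
    have hU : (L2U : ℝ) = 799144290325166013 := by norm_num [L2U]
    rw [hU]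
    norm_num at z2 ⊢
    linarith

theorem log_poly {x : ℝ} (hx : 0 ≤ x) :
    x - x ^ 2 / 2 + x ^ 3 / 3 - x ^ 4 / 4 ≤ Real.log (1 + x) := by
  have hd : ∀ y : ℝ, 0 ≤ y → HasDerivAt
      (fun x : ℝ => Real.log (1 + x) - (x - x ^ 2 / 2 + x ^ 3 / 3 - x ^ 4 / 4))
      (y ^ 4 / (1 + y)) y := by
    intro y hy
    have h1 : HasDerivAt (fun x : ℝ => Real.log (1 + x)) (1 / (1 + y)) y := by
      have := ((hasDerivAt_id y).const_add 1).log (by simp; positivity)
      simpa using this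
    have h2 : HasDerivAt (fun x : ℝ => x - x ^ 2 / 2 + x ^ 3 / 3 - x ^ 4 / 4)
        (1 - (2 * y) / 2 + (3 * y ^ 2) / 3 - (4 * y ^ 3) / 4) y := by
      have a1 := hasDerivAt_id y
      have a2 := (hasDerivAt_pow 2 y).div_const 2
      have a3 := (hasDerivAt_pow 3 y).div_const 3
      have a4 := (hasDerivAt_pow 4 y).div_const 4
      have := ((a1.sub a2).add a3).sub a4
      have e : (id - (fun x : ℝ => x ^ 2 / 2) + fun x => x ^ 3 / 3) - (fun x => x ^ 4 / 4) =
        fun x : ℝ => x - x ^ 2 / 2 + x ^ 3 / 3 - x ^ 4 / 4 := rfl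
      rw [e] at this
      exact this.congr_deriv (by norm_num)
    have h3 := h1.sub h2
    have h4 : (1 : ℝ) / (1 + y) - (1 - (2 * y) / 2 + (3 * y ^ 2) / 3 - (4 * y ^ 3) / 4) =
        y ^ 4 / (1 + y) := by
      field_simp
      ring
    rw [h4] at h3
    exact h3
  have hm : MonotoneOn
      (fun x : ℝ => Real.log (1 + x) - (x - x ^ 2 / 2 + x ^ 3 / 3 - x ^ 4 / 4)) (Set.Ici 0) := by
    apply monotoneOn_of_deriv_nonneg (convex_Ici 0)
    · intro y hy
      exact (hd y hy).continuousAt.continuousWithinAt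
    · intro y hy
      rw [interior_Ici] at hy
      exact (hd y (le_of_lt hy)).differentiableAt.differentiableWithinAt
    · intro y hy
      rw [interior_Ici] at hy
      have hy' : 0 < y := hy
      rw [(hd y hy'.le).deriv]
      positivity
  have := hm (Set.mem_Ici.2 le_rfl) (Set.mem_Ici.2 hx) hx
  simp at this
  linarith

theorem cast_sub_ge (a b : ℕ) : (a : ℝ) - b ≤ ((a - b : ℕ) : ℝ) := by
  have h : a ≤ (a - b) + b := le_tsub_add
  have h2 : (a : ℝ) ≤ ((a - b : ℕ) : ℝ) + b := by exact_mod_cast h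
  linarith

theorem p_le (s : ℕ) : ((((12 * 2 ^ 180 * s + 4 * 2 ^ 60 * s ^ 3) - (6 * 2 ^ 120 * s ^ 2 + 3 * s ^ 4)) /
    (12 * 2 ^ 180) : ℕ) : ℝ) ≤ 2 ^ 60 * Real.log (1 + (s : ℝ) / 2 ^ 60) := by
  have hlog := log_poly (show (0 : ℝ) ≤ (s : ℝ) / 2 ^ 60 by positivity)
  have h0 : 0 ≤ Real.log (1 + (s : ℝ) / 2 ^ 60) := Real.log_nonneg (by
    have : (0 : ℝ) ≤ (s : ℝ) / 2 ^ 60 := by positivity
    linarith)
  by_cases hab : 6 * 2 ^ 120 * s ^ 2 + 3 * s ^ 4 ≤ 12 * 2 ^ 180 * s + 4 * 2 ^ 60 * s ^ 3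
  · refine le_trans Nat.cast_div_le ?_
    rw [Nat.cast_sub hab]
    push_cast
    have h1 := mul_le_mul_of_nonneg_left hlog (by positivity : (0 : ℝ) ≤ 2 ^ 60)
    refine le_trans (le_of_eq ?_) h1
    ring
  · rw [Nat.sub_eq_zero_of_le (by omega)]
    simp
    positivity

theorem Uu_spec (R : ℕ) (h0 : 0 < R) : (64 - Real.log ((R : ℝ) / 2 ^ 64)) * 2 ^ 60 ≤ (Uu R : ℝ) := by
  obtain ⟨n, hn⟩ : ∃ n, n = Nat.log2 R := ⟨_, rfl⟩
  obtain ⟨m, hm⟩ : ∃ m, m = (R * 2 ^ 60) >>> n := ⟨_, rfl⟩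
  obtain ⟨i, hi⟩ : ∃ i, i = (m >>> 54) - 64 := ⟨_, rfl⟩
  obtain ⟨mi, hmi⟩ : ∃ mi, mi = (64 + i) * 2 ^ 54 := ⟨_, rfl⟩
  obtain ⟨s, hs⟩ : ∃ s, s = ((m - mi) * 2 ^ 60) / mi := ⟨_, rfl⟩
  obtain ⟨p, hp⟩ : ∃ p, p = ((12 * 2 ^ 180 * s + 4 * 2 ^ 60 * s ^ 3) -
    (6 * 2 ^ 120 * s ^ 2 + 3 * s ^ 4)) / (12 * 2 ^ 180) := ⟨_, rfl⟩
  have hU : Uu R = bif Nat.ble n 64 then (64 * 2 ^ 60 + (64 - n) * L2U) - (tabLog.getD i 0 + p)
      else (64 * 2 ^ 60 - (n - 64) * L2L) - (tabLog.getD i 0 + p) := by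
    subst hp hs hmi hi hm hn
    rfl
  have hR1 : 2 ^ n ≤ R := by rw [hn]; exact Nat.log2_self_le h0.ne'
  have hR2 : R < 2 ^ (n + 1) := by rw [hn]; exact Nat.lt_log2_self
  have hm' : m = R * 2 ^ 60 / 2 ^ n := by rw [hm, Nat.shiftRight_eq_div_pow]
  have hpn : 0 < 2 ^ n := by positivity
  have hm1 : 2 ^ 60 ≤ m := by
    rw [hm', Nat.le_div_iff_mul_le hpn]
    calc 2 ^ 60 * 2 ^ n ≤ 2 ^ 60 * R := Nat.mul_le_mul_left _ hR1
      _ = R * 2 ^ 60 := by ring
  have hm2 : m < 2 ^ 61 := by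
    rw [hm', Nat.div_lt_iff_lt_mul hpn]
    calc R * 2 ^ 60 < 2 ^ (n + 1) * 2 ^ 60 := Nat.mul_lt_mul_of_pos_right hR2 (by positivity)
      _ = 2 ^ 61 * 2 ^ n := by ring
  have hm3 : m * 2 ^ n ≤ R * 2 ^ 60 := by
    rw [hm']
    exact Nat.div_mul_le_self _ _
  have hi' : i = m / 2 ^ 54 - 64 := by rw [hi, Nat.shiftRight_eq_div_pow]
  have hi1 : i < 64 := by
    rw [hi']
    omega
  have hmi' : mi ≤ m := by
    rw [hmi, hi']
    omega
  have hmi0 : 2 ^ 60 ≤ mi := by
    rw [hmi]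
    omega
  have hMi : (0 : ℝ) < mi := by
    have : (0 : ℕ) < mi := by omega
    exact_mod_cast this
  have hM : (0 : ℝ) < m := by
    have : (0 : ℕ) < m := by omega
    exact_mod_cast this
  have hRp : (0 : ℝ) < R := by exact_mod_cast h0
  have hs1 : (s : ℝ) / 2 ^ 60 ≤ (m : ℝ) / mi - 1 := by
    have h1 : (s : ℝ) ≤ (((m - mi) * 2 ^ 60 : ℕ) : ℝ) / mi := by
      rw [hs]
      exact Nat.cast_div_le
    rw [Nat.cast_mul, Nat.cast_sub hmi'] at h1
    push_cast at h1
    rw [div_le_iff₀ (by positivity)]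
    refine le_trans h1 (le_of_eq ?_)
    field_simp
    norm_num
  have hlogs : Real.log (1 + (s : ℝ) / 2 ^ 60) ≤ Real.log ((m : ℝ) / mi) := by
    apply Real.log_le_log
    · positivity
    · linarith
  have hp1 : (p : ℝ) ≤ 2 ^ 60 * Real.log (1 + (s : ℝ) / 2 ^ 60) := by
    rw [hp]
    exact p_le s
  have ht := tabLog_le i hi1.le
  have hsplit : Real.log ((m : ℝ) / 2 ^ 60) =
      Real.log (1 + (i : ℝ) / 64) + Real.log ((m : ℝ) / mi) := by
    rw [← Real.log_mul (by positivity) (by positivity)]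
    congr 1
    rw [hmi] at hMi ⊢
    push_cast at hMi ⊢
    field_simp
    ring
  have hln : ((tabLog.getD i 0 + p : ℕ) : ℝ) ≤ 2 ^ 60 * Real.log ((m : ℝ) / 2 ^ 60) := by
    rw [hsplit]
    push_cast
    have h1 := mul_le_mul_of_nonneg_left hlogs (by positivity : (0 : ℝ) ≤ 2 ^ 60)
    linarith
  have hRm : Real.log ((m : ℝ) / 2 ^ 60) + ((n : ℝ) - 64) * Real.log 2 ≤
      Real.log ((R : ℝ) / 2 ^ 64) := by
    have h1 : (m : ℝ) * 2 ^ n ≤ (R : ℝ) * 2 ^ 60 := by exact_mod_cast hm3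
    have h2 := Real.log_le_log (by positivity) h1
    rw [Real.log_mul (by positivity) (by positivity), Real.log_mul (by positivity) (by positivity),
      Real.log_pow, Real.log_pow] at h2
    rw [Real.log_div (by positivity) (by positivity), Real.log_div (by positivity) (by positivity),
      Real.log_pow, Real.log_pow]
    push_cast at h2 ⊢
    linarith
  obtain ⟨hL, hLU⟩ := L2_bounds
  rw [hU]
  cases hb : Nat.ble n 64
  · have hn64 : 64 < n := by
      by_contra hcon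
      rw [Nat.ble_eq_true_of_le (by omega)] at hb
      exact Bool.noConfusion hb
    simp only [cond_false]
    have c1 := cast_sub_ge (64 * 2 ^ 60 - (n - 64) * L2L) (tabLog.getD i 0 + p)
    have c2 := cast_sub_ge (64 * 2 ^ 60) ((n - 64) * L2L)
    rw [Nat.cast_mul (n - 64) L2L, Nat.cast_sub hn64.le] at c2
    have hn0 : (0 : ℝ) ≤ (n : ℝ) - 64 := by
      have : (64 : ℝ) < n := by exact_mod_cast hn64
      linarith
    have h3 := mul_le_mul_of_nonneg_left hL hn0
    push_cast at c1 c2 hln h3 ⊢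
    nlinarith
  · have hn64 : n ≤ 64 := Nat.le_of_ble_eq_true hb
    simp only [cond_true]
    have c1 := cast_sub_ge (64 * 2 ^ 60 + (64 - n) * L2U) (tabLog.getD i 0 + p)
    have hn0 : (0 : ℝ) ≤ 64 - (n : ℝ) := by
      have : (n : ℝ) ≤ 64 := by exact_mod_cast hn64
      linarith
    have h3 := mul_le_mul_of_nonneg_left hLU hn0
    rw [Nat.cast_add, Nat.cast_mul (64 - n) L2U, Nat.cast_sub hn64] at c1
    push_cast at c1 hln h3 ⊢
    nlinarith

end Pool.Agent.MinMod
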