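import Pool.Agent.MinMod.Sem
import Pool.Agent.MinMod.LogU

/-!
NumTab: properties of the tables, by kernel evaluation.

INTEGER CHECKS
* `tabR`, `tabA` have 478 entries `< 2^(112*24)` with digits `R < 2^72`, `A < 2^55`; `tabL` has 480 entries `< 2^(112*4)` with digits `< 2^55`.
* `nodeT`: for the digits `R`, `A`: `0 < R` and `16 * Uu R + R ≤ 65 * 2^64 + A * 2^17`.  By `Uu_spec`
  `(64 - log r) 2^60 ≤ Uu R`, `r = R / 2^64`; dividing by `2^64`: `64 - log r + r ≤ 65 + 2 a`.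
* `nodeL`, even `i`, digits `d0`, `d1`: for `336 ≤ idx`: `d1 < 65 * 2^48`, `R = (65 * 2^48 - d1) * 2^16`; for `idx < 336`: `65 * 2^48 < d1`,
  `R = (d1 - 65 * 2^48) * 2^16`; in both cases `Uu R + 64 * 2^60 ≤ (d0 + d1) * 2^12`.
* `nodeL`, odd `i`, digits `d2`, `d3`: `63 * 2^48 < d3`, `R = (d3 - 63 * 2^48) * 2^16`, `Uu R + d3 * 2^12 ≤ d2 * 2^12 + 64 * 2^60`.
-/

namespace Pool.Agent.MinMod

set_option maxRecDepth 1000000 in
theorem tab_len : tabR.length = 478 ∧ tabA.length = 478 ∧ tabL.length = 480 ∧ tabY.length = 49 ∧ tabB.length = 48 := by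
  decide +kernel

/-- From a check on all entries of a list to a single entry. -/
private theorem all_getD {L : List ℕ} {f : ℕ → Bool} (h : L.all f = true) (idx : ℕ) (hi : idx < L.length) :
    f (L.getD idx 0) = true := by
  rw [List.getD_eq_getElem _ _ hi]
  exact List.all_eq_true.mp h _ (List.getElem_mem hi)

/-- The size check of one entry. -/
private def szc (m b n : ℕ) : Bool :=
  and (Nat.blt n (Nat.pow 2 (Nat.mul 112 m))) ((List.range m).all (fun j => Nat.blt (dg n j) (Nat.pow 2 b)))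

private theorem szc_spec {m b n : ℕ} (h : szc m b n = true) : n < 2 ^ (112 * m) ∧ ∀ j < m, dg n j < 2 ^ b := by
  unfold szc at h
  rw [Bool.and_eq_true] at h
  refine ⟨?_, ?_⟩
  · have := h.1
    simpa [Nat.blt_eq] using this
  · intro j hj
    have := List.all_eq_true.mp h.2 j (List.mem_range.mpr hj)
    simpa [Nat.blt_eq] using this

set_option maxRecDepth 1000000 in
private theorem chkR : tabR.all (szc 24 72) = true := by decide +kernel

set_option maxRecDepth 1000000 in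
private theorem chkA : tabA.all (szc 24 55) = true := by decide +kernel

set_option maxRecDepth 1000000 in
private theorem chkL : tabL.all (szc 4 55) = true := by decide +kernel

theorem tabR_lt (idx : ℕ) (h : idx < 478) :
    tabR.getD idx 0 < 2 ^ (112 * 24) ∧ ∀ j < 24, dg (tabR.getD idx 0) j < 2 ^ 72 :=
  szc_spec (all_getD chkR idx (by rw [tab_len.1]; exact h))

theorem tabA_lt (idx : ℕ) (h : idx < 478) :
    tabA.getD idx 0 < 2 ^ (112 * 24) ∧ ∀ j < 24, dg (tabA.getD idx 0) j < 2 ^ 55 :=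
  szc_spec (all_getD chkA idx (by rw [tab_len.2.1]; exact h))

theorem tabL_lt (idx : ℕ) (h : idx < 480) :
    tabL.getD idx 0 < 2 ^ (112 * 4) ∧ ∀ j < 4, dg (tabL.getD idx 0) j < 2 ^ 55 :=
  szc_spec (all_getD chkL idx (by rw [tab_len.2.2.1]; exact h))

/-- The check of a pair of digits. -/
private def ndc (R A : ℕ) : Bool :=
  and (Nat.blt 0 R) (Nat.ble (Nat.add (Nat.mul 16 (Uu R)) R)
    (Nat.add (Nat.mul 65 (Nat.pow 2 64)) (Nat.mul A (Nat.pow 2 17))))

/-- The check for two lists in parallel. -/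
private def ndAll (L : List ℕ) (L' : List ℕ) : Bool :=
  List.rec (motive := fun _ => List ℕ → Bool) (fun _ => true)
    (fun a _ ih L' => and ((List.range 24).all (fun j => ndc (dg a j) (dg (List.headD L' 0) j)))
      (ih (List.tail L'))) L L'

private theorem ndAll_cons (a : ℕ) (L L' : List ℕ) : ndAll (a :: L) L' =
    ((List.range 24).all (fun j => ndc (dg a j) (dg (List.headD L' 0) j)) && ndAll L L'.tail) := rfl

private theorem ndAll_spec (L : List ℕ) : ∀ L' : List ℕ, ndAll L L' = true → ∀ idx < L.length, ∀ j < 24,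
    ndc (dg (L.getD idx 0) j) (dg (L'.getD idx 0) j) = true := by
  induction L with
  | nil => intro L' _ idx hidx; simp at hidx
  | cons a L ih =>
    intro L' h idx hidx j hj
    rw [ndAll_cons, Bool.and_eq_true] at h
    rcases idx with _ | idx
    · have := List.all_eq_true.mp h.1 j (List.mem_range.mpr hj)
      cases L' with
      | nil => simpa using this
      | cons b L' => simpa using this
    · have := ih L'.tail h.2 idx (by simpa using hidx) j hj
      cases L' with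
      | nil => simpa using this
      | cons b L' => simpa using this

set_option maxRecDepth 1000000 in
private theorem chkT : ndAll tabR tabA = true := by decide +kernel

theorem nodeT (idx j : ℕ) (h : idx < 478) (hj : j < 24) :
    0 < rR idx j ∧ -Real.log (rR idx j) ≤ 2 * aR idx j + 1 - rR idx j := by
  have h1 := ndAll_spec tabR tabA chkT idx (by rw [tab_len.1]; exact h) j hj
  unfold rR aR
  set R := dg (tabR.getD idx 0) j with hR
  set A := dg (tabA.getD idx 0) j with hA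
  unfold ndc at h1
  rw [Bool.and_eq_true] at h1
  have h2 : 0 < R := by simpa [Nat.blt_eq] using h1.1
  have h3 : 16 * Uu R + R ≤ 65 * 2 ^ 64 + A * 2 ^ 17 := by
    have := h1.2
    rw [Nat.ble_eq] at this
    exact this
  have h4 := Uu_spec R h2
  have h5 : (16 : ℝ) * (Uu R : ℝ) + R ≤ 65 * 2 ^ 64 + A * 2 ^ 17 := by exact_mod_cast h3
  refine ⟨by positivity, ?_⟩
  set l := Real.log ((R : ℝ) / 2 ^ 64)
  have h6 : (R : ℝ) / 2 ^ 64 = (R : ℝ) * (1 / 2 ^ 64) := by ring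
  have h7 : 2 * ((A : ℝ) / 2 ^ 48) = (A * 2 ^ 17) * (1 / 2 ^ 64) := by norm_num; ring
  rw [h6, h7]
  have h8 : (16 * ((64 - l) * 2 ^ 60) + R) * (1 / 2 ^ 64) ≤ (65 * 2 ^ 64 + A * 2 ^ 17) * (1 / 2 ^ 64 : ℝ) := by
    apply mul_le_mul_of_nonneg_right _ (by positivity)
    linarith
  norm_num at h8 ⊢
  linarith

private theorem cast_sub16 (a b : ℕ) (h : b ≤ a) : (((a - b) * 2 ^ 16 : ℕ) : ℝ) / 2 ^ 64 = ((a : ℝ) - b) / 2 ^ 48 := by
  rw [Nat.cast_mul, Nat.cast_sub h, Nat.cast_pow]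
  push_cast
  rw [div_eq_div_iff (by positivity) (by positivity)]
  ring

/-- The check of an entry of the axis table, outer part. -/
private def loc (n : ℕ) : Bool :=
  and (Nat.blt (dg n 1) (Nat.mul 65 (Nat.pow 2 48)))
    (Nat.ble (Nat.add (Uu (Nat.mul (Nat.sub (Nat.mul 65 (Nat.pow 2 48)) (dg n 1)) (Nat.pow 2 16))) (Nat.mul 64 (Nat.pow 2 60)))
      (Nat.mul (Nat.add (dg n 0) (dg n 1)) (Nat.pow 2 12)))

/-- The check of an entry of the axis table, inner part. -/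
private def lic (n : ℕ) : Bool :=
  and (Nat.blt (Nat.mul 65 (Nat.pow 2 48)) (dg n 1))
    (Nat.ble (Nat.add (Uu (Nat.mul (Nat.sub (dg n 1) (Nat.mul 65 (Nat.pow 2 48))) (Nat.pow 2 16))) (Nat.mul 64 (Nat.pow 2 60)))
      (Nat.mul (Nat.add (dg n 0) (dg n 1)) (Nat.pow 2 12)))

/-- The check of an entry of the axis table, odd half periods. -/
private def ldc (n : ℕ) : Bool :=
  and (Nat.blt (Nat.mul 63 (Nat.pow 2 48)) (dg n 3))
    (Nat.ble (Nat.add (Uu (Nat.mul (Nat.sub (dg n 3) (Nat.mul 63 (Nat.pow 2 48))) (Nat.pow 2 16))) (Nat.mul (dg n 3) (Nat.pow 2 12)))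
      (Nat.add (Nat.mul (dg n 2) (Nat.pow 2 12)) (Nat.mul 64 (Nat.pow 2 60))))

set_option maxRecDepth 1000000 in
private theorem chkO : (tabL.drop 336).all loc = true := by decide +kernel

set_option maxRecDepth 1000000 in
private theorem chkI : (tabL.take 336).all lic = true := by decide +kernel

set_option maxRecDepth 1000000 in
private theorem chkD : tabL.all ldc = true := by decide +kernel

theorem nodeL_out (idx i : ℕ) (h : idx < 480) (hi : i % 2 = 0) (h2 : 336 ≤ idx) :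
    0 < 1 - slR idx i ∧ -Real.log (1 - slR idx i) ≤ alR idx i + slR idx i := by
  have h1 : loc (tabL.getD idx 0) = true := by
    have := all_getD chkO (idx - 336) (by rw [List.length_drop, tab_len.2.2.1]; omega)
    rw [List.getD_eq_getElem _ _ (by rw [List.length_drop, tab_len.2.2.1]; omega), List.getElem_drop] at this
    rw [List.getD_eq_getElem _ _ (by rw [tab_len.2.2.1]; omega)]
    convert this using 3
    omega
  have hi' : ¬ (i % 2 = 1) := by omega
  unfold slR alR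
  rw [if_neg hi', if_neg hi']
  set n := tabL.getD idx 0
  set d0 := dg n 0
  set d1 := dg n 1
  unfold loc at h1
  rw [Bool.and_eq_true] at h1
  have h3 : d1 < 65 * 2 ^ 48 := by
    have := h1.1
    rw [Nat.blt_eq] at this
    exact this
  have h4 : Uu ((65 * 2 ^ 48 - d1) * 2 ^ 16) + 64 * 2 ^ 60 ≤ (d0 + d1) * 2 ^ 12 := by
    have := h1.2
    rw [Nat.ble_eq] at this
    exact this
  have h5 := Uu_spec ((65 * 2 ^ 48 - d1) * 2 ^ 16) (Nat.mul_pos (Nat.sub_pos_of_lt h3) (Nat.two_pow_pos 16))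
  set U := Uu ((65 * 2 ^ 48 - d1) * 2 ^ 16)
  have h6 : (((65 * 2 ^ 48 - d1) * 2 ^ 16 : ℕ) : ℝ) / 2 ^ 64 = 1 - ((d1 : ℝ) / 2 ^ 48 - 64) := by
    rw [cast_sub16 _ _ h3.le, Nat.cast_mul, Nat.cast_pow]
    push_cast
    ring
  rw [h6] at h5
  have h7 : (U : ℝ) + 64 * 2 ^ 60 ≤ (d0 + d1) * 2 ^ 12 := by exact_mod_cast h4
  have h8 : (d1 : ℝ) < 65 * 2 ^ 48 := by exact_mod_cast h3
  set l := Real.log (1 - ((d1 : ℝ) / 2 ^ 48 - 64))
  refine ⟨?_, ?_⟩
  · have : (d1 : ℝ) / 2 ^ 48 < 65 := by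
      rw [div_lt_iff₀ (by positivity)]
      exact h8
    linarith
  · have h9 : (d0 : ℝ) / 2 ^ 48 - 64 + ((d1 : ℝ) / 2 ^ 48 - 64) = ((d0 + d1) * 2 ^ 12) * (1 / 2 ^ 60) - 128 := by
      field_simp
      ring
    rw [h9]
    have h10 : ((64 - l) * 2 ^ 60 + 64 * 2 ^ 60) * (1 / 2 ^ 60) ≤ ((d0 + d1) * 2 ^ 12) * (1 / 2 ^ 60 : ℝ) := by
      apply mul_le_mul_of_nonneg_right _ (by positivity)
      linarith
    have h11 : ((64 - l) * 2 ^ 60 + 64 * 2 ^ 60) * (1 / 2 ^ 60) = 128 - l := by ring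
    rw [h11] at h10
    linarith

theorem nodeL_in (idx i : ℕ) (hi : i % 2 = 0) (h2 : idx < 336) :
    0 < slR idx i - 1 ∧ -Real.log (slR idx i - 1) ≤ alR idx i + slR idx i := by
  have h1 : lic (tabL.getD idx 0) = true := by
    have hl : idx < (tabL.take 336).length := by rw [List.length_take, tab_len.2.2.1]; omega
    have := all_getD chkI idx hl
    rw [List.getD_eq_getElem _ _ hl, List.getElem_take] at this
    rw [List.getD_eq_getElem _ _ (by rw [tab_len.2.2.1]; omega)]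
    exact this
  have hi' : ¬ (i % 2 = 1) := by omega
  unfold slR alR
  rw [if_neg hi', if_neg hi']
  set n := tabL.getD idx 0
  set d0 := dg n 0
  set d1 := dg n 1
  unfold lic at h1
  rw [Bool.and_eq_true] at h1
  have h3 : 65 * 2 ^ 48 < d1 := by
    have := h1.1
    rw [Nat.blt_eq] at this
    exact this
  have h4 : Uu ((d1 - 65 * 2 ^ 48) * 2 ^ 16) + 64 * 2 ^ 60 ≤ (d0 + d1) * 2 ^ 12 := by
    have := h1.2
    rw [Nat.ble_eq] at this
    exact this
  have h5 := Uu_spec ((d1 - 65 * 2 ^ 48) * 2 ^ 16) (Nat.mul_pos (Nat.sub_pos_of_lt h3) (Nat.two_pow_pos 16))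
  set U := Uu ((d1 - 65 * 2 ^ 48) * 2 ^ 16)
  have h6 : (((d1 - 65 * 2 ^ 48) * 2 ^ 16 : ℕ) : ℝ) / 2 ^ 64 = ((d1 : ℝ) / 2 ^ 48 - 64) - 1 := by
    rw [cast_sub16 _ _ h3.le, Nat.cast_mul, Nat.cast_pow]
    push_cast
    ring
  rw [h6] at h5
  have h7 : (U : ℝ) + 64 * 2 ^ 60 ≤ (d0 + d1) * 2 ^ 12 := by exact_mod_cast h4
  have h8 : 65 * 2 ^ 48 < (d1 : ℝ) := by exact_mod_cast h3
  set l := Real.log (((d1 : ℝ) / 2 ^ 48 - 64) - 1)
  refine ⟨?_, ?_⟩
  · have : 65 < (d1 : ℝ) / 2 ^ 48 := by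
      rw [lt_div_iff₀ (by positivity)]
      exact h8
    linarith
  · have h9 : (d0 : ℝ) / 2 ^ 48 - 64 + ((d1 : ℝ) / 2 ^ 48 - 64) = ((d0 + d1) * 2 ^ 12) * (1 / 2 ^ 60) - 128 := by
      field_simp
      ring
    rw [h9]
    have h10 : ((64 - l) * 2 ^ 60 + 64 * 2 ^ 60) * (1 / 2 ^ 60) ≤ ((d0 + d1) * 2 ^ 12) * (1 / 2 ^ 60 : ℝ) := by
      apply mul_le_mul_of_nonneg_right _ (by positivity)
      linarith
    have h11 : ((64 - l) * 2 ^ 60 + 64 * 2 ^ 60) * (1 / 2 ^ 60) = 128 - l := by ring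
    rw [h11] at h10
    linarith

theorem nodeL_odd (idx i : ℕ) (h : idx < 480) (hi : i % 2 = 1) :
    0 < 1 + slR idx i ∧ -Real.log (1 + slR idx i) ≤ alR idx i - slR idx i := by
  have h1 : ldc (tabL.getD idx 0) = true := all_getD chkD idx (by rw [tab_len.2.2.1]; exact h)
  unfold slR alR
  rw [if_pos hi, if_pos hi]
  set n := tabL.getD idx 0
  set d2 := dg n 2
  set d3 := dg n 3
  unfold ldc at h1
  rw [Bool.and_eq_true] at h1
  have h3 : 63 * 2 ^ 48 < d3 := by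
    have := h1.1
    rw [Nat.blt_eq] at this
    exact this
  have h4 : Uu ((d3 - 63 * 2 ^ 48) * 2 ^ 16) + d3 * 2 ^ 12 ≤ d2 * 2 ^ 12 + 64 * 2 ^ 60 := by
    have := h1.2
    rw [Nat.ble_eq] at this
    exact this
  have h5 := Uu_spec ((d3 - 63 * 2 ^ 48) * 2 ^ 16) (Nat.mul_pos (Nat.sub_pos_of_lt h3) (Nat.two_pow_pos 16))
  set U := Uu ((d3 - 63 * 2 ^ 48) * 2 ^ 16)
  have h6 : (((d3 - 63 * 2 ^ 48) * 2 ^ 16 : ℕ) : ℝ) / 2 ^ 64 = 1 + ((d3 : ℝ) / 2 ^ 48 - 64) := by
    rw [cast_sub16 _ _ h3.le, Nat.cast_mul, Nat.cast_pow]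
    push_cast
    ring
  rw [h6] at h5
  have h7 : (U : ℝ) + d3 * 2 ^ 12 ≤ d2 * 2 ^ 12 + 64 * 2 ^ 60 := by exact_mod_cast h4
  have h8 : 63 * 2 ^ 48 < (d3 : ℝ) := by exact_mod_cast h3
  set l := Real.log (1 + ((d3 : ℝ) / 2 ^ 48 - 64))
  refine ⟨?_, ?_⟩
  · have : 63 < (d3 : ℝ) / 2 ^ 48 := by
      rw [lt_div_iff₀ (by positivity)]
      exact h8
    linarith
  · have h9 : (d2 : ℝ) / 2 ^ 48 - 64 - ((d3 : ℝ) / 2 ^ 48 - 64) = (d2 * 2 ^ 12 - d3 * 2 ^ 12) * (1 / 2 ^ 60) := by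
      field_simp
      ring
    rw [h9]
    have h10 : ((64 - l) * 2 ^ 60 - 64 * 2 ^ 60) * (1 / 2 ^ 60) ≤ (d2 * 2 ^ 12 - d3 * 2 ^ 12) * (1 / 2 ^ 60 : ℝ) := by
      apply mul_le_mul_of_nonneg_right _ (by positivity)
      linarith
    have h11 : ((64 - l) * 2 ^ 60 - 64 * 2 ^ 60) * (1 / 2 ^ 60) = -l := by ring
    rw [h11] at h10
    linarith

private theorem ordN : (∀ g < 48, tabY.getD g 0 < tabB.getD g 0 ∧ tabB.getD g 0 < tabY.getD (g + 1) 0) ∧
    (∀ g < 48, 4096 ≤ tabB.getD g 0 ∧ tabB.getD g 0 ≤ 65536) := by decide +kernel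

/-- The zeros and the points `y k`: order and range. -/
theorem tab_order : (∀ g < 48, yR g < bR g ∧ bR g < yR (g + 1)) ∧ (∀ g < 48, 1 ≤ bR g ∧ bR g ≤ 16) ∧
    yR 48 = 16 * yR 0 ∧ 9 / 10 < yR 0 ∧ yR 0 ≤ 1 := by
  refine ⟨fun g hg => ?_, fun g hg => ?_, ?_, ?_, ?_⟩
  · have := ordN.1 g hg
    unfold yR bR
    constructor
    · apply div_lt_div_of_pos_right _ (by positivity)
      exact_mod_cast this.1
    · apply div_lt_div_of_pos_right _ (by positivity)
      exact_mod_cast this.2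
  · have := ordN.2 g hg
    unfold bR
    have h1 : (4096 : ℝ) ≤ (tabB.getD g 0 : ℝ) := by exact_mod_cast this.1
    have h2 : (tabB.getD g 0 : ℝ) ≤ 65536 := by exact_mod_cast this.2
    have e1 : (1 : ℝ) * 2 ^ 12 = 4096 := by norm_num
    have e2 : (16 : ℝ) * 2 ^ 12 = 65536 := by norm_num
    constructor
    · rw [le_div_iff₀ (by positivity), e1]
      exact h1
    · rw [div_le_iff₀ (by positivity), e2]
      exact h2
  · unfold yR tabY
    norm_num
  · unfold yR tabY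
    norm_num
  · unfold yR tabY
    norm_num

end Pool.Agent.MinMod
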