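import Pool.Agent.MinMod.NumPack
import Pool.Agent.MinMod.NumTab

/-!
PnL: the integers `P - N` of `pnL` are `2^116 * FL`.

PROOF.  `pnL_getD`, `dots_getD`, `dg_dot` with `n = 4`, `d = 55` (table `tabL`, weights `D.wA`, `D.wB` of length 48, sums `< 48 * 2^46`).
With `B = 2^12 bR`, digits `2^48 (alR + 64)`, `2^48 (slR + 64)`, `16^(8-i) = 2^8 16^(6-i)`:
`SA 2^44 - 64 MU 2^92 = 2^116 ∑ muR alR` and `y 16^(8-i) (SB 2^36 - 64 M1 2^84) = 2^116 16^(6-i) (y/2^12) ∑ m2R bR slR`.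
-/

namespace Pool.Agent.MinMod

private theorem pnL_tabB_le (g : ℕ) (hg : g < 48) : tabB.getD g 0 ≤ 2 ^ 16 := by
  have h := (tab_order.2.1 g hg).2
  unfold bR at h
  rw [div_le_iff₀ (by positivity)] at h
  have h2 : ((tabB.getD g 0 : ℕ) : ℝ) ≤ ((2 ^ 16 : ℕ) : ℝ) := by
    refine h.trans ?_
    norm_num
  exact_mod_cast h2

private theorem pnL_getD_map (f : ℕ → ℕ) (g : ℕ) (hg : g < 48) :
    ((List.range 48).map f).getD g 0 = f g := by
  simp [List.getD, hg]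

private theorem pnL_drop (m g : ℕ) (L : List ℕ) : (L.drop m).getD g 0 = L.getD (m + g) 0 := by
  simp [List.getD]

private theorem pnL_digit (w : ℕ → ℕ) (W : List ℕ) (hW : W = (List.range 48).map w)
    (hw : ∀ g < 48, w g ≤ 2 ^ 46) {m e : ℕ} (hm : m + 48 ≤ 480) (he : e < 4) :
    dg (dot W (tabL.drop m)) e = ∑ g ∈ Finset.range 48, w g * dg (tabL.getD (m + g) 0) e := by
  have hlen : W.length = 48 := by rw [hW]; simp
  have h1 : ∀ g < W.length, (tabL.drop m).getD g 0 < 2 ^ (112 * 4) := by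
    intro g hg
    rw [hlen] at hg
    rw [pnL_drop]
    exact (tabL_lt (m + g) (by omega)).1
  have h2 : ∀ g < W.length, ∀ j < 4, dg ((tabL.drop m).getD g 0) j < 2 ^ 55 := by
    intro g hg j hj
    rw [hlen] at hg
    rw [pnL_drop]
    exact (tabL_lt (m + g) (by omega)).2 j hj
  have h3 : (∑ g ∈ Finset.range W.length, W.getD g 0) * 2 ^ 55 ≤ 2 ^ 112 := by
    have hs : (∑ g ∈ Finset.range W.length, W.getD g 0) ≤ ∑ g ∈ Finset.range W.length, 2 ^ 46 := by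
      refine Finset.sum_le_sum fun g hg => ?_
      rw [hlen, Finset.mem_range] at hg
      rw [hW, pnL_getD_map w g hg]
      exact hw g hg
    rw [Finset.sum_const, Finset.card_range, hlen, smul_eq_mul] at hs
    calc (∑ g ∈ Finset.range W.length, W.getD g 0) * 2 ^ 55
        ≤ (48 * 2 ^ 46) * 2 ^ 55 := by
          rw [hlen]
          exact Nat.mul_le_mul_right _ hs
      _ ≤ 2 ^ 112 := by norm_num
  rw [dg_dot W (tabL.drop m) 4 55 h1 h2 h3 e he, hlen]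
  refine Finset.sum_congr rfl fun g hg => ?_
  rw [Finset.mem_range] at hg
  rw [hW, pnL_getD_map w g hg, pnL_drop]

theorem pnL_val {D : Dat} {r1 r2 : ℝ} (hD : DatOK D r1 r2) {k i : ℕ} (hk : k ≤ 48) (hi : i < 9) (y : ℕ) :
    (((pnL D.MU D.M1 y (dots D.wA 9 (tabL.drop (48 - k))) (dots D.wB 9 (tabL.drop (48 - k)))).getD i (0, 0)).1 : ℝ) -
      (((pnL D.MU D.M1 y (dots D.wA 9 (tabL.drop (48 - k))) (dots D.wB 9 (tabL.drop (48 - k)))).getD i (0, 0)).2 : ℝ) =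
      2 ^ 116 * FL D k i ((y : ℝ) / 2 ^ 12) := by
  have hl : (dots D.wA 9 (tabL.drop (48 - k))).length = 9 := dots_length _ _ _
  rw [pnL_getD D.MU D.M1 y _ _ i (by rw [hl]; exact hi), dots_getD D.wA 9 _ i hi, dots_getD D.wB 9 _ i hi,
    List.drop_drop]
  have hm : (48 - k) + 48 * i = 48 * i + (48 - k) := by ring
  rw [hm]
  have hmb : 48 * i + (48 - k) + 48 ≤ 480 := by omega
  have hwA : ∀ g < 48, D.m2.getD g 0 * tabB.getD g 0 ^ 2 ≤ 2 ^ 46 := by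
    intro g hg
    have a1 := (hD.m2lt g hg).le
    have a2 := pnL_tabB_le g hg
    calc D.m2.getD g 0 * tabB.getD g 0 ^ 2 ≤ 2 ^ 14 * (2 ^ 16) ^ 2 :=
          Nat.mul_le_mul a1 (Nat.pow_le_pow_left a2 2)
      _ = 2 ^ 46 := by norm_num
  have hwB : ∀ g < 48, D.m2.getD g 0 * tabB.getD g 0 ≤ 2 ^ 46 := by
    intro g hg
    have a1 := (hD.m2lt g hg).le
    have a2 := pnL_tabB_le g hg
    calc D.m2.getD g 0 * tabB.getD g 0 ≤ 2 ^ 14 * 2 ^ 16 :=
          Nat.mul_le_mul a1 a2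
      _ ≤ 2 ^ 46 := by norm_num
  have e1 : (if i % 2 = 1 then 2 else 0) < 4 := by split_ifs <;> norm_num
  have e2 : (if i % 2 = 1 then 3 else 1) < 4 := by split_ifs <;> norm_num
  rw [pnL_digit _ D.wA hD.wA hwA hmb e1, pnL_digit _ D.wB hD.wB hwB hmb e2]
  unfold FL muR m2R bR alR slR
  generalize (if i % 2 = 1 then 2 else 0) = ea
  generalize (if i % 2 = 1 then 3 else 1) = eb
  rw [hD.MU, hD.M1]
  have h16 : (16 : ℝ) ^ ((6 : ℤ) - i) = (16 : ℝ) ^ (8 - i) / 2 ^ 8 := by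
    have : ((6 : ℤ) - i) = ((8 - i : ℕ) : ℤ) - 2 := by
      have : i ≤ 8 := by omega
      push_cast [Nat.cast_sub this]
      ring
    rw [this, zpow_sub₀ (by norm_num), zpow_natCast]
    norm_num
  rw [h16]
  push_cast
  have s1 : (∑ x ∈ Finset.range 48, (D.m2.getD x 0 : ℝ) * ((tabB.getD x 0 : ℝ) / 2 ^ 12) ^ 2 *
      ((dg (tabL.getD (48 * i + (48 - k) + x) 0) ea : ℝ) / 2 ^ 48 - 64)) =
      (∑ x ∈ Finset.range 48, (D.m2.getD x 0 : ℝ) * (tabB.getD x 0 : ℝ) ^ 2 *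
        (dg (tabL.getD (48 * i + (48 - k) + x) 0) ea : ℝ)) / 2 ^ 72 -
      64 * (∑ x ∈ Finset.range 48, (D.m2.getD x 0 : ℝ) * (tabB.getD x 0 : ℝ) ^ 2) / 2 ^ 24 := by
    rw [Finset.sum_div, Finset.mul_sum, Finset.sum_div, ← Finset.sum_sub_distrib]
    refine Finset.sum_congr rfl fun x _ => ?_
    ring
  have s2 : (∑ x ∈ Finset.range 48, (D.m2.getD x 0 : ℝ) * ((tabB.getD x 0 : ℝ) / 2 ^ 12) *
      ((dg (tabL.getD (48 * i + (48 - k) + x) 0) eb : ℝ) / 2 ^ 48 - 64)) =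
      (∑ x ∈ Finset.range 48, (D.m2.getD x 0 : ℝ) * (tabB.getD x 0 : ℝ) *
        (dg (tabL.getD (48 * i + (48 - k) + x) 0) eb : ℝ)) / 2 ^ 60 -
      64 * (∑ x ∈ Finset.range 48, (D.m2.getD x 0 : ℝ) * (tabB.getD x 0 : ℝ)) / 2 ^ 12 := by
    rw [Finset.sum_div, Finset.mul_sum, Finset.sum_div, ← Finset.sum_sub_distrib]
    refine Finset.sum_congr rfl fun x _ => ?_
    ring
  rw [s1, s2]
  ring

end Pool.Agent.MinMod
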