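import Pool.Agent.MinMod.PnT
import Pool.Agent.MinMod.PnL

/-!
CornT: real values of `posS`, `negS`, `corner`, `sumT`, `tailN`, and the meaning of `cond`.

PROOFS.  `pos_neg_val`: `posS_eq`, `negS_eq`; for naturals `((P - N : ℕ) : ℝ) = max (P - N) 0` and `((N - P : ℕ) : ℝ) = max (-(P - N)) 0`;
`P - N = 2^116 F`; `2^180 = 2^64 * 2^116`.  `corner_val`: truncated subtraction is `max 0`.  `sumT_val`: `sumT_eq`, `corner_val`, `pnT_val`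
(`(x * h.2)` with `h = tabH.getD j`, `sv (h.1, h.2) = hiR j`; `loR (j+1) = sv (tabLo.getD j ..)`), `2^204 = 2^24 * 2^180`.
`cond_real`: unfold `cond` (`Bool.and_eq_true`, `Nat.blt`), cast to `ℝ` (`Nat.cast_sub` with `x0 ≤ y ≤ x1`), divide by
`(x1 - x0) * 2^224`.
-/

namespace Pool.Agent.MinMod

theorem tail_val (D : Dat) (x : ℕ) : (tailN D x : ℝ) = 2 ^ 180 * tailR D ((x : ℝ) / 2 ^ 12) := by
  have h : tailN D x = x * D.Nn + x * (x * x) * D.Fn := rfl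
  rw [h]
  unfold tailR
  push_cast
  ring

private theorem CornT_sub (a b : ℕ) : ((a - b : ℕ) : ℝ) = max ((a : ℝ) - b) 0 := by
  rcases le_total b a with h | h
  · rw [Nat.cast_sub h, max_eq_left]
    have : (b : ℝ) ≤ a := by exact_mod_cast h
    linarith
  · rw [Nat.sub_eq_zero_of_le h, max_eq_right]
    · simp
    · have : (a : ℝ) ≤ b := by exact_mod_cast h
      linarith

private theorem CornT_max (s v : ℝ) (hs : 0 ≤ s) : max (s * v) 0 = s * max v 0 := by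
  rw [mul_max_of_nonneg _ _ hs, mul_zero]

theorem pos_neg_val (up lo : List ℕ) (t : ℕ) (tr : ℝ) (ht : (t : ℝ) = 2 ^ 180 * tr) (l : List (ℕ × ℕ)) (hl : l.length = 9)
    (F : ℕ → ℝ) (hF : ∀ i < 9, ((l.getD i (0, 0)).1 : ℝ) - ((l.getD i (0, 0)).2 : ℝ) = 2 ^ 116 * F i) :
    ((t + posS l up : ℕ) : ℝ) - (negS l lo : ℝ) = 2 ^ 180 * VV up lo tr F := by
  rw [posS_eq, negS_eq, hl]
  unfold VV
  push_cast
  rw [ht, mul_add, Finset.mul_sum, add_sub_assoc, ← Finset.sum_sub_distrib]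
  congr 1
  refine Finset.sum_congr rfl fun i hi => ?_
  have hi' := Finset.mem_range.mp hi
  have h1 := hF i hi'
  have h2 : ((l.getD i (0, 0)).2 : ℝ) - ((l.getD i (0, 0)).1 : ℝ) = 2 ^ 116 * (-F i) := by
    rw [mul_neg, ← h1]
    ring
  rw [CornT_sub, CornT_sub, h1, h2, CornT_max _ _ (by positivity), CornT_max _ _ (by positivity)]
  ring

theorem corner_val (up lo : List ℕ) (t : ℕ) (tr : ℝ) (ht : (t : ℝ) = 2 ^ 180 * tr) (l : List (ℕ × ℕ)) (hl : l.length = 9)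
    (F : ℕ → ℝ) (hF : ∀ i < 9, ((l.getD i (0, 0)).1 : ℝ) - ((l.getD i (0, 0)).2 : ℝ) = 2 ^ 116 * F i) :
    (corner t up lo l : ℝ) = 2 ^ 180 * max 0 (VV up lo tr F) := by
  have h : corner t up lo l = (t + posS l up) - negS l lo := rfl
  rw [h, CornT_sub, pos_neg_val up lo t tr ht l hl F hF, CornT_max _ _ (by positivity), max_comm 0]

theorem sumT_val {D : Dat} {r1 r2 : ℝ} (hD : DatOK D r1 r2) {X : ℕ} (hX : X < 24) (up lo : List ℕ) (x : ℕ) :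
    (sumT (tailN D x) D.M1 x up lo (dots D.wA 9 (tabA.drop (46 - 2 * X))) (dots D.wB 9 (tabR.drop (46 - 2 * X)))
        (dots D.m2 9 (tabR.drop (46 - 2 * X))) : ℝ) = 2 ^ 204 * TT D up lo X ((x : ℝ) / 2 ^ 12) := by
  rw [sumT_eq]
  unfold TT
  rw [Nat.cast_sum, Finset.mul_sum]
  refine Finset.sum_congr rfl fun j hj => ?_
  have hj' := Finset.mem_range.mp hj
  have hlen : ∀ (neg : Bool) (c : ℕ), (pnT D.M1 j neg (x * c) (x * x) (dots D.wA 9 (tabA.drop (46 - 2 * X)))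
      (dots D.wB 9 (tabR.drop (46 - 2 * X))) (dots D.m2 9 (tabR.drop (46 - 2 * X)))).length = 9 := by
    intro neg c
    rw [pnT_length, dots_length]
  have hc : ∀ p : Bool × ℕ, (corner (tailN D x) up lo (pnT D.M1 j p.1 (x * p.2) (x * x)
      (dots D.wA 9 (tabA.drop (46 - 2 * X))) (dots D.wB 9 (tabR.drop (46 - 2 * X)))
      (dots D.m2 9 (tabR.drop (46 - 2 * X)))) : ℝ) =
      2 ^ 180 * max 0 (VV up lo (tailR D ((x : ℝ) / 2 ^ 12)) (fun i => FT D X i j ((x : ℝ) / 2 ^ 12) (sv p))) := by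
    intro p
    refine corner_val up lo _ _ (tail_val D x) _ (hlen p.1 p.2) _ ?_
    intro i hi
    exact pnT_val hD hX hi hj' p.1 p.2 x
  have hlo : loR (j + 1) = sv (tabLo.getD j (false, 0)) := rfl
  have hhi : hiR j = sv (tabH.getD j (false, 0)) := rfl
  push_cast
  rw [hc, hc, hlo, hhi]
  unfold waR wbR
  ring

theorem cond_real {D : Dat} {x0 x1 y T01 T02 T11 T12 : ℕ} {l : List (ℕ × ℕ)} {t01 t02 t11 t12 : ℝ} {F : ℕ → ℝ}
    (h : cond D x0 x1 y T01 T02 T11 T12 l = true) (h0 : x0 ≤ y) (h1 : y ≤ x1) (h01 : x0 < x1)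
    (e01 : (T01 : ℝ) = 2 ^ 204 * t01) (e02 : (T02 : ℝ) = 2 ^ 204 * t02) (e11 : (T11 : ℝ) = 2 ^ 204 * t11)
    (e12 : (T12 : ℝ) = 2 ^ 204 * t12) (hl : l.length = 9)
    (hF : ∀ i < 9, ((l.getD i (0, 0)).1 : ℝ) - ((l.getD i (0, 0)).2 : ℝ) = 2 ^ 116 * F i) :
    VV D.up1 D.lo1 (tailR D ((y : ℝ) / 2 ^ 12)) F + (D.c1 : ℝ) / 2 ^ 20 *
        (((x1 : ℝ) - y) / (x1 - x0) * t01 + ((y : ℝ) - x0) / (x1 - x0) * t11) < 0 ∧
      VV D.up2 D.lo2 (tailR D ((y : ℝ) / 2 ^ 12)) F + (D.c2 : ℝ) / 2 ^ 20 *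
        (((x1 : ℝ) - y) / (x1 - x0) * t02 + ((y : ℝ) - x0) / (x1 - x0) * t12) < 0 ∧
      VV D.up1 D.lo1 (tailR D ((y : ℝ) / 2 ^ 12)) F + VV D.up2 D.lo2 (tailR D ((y : ℝ) / 2 ^ 12)) F +
        ((D.c1 : ℝ) / 2 ^ 20 * (((x1 : ℝ) - y) / (x1 - x0) * t02 + ((y : ℝ) - x0) / (x1 - x0) * t12) +
          (D.c2 : ℝ) / 2 ^ 20 * (((x1 : ℝ) - y) / (x1 - x0) * t01 + ((y : ℝ) - x0) / (x1 - x0) * t11)) < 0 := by
  have hp1 := pos_neg_val D.up1 D.lo1 (tailN D y) _ (tail_val D y) l hl F hF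
  have hp2 := pos_neg_val D.up2 D.lo2 (tailN D y) _ (tail_val D y) l hl F hF
  set V1 := VV D.up1 D.lo1 (tailR D ((y : ℝ) / 2 ^ 12)) F with hV1
  set V2 := VV D.up2 D.lo2 (tailR D ((y : ℝ) / 2 ^ 12)) F with hV2
  have hc : (and (Nat.blt ((x1 - x0) * 2 ^ 44 * (tailN D y + posS l D.up1) + D.c1 * ((x1 - y) * T01 + (y - x0) * T11))
        ((x1 - x0) * 2 ^ 44 * negS l D.lo1))
      (and (Nat.blt ((x1 - x0) * 2 ^ 44 * (tailN D y + posS l D.up2) + D.c2 * ((x1 - y) * T02 + (y - x0) * T12))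
        ((x1 - x0) * 2 ^ 44 * negS l D.lo2))
      (Nat.blt ((x1 - x0) * 2 ^ 44 * ((tailN D y + posS l D.up1) + (tailN D y + posS l D.up2)) +
        (D.c1 * ((x1 - y) * T02 + (y - x0) * T12) + D.c2 * ((x1 - y) * T01 + (y - x0) * T11)))
        ((x1 - x0) * 2 ^ 44 * (negS l D.lo1 + negS l D.lo2))))) = true := h
  rw [Bool.and_eq_true, Bool.and_eq_true] at hc
  obtain ⟨g1, g2, g3⟩ := hc
  have k1 := Nat.le_of_ble_eq_true g1
  have k2 := Nat.le_of_ble_eq_true g2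
  have k3 := Nat.le_of_ble_eq_true g3
  have q1 := Nat.lt_of_succ_le k1
  have q2 := Nat.lt_of_succ_le k2
  have q3 := Nat.lt_of_succ_le k3
  have r1 : (((x1 - x0) * 2 ^ 44 * (tailN D y + posS l D.up1) + D.c1 * ((x1 - y) * T01 + (y - x0) * T11) : ℕ) : ℝ) <
      (((x1 - x0) * 2 ^ 44 * negS l D.lo1 : ℕ) : ℝ) := by exact_mod_cast q1
  have r2 : (((x1 - x0) * 2 ^ 44 * (tailN D y + posS l D.up2) + D.c2 * ((x1 - y) * T02 + (y - x0) * T12) : ℕ) : ℝ) <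
      (((x1 - x0) * 2 ^ 44 * negS l D.lo2 : ℕ) : ℝ) := by exact_mod_cast q2
  have r3 : (((x1 - x0) * 2 ^ 44 * ((tailN D y + posS l D.up1) + (tailN D y + posS l D.up2)) +
        (D.c1 * ((x1 - y) * T02 + (y - x0) * T12) + D.c2 * ((x1 - y) * T01 + (y - x0) * T11)) : ℕ) : ℝ) <
      (((x1 - x0) * 2 ^ 44 * (negS l D.lo1 + negS l D.lo2) : ℕ) : ℝ) := by exact_mod_cast q3
  have hsx : ((x1 - x0 : ℕ) : ℝ) = (x1 : ℝ) - x0 := Nat.cast_sub h01.le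
  have hsy : ((x1 - y : ℕ) : ℝ) = (x1 : ℝ) - y := Nat.cast_sub h1
  have hsz : ((y - x0 : ℕ) : ℝ) = (y : ℝ) - x0 := Nat.cast_sub h0
  push_cast only [Nat.cast_add, Nat.cast_mul, Nat.cast_pow, Nat.cast_ofNat] at r1 r2 r3 hp1 hp2
  rw [hsx, hsy, hsz, e01, e11] at r1
  rw [hsx, hsy, hsz, e02, e12] at r2
  rw [hsx, hsy, hsz, e01, e11, e02, e12] at r3
  have hd : (0 : ℝ) < (x1 : ℝ) - x0 := by
    have : (x0 : ℝ) < x1 := by exact_mod_cast h01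
    linarith
  have hw : (0 : ℝ) < ((x1 : ℝ) - x0) * 2 ^ 224 := by positivity
  have key : ∀ A B c t t' c' s s' u : ℝ, A - B = 2 ^ 180 * u → ((x1 : ℝ) - x0) * 2 ^ 44 * A +
      (c * (((x1 : ℝ) - y) * (2 ^ 204 * t) + ((y : ℝ) - x0) * (2 ^ 204 * t')) +
        c' * (((x1 : ℝ) - y) * (2 ^ 204 * s) + ((y : ℝ) - x0) * (2 ^ 204 * s'))) < ((x1 : ℝ) - x0) * 2 ^ 44 * B →
      u + (c / 2 ^ 20 * (((x1 : ℝ) - y) / (x1 - x0) * t + ((y : ℝ) - x0) / (x1 - x0) * t') +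
        c' / 2 ^ 20 * (((x1 : ℝ) - y) / (x1 - x0) * s + ((y : ℝ) - x0) / (x1 - x0) * s')) < 0 := by
    intro A B c t t' c' s s' u hAB hlt
    have hA : A = B + 2 ^ 180 * u := by linarith
    have e3 : ((x1 : ℝ) - x0) ≠ 0 := hd.ne'
    have e : ((x1 : ℝ) - x0) * 2 ^ 224 * (u + (c / 2 ^ 20 * (((x1 : ℝ) - y) / (x1 - x0) * t +
        ((y : ℝ) - x0) / (x1 - x0) * t') + c' / 2 ^ 20 * (((x1 : ℝ) - y) / (x1 - x0) * s +
        ((y : ℝ) - x0) / (x1 - x0) * s'))) =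
        ((x1 : ℝ) - x0) * 2 ^ 44 * A + (c * (((x1 : ℝ) - y) * (2 ^ 204 * t) + ((y : ℝ) - x0) * (2 ^ 204 * t')) +
        c' * (((x1 : ℝ) - y) * (2 ^ 204 * s) + ((y : ℝ) - x0) * (2 ^ 204 * s'))) - ((x1 : ℝ) - x0) * 2 ^ 44 * B := by
      rw [hA]
      field_simp
      ring
    by_contra hcon
    have hcon' := not_lt.mp hcon
    have := mul_nonneg hw.le hcon'
    rw [e] at this
    linarith
  have s1 := key _ _ (D.c1 : ℝ) t01 t11 0 0 0 _ hp1 (by linarith)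
  have s2 := key _ _ (D.c2 : ℝ) t02 t12 0 0 0 _ hp2 (by linarith)
  have hp3 : (((tailN D y : ℝ) + (posS l D.up1 : ℝ)) + ((tailN D y : ℝ) + (posS l D.up2 : ℝ))) -
      ((negS l D.lo1 : ℝ) + (negS l D.lo2 : ℝ)) = 2 ^ 180 * (V1 + V2) := by linarith
  have s3 := key _ _ (D.c1 : ℝ) t02 t12 (D.c2 : ℝ) t01 t11 _ hp3 (by linarith)
  refine ⟨by linarith, by linarith, s3⟩

end Pool.Agent.MinMod
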