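import Pool.Agent.MinMod.Fac

/-!
EstFar: the zeros far from the origin.

PROOF.  `l = k + K0 + j`, `w = ζ / zp b (K0 + j) g`, `‖w‖ = ‖ζ‖ / (16^(K0+j) b g) ≤ 16 / 16^2 ≤ 1/8` (`K0 ≥ 2`),
`w^2 = ζ^2 / (256^(K0+j) b g^2)` (the sign disappears), so by `norm_E1_far` the logarithm of the product is at most
`∑_{j<J} ∑_g m (-(ζ^2).re / (2 * 256^(K0+j) b g^2) + ‖ζ‖^3 / (2 * 4096^(K0+j) b g^3))`, `m = ⌈mu g rho^(k+K0+j)⌉ ≤ mu g rho^(k+K0+j) + 1`.
The first part is `-(Q J / 2) (ζ^2).re` with `Q J` as in the statement; in the second part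
`∑ mu g rho^(k+K0+j) ‖ζ‖^3 / (2 * 4096^(K0+j) b g^3) ≤ rho^k ‖ζ‖^3 farC` (geometric series, `rho < 4096`) and
`∑ ‖ζ‖^3 / (2 * 4096^(K0+j) b g^3) ≤ G ∑_j 4096 / (2 * 4096^(2+j)) ≤ G`.
`far_tendsto`: `Q J` is monotone in `J` and bounded (`m / 256^(K0+j) ≤ (mu g rho^k (rho/256)^(K0+j) + 256^(-(K0+j)))`, `rho < 256`).
-/

set_option linter.all false

namespace Pool.Agent.MinMod

/-- The coefficient of the quadratic term. -/
noncomputable def QQ (G : ℕ) (b mu : ℕ → ℝ) (rho : ℝ) (K0 k J : ℕ) : ℝ :=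
  ∑ j ∈ Finset.range J, ∑ g ∈ Finset.range G,
    (⌈mu g * rho ^ (k + K0 + j)⌉₊ : ℝ) / (256 ^ (K0 + j) * b g ^ 2)

private theorem ef_ceil {x : ℝ} (hx : 0 ≤ x) : (⌈x⌉₊ : ℝ) ≤ x + 1 :=
  (Nat.ceil_lt_add_one hx).le

private theorem ef_geom {x : ℝ} (h0 : 0 ≤ x) (h1 : x < 1) (J : ℕ) :
    ∑ j ∈ Finset.range J, x ^ j ≤ 1 / (1 - x) := by
  rw [le_div_iff₀ (by linarith), mul_comm, mul_neg_geom_sum]
  have := pow_nonneg h0 J
  linarith

theorem far_tendsto {G : ℕ} {b mu : ℕ → ℝ} {rho : ℝ} (h : Good G b mu) (h0 : 0 < rho) (h1 : rho < 256) (K0 k : ℕ) :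
    ∃ Q : ℝ, 0 ≤ Q ∧ Filter.Tendsto (QQ G b mu rho K0 k) Filter.atTop (nhds Q) := by
  obtain ⟨u, hu⟩ : ∃ u : ℕ → ℝ, u = fun j => ∑ g ∈ Finset.range G,
    (⌈mu g * rho ^ (k + K0 + j)⌉₊ : ℝ) / (256 ^ (K0 + j) * b g ^ 2) := ⟨_, rfl⟩
  have hu0 : ∀ j, 0 ≤ u j := by
    intro j
    rw [hu]
    refine Finset.sum_nonneg fun g _ => ?_
    positivity
  have hle : ∀ j, u j ≤ (∑ g ∈ Finset.range G, mu g * rho ^ k * (rho / 256) ^ K0) * (rho / 256) ^ j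
      + (G : ℝ) * (1 / 256) ^ K0 * (1 / 256) ^ j := by
    intro j
    have hg : ∀ g ∈ Finset.range G, (⌈mu g * rho ^ (k + K0 + j)⌉₊ : ℝ) / (256 ^ (K0 + j) * b g ^ 2)
        ≤ mu g * rho ^ k * (rho / 256) ^ K0 * (rho / 256) ^ j
          + (1 / 256) ^ K0 * (1 / 256) ^ j := by
      intro g hg
      have hgG := Finset.mem_range.1 hg
      have hm := h.mu0 g hgG
      have hb := h.b1 g hgG
      have hc := ef_ceil (x := mu g * rho ^ (k + K0 + j)) (by positivity)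
      have hb2 : 1 ≤ b g ^ 2 := by nlinarith
      have h256 : (0 : ℝ) < 256 ^ (K0 + j) := by positivity
      calc (⌈mu g * rho ^ (k + K0 + j)⌉₊ : ℝ) / (256 ^ (K0 + j) * b g ^ 2)
          ≤ (mu g * rho ^ (k + K0 + j) + 1) / (256 ^ (K0 + j) * 1) := by
            gcongr
        _ = _ := by
            rw [mul_one, add_assoc, pow_add rho k, add_div, div_pow, div_pow, div_pow, div_pow,
              pow_add, pow_add, one_pow, one_pow]
            field_simp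
    rw [hu]
    refine (Finset.sum_le_sum hg).trans (le_of_eq ?_)
    rw [Finset.sum_add_distrib, Finset.sum_const, Finset.card_range, nsmul_eq_mul,
      ← Finset.sum_mul]
    ring
  have hs : Summable u := by
    refine Summable.of_nonneg_of_le hu0 hle (Summable.add ?_ ?_)
    · exact (summable_geometric_of_lt_one (by positivity) (by
        rw [div_lt_one (by norm_num)]
        exact h1)).mul_left _
    · exact (summable_geometric_of_lt_one (by norm_num) (by norm_num)).mul_left _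
  refine ⟨∑' j, u j, tsum_nonneg hu0, ?_⟩
  have h2 := hs.hasSum.tendsto_sum_nat
  have h3 : QQ G b mu rho K0 k = fun J => ∑ j ∈ Finset.range J, u j := by
    funext J
    rw [hu]
    rfl
  rw [h3]
  exact h2

private theorem ef_zp (b : ℕ → ℝ) (n g : ℕ) : zp b (n : ℤ) g = (-16 : ℂ) ^ n * (b g : ℂ) := by
  unfold zp
  rw [zpow_natCast]

private theorem ef_factor {b : ℕ → ℝ} {g : ℕ} (hb : 1 ≤ b g) {n : ℕ} (hn : 2 ≤ n) {ζ : ℂ}
    (hζ : ‖ζ‖ ≤ 16) :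
    ‖E1 (ζ / zp b (n : ℤ) g)‖ ≤ Real.exp (-(1 / (256 ^ n * b g ^ 2) / 2) * (ζ ^ 2).re
      + ‖ζ‖ ^ 3 / (2 * (4096 ^ n * b g ^ 3))) := by
  have hb0 : 0 < b g := by linarith
  have hnorm : ‖zp b (n : ℤ) g‖ = 16 ^ n * b g := by
    rw [ef_zp, norm_mul, norm_pow, norm_neg, Complex.norm_real, Real.norm_eq_abs, abs_of_pos hb0]
    norm_num
  have hw : ‖ζ / zp b (n : ℤ) g‖ = ‖ζ‖ / (16 ^ n * b g) := by
    rw [norm_div, hnorm]
  have h16 : (256 : ℝ) ≤ 16 ^ n * b g := by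
    have h1 : (16 : ℝ) ^ 2 ≤ 16 ^ n := pow_le_pow_right₀ (by norm_num) hn
    nlinarith
  have hle : ‖ζ / zp b (n : ℤ) g‖ ≤ 1 / 8 := by
    rw [hw, div_le_div_iff₀ (by positivity) (by norm_num)]
    linarith
  refine (norm_E1_far _ hle).trans (Real.exp_le_exp.2 (le_of_eq ?_))
  have h2 : (ζ / zp b (n : ℤ) g) ^ 2 = ζ ^ 2 / (((256 : ℝ) ^ n * b g ^ 2 : ℝ) : ℂ) := by
    rw [div_pow, ef_zp, mul_pow, ← pow_mul, mul_comm n 2, pow_mul]
    push_cast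
    norm_num
  rw [h2, Complex.div_ofReal_re, hw, div_pow, mul_pow, ← pow_mul, mul_comm n 3, pow_mul]
  norm_num
  ring

theorem est_far {G : ℕ} {b mu : ℕ → ℝ} {rho : ℝ} (h : Good G b mu) (h0 : 0 < rho) (h1 : rho < 256) {K0 k : ℕ}
    (hK0 : 2 ≤ K0) {ζ : ℂ} (hζ : ‖ζ‖ ≤ 16) (J : ℕ) :
    ∏ j ∈ Finset.range J, ∏ g ∈ Finset.range G,
        ‖E1 (ζ / zp b (((K0 + j : ℕ) : ℤ)) g)‖ ^ ⌈mu g * rho ^ (k + K0 + j)⌉₊ ≤
      Real.exp (-(QQ G b mu rho K0 k J / 2) * (ζ ^ 2).re + rho ^ k * (‖ζ‖ ^ 3 * farC G b mu K0 rho) + G) := by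
  have hζ3 : ‖ζ‖ ^ 3 ≤ 4096 := by
    have := pow_le_pow_left₀ (norm_nonneg ζ) hζ 3
    norm_num at this
    exact this
  have hx : rho / 4096 < 1 := by
    rw [div_lt_one (by norm_num)]
    linarith
  have hx0 : 0 ≤ rho / 4096 := by positivity
  -- first step: product of exponentials
  have hprod : ∏ j ∈ Finset.range J, ∏ g ∈ Finset.range G,
        ‖E1 (ζ / zp b (((K0 + j : ℕ) : ℤ)) g)‖ ^ ⌈mu g * rho ^ (k + K0 + j)⌉₊ ≤
      Real.exp (∑ j ∈ Finset.range J, ∑ g ∈ Finset.range G,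
        (⌈mu g * rho ^ (k + K0 + j)⌉₊ : ℝ) * (-(1 / (256 ^ (K0 + j) * b g ^ 2) / 2) * (ζ ^ 2).re
          + ‖ζ‖ ^ 3 / (2 * (4096 ^ (K0 + j) * b g ^ 3)))) := by
    rw [Real.exp_sum]
    refine Finset.prod_le_prod (fun j _ => Finset.prod_nonneg fun g _ => by positivity)
      fun j _ => ?_
    rw [Real.exp_sum]
    refine Finset.prod_le_prod (fun g _ => by positivity) fun g hg => ?_
    rw [Real.exp_nat_mul]
    exact pow_le_pow_left₀ (norm_nonneg _)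
      (ef_factor (h.b1 g (Finset.mem_range.1 hg)) (by omega) hζ) _
  refine hprod.trans (Real.exp_le_exp.2 ?_)
  -- splitting
  have hsplit : ∑ j ∈ Finset.range J, ∑ g ∈ Finset.range G,
        (⌈mu g * rho ^ (k + K0 + j)⌉₊ : ℝ) * (-(1 / (256 ^ (K0 + j) * b g ^ 2) / 2) * (ζ ^ 2).re
          + ‖ζ‖ ^ 3 / (2 * (4096 ^ (K0 + j) * b g ^ 3))) =
      -(QQ G b mu rho K0 k J / 2) * (ζ ^ 2).re + ∑ j ∈ Finset.range J, ∑ g ∈ Finset.range G,
        (⌈mu g * rho ^ (k + K0 + j)⌉₊ : ℝ) * (‖ζ‖ ^ 3 / (2 * (4096 ^ (K0 + j) * b g ^ 3))) := by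
    unfold QQ
    rw [Finset.sum_div, ← Finset.sum_neg_distrib, Finset.sum_mul, ← Finset.sum_add_distrib]
    refine Finset.sum_congr rfl fun j _ => ?_
    rw [Finset.sum_div, ← Finset.sum_neg_distrib, Finset.sum_mul, ← Finset.sum_add_distrib]
    refine Finset.sum_congr rfl fun g _ => ?_
    ring
  rw [hsplit]
  have hmain : ∑ j ∈ Finset.range J, ∑ g ∈ Finset.range G,
        (⌈mu g * rho ^ (k + K0 + j)⌉₊ : ℝ) * (‖ζ‖ ^ 3 / (2 * (4096 ^ (K0 + j) * b g ^ 3))) ≤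
      ∑ j ∈ Finset.range J, ((rho ^ k * ‖ζ‖ ^ 3 * ((∑ g ∈ Finset.range G, mu g / b g ^ 3) / 2)
        * (rho / 4096) ^ K0) * (rho / 4096) ^ j + ((G : ℝ) / 2) * (1 / 2) ^ j) := by
    refine Finset.sum_le_sum fun j _ => ?_
    have hg : ∀ g ∈ Finset.range G, (⌈mu g * rho ^ (k + K0 + j)⌉₊ : ℝ) *
        (‖ζ‖ ^ 3 / (2 * (4096 ^ (K0 + j) * b g ^ 3))) ≤
        (rho ^ k * ‖ζ‖ ^ 3 / 2 * (rho / 4096) ^ K0 * (rho / 4096) ^ j) * (mu g / b g ^ 3)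
          + (1 / 2) * (1 / 2) ^ j := by
      intro g hg
      have hgG := Finset.mem_range.1 hg
      have hm := h.mu0 g hgG
      have hb := h.b1 g hgG
      have hb0 : 0 < b g := by linarith
      have hc := ef_ceil (x := mu g * rho ^ (k + K0 + j)) (by positivity)
      have hb3 : 1 ≤ b g ^ 3 := one_le_pow₀ hb
      have hA : (0 : ℝ) ≤ ‖ζ‖ ^ 3 / (2 * (4096 ^ (K0 + j) * b g ^ 3)) := by positivity
      have hB : ‖ζ‖ ^ 3 / (2 * (4096 ^ (K0 + j) * b g ^ 3)) ≤ (1 / 2) * (1 / 2) ^ j := by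
        have h2 : (4096 : ℝ) * 2 ^ j ≤ 4096 ^ (K0 + j) * b g ^ 3 := by
          have h3 : (4096 : ℝ) ^ (1 + j) ≤ 4096 ^ (K0 + j) :=
            pow_le_pow_right₀ (by norm_num) (by omega)
          have h4 : (2 : ℝ) ^ j ≤ 4096 ^ j := pow_le_pow_left₀ (by norm_num) (by norm_num) j
          rw [pow_add, pow_one] at h3
          have h5 : (0 : ℝ) ≤ 4096 ^ (K0 + j) := by positivity
          nlinarith
        rw [div_le_iff₀ (by positivity)]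
        have h6 : (1 / 2 : ℝ) * (1 / 2) ^ j * (2 * (4096 ^ (K0 + j) * b g ^ 3)) =
            (1 / 2) ^ j * (4096 ^ (K0 + j) * b g ^ 3) := by ring
        rw [h6]
        have h7 : (1 / 2 : ℝ) ^ j * (4096 * 2 ^ j) = 4096 := by
          rw [mul_left_comm, ← mul_pow]
          norm_num
        have h8 : (1 / 2 : ℝ) ^ j * (4096 * 2 ^ j) ≤ (1 / 2) ^ j * (4096 ^ (K0 + j) * b g ^ 3) :=
          mul_le_mul_of_nonneg_left h2 (by positivity)
        linarith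
      have hC : mu g * rho ^ (k + K0 + j) * (‖ζ‖ ^ 3 / (2 * (4096 ^ (K0 + j) * b g ^ 3))) =
          (rho ^ k * ‖ζ‖ ^ 3 / 2 * (rho / 4096) ^ K0 * (rho / 4096) ^ j) * (mu g / b g ^ 3) := by
        rw [add_assoc, pow_add rho k, div_pow, div_pow, pow_add, pow_add]
        field_simp
      calc (⌈mu g * rho ^ (k + K0 + j)⌉₊ : ℝ) * (‖ζ‖ ^ 3 / (2 * (4096 ^ (K0 + j) * b g ^ 3)))
          ≤ (mu g * rho ^ (k + K0 + j) + 1) * (‖ζ‖ ^ 3 / (2 * (4096 ^ (K0 + j) * b g ^ 3))) :=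
            mul_le_mul_of_nonneg_right hc hA
        _ = mu g * rho ^ (k + K0 + j) * (‖ζ‖ ^ 3 / (2 * (4096 ^ (K0 + j) * b g ^ 3)))
            + ‖ζ‖ ^ 3 / (2 * (4096 ^ (K0 + j) * b g ^ 3)) := by ring
        _ ≤ _ := by
            rw [hC]
            linarith
    refine (Finset.sum_le_sum hg).trans (le_of_eq ?_)
    rw [Finset.sum_add_distrib, Finset.sum_const, Finset.card_range, nsmul_eq_mul,
      ← Finset.mul_sum]
    ring
  have hsum1 : ∑ j ∈ Finset.range J, ((rho ^ k * ‖ζ‖ ^ 3 * ((∑ g ∈ Finset.range G, mu g / b g ^ 3) / 2)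
        * (rho / 4096) ^ K0) * (rho / 4096) ^ j + ((G : ℝ) / 2) * (1 / 2) ^ j) ≤
      rho ^ k * (‖ζ‖ ^ 3 * farC G b mu K0 rho) + G := by
    rw [Finset.sum_add_distrib, ← Finset.mul_sum, ← Finset.mul_sum]
    have hS : 0 ≤ ∑ g ∈ Finset.range G, mu g / b g ^ 3 := by
      refine Finset.sum_nonneg fun g hg => ?_
      have hgG := Finset.mem_range.1 hg
      have hm := h.mu0 g hgG
      have hb := h.b1 g hgG
      positivity
    have e1 := ef_geom hx0 hx J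
    have e2 := ef_geom (x := 1 / 2) (by norm_num) (by norm_num) J
    have e3 : ((G : ℝ) / 2) * ∑ i ∈ Finset.range J, (1 / 2 : ℝ) ^ i ≤ (G : ℝ) / 2 * (1 / (1 - 1 / 2)) :=
      mul_le_mul_of_nonneg_left e2 (by positivity)
    have e4 : (rho ^ k * ‖ζ‖ ^ 3 * ((∑ g ∈ Finset.range G, mu g / b g ^ 3) / 2)
        * (rho / 4096) ^ K0) * ∑ i ∈ Finset.range J, (rho / 4096) ^ i ≤
        (rho ^ k * ‖ζ‖ ^ 3 * ((∑ g ∈ Finset.range G, mu g / b g ^ 3) / 2)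
        * (rho / 4096) ^ K0) * (1 / (1 - rho / 4096)) :=
      mul_le_mul_of_nonneg_left e1 (by positivity)
    have e5 : (rho ^ k * ‖ζ‖ ^ 3 * ((∑ g ∈ Finset.range G, mu g / b g ^ 3) / 2)
        * (rho / 4096) ^ K0) * (1 / (1 - rho / 4096)) =
        rho ^ k * (‖ζ‖ ^ 3 * farC G b mu K0 rho) := by
      unfold farC
      ring
    have e6 : (G : ℝ) / 2 * (1 / (1 - 1 / 2)) = G := by ring
    linarith
  linarith

end Pool.Agent.MinMod
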