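import Pool.Agent.MinMod.Fac

/-!
EstWin: the zeros in the window.

PROOF.  Let `x = ‖E1 (ζ / zp b (i - K1) g)‖ ≤ exp (maj i g)` and also `x ≤ exp (2 ‖w‖)` with `‖w‖ ≤ 16 * 16^K1` (`norm_E1_two`;
`‖zp b (i - K1) g‖ ≥ 16^(-K1)`), `m = ⌈mu g rho^(k-K1+i)⌉ = mu g rho^(k-K1+i) + δ`, `0 ≤ δ ≤ 1`.  If `mu g = 0` then `m = 0` and
`x^m = 1`.  In general `x^m = x^(m : ℝ) = x^(mu g rho^..) * x^δ` (`Real.rpow_add_of_nonneg`) `≤ exp (mu g rho^(..) maj i g) * exp (2 * 16^(K1+1))`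
(`Real.rpow_le_rpow`, `Real.exp_mul`).  Multiply over `i`, `g`; `rho^(k-K1+i) = rho^k * rho^(i-K1)` (zpow).
-/

namespace Pool.Agent.MinMod

private theorem win_fac {x A m B : ℝ} (hx : 0 ≤ x) (hA : 0 ≤ A) (hB : 0 ≤ B)
    (h1 : x ≤ Real.exp m) (h2 : x ≤ Real.exp B) : x ^ ⌈A⌉₊ ≤ Real.exp (A * m + B) := by
  rcases hx.eq_or_lt with h0 | h0
  · rw [← h0]
    rcases Nat.eq_zero_or_pos ⌈A⌉₊ with h | h
    · have hA0 : A = 0 := le_antisymm (Nat.ceil_eq_zero.1 h) hA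
      rw [h, pow_zero, hA0, zero_mul, zero_add]
      exact Real.one_le_exp hB
    · rw [zero_pow h.ne']
      exact (Real.exp_pos _).le
  · have e1 : x ^ ⌈A⌉₊ = Real.exp (⌈A⌉₊ * Real.log x) := by
      rw [Real.exp_nat_mul, Real.exp_log h0]
    rw [e1]
    refine Real.exp_le_exp.2 ?_
    have l1 : Real.log x ≤ m := (Real.log_le_iff_le_exp h0).2 h1
    have l2 : Real.log x ≤ B := (Real.log_le_iff_le_exp h0).2 h2
    have c1 : A ≤ ⌈A⌉₊ := Nat.le_ceil A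
    have c2 : (⌈A⌉₊ : ℝ) < A + 1 := Nat.ceil_lt_add_one hA
    have e2 : (⌈A⌉₊ : ℝ) * Real.log x = A * Real.log x + (⌈A⌉₊ - A) * Real.log x := by ring
    rw [e2]
    refine add_le_add (mul_le_mul_of_nonneg_left l1 hA) ?_
    calc ((⌈A⌉₊ : ℝ) - A) * Real.log x ≤ (⌈A⌉₊ - A) * B :=
          mul_le_mul_of_nonneg_left l2 (by linarith)
      _ ≤ 1 * B := mul_le_mul_of_nonneg_right (by linarith) hB
      _ = B := one_mul B

private theorem win_norm {G : ℕ} {b mu : ℕ → ℝ} (h : Good G b mu) {K1 i g : ℕ} (hg : g < G) {ζ : ℂ}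
    (hζ : ‖ζ‖ ≤ 16) : ‖ζ / zp b ((i : ℤ) - K1) g‖ ≤ 16 ^ (K1 + 1) := by
  have hb := h.b1 g hg
  have hb0 : (0 : ℝ) < b g := by linarith
  have e1 : ‖zp b ((i : ℤ) - K1) g‖ = (16 : ℝ) ^ ((i : ℤ) - K1) * b g := by
    unfold zp
    rw [norm_mul, norm_zpow, norm_neg, Complex.norm_real, Real.norm_eq_abs, abs_of_pos hb0]
    norm_num
  have e2 : (16 : ℝ) ^ (-(K1 : ℤ)) ≤ (16 : ℝ) ^ ((i : ℤ) - K1) :=
    zpow_le_zpow_right₀ (by norm_num) (by omega)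
  have e3 : 0 < (16 : ℝ) ^ (-(K1 : ℤ)) := by positivity
  have e4 : (16 : ℝ) ^ (-(K1 : ℤ)) ≤ ‖zp b ((i : ℤ) - K1) g‖ := by
    rw [e1]
    nlinarith
  rw [norm_div]
  have e5 : ‖ζ‖ / ‖zp b ((i : ℤ) - K1) g‖ ≤ 16 / (16 : ℝ) ^ (-(K1 : ℤ)) :=
    div_le_div₀ (by norm_num) hζ e3 e4
  refine e5.trans (le_of_eq ?_)
  rw [zpow_neg, zpow_natCast, div_inv_eq_mul, pow_succ]
  ring

theorem est_win {G : ℕ} {b mu : ℕ → ℝ} {rho : ℝ} (h : Good G b mu) (h0 : 0 < rho) {K0 K1 k : ℕ} (hk : K1 ≤ k) {ζ : ℂ}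
    (hζ : ‖ζ‖ ≤ 16) (maj : ℕ → ℕ → ℝ)
    (hm : ∀ i < K0 + K1, ∀ g < G, ‖E1 (ζ / zp b ((i : ℤ) - K1) g)‖ ≤ Real.exp (maj i g)) :
    ∏ i ∈ Finset.range (K0 + K1), ∏ g ∈ Finset.range G,
        ‖E1 (ζ / zp b ((i : ℤ) - K1) g)‖ ^ ⌈mu g * rho ^ (k - K1 + i)⌉₊ ≤
      Real.exp (rho ^ k * (∑ i ∈ Finset.range (K0 + K1), rho ^ ((i : ℤ) - K1) *
        ∑ g ∈ Finset.range G, mu g * maj i g) + (K0 + K1) * G * (2 * 16 ^ (K1 + 1))) := by
  have key : ∀ i ∈ Finset.range (K0 + K1), ∏ g ∈ Finset.range G,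
      ‖E1 (ζ / zp b ((i : ℤ) - K1) g)‖ ^ ⌈mu g * rho ^ (k - K1 + i)⌉₊ ≤
      Real.exp (∑ g ∈ Finset.range G, (mu g * rho ^ (k - K1 + i) * maj i g +
        2 * 16 ^ (K1 + 1))) := by
    intro i hi
    rw [Real.exp_sum]
    refine Finset.prod_le_prod (fun g _ => by positivity) fun g hg => ?_
    have hi' := Finset.mem_range.1 hi
    have hg' := Finset.mem_range.1 hg
    refine win_fac (norm_nonneg _) (mul_nonneg (h.mu0 g hg') (by positivity)) (by positivity)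
      (hm i hi' g hg') ((norm_E1_two _).trans (Real.exp_le_exp.2 ?_))
    exact mul_le_mul_of_nonneg_left (win_norm h hg' hζ) (by norm_num)
  refine (Finset.prod_le_prod (fun i _ => Finset.prod_nonneg fun g _ => by positivity) key).trans ?_
  rw [← Real.exp_sum]
  refine Real.exp_le_exp.2 (le_of_eq ?_)
  have e1 : ∀ i : ℕ, (rho : ℝ) ^ (k - K1 + i) = rho ^ k * rho ^ ((i : ℤ) - K1) := by
    intro i
    rw [← zpow_natCast, ← zpow_natCast, ← zpow_add₀ h0.ne']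
    congr 1
    push_cast [Nat.cast_sub hk]
    ring
  simp only [Finset.sum_add_distrib, Finset.sum_const, Finset.card_range, nsmul_eq_mul]
  rw [Finset.mul_sum]
  push_cast
  congr 1
  · refine Finset.sum_congr rfl fun i _ => ?_
    rw [← mul_assoc, Finset.mul_sum]
    refine Finset.sum_congr rfl fun g _ => ?_
    rw [e1 i]
    ring
  · ring

end Pool.Agent.MinMod
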