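import Pool.Agent.MinMod.EstNear
import Pool.Agent.MinMod.EstWin
import Pool.Agent.MinMod.EstFar

/-!
Est: the main estimate.

PROOF.  `(-16)^k ζ / zp b l g = ζ / zp b (l - k) g`.  For `L = k + K0 + J` split the product `PP L ((-16)^k ζ)` over `l < k - K1`
(`est_near`), `l = k - K1 + i`, `i < K0 + K1` (`est_win`; `l - k = i - K1`), and `l = k + K0 + j`, `j < J` (`est_far`;
`l - k = K0 + j`).  So `‖PP L ((-16)^k ζ)‖ ≤ exp (rho^k (∑ window + ‖ζ‖ nearC + ‖ζ‖^3 farC) - (QQ J / 2) (ζ^2).re + C 16^k)` with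
`C = 35 G + (K0 + K1) G 2 * 16^(K1+1) + G`; let `J → ∞` (`far_tendsto`, `le_of_tendsto_of_tendsto`).
-/

namespace Pool.Agent.MinMod

private theorem est_zp (b : ℕ → ℝ) (k l g : ℕ) (ζ : ℂ) :
    (-16 : ℂ) ^ k * ζ / zp b (l : ℤ) g = ζ / zp b ((l : ℤ) - k) g := by
  unfold zp
  rw [zpow_sub₀ (by norm_num : (-16 : ℂ) ≠ 0), zpow_natCast, zpow_natCast]
  simp only [div_eq_mul_inv, mul_inv, inv_inv]
  ring

private theorem est_split {G : ℕ} {b mu : ℕ → ℝ} {rho : ℝ} {K0 K1 k : ℕ} (hk : K1 ≤ k) (ζ : ℂ) (J : ℕ) :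
    ‖PP G b mu rho (k + K0 + J) ((-16) ^ k * ζ)‖ =
      (∏ l ∈ Finset.range (k - K1), ∏ g ∈ Finset.range G,
        ‖E1 (ζ / zp b ((l : ℤ) - k) g)‖ ^ ⌈mu g * rho ^ l⌉₊) *
      (∏ i ∈ Finset.range (K0 + K1), ∏ g ∈ Finset.range G,
        ‖E1 (ζ / zp b ((i : ℤ) - K1) g)‖ ^ ⌈mu g * rho ^ (k - K1 + i)⌉₊) *
      (∏ j ∈ Finset.range J, ∏ g ∈ Finset.range G,
        ‖E1 (ζ / zp b (((K0 + j : ℕ) : ℤ)) g)‖ ^ ⌈mu g * rho ^ (k + K0 + j)⌉₊) := by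
  unfold PP
  rw [norm_prod]
  have e1 : ∀ l ∈ Finset.range (k + K0 + J),
      ‖∏ g ∈ Finset.range G, E1 ((-16) ^ k * ζ / zp b (l : ℤ) g) ^ ⌈mu g * rho ^ l⌉₊‖ =
        ∏ g ∈ Finset.range G, ‖E1 (ζ / zp b ((l : ℤ) - k) g)‖ ^ ⌈mu g * rho ^ l⌉₊ := by
    intro l _
    rw [norm_prod]
    refine Finset.prod_congr rfl fun g _ => ?_
    rw [norm_pow, est_zp]
  rw [Finset.prod_congr rfl e1]
  have e2 : k + K0 + J = (k - K1) + (K0 + K1) + J := by omega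
  rw [e2, Finset.prod_range_add, Finset.prod_range_add]
  have e3 : ∀ i ∈ Finset.range (K0 + K1), ∏ g ∈ Finset.range G,
      ‖E1 (ζ / zp b (((k - K1 + i : ℕ) : ℤ) - k) g)‖ ^ ⌈mu g * rho ^ (k - K1 + i)⌉₊ =
      ∏ g ∈ Finset.range G, ‖E1 (ζ / zp b ((i : ℤ) - K1) g)‖ ^ ⌈mu g * rho ^ (k - K1 + i)⌉₊ := by
    intro i _
    have : ((k - K1 + i : ℕ) : ℤ) - k = (i : ℤ) - K1 := by
      have : K1 ≤ k := hk
      omega
    rw [this]
  have e4 : ∀ j ∈ Finset.range J, ∏ g ∈ Finset.range G,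
      ‖E1 (ζ / zp b (((k - K1 + (K0 + K1) + j : ℕ) : ℤ) - k) g)‖ ^
        ⌈mu g * rho ^ (k - K1 + (K0 + K1) + j)⌉₊ =
      ∏ g ∈ Finset.range G, ‖E1 (ζ / zp b (((K0 + j : ℕ) : ℤ)) g)‖ ^ ⌈mu g * rho ^ (k + K0 + j)⌉₊ := by
    intro j _
    have h1 : ((k - K1 + (K0 + K1) + j : ℕ) : ℤ) - k = ((K0 + j : ℕ) : ℤ) := by
      have : K1 ≤ k := hk
      omega
    have h2 : k - K1 + (K0 + K1) + j = k + K0 + j := by omega
    rw [h1, h2]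
  rw [Finset.prod_congr rfl e3, Finset.prod_congr rfl e4]

theorem est {G : ℕ} {b mu : ℕ → ℝ} {rho : ℝ} (h : Good G b mu) (h0 : 16 < rho) (h1 : rho < 256) {K0 K1 : ℕ}
    (hK0 : 2 ≤ K0) {f : ℂ → ℂ} (hf : IsF G b mu rho f) :
    ∃ C : ℝ, 0 ≤ C ∧ ∀ k, K1 ≤ k → ∃ Q : ℝ, 0 ≤ Q ∧ ∀ ζ : ℂ, ‖ζ‖ ≤ 16 → ∀ v, UB G b mu K0 K1 rho ζ v →
      ‖f ((-16) ^ k * ζ)‖ ≤ Real.exp (rho ^ k * v - Q / 2 * (ζ ^ 2).re + C * 16 ^ k) := by
  have hr : 0 < rho := by linarith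
  refine ⟨35 * G + (K0 + K1) * G * (2 * 16 ^ (K1 + 1)) + G, by positivity, fun k hk => ?_⟩
  obtain ⟨Q, hQ, hT⟩ := far_tendsto h hr h1 K0 k
  refine ⟨Q, hQ, fun ζ hζ v hv => ?_⟩
  obtain ⟨maj, hm, hs⟩ := hv
  have hbound : ∀ J : ℕ, ‖PP G b mu rho (k + K0 + J) ((-16) ^ k * ζ)‖ ≤
      Real.exp (rho ^ k * v - QQ G b mu rho K0 k J / 2 * (ζ ^ 2).re +
        (35 * G + (K0 + K1) * G * (2 * 16 ^ (K1 + 1)) + G) * 16 ^ k) := by
    intro J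
    rw [est_split hk]
    have a1 := est_near h h0 hk hζ
    have a2 := est_win h hr (K0 := K0) hk hζ maj hm
    have a3 := est_far h hr h1 (k := k) hK0 hζ J
    refine (mul_le_mul (mul_le_mul a1 a2 (Finset.prod_nonneg fun _ _ => Finset.prod_nonneg fun _ _ => by positivity)
      (Real.exp_pos _).le) a3 (Finset.prod_nonneg fun _ _ => Finset.prod_nonneg fun _ _ => by positivity)
      (mul_nonneg (Real.exp_pos _).le (Real.exp_pos _).le)).trans ?_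
    rw [← Real.exp_add, ← Real.exp_add]
    refine Real.exp_le_exp.2 ?_
    have hpk : (1 : ℝ) ≤ 16 ^ k := one_le_pow₀ (by norm_num)
    have hrk : 0 < rho ^ k := pow_pos hr k
    have b1 := mul_le_mul_of_nonneg_left hs hrk.le
    have b2 : ((K0 : ℝ) + K1) * G * (2 * 16 ^ (K1 + 1)) + G ≤
        (((K0 : ℝ) + K1) * G * (2 * 16 ^ (K1 + 1)) + G) * 16 ^ k := by
      refine le_mul_of_one_le_right (by positivity) hpk
    have e : (rho ^ k * (‖ζ‖ * nearC G b mu K1 rho) + 35 * G * 16 ^ k) +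
        (rho ^ k * (∑ i ∈ Finset.range (K0 + K1), rho ^ ((i : ℤ) - K1) *
          ∑ g ∈ Finset.range G, mu g * maj i g) + (K0 + K1) * G * (2 * 16 ^ (K1 + 1))) +
        (-(QQ G b mu rho K0 k J / 2) * (ζ ^ 2).re + rho ^ k * (‖ζ‖ ^ 3 * farC G b mu K0 rho) + G) =
        rho ^ k * ((∑ i ∈ Finset.range (K0 + K1), rho ^ ((i : ℤ) - K1) *
          ∑ g ∈ Finset.range G, mu g * maj i g) +
          (‖ζ‖ * nearC G b mu K1 rho + ‖ζ‖ ^ 3 * farC G b mu K0 rho)) -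
          QQ G b mu rho K0 k J / 2 * (ζ ^ 2).re +
          (35 * G * 16 ^ k + (((K0 : ℝ) + K1) * G * (2 * 16 ^ (K1 + 1)) + G)) := by ring
    rw [e]
    have e2 : (35 * (G : ℝ) + (K0 + K1) * G * (2 * 16 ^ (K1 + 1)) + G) * 16 ^ k =
        35 * G * 16 ^ k + (((K0 : ℝ) + K1) * G * (2 * 16 ^ (K1 + 1)) + G) * 16 ^ k := by ring
    rw [e2]
    linarith
  have hL : Filter.Tendsto (fun J : ℕ => ‖PP G b mu rho (k + K0 + J) ((-16) ^ k * ζ)‖) Filter.atTop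
      (nhds ‖f ((-16) ^ k * ζ)‖) := by
    have hc : Filter.Tendsto (fun J : ℕ => k + K0 + J) Filter.atTop Filter.atTop :=
      Filter.tendsto_atTop_mono (fun J => Nat.le_add_left J (k + K0)) Filter.tendsto_id
    exact ((hf.2 ((-16) ^ k * ζ)).comp hc).norm
  have hR : Filter.Tendsto (fun J : ℕ => Real.exp (rho ^ k * v - QQ G b mu rho K0 k J / 2 * (ζ ^ 2).re +
        (35 * G + (K0 + K1) * G * (2 * 16 ^ (K1 + 1)) + G) * 16 ^ k)) Filter.atTop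
      (nhds (Real.exp (rho ^ k * v - Q / 2 * (ζ ^ 2).re +
        (35 * G + (K0 + K1) * G * (2 * 16 ^ (K1 + 1)) + G) * 16 ^ k))) := by
    refine (Real.continuous_exp.tendsto _).comp ?_
    exact ((tendsto_const_nhds.sub ((hT.div_const 2).mul_const _)).add_const _)
  exact le_of_tendsto_of_tendsto' hL hR hbound

end Pool.Agent.MinMod
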