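import Pool.Agent.MinMod.Fac

/-!
OrdLo: growth from below, on the imaginary axis.

PROOF.  `r I / zp b l g = t I` with `t` real, `|t| = r / (16^l b g)`, so by `norm_E1_im` every factor of `PP L (r I)` has norm
`sqrt (1 + t^2) ≥ 1`.  Let `g0 < G`, `mu g0 > 0`, `r ≥ 16`, and `k` with `16^(k+1) ≤ r < 16^(k+2)`.  The factor `(k, g0)` has
`|t| ≥ 16^(k+1) / (16^k * 16) = 1`, so it is at least `(sqrt 2)^M`, `M ≥ mu g0 rho^k`, i.e. at least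
`exp ((log 2 / 2) mu g0 rho^k)`, and `rho^k = 16^(k lam) ≥ (r / 256)^lam = 256^(-lam) r^lam` (`lam > 0` because `rho > 1`).
So `c0 = (log 2 / 2) mu g0 256^(-lam)`; let `L → ∞`.
-/

namespace Pool.Agent.MinMod

private theorem ordLo_w (b : ℕ → ℝ) (l g : ℕ) (r : ℝ) :
    (r : ℂ) * Complex.I / zp b (l : ℤ) g = ((r / ((-16 : ℝ) ^ l * b g) : ℝ) : ℂ) * Complex.I := by
  unfold zp
  push_cast
  rw [zpow_natCast]
  ring

private theorem ordLo_norm (b : ℕ → ℝ) (l g : ℕ) (r : ℝ) :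
    ‖E1 ((r : ℂ) * Complex.I / zp b (l : ℤ) g)‖ = Real.sqrt (1 + (r / ((-16 : ℝ) ^ l * b g)) ^ 2) := by
  rw [ordLo_w, norm_E1_im]

private theorem ordLo_one (b : ℕ → ℝ) (l g : ℕ) (r : ℝ) :
    1 ≤ ‖E1 ((r : ℂ) * Complex.I / zp b (l : ℤ) g)‖ := by
  rw [ordLo_norm]
  refine Real.one_le_sqrt.2 ?_
  have := sq_nonneg (r / ((-16 : ℝ) ^ l * b g))
  linarith

private theorem ordLo_big {b : ℕ → ℝ} {l g : ℕ} {r : ℝ} (h1 : 1 ≤ b g) (h2 : b g ≤ 16)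
    (hr : (16 : ℝ) ^ (l + 1) ≤ r) :
    Real.exp (Real.log 2 / 2) ≤ ‖E1 ((r : ℂ) * Complex.I / zp b (l : ℤ) g)‖ := by
  rw [ordLo_norm]
  have h3 : Real.exp (Real.log 2 / 2) = Real.sqrt 2 := by
    rw [Real.exp_half, Real.exp_log (by norm_num)]
  rw [h3]
  refine Real.sqrt_le_sqrt ?_
  have h4 : (0 : ℝ) < (16 : ℝ) ^ l := by positivity
  have h5 : ((-16 : ℝ) ^ l * b g) ^ 2 = ((16 : ℝ) ^ l * b g) ^ 2 := by
    rw [mul_pow, mul_pow, ← pow_mul, ← pow_mul, mul_comm l 2, pow_mul, pow_mul]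
    norm_num
  have h6 : (16 : ℝ) ^ l * b g ≤ r := by
    refine le_trans ?_ hr
    rw [pow_succ]
    exact mul_le_mul_of_nonneg_left h2 h4.le
  have h7 : 0 < (16 : ℝ) ^ l * b g := by positivity
  have h8 : 1 ≤ (r / ((-16 : ℝ) ^ l * b g)) ^ 2 := by
    rw [div_pow, h5, ← div_pow]
    refine one_le_pow₀ ?_
    rw [le_div_iff₀ h7]
    linarith
  linarith

private theorem ordLo_PP {G : ℕ} {b mu : ℕ → ℝ} {rho : ℝ} {r : ℝ} {k g0 L : ℕ} (hg : g0 < G) (hk : k < L) :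
    ‖E1 ((r : ℂ) * Complex.I / zp b (k : ℤ) g0)‖ ^ ⌈mu g0 * rho ^ k⌉₊ ≤ ‖PP G b mu rho L ((r : ℂ) * Complex.I)‖ := by
  unfold PP
  rw [norm_prod]
  have h1 : ∀ l ∈ Finset.range L, 1 ≤ ‖∏ g ∈ Finset.range G,
      E1 ((r : ℂ) * Complex.I / zp b (l : ℤ) g) ^ ⌈mu g * rho ^ l⌉₊‖ := by
    intro l _
    rw [norm_prod]
    refine Finset.one_le_prod fun g _ => ?_
    rw [norm_pow]
    exact one_le_pow₀ (ordLo_one b l g r)
  have h2 : ‖E1 ((r : ℂ) * Complex.I / zp b (k : ℤ) g0)‖ ^ ⌈mu g0 * rho ^ k⌉₊ ≤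
      ‖∏ g ∈ Finset.range G, E1 ((r : ℂ) * Complex.I / zp b (k : ℤ) g) ^ ⌈mu g * rho ^ k⌉₊‖ := by
    rw [norm_prod, ← Finset.mul_prod_erase _ _ (Finset.mem_range.2 hg), norm_pow]
    refine le_mul_of_one_le_right (pow_nonneg (norm_nonneg _) _) (Finset.one_le_prod fun g _ => ?_)
    rw [norm_pow]
    exact one_le_pow₀ (ordLo_one b k g r)
  rw [← Finset.mul_prod_erase _ _ (Finset.mem_range.2 hk)]
  exact h2.trans (le_mul_of_one_le_right (norm_nonneg _)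
    (Finset.one_le_prod fun l hl => h1 l (Finset.mem_of_mem_erase hl)))

theorem ord_lo {G : ℕ} {b mu : ℕ → ℝ} {rho lam : ℝ} (h : Good G b mu) (h0 : 16 < rho) (h1 : rho < 256)
    (hl : rho = (16 : ℝ) ^ lam) {f : ℂ → ℂ} (hf : IsF G b mu rho f) :
    ∃ c0 : ℝ, 0 < c0 ∧ ∀ r : ℝ, 16 ≤ r → Real.exp (c0 * r ^ lam) ≤ ‖f ((r : ℂ) * Complex.I)‖ := by
  obtain ⟨g0, hg0, hmu⟩ := h.pos
  have hrho : 0 < rho := by linarith
  have hlam : 0 < lam := by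
    by_contra hc
    have h2 : (16 : ℝ) ^ lam ≤ 1 := Real.rpow_le_one_of_one_le_of_nonpos (by norm_num) (not_lt.1 hc)
    rw [← hl] at h2
    linarith
  have hlog : 0 < Real.log 2 := Real.log_pos (by norm_num)
  refine ⟨Real.log 2 / 2 * mu g0 * (256 : ℝ) ^ (-lam), by positivity, ?_⟩
  intro r hr
  have hr0 : 0 < r := by linarith
  obtain ⟨k, hk1, hk2⟩ := exists_nat_pow_near (x := r / 16) (y := (16 : ℝ)) (by linarith) (by norm_num)
  have hk3 : (16 : ℝ) ^ (k + 1) ≤ r := by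
    rw [pow_succ]
    linarith
  have hk4 : r / 256 ≤ (16 : ℝ) ^ k := by
    rw [pow_succ] at hk2
    linarith
  have h5 : (256 : ℝ) ^ (-lam) * r ^ lam ≤ rho ^ k := by
    have h6 : (256 : ℝ) ^ (-lam) * r ^ lam = (r / 256) ^ lam := by
      rw [Real.div_rpow hr0.le (by norm_num), Real.rpow_neg (by norm_num)]
      ring
    have h7 : rho ^ k = ((16 : ℝ) ^ k) ^ lam := by
      rw [hl, ← Real.rpow_natCast, ← Real.rpow_natCast, ← Real.rpow_mul (by norm_num),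
        ← Real.rpow_mul (by norm_num), mul_comm]
    rw [h6, h7]
    exact Real.rpow_le_rpow (by positivity) hk4 hlam.le
  have h8 : Real.exp (Real.log 2 / 2 * mu g0 * (256 : ℝ) ^ (-lam) * r ^ lam) ≤
      ‖E1 ((r : ℂ) * Complex.I / zp b (k : ℤ) g0)‖ ^ ⌈mu g0 * rho ^ k⌉₊ := by
    have h9 := ordLo_big (b := b) (h.b1 g0 hg0) (h.b16 g0 hg0) hk3
    have h10 := pow_le_pow_left₀ (Real.exp_pos _).le h9 ⌈mu g0 * rho ^ k⌉₊
    refine le_trans ?_ h10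
    rw [← Real.exp_nat_mul]
    refine Real.exp_le_exp.2 ?_
    have h11 : mu g0 * rho ^ k ≤ (⌈mu g0 * rho ^ k⌉₊ : ℝ) := Nat.le_ceil _
    have h12 : mu g0 * ((256 : ℝ) ^ (-lam) * r ^ lam) ≤ mu g0 * rho ^ k :=
      mul_le_mul_of_nonneg_left h5 hmu.le
    calc Real.log 2 / 2 * mu g0 * (256 : ℝ) ^ (-lam) * r ^ lam =
          Real.log 2 / 2 * (mu g0 * ((256 : ℝ) ^ (-lam) * r ^ lam)) := by ring
      _ ≤ Real.log 2 / 2 * (⌈mu g0 * rho ^ k⌉₊ : ℝ) :=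
          mul_le_mul_of_nonneg_left (h12.trans h11) (by positivity)
      _ = (⌈mu g0 * rho ^ k⌉₊ : ℝ) * (Real.log 2 / 2) := mul_comm _ _
  refine ge_of_tendsto (hf.2 ((r : ℂ) * Complex.I)).norm ?_
  filter_upwards [Filter.eventually_gt_atTop k] with L hL
  exact h8.trans (ordLo_PP hg0 hL)

end Pool.Agent.MinMod
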