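import Pool.Agent.MinMod.OrdUp
import Pool.Agent.MinMod.OrdLo

/-!
Ord: the canonical product is not constant, has lower order `lam`, and its characteristic is positive for large `r`.

PROOF.  `lam > 1` (`16^lam = rho > 16`).  By `ord_lo`, `ord_up`: for large `r`, `c0 r^lam ≤ log (mM f r) ≤ C r^lam` (the sphere is compact and
`f` continuous, so `mM` is finite and attained; `r I` is on the sphere).  Hence
`(log c0 + lam log r) / log r ≤ log log mM / log r ≤ (log C + lam log r) / log r` and both sides tend to `lam`, so the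
quotient tends to `lam` in `ℝ`, hence in `EReal` and its liminf is `lam` (`Filter.Tendsto.liminf_eq`).
Not constant: `ord_lo` makes `‖f (r I)‖` unbounded.  `T f r > 0` for `r ≥ 16`: the integrand is continuous, nonnegative, `2π`-periodic and
positive at `t = π / 2` (`‖f (r I)‖ ≥ exp (c0 r^lam) > 1`), so the integral is positive
(`intervalIntegral.integral_pos` or `Continuous.integral_pos_of_hasCompactSupport_nonneg_nonzero` like lemmas).
-/

namespace Pool.Agent.MinMod

theorem ord {G : ℕ} {b mu : ℕ → ℝ} {rho lam : ℝ} (h : Good G b mu) (h0 : 16 < rho) (h1 : rho < 256)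
    (hl : rho = (16 : ℝ) ^ lam) {f : ℂ → ℂ} (hf : IsF G b mu rho f) :
    (¬ ∃ c : ℂ, ∀ z, f z = c) ∧ lowerOrder f = (lam : EReal) ∧ ∀ r : ℝ, 16 ≤ r → 0 < T f r := by
  have hlam : 1 < lam := by
    have h2 : (16 : ℝ) ^ (1 : ℝ) < (16 : ℝ) ^ lam := by
      rw [Real.rpow_one, ← hl]
      exact h0
    exact (Real.rpow_lt_rpow_left_iff (by norm_num)).1 h2
  obtain ⟨C, hC0, hC⟩ := ord_up h h0 h1 hl hf
  obtain ⟨c0, hc0, hc⟩ := ord_lo h h0 h1 hl hf
  have hnI : ∀ r : ℝ, 0 ≤ r → ‖((r : ℂ) * Complex.I)‖ = r := by
    intro r hr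
    rw [norm_mul, Complex.norm_I, mul_one, Complex.norm_real, Real.norm_of_nonneg hr]
  refine ⟨?_, ?_, ?_⟩
  · rintro ⟨c, hcc⟩
    set r : ℝ := max 16 (‖c‖ / c0 + 1) with hr
    have hr16 : 16 ≤ r := le_max_left _ _
    have hr2 : ‖c‖ / c0 + 1 ≤ r := le_max_right _ _
    have h2 := hc r hr16
    rw [hcc] at h2
    have h3 : r ≤ r ^ lam := by
      calc r = r ^ (1 : ℝ) := (Real.rpow_one r).symm
        _ ≤ r ^ lam := Real.rpow_le_rpow_of_exponent_le (by linarith) hlam.le
    have h4 := Real.add_one_le_exp (c0 * r ^ lam)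
    have h5 : c0 * r ≤ c0 * r ^ lam := mul_le_mul_of_nonneg_left h3 hc0.le
    have h6 : c0 * (‖c‖ / c0 + 1) ≤ c0 * r := mul_le_mul_of_nonneg_left hr2 hc0.le
    have h7 : c0 * (‖c‖ / c0 + 1) = ‖c‖ + c0 := by
      field_simp
    linarith
  · have hbd : ∀ r : ℝ, 16 ≤ r → Real.exp (c0 * r ^ lam) ≤ mM f r ∧ mM f r ≤ Real.exp (C * r ^ lam) := by
      intro r hr
      have hr0 : 0 ≤ r := by linarith
      have hmem : ((r : ℂ) * Complex.I) ∈ Metric.sphere (0 : ℂ) r := by
        rw [mem_sphere_zero_iff_norm]
        exact hnI r hr0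
      have hub : ∀ x ∈ (fun z : ℂ => ‖f z‖) '' Metric.sphere (0 : ℂ) r, x ≤ Real.exp (C * r ^ lam) := by
        rintro x ⟨z, hz, rfl⟩
        rw [mem_sphere_zero_iff_norm] at hz
        have h2 := hC z (by rw [hz]; linarith)
        rw [hz] at h2
        exact h2
      constructor
      · exact (hc r hr).trans (le_csSup ⟨_, hub⟩ ⟨_, hmem, rfl⟩)
      · exact csSup_le ⟨_, _, hmem, rfl⟩ hub
    have hlim : Filter.Tendsto (fun r : ℝ => Real.log (Real.log (mM f r)) / Real.log r) Filter.atTop
        (nhds lam) := by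
      have hlow : Filter.Tendsto (fun r : ℝ => Real.log c0 / Real.log r + lam) Filter.atTop (nhds lam) := by
        have := (Real.tendsto_log_atTop.const_div_atTop (Real.log c0)).add_const lam
        rwa [zero_add] at this
      have hup : Filter.Tendsto (fun r : ℝ => Real.log C / Real.log r + lam) Filter.atTop (nhds lam) := by
        have := (Real.tendsto_log_atTop.const_div_atTop (Real.log C)).add_const lam
        rwa [zero_add] at this
      refine tendsto_of_tendsto_of_tendsto_of_le_of_le' hlow hup ?_ ?_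
      · filter_upwards [Filter.eventually_ge_atTop (16 : ℝ)] with r hr
        have hr0 : 0 < r := by linarith
        have hlr : 0 < Real.log r := Real.log_pos (by linarith)
        have hp : 0 < r ^ lam := Real.rpow_pos_of_pos hr0 _
        have h2 : c0 * r ^ lam ≤ Real.log (mM f r) := by
          rw [← Real.log_exp (c0 * r ^ lam)]
          exact Real.log_le_log (Real.exp_pos _) (hbd r hr).1
        have h3 : Real.log (c0 * r ^ lam) ≤ Real.log (Real.log (mM f r)) :=
          Real.log_le_log (mul_pos hc0 hp) h2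
        rw [Real.log_mul hc0.ne' hp.ne', Real.log_rpow hr0] at h3
        rw [le_div_iff₀ hlr, add_mul, div_mul_cancel₀ _ hlr.ne']
        exact h3
      · filter_upwards [Filter.eventually_ge_atTop (16 : ℝ)] with r hr
        have hr0 : 0 < r := by linarith
        have hlr : 0 < Real.log r := Real.log_pos (by linarith)
        have hp : 0 < r ^ lam := Real.rpow_pos_of_pos hr0 _
        have h2 : c0 * r ^ lam ≤ Real.log (mM f r) := by
          rw [← Real.log_exp (c0 * r ^ lam)]
          exact Real.log_le_log (Real.exp_pos _) (hbd r hr).1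
        have h4 : Real.log (mM f r) ≤ C * r ^ lam := by
          rw [← Real.log_exp (C * r ^ lam)]
          exact Real.log_le_log (lt_of_lt_of_le (Real.exp_pos _) (hbd r hr).1) (hbd r hr).2
        have h3 : Real.log (Real.log (mM f r)) ≤ Real.log (C * r ^ lam) :=
          Real.log_le_log (lt_of_lt_of_le (mul_pos hc0 hp) h2) h4
        rw [Real.log_mul hC0.ne' hp.ne', Real.log_rpow hr0] at h3
        rw [div_le_iff₀ hlr, add_mul, div_mul_cancel₀ _ hlr.ne']
        exact h3
    have hE : Filter.Tendsto (fun r : ℝ => ((Real.log (Real.log (mM f r)) / Real.log r : ℝ) : EReal))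
        Filter.atTop (nhds (lam : EReal)) :=
      (continuous_coe_real_ereal.tendsto lam).comp hlim
    exact hE.liminf_eq
  · intro r hr
    have hr0 : 0 < r := by linarith
    have hfun : ∀ t : ℝ, max (Real.log ‖f (circleMap 0 r t)‖) 0 =
        Real.log (max ‖f (circleMap 0 r t)‖ 1) := by
      intro t
      rcases le_total 1 ‖f (circleMap 0 r t)‖ with h2 | h2
      · rw [max_eq_left h2, max_eq_left (Real.log_nonneg h2)]
      · rw [max_eq_right h2, max_eq_right (Real.log_nonpos (norm_nonneg _) h2), Real.log_one]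
    have hcont : Continuous (fun t : ℝ => Real.log (max ‖f (circleMap 0 r t)‖ 1)) := by
      refine Continuous.log ?_ (fun t => ?_)
      · exact ((hf.1.continuous.comp (continuous_circleMap 0 r)).norm).max continuous_const
      · have : (1 : ℝ) ≤ max ‖f (circleMap 0 r t)‖ 1 := le_max_right _ _
        linarith
    unfold T
    refine mul_pos (inv_pos.2 (by positivity)) ?_
    simp only [hfun]
    refine intervalIntegral.integral_pos (by positivity) hcont.continuousOn
      (fun t _ => Real.log_nonneg (le_max_right _ _)) ⟨Real.pi / 2, ⟨by positivity, ?_⟩, ?_⟩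
    · linarith [Real.pi_pos]
    · have h2 : circleMap 0 r (Real.pi / 2) = (r : ℂ) * Complex.I := by
        rw [circleMap_zero, Complex.exp_mul_I]
        push_cast
        rw [Complex.cos_pi_div_two, Complex.sin_pi_div_two]
        ring
      rw [h2]
      have h3 := hc r hr
      have h4 : 1 < Real.exp (c0 * r ^ lam) :=
        Real.one_lt_exp_iff.2 (mul_pos hc0 (Real.rpow_pos_of_pos hr0 _))
      refine Real.log_pos ?_
      exact lt_of_lt_of_le (lt_of_lt_of_le h4 h3) (le_max_left _ _)

end Pool.Agent.MinMod
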