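import Pool.Agent.MinMod.Fac

/-!
Prod: existence of the canonical product.

PROOF.  Let `h_l z = ∏_{g<G} E1 (z / zp b l g) ^ M_{l,g}`, `M_{l,g} = ⌈mu g * rho^l⌉ ≤ mu g * rho^l + 1`; entire functions,
`PP L = ∏_{l<L} h_l`.  `‖zp b l g‖ = 16^l * b g ≥ 16^l`.  Let `‖z‖ ≤ R` and `16^l ≥ R`.  By `norm_E1_sub_one`,
`‖E1 w - 1‖ ≤ 3 ‖w‖^2 ≤ 3 R^2 / 256^l`; from `‖∏ a_i - 1‖ ≤ ∏ (1 + ‖a_i - 1‖) - 1 ≤ exp (∑ ‖a_i - 1‖) - 1`
(`Finset.norm_prod_one_add_sub_one_le` or similar) we get `‖h_l z - 1‖ ≤ exp (u_l) - 1` with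
`u_l = ∑_g 3 R^2 (mu g * rho^l + 1) / 256^l`, a summable sequence (`rho < 256`), and `exp u - 1 ≤ 2 u` for `0 ≤ u ≤ 1`.
So the product converges uniformly on compact sets (Mathlib: `Summable.hasProdUniformlyOn_nat_one_add`,
`Summable.hasProdLocallyUniformlyOn_nat_one_add` in `Analysis/Normed/Module/MultipliableUniformlyOn.lean`; alternatively
telescoping: `PP (L+1) - PP L = PP L * (h_L - 1)` with `‖PP L‖ ≤ C_R`), and the limit is differentiable
(`TendstoLocallyUniformlyOn.differentiableOn`, or `differentiableOn_tsum_of_summable_norm`).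
-/

namespace Pool.Agent.MinMod

open Filter Topology Finset

/-- The factor of the level `l`. -/
noncomputable def hl (G : ℕ) (b mu : ℕ → ℝ) (rho : ℝ) (l : ℕ) (z : ℂ) : ℂ :=
  ∏ g ∈ Finset.range G, E1 (z / zp b (l : ℤ) g) ^ ⌈mu g * rho ^ l⌉₊

theorem PP_eq_hl (G : ℕ) (b mu : ℕ → ℝ) (rho : ℝ) (L : ℕ) (z : ℂ) :
    PP G b mu rho L z = ∏ l ∈ Finset.range L, (1 + (hl G b mu rho l z - 1)) := by
  simp [PP, hl]

theorem differentiable_E1 : Differentiable ℂ E1 := by
  unfold E1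
  fun_prop

theorem differentiable_hl (G : ℕ) (b mu : ℕ → ℝ) (rho : ℝ) (l : ℕ) :
    Differentiable ℂ (hl G b mu rho l) := by
  unfold hl
  refine Differentiable.fun_finset_prod fun g _ => ?_
  refine Differentiable.pow ?_ _
  exact differentiable_E1.comp (differentiable_id.div_const _)

theorem norm_zp {b : ℕ → ℝ} {g : ℕ} (h : 1 ≤ b g) (l : ℕ) : (16 : ℝ) ^ l ≤ ‖zp b (l : ℤ) g‖ := by
  unfold zp
  rw [zpow_natCast, norm_mul, norm_pow, norm_neg, Complex.norm_real, Real.norm_eq_abs,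
    abs_of_nonneg (by linarith)]
  have : ‖(16 : ℂ)‖ = 16 := by simp
  rw [this]
  exact le_mul_of_one_le_right (by positivity) h

theorem norm_hl_sub_one {G : ℕ} {b mu : ℕ → ℝ} {rho R : ℝ} (h : Good G b mu) (h0 : 0 < rho)
    {l : ℕ} (hR : R ≤ 16 ^ l) {z : ℂ} (hz : ‖z‖ ≤ R) :
    ‖hl G b mu rho l z - 1‖ ≤
      Real.exp (∑ g ∈ Finset.range G, 3 * R ^ 2 * (mu g * (rho / 256) ^ l + (1 / 256) ^ l)) - 1 := by
  have hR0 : 0 ≤ R := (norm_nonneg z).trans hz
  have e : hl G b mu rho l z = ∏ x ∈ (Finset.range G).sigma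
      (fun g => Finset.range ⌈mu g * rho ^ l⌉₊), (1 + (E1 (z / zp b (l : ℤ) x.1) - 1)) := by
    rw [Finset.prod_sigma]
    simp [hl]
  rw [e]
  refine (Finset.norm_prod_one_add_sub_one_le _ _).trans ?_
  rw [Finset.sum_sigma]
  refine sub_le_sub_right (Real.exp_le_exp.2 (Finset.sum_le_sum fun g hg => ?_)) _
  have hg' := Finset.mem_range.1 hg
  simp only [Finset.sum_const, Finset.card_range, nsmul_eq_mul]
  have hw : ‖z / zp b (l : ℤ) g‖ ≤ R / 16 ^ l := by
    rw [norm_div]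
    exact div_le_div₀ hR0 hz (by positivity) (norm_zp (h.b1 g hg') l)
  have hw1 : R / 16 ^ l ≤ 1 := by
    rw [div_le_one (by positivity)]
    exact hR
  have h1 := norm_E1_sub_one (z / zp b (l : ℤ) g) (hw.trans hw1)
  have h2 : ‖E1 (z / zp b (l : ℤ) g) - 1‖ ≤ 3 * (R / 16 ^ l) ^ 2 :=
    h1.trans (mul_le_mul_of_nonneg_left (pow_le_pow_left₀ (norm_nonneg _) hw 2) (by norm_num))
  have h3 : (⌈mu g * rho ^ l⌉₊ : ℝ) ≤ mu g * rho ^ l + 1 :=
    (Nat.ceil_lt_add_one (mul_nonneg (h.mu0 g hg') (by positivity))).le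
  calc (⌈mu g * rho ^ l⌉₊ : ℝ) * ‖E1 (z / zp b (l : ℤ) g) - 1‖
      ≤ (mu g * rho ^ l + 1) * (3 * (R / 16 ^ l) ^ 2) := by
        refine mul_le_mul h3 h2 (norm_nonneg _) ?_
        exact (Nat.cast_nonneg _).trans h3
    _ = 3 * R ^ 2 * (mu g * (rho / 256) ^ l + (1 / 256) ^ l) := by
        rw [div_pow, div_pow, div_pow, ← pow_mul, mul_comm l 2, pow_mul, one_pow]
        norm_num
        field_simp

theorem exp_sub_one_le_two {x : ℝ} (h0 : 0 ≤ x) (h1 : x ≤ 1 / 2) : Real.exp x - 1 ≤ 2 * x := by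
  have h := Real.exp_bound_div_one_sub_of_interval h0 (by linarith)
  have h2 : 1 / (1 - x) ≤ 1 + 2 * x := by
    rw [div_le_iff₀ (by linarith)]
    nlinarith
  linarith

theorem exists_isF {G : ℕ} {b mu : ℕ → ℝ} {rho : ℝ} (h : Good G b mu) (h0 : 0 < rho) (h1 : rho < 256) :
    ∃ f : ℂ → ℂ, IsF G b mu rho f := by
  have key : ∀ R : ℝ, 0 < R → TendstoLocallyUniformlyOn (fun L z => PP G b mu rho L z)
      (fun z => ∏' l, (1 + (hl G b mu rho l z - 1))) atTop (Metric.ball 0 R) := by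
    intro R hR
    set U : ℕ → ℝ := fun l =>
      ∑ g ∈ Finset.range G, 3 * R ^ 2 * (mu g * (rho / 256) ^ l + (1 / 256) ^ l) with hU
    have hUs : Summable U := by
      refine summable_sum fun g _ => ?_
      refine Summable.mul_left _ (Summable.add (Summable.mul_left _ ?_) ?_)
      · exact summable_geometric_of_lt_one (by positivity) (by rw [div_lt_one (by norm_num)]; exact h1)
      · exact summable_geometric_of_lt_one (by positivity) (by norm_num)
    have hU0 : ∀ l, 0 ≤ U l := fun l => Finset.sum_nonneg fun g hg => by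
      have := h.mu0 g (Finset.mem_range.1 hg)
      positivity
    have hev1 : ∀ᶠ l in atTop, U l ≤ 1 / 2 :=
      (hUs.tendsto_atTop_zero.eventually (gt_mem_nhds (by norm_num : (0 : ℝ) < 1 / 2))).mono
        fun l hl => hl.le
    have hev2 : ∀ᶠ l : ℕ in atTop, R ≤ 16 ^ l :=
      (tendsto_pow_atTop_atTop_of_one_lt (by norm_num : (1 : ℝ) < 16)).eventually_ge_atTop R
    have hb : ∀ᶠ l in atTop, ∀ z ∈ Metric.ball (0 : ℂ) R, ‖hl G b mu rho l z - 1‖ ≤ 2 * U l := by
      filter_upwards [hev1, hev2] with l hl1 hl2 z hz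
      refine (norm_hl_sub_one h h0 hl2 (mem_ball_zero_iff.1 hz).le).trans ?_
      exact exp_sub_one_le_two (hU0 l) hl1
    have := (Summable.hasProdLocallyUniformlyOn_nat_one_add (K := Metric.ball (0 : ℂ) R)
      Metric.isOpen_ball (hUs.mul_left 2) hb
      (fun l => ((differentiable_hl G b mu rho l).continuous.sub
        continuous_const).continuousOn)).tendstoLocallyUniformlyOn_finsetRange
    simpa only [PP_eq_hl] using this
  refine ⟨fun z => ∏' l, (1 + (hl G b mu rho l z - 1)), fun z => ?_, fun z => ?_⟩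
  · have hz : z ∈ Metric.ball (0 : ℂ) (‖z‖ + 1) := by simp
    have h2 := (key (‖z‖ + 1) (by positivity)).differentiableOn
      (Eventually.of_forall fun L => ?_) Metric.isOpen_ball
    · exact (h2 z hz).differentiableAt (Metric.isOpen_ball.mem_nhds hz)
    · simp only [PP_eq_hl]
      refine Differentiable.differentiableOn ?_
      refine Differentiable.fun_finset_prod fun l _ => ?_
      exact (differentiable_const _).add ((differentiable_hl G b mu rho l).sub
        (differentiable_const _))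
  · have hz : z ∈ Metric.ball (0 : ℂ) (‖z‖ + 1) := by simp
    exact (key (‖z‖ + 1) (by positivity)).tendsto_at hz

end Pool.Agent.MinMod
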