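import Pool.Agent.MinMod.Defs

/-!
TCell: upper bound of the characteristic from bounds on the cells `π j / M ≤ t ≤ π (j+1) / M`.

PROOF.  Let `φ t = max (log ‖F (circleMap 0 x t)‖) 0`; it is `2π`-periodic and (composition of `F` continuous with the continuous
function `z ↦ max (log ‖z‖) 0`: the map `Real.posLog ∘ norm` is continuous, `Real.continuous_posLog`) continuous.
`∫_0^{2π} φ = ∫_{-π}^{π} φ = ∫_0^π (φ t + φ (-t)) dt`.  The point `circleMap 0 x (±t)` has norm `x` and real part `x cos t`, so `H`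
bounds both.  On the cell `j`: `∫ chord (cos t) dt = π (wA j * p j + wB j * q j)` (the integral of `cos` is a difference of sines).
`∫_0^π max (-cos 2t) 0 dt = ∫_{π/4}^{3π/4} (-cos 2t) dt = 1`.  So `T F x ≤ (2π)⁻¹ * 2 * (∑_j π (wA p + wB q) + E + π E0)`.
-/

namespace Pool.Agent.MinMod

open MeasureTheory Set intervalIntegral

private theorem int_max_cos : ∫ t in (0 : ℝ)..Real.pi, max (-Real.cos (2 * t)) 0 = 1 := by
  have hpi := Real.pi_pos
  have hc : Continuous fun t : ℝ => max (-Real.cos (2 * t)) 0 := by fun_prop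
  have hi : ∀ a b : ℝ, IntervalIntegrable (fun t : ℝ => max (-Real.cos (2 * t)) 0) volume a b :=
    fun a b => hc.intervalIntegrable a b
  have h1 : ∫ t in (0 : ℝ)..(Real.pi / 4), max (-Real.cos (2 * t)) 0 = 0 := by
    rw [integral_congr (g := fun _ => (0 : ℝ))]
    · simp
    · intro t ht
      rw [uIcc_of_le (by linarith)] at ht
      have : 0 ≤ Real.cos (2 * t) :=
        Real.cos_nonneg_of_mem_Icc ⟨by linarith [ht.1], by linarith [ht.2]⟩
      exact max_eq_right (by linarith)
  have h3 : ∫ t in (3 * Real.pi / 4)..Real.pi, max (-Real.cos (2 * t)) 0 = 0 := by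
    rw [integral_congr (g := fun _ => (0 : ℝ))]
    · simp
    · intro t ht
      rw [uIcc_of_le (by linarith)] at ht
      have : 0 ≤ Real.cos (2 * t - 2 * Real.pi) :=
        Real.cos_nonneg_of_mem_Icc ⟨by linarith [ht.1], by linarith [ht.2]⟩
      rw [Real.cos_sub_two_pi] at this
      exact max_eq_right (by linarith)
  have h2 : ∫ t in (Real.pi / 4)..(3 * Real.pi / 4), max (-Real.cos (2 * t)) 0 = 1 := by
    have e1 : ∫ t in (Real.pi / 4)..(3 * Real.pi / 4), max (-Real.cos (2 * t)) 0 =
        ∫ t in (Real.pi / 4)..(3 * Real.pi / 4), -Real.cos (2 * t) := by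
      refine integral_congr fun t ht => ?_
      rw [uIcc_of_le (by linarith)] at ht
      have : Real.cos (2 * t) ≤ 0 :=
        Real.cos_nonpos_of_pi_div_two_le_of_le (by linarith [ht.1]) (by linarith [ht.2])
      exact max_eq_left (by linarith)
    rw [e1]
    have e2 : ∀ t ∈ uIcc (Real.pi / 4) (3 * Real.pi / 4),
        HasDerivAt (fun t : ℝ => -(Real.sin (2 * t) / 2)) (-Real.cos (2 * t)) t := by
      intro t _
      have h := ((Real.hasDerivAt_sin (2 * t)).comp t ((hasDerivAt_id t).const_mul 2)).div_const 2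
      have h' := h.neg
      refine h'.congr_deriv ?_
      ring
    have hci : IntervalIntegrable (fun t : ℝ => -Real.cos (2 * t)) volume (Real.pi / 4)
        (3 * Real.pi / 4) := (by fun_prop : Continuous fun t : ℝ => -Real.cos (2 * t)).intervalIntegrable _ _
    rw [integral_eq_sub_of_hasDerivAt e2 hci]
    have e3 : (2 : ℝ) * (3 * Real.pi / 4) = Real.pi / 2 + Real.pi := by ring
    have e4 : (2 : ℝ) * (Real.pi / 4) = Real.pi / 2 := by ring
    rw [e3, e4, Real.sin_add_pi, Real.sin_pi_div_two]
    norm_num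
  rw [← integral_add_adjacent_intervals (hi 0 (Real.pi / 4)) (hi (Real.pi / 4) Real.pi),
    ← integral_add_adjacent_intervals (hi (Real.pi / 4) (3 * Real.pi / 4))
      (hi (3 * Real.pi / 4) Real.pi), h1, h2, h3]
  norm_num

private theorem half_le {ψ : ℝ → ℝ} (hψ : Continuous ψ) {M : ℕ} (hM : 0 < M) (lo hi p q : ℕ → ℝ)
    (E E0 : ℝ) (hlh : ∀ j < M, lo (j + 1) < hi j)
    (H : ∀ j < M, ∀ t : ℝ, Real.pi * j / M ≤ t → t ≤ Real.pi * ((j : ℝ) + 1) / M →
      ψ t ≤ chord lo hi p q j (Real.cos t) + E * max (-Real.cos (2 * t)) 0 + E0) :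
    ∫ t in (0 : ℝ)..Real.pi, ψ t ≤
      Real.pi * (∑ j ∈ Finset.range M, (wA M lo hi j * p j + wB M lo hi j * q j)) + E +
        Real.pi * E0 := by
  have hpi := Real.pi_pos
  have hM0 : (0 : ℝ) < M := by exact_mod_cast hM
  obtain ⟨a, ha⟩ : ∃ a : ℕ → ℝ, a = fun j : ℕ => Real.pi * (j : ℝ) / M := ⟨_, rfl⟩
  have ha0 : a 0 = 0 := by rw [ha]; simp
  have haM : a M = Real.pi := by rw [ha]; field_simp
  have haj : ∀ j, a j ≤ a (j + 1) := by
    intro j
    rw [ha]
    simp only
    push_cast
    gcongr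
    linarith
  have hstep : ∀ j, a (j + 1) - a j = Real.pi / M := by
    intro j
    rw [ha]
    simp only
    push_cast
    field_simp
    ring
  have split : ∀ f : ℝ → ℝ, Continuous f → ∫ t in (0 : ℝ)..Real.pi, f t =
      ∑ j ∈ Finset.range M, ∫ t in (a j)..(a (j + 1)), f t := by
    intro f hf
    have := sum_integral_adjacent_intervals (f := f) (a := a) (n := M) (μ := volume)
      (fun k _ => hf.intervalIntegrable _ _)
    rw [this, ha0, haM]
  have hE : Continuous fun t : ℝ => E * max (-Real.cos (2 * t)) 0 + E0 := by fun_prop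
  have hch : ∀ j, Continuous fun t : ℝ => chord lo hi p q j (Real.cos t) := by
    intro j
    unfold chord
    fun_prop
  have hcell : ∀ j ∈ Finset.range M, ∫ t in (a j)..(a (j + 1)), ψ t ≤
      Real.pi * (wA M lo hi j * p j + wB M lo hi j * q j) +
        ∫ t in (a j)..(a (j + 1)), (E * max (-Real.cos (2 * t)) 0 + E0) := by
    intro j hj
    rw [Finset.mem_range] at hj
    have e1 : ∫ t in (a j)..(a (j + 1)), ψ t ≤ ∫ t in (a j)..(a (j + 1)),
        (chord lo hi p q j (Real.cos t) + (E * max (-Real.cos (2 * t)) 0 + E0)) := by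
      refine integral_mono_on (haj j) (hψ.intervalIntegrable _ _)
        (((hch j).add hE).intervalIntegrable _ _) fun t ht => ?_
      have h1 : Real.pi * j / M ≤ t := by
        have := ht.1
        rwa [ha] at this
      have h2 : t ≤ Real.pi * ((j : ℝ) + 1) / M := by
        have := ht.2
        rw [ha] at this
        push_cast at this
        exact this
      have := H j hj t h1 h2
      linarith
    rw [integral_add ((hch j).intervalIntegrable _ _) (hE.intervalIntegrable _ _)] at e1
    have hd : hi j - lo (j + 1) ≠ 0 := by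
      have := hlh j hj
      linarith
    have e2 : ∫ t in (a j)..(a (j + 1)), chord lo hi p q j (Real.cos t) =
        Real.pi * (wA M lo hi j * p j + wB M lo hi j * q j) := by
      have d1 : ∀ t ∈ uIcc (a j) (a (j + 1)), HasDerivAt (fun t : ℝ =>
          (p j * (Real.sin t - lo (j + 1) * t) + q j * (hi j * t - Real.sin t)) /
            (hi j - lo (j + 1))) (chord lo hi p q j (Real.cos t)) t := by
        intro t _
        have s1 := Real.hasDerivAt_sin t
        have s2 := (hasDerivAt_id t).const_mul (lo (j + 1))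
        have s3 := (hasDerivAt_id t).const_mul (hi j)
        have s4 := (((s1.sub s2).const_mul (p j)).add ((s3.sub s1).const_mul (q j))).div_const
          (hi j - lo (j + 1))
        refine s4.congr_deriv ?_
        unfold chord
        ring
      rw [integral_eq_sub_of_hasDerivAt d1 ((hch j).intervalIntegrable _ _)]
      have h1 : Real.pi * ((j : ℝ) + 1) / M = a (j + 1) := by
        rw [ha]
        push_cast
        rfl
      have h2 : Real.pi * (j : ℝ) / M = a j := by rw [ha]
      have h3 := hstep j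
      unfold wA wB
      rw [h1, h2, ← h3]
      field_simp
      ring
    rw [e2] at e1
    exact e1
  rw [split ψ hψ]
  refine (Finset.sum_le_sum hcell).trans ?_
  rw [Finset.sum_add_distrib, ← Finset.mul_sum, ← split _ hE]
  have e3 : ∫ t in (0 : ℝ)..Real.pi, (E * max (-Real.cos (2 * t)) 0 + E0) = E + Real.pi * E0 := by
    have c1 : Continuous fun t : ℝ => E * max (-Real.cos (2 * t)) 0 := by fun_prop
    rw [integral_add (c1.intervalIntegrable _ _) (continuous_const.intervalIntegrable _ _),
      intervalIntegral.integral_const_mul, int_max_cos, intervalIntegral.integral_const]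
    simp
  rw [e3]
  linarith

theorem T_le_cells {F : ℂ → ℂ} (hF : Continuous F) {x : ℝ} (hx : 0 ≤ x) {M : ℕ} (hM : 0 < M) (lo hi p q : ℕ → ℝ)
    (E E0 : ℝ) (hlh : ∀ j < M, lo (j + 1) < hi j)
    (H : ∀ j < M, ∀ t : ℝ, Real.pi * j / M ≤ t → t ≤ Real.pi * ((j : ℝ) + 1) / M → ∀ ζ : ℂ, ‖ζ‖ = x →
      ζ.re = x * Real.cos t →
        max (Real.log ‖F ζ‖) 0 ≤ chord lo hi p q j (Real.cos t) + E * max (-Real.cos (2 * t)) 0 + E0) :
    T F x ≤ (∑ j ∈ Finset.range M, (wA M lo hi j * p j + wB M lo hi j * q j)) + E / Real.pi + E0 := by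
  have hpi := Real.pi_pos
  obtain ⟨φ, hφ⟩ : ∃ φ : ℝ → ℝ, φ = fun t => max (Real.log ‖F (circleMap 0 x t)‖) 0 := ⟨_, rfl⟩
  have hφc : Continuous φ := by
    have h1 : Continuous fun t : ℝ => ‖F (circleMap 0 x t)‖ :=
      (hF.comp (continuous_circleMap 0 x)).norm
    have h2 := Real.continuous_posLog.comp h1
    rw [hφ]
    refine h2.congr fun t => ?_
    simp only [Function.comp_apply, Real.posLog]
    exact max_comm _ _
  have hnorm : ∀ t, ‖circleMap 0 x t‖ = x := by
    intro t
    rw [norm_circleMap_zero, abs_of_nonneg hx]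
  have hre : ∀ t, (circleMap 0 x t).re = x * Real.cos t := by
    intro t
    simp [circleMap, Complex.exp_ofReal_mul_I_re]
  have hT : T F x = (2 * Real.pi)⁻¹ * ((∫ t in (0 : ℝ)..Real.pi, φ t) +
      ∫ t in (0 : ℝ)..Real.pi, φ (2 * Real.pi - t)) := by
    have e1 : ∫ t in (0 : ℝ)..Real.pi, φ (2 * Real.pi - t) = ∫ t in Real.pi..(2 * Real.pi), φ t := by
      rw [integral_comp_sub_left]
      congr 1 <;> ring
    rw [e1, integral_add_adjacent_intervals (hφc.intervalIntegrable _ _)
      (hφc.intervalIntegrable _ _), hφ]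
    rfl
  have b1 := half_le hφc hM lo hi p q E E0 hlh (by
    intro j hj t h1 h2
    rw [hφ]
    exact H j hj t h1 h2 _ (hnorm t) (hre t))
  have b2 := half_le (ψ := fun t => φ (2 * Real.pi - t)) (hφc.comp (by fun_prop)) hM lo hi p q E E0
    hlh (by
    intro j hj t h1 h2
    rw [hφ]
    refine H j hj t h1 h2 _ (hnorm _) ?_
    rw [hre, Real.cos_two_pi_sub])
  rw [hT]
  rw [inv_mul_le_iff₀ (by positivity)]
  have e4 : 2 * Real.pi * ((∑ j ∈ Finset.range M, (wA M lo hi j * p j + wB M lo hi j * q j)) +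
      E / Real.pi + E0) = 2 * (Real.pi * (∑ j ∈ Finset.range M,
        (wA M lo hi j * p j + wB M lo hi j * q j)) + E + Real.pi * E0) := by
    field_simp
  rw [e4]
  linarith

end Pool.Agent.MinMod
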