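import Pool.Agent.MinMod.Defs

/-!
TScale: the characteristic of `ζ ↦ f ((-16)^k ζ)`.

PROOF.  If `k` is even, `(-16)^k * circleMap 0 x t = circleMap 0 (16^k x) t`.  If `k` is odd, `(-16)^k * circleMap 0 x t =
circleMap 0 (16^k x) (t + π)`; the integrand `t ↦ max (log ‖f (circleMap 0 (16^k x) t)‖) 0` is `2π`-periodic, so its integral over
`[π, 3π]` is the integral over `[0, 2π]` (`Function.Periodic.intervalIntegral_add_eq`).
-/

namespace Pool.Agent.MinMod

theorem T_scale (f : ℂ → ℂ) (k : ℕ) (x : ℝ) : T f (16 ^ k * x) = T (fun ζ => f ((-16) ^ k * ζ)) x := by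
  unfold T
  congr 1
  rcases Nat.even_or_odd k with hk | hk
  · have e : ∀ t : ℝ, (-16 : ℂ) ^ k * circleMap 0 x t = circleMap 0 (16 ^ k * x) t := by
      intro t
      rw [hk.neg_pow, circleMap_zero, circleMap_zero]
      push_cast
      ring
    simp only [e]
  · have e : ∀ t : ℝ, (-16 : ℂ) ^ k * circleMap 0 x t = circleMap 0 (16 ^ k * x) (t + Real.pi) := by
      intro t
      rw [hk.neg_pow, circleMap_zero, circleMap_zero]
      push_cast
      rw [add_mul, Complex.exp_add, Complex.exp_pi_mul_I]
      ring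
    simp only [e]
    have hper : Function.Periodic
        (fun t : ℝ => max (Real.log ‖f (circleMap 0 (16 ^ k * x) t)‖) 0) (2 * Real.pi) := by
      intro t
      simp only [periodic_circleMap 0 (16 ^ k * x) t]
    rw [intervalIntegral.integral_comp_add_right
      (fun t : ℝ => max (Real.log ‖f (circleMap 0 (16 ^ k * x) t)‖) 0) Real.pi]
    have h := hper.intervalIntegral_add_eq 0 Real.pi
    rw [zero_add] at h
    rw [h, zero_add, add_comm (2 * Real.pi) Real.pi]

end Pool.Agent.MinMod
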