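import Pool.Agent.MinMod.Red
import Pool.Agent.MinMod.Prod
import Pool.Agent.MinMod.Est
import Pool.Agent.MinMod.TScale
import Pool.Agent.MinMod.TCell
import Pool.Agent.MinMod.Ord

/-!
Crit: the criterion.

PROOF.  Take `f` from `exists_isF`, `C` from `est`.  Let `k ≥ K1` be large and `x ∈ [y0, 16 y0]`; `Q` from `est`; `p`, `q`, `v` from `H`;
`S = ∑_j (wA p + wB q)`; `F ζ = f ((-16)^k ζ)`.
(1) For `ζ` with `‖ζ‖ = x`, `ζ.re = x cos t`, `t` in the cell `j`: with `ch = chord (cos t) ≥ 0` (by `UB` we have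
`‖F ζ‖ ≤ exp (rho^k ch - Q/2 (ζ^2).re + C 16^k)` and `(ζ^2).re = x^2 cos 2t`, so
`max (log ‖F ζ‖) 0 ≤ rho^k ch + (Q/2) x^2 max (-cos 2t) 0 + C 16^k`.  By `T_le_cells` (with `rho^k p`, `rho^k q`; `chord` is linear in `p, q`),
`T F x ≤ rho^k S + Q x^2 / (2π) + C 16^k`, and `T F x = T f (16^k x)` (`T_scale`).
(2) `‖F x‖ ≤ exp (rho^k v - Q/2 x^2 + C 16^k)`, `v ≤ -c S - η`, and `m0 f (16^k x) ≤ ‖f ((-16)^k x)‖` (`csInf_le`; bounded below by `0`).
(3) `rho^k (-c S - η) - Q/2 x^2 + C 16^k ≤ -c (rho^k S + Q x^2/(2π) + C 16^k)` iff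
`Q x^2 (c/(2π) - 1/2) + (1 + c) C 16^k ≤ η rho^k`, which holds for `k ≥ k0` since `c ≤ π` and `rho > 16`.
So `m0 f r ≤ exp (-c T f r)` for all `r ≥ 16^(k0) * 16` (every `r ≥ y0 16^(k0)` is `16^k x` with `k ≥ k0`, `x ∈ [y0, 16 y0)`), and `T f r > 0`
by `ord`; conclude with `D_le_of_eventually`.
-/

namespace Pool.Agent.MinMod

private theorem cell_chord_nonneg {M : ℕ} {lo hi p q : ℕ → ℝ} {j : ℕ} {c : ℝ} (hlh : lo (j + 1) < hi j)
    (hp : 0 ≤ p j) (hq : 0 ≤ q j) (h1 : lo (j + 1) ≤ c) (h2 : c ≤ hi j) : 0 ≤ chord lo hi p q j c := by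
  unfold chord
  apply div_nonneg
  · exact add_nonneg (mul_nonneg hp (by linarith)) (mul_nonneg hq (by linarith))
  · linarith

private theorem re_sq_eq {ζ : ℂ} {x t : ℝ} (h1 : ‖ζ‖ = x) (h2 : ζ.re = x * Real.cos t) :
    (ζ ^ 2).re = x ^ 2 * Real.cos (2 * t) := by
  have h3 : ζ.re * ζ.re + ζ.im * ζ.im = x ^ 2 := by
    rw [← h1, ← Complex.normSq_eq_norm_sq, Complex.normSq_apply]
  have h4 : (ζ ^ 2).re = ζ.re * ζ.re - ζ.im * ζ.im := by
    rw [sq, Complex.mul_re]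
  rw [h4, Real.cos_two_mul]
  have h5 : ζ.im * ζ.im = x ^ 2 - (x * Real.cos t) * (x * Real.cos t) := by
    rw [← h2]
    linarith
  rw [h5, h2]
  ring

private theorem max_log_le {y a B : ℝ} (hy : 0 ≤ y) (h : y ≤ Real.exp a) (ha : a ≤ B) (hB : 0 ≤ B) :
    max (Real.log y) 0 ≤ B := by
  apply max_le _ hB
  rcases hy.lt_or_eq with h0 | h0
  · calc Real.log y ≤ Real.log (Real.exp a) := Real.log_le_log h0 h
      _ = a := Real.log_exp a
      _ ≤ B := ha
  · rw [← h0, Real.log_zero]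
    exact hB

theorem crit {G : ℕ} {b mu : ℕ → ℝ} {rho lam : ℝ} (h : Good G b mu) (h0 : 16 < rho) (h1 : rho < 256)
    (hl : rho = (16 : ℝ) ^ lam) {K0 K1 : ℕ} (hK0 : 2 ≤ K0) {c : ℝ} (hc : 0 < c) (hcpi : c ≤ Real.pi)
    {y0 : ℝ} (hy0 : 0 < y0) (hy1 : y0 ≤ 1) {M : ℕ} (hM : 0 < M) (lo hi : ℕ → ℝ)
    (hlo : ∀ j < M, lo (j + 1) ≤ Real.cos (Real.pi * ((j : ℝ) + 1) / M))
    (hhi : ∀ j < M, Real.cos (Real.pi * j / M) ≤ hi j) {eta : ℝ} (heta : 0 < eta)
    (H : ∀ x, y0 ≤ x → x ≤ 16 * y0 → ∃ p q : ℕ → ℝ, (∀ j < M, 0 ≤ p j) ∧ (∀ j < M, 0 ≤ q j) ∧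
      (∀ j < M, ∀ t : ℝ, Real.pi * j / M ≤ t → t ≤ Real.pi * ((j : ℝ) + 1) / M → ∀ ζ : ℂ, ‖ζ‖ = x →
        ζ.re = x * Real.cos t → UB G b mu K0 K1 rho ζ (chord lo hi p q j (Real.cos t))) ∧
      ∃ v : ℝ, UB G b mu K0 K1 rho (x : ℂ) v ∧
        v ≤ -c * (∑ j ∈ Finset.range M, (wA M lo hi j * p j + wB M lo hi j * q j)) - eta) :
    D lam ≤ ((-c : ℝ) : EReal) := by
  obtain ⟨f, hf⟩ := exists_isF h (by linarith) h1
  obtain ⟨C, hC0, hest⟩ := est h h0 h1 hK0 hf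
  obtain ⟨hnc, hlow, hTpos⟩ := ord h h0 h1 hl hf
  have hpi := Real.pi_pos
  have hMr : (0 : ℝ) < M := by exact_mod_cast hM
  have hratio : 1 < rho / 16 := by
    rw [lt_div_iff₀ (by norm_num)]
    linarith
  have hrho0 : 0 < rho := by linarith
  -- geometry of the cells
  have hcell : ∀ j < M, Real.cos (Real.pi * ((j : ℝ) + 1) / M) < Real.cos (Real.pi * j / M) := by
    intro j hj
    have hj' : (j : ℝ) + 1 ≤ M := by exact_mod_cast hj
    apply Real.cos_lt_cos_of_nonneg_of_le_pi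
    · positivity
    · rw [div_le_iff₀ hMr]
      exact mul_le_mul_of_nonneg_left hj' hpi.le
    · apply div_lt_div_of_pos_right _ hMr
      exact mul_lt_mul_of_pos_left (by linarith) hpi
  have hlh : ∀ j < M, lo (j + 1) < hi j := fun j hj =>
    lt_of_le_of_lt (hlo j hj) (lt_of_lt_of_le (hcell j hj) (hhi j hj))
  have hcos : ∀ j < M, ∀ t : ℝ, Real.pi * j / M ≤ t → t ≤ Real.pi * ((j : ℝ) + 1) / M →
      lo (j + 1) ≤ Real.cos t ∧ Real.cos t ≤ hi j := by
    intro j hj t ht1 ht2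
    have hj' : (j : ℝ) + 1 ≤ M := by exact_mod_cast hj
    have hup : Real.pi * ((j : ℝ) + 1) / M ≤ Real.pi := by
      rw [div_le_iff₀ hMr]
      exact mul_le_mul_of_nonneg_left hj' hpi.le
    have hlow0 : 0 ≤ Real.pi * j / M := by positivity
    constructor
    · exact le_trans (hlo j hj) (Real.cos_le_cos_of_nonneg_of_le_pi (by linarith) hup ht2)
    · exact le_trans (Real.cos_le_cos_of_nonneg_of_le_pi hlow0 (by linarith) ht1) (hhi j hj)
  -- the large indices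
  obtain ⟨k1, hk1⟩ := pow_unbounded_of_one_lt ((1 + c) * C / eta) hratio
  have hk1' : ∀ k, k1 ≤ k → (1 + c) * C * 16 ^ k ≤ eta * rho ^ k := by
    intro k hk
    have h2 : (1 + c) * C / eta ≤ (rho / 16) ^ k :=
      le_trans hk1.le (pow_le_pow_right₀ hratio.le hk)
    rw [div_le_iff₀ heta, div_pow, div_mul_eq_mul_div, le_div_iff₀ (by positivity)] at h2
    linarith
  set k0 := max k1 K1 with hk0
  refine D_le_of_eventually (R := 16 ^ (k0 + 1)) hf.1 hnc hlow ?_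
  intro r hr
  have h16 : (1 : ℝ) ≤ 16 ^ k0 := one_le_pow₀ (by norm_num)
  have hr16 : 16 ≤ r := by
    have : (16 : ℝ) ^ (k0 + 1) = 16 ^ k0 * 16 := pow_succ _ _
    linarith
  refine ⟨hTpos r hr16, ?_⟩
  have hry : 16 ^ (k0 + 1) ≤ r / y0 := by
    rw [le_div_iff₀ hy0]
    have : (16 : ℝ) ^ (k0 + 1) * y0 ≤ 16 ^ (k0 + 1) * 1 :=
      mul_le_mul_of_nonneg_left hy1 (by positivity)
    linarith
  have hry1 : 1 ≤ r / y0 := le_trans (one_le_pow₀ (by norm_num)) hry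
  obtain ⟨k, hka, hkb⟩ := exists_nat_pow_near hry1 (by norm_num : (1 : ℝ) < 16)
  have hkk : k0 ≤ k := by
    by_contra hcon
    push Not at hcon
    have h3 : (16 : ℝ) ^ (k + 1) ≤ 16 ^ (k0 + 1) :=
      pow_le_pow_right₀ (by norm_num) (by omega)
    linarith
  have hkK1 : K1 ≤ k := le_trans (le_max_right _ _) hkk
  have hkk1 : k1 ≤ k := le_trans (le_max_left _ _) hkk
  have h16k : (0 : ℝ) < 16 ^ k := by positivity
  set x : ℝ := r / 16 ^ k with hx
  have hrx : r = 16 ^ k * x := by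
    rw [hx]
    field_simp
  have hx1 : y0 ≤ x := by
    rw [hx, le_div_iff₀ h16k]
    rw [le_div_iff₀ hy0] at hka
    linarith
  have hx2 : x ≤ 16 * y0 := by
    rw [hx, div_le_iff₀ h16k]
    rw [div_lt_iff₀ hy0, pow_succ] at hkb
    linarith
  have hx0 : 0 < x := lt_of_lt_of_le hy0 hx1
  have hx16 : x ≤ 16 := by linarith
  obtain ⟨p, q, hp, hq, hUB, v, hv, hvle⟩ := H x hx1 hx2
  obtain ⟨Q, hQ0, hQ⟩ := hest k hkK1
  set S : ℝ := ∑ j ∈ Finset.range M, (wA M lo hi j * p j + wB M lo hi j * q j) with hS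
  have hrk : 0 < rho ^ k := by positivity
  -- the characteristic
  have hT : T f r ≤ rho ^ k * S + Q * x ^ 2 / (2 * Real.pi) + C * 16 ^ k := by
    rw [hrx, T_scale]
    have hcont : Continuous (fun ζ : ℂ => f ((-16) ^ k * ζ)) :=
      hf.1.continuous.comp (continuous_const.mul continuous_id)
    have hT1 := T_le_cells hcont hx0.le hM lo hi (fun j => rho ^ k * p j) (fun j => rho ^ k * q j)
      (Q / 2 * x ^ 2) (C * 16 ^ k) hlh (by
        intro j hj t ht1 ht2 ζ hζ1 hζ2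
        obtain ⟨hc1, hc2⟩ := hcos j hj t ht1 ht2
        have hch0 := cell_chord_nonneg (M := M) (hlh j hj) (hp j hj) (hq j hj) hc1 hc2
        have hb := hQ ζ (by rw [hζ1]; exact hx16) _ (hUB j hj t ht1 ht2 ζ hζ1 hζ2)
        have hchord : chord lo hi (fun j => rho ^ k * p j) (fun j => rho ^ k * q j) j (Real.cos t)
            = rho ^ k * chord lo hi p q j (Real.cos t) := by
          unfold chord
          ring
        rw [hchord]
        have hmax1 : -Real.cos (2 * t) ≤ max (-Real.cos (2 * t)) 0 := le_max_left _ _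
        have hmax2 : 0 ≤ max (-Real.cos (2 * t)) 0 := le_max_right _ _
        have hQx : 0 ≤ Q / 2 * x ^ 2 := by positivity
        apply max_log_le (norm_nonneg _) hb
        · rw [re_sq_eq hζ1 hζ2]
          have := mul_le_mul_of_nonneg_left hmax1 hQx
          linarith
        · have e1 := mul_nonneg hrk.le hch0
          have e2 := mul_nonneg hQx hmax2
          have e3 : 0 ≤ C * 16 ^ k := by positivity
          linarith)
    have hsum : (∑ j ∈ Finset.range M, (wA M lo hi j * (rho ^ k * p j) + wB M lo hi j * (rho ^ k * q j)))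
        = rho ^ k * S := by
      rw [hS, Finset.mul_sum]
      apply Finset.sum_congr rfl
      intro j _
      ring
    have hE : Q / 2 * x ^ 2 / Real.pi = Q * x ^ 2 / (2 * Real.pi) := by
      field_simp
    rw [hsum, hE] at hT1
    exact hT1
  -- the minimum modulus
  have hm : m0 f r ≤ Real.exp (rho ^ k * v - Q / 2 * x ^ 2 + C * 16 ^ k) := by
    have hb := hQ (x : ℂ) (by
      rw [Complex.norm_real, Real.norm_of_nonneg hx0.le]
      exact hx16) v hv
    have hre : (((x : ℂ)) ^ 2).re = x ^ 2 := by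
      rw [← Complex.ofReal_pow, Complex.ofReal_re]
    rw [hre] at hb
    refine le_trans ?_ hb
    unfold m0
    apply csInf_le
    · refine ⟨0, ?_⟩
      rintro y ⟨z, _, rfl⟩
      exact norm_nonneg _
    · refine ⟨(-16) ^ k * (x : ℂ), ?_, rfl⟩
      rw [mem_sphere_zero_iff_norm, norm_mul, norm_pow, norm_neg, Complex.norm_real,
        Real.norm_of_nonneg hx0.le, hrx]
      norm_num
  refine le_trans hm (Real.exp_le_exp.mpr ?_)
  have hv2 : rho ^ k * v ≤ rho ^ k * (-c * S - eta) := mul_le_mul_of_nonneg_left hvle hrk.le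
  have hcT : c * T f r ≤ c * (rho ^ k * S + Q * x ^ 2 / (2 * Real.pi) + C * 16 ^ k) :=
    mul_le_mul_of_nonneg_left hT hc.le
  have hk2 := hk1' k hkk1
  have hQx : 0 ≤ Q * x ^ 2 := by positivity
  have hcQ : c * (Q * x ^ 2 / (2 * Real.pi)) ≤ Q / 2 * x ^ 2 := by
    rw [mul_div_assoc', div_le_iff₀ (by positivity)]
    nlinarith
  nlinarith

end Pool.Agent.MinMod
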