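import Pool.Agent.MinMod.OkDat

/-!
Data for the interval `[64, 68]` of `rho`, and the check.
-/

namespace Pool.Agent.MinMod

/-- The data. -/
def dat0 : Dat where
  m2 := [8854, 2253, 2326, 2822, 3002, 3208, 3284, 3258, 3249, 3158, 3119, 3011, 2939, 2809, 2736, 2610, 2543,
    2418, 2329, 2154, 2059, 1900, 1909, 1865, 1869, 1827, 1827, 1761, 1771, 1747, 1761, 1715, 1739, 1714,
    1752, 1744, 1796, 1810, 1874, 1902, 1985, 2038, 2144, 2207, 2264, 1984, 2015, 16383]
  wA := [148545470464, 42436606800, 49175370904, 66956580902, 79961034842, 95916068992, 110207260116,
    122705301402, 137354736996, 149873377718, 166120447676, 180009094064, 197232951296, 211588040169,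
    231323396400, 247706132040, 270888093263, 289130476050, 312580272025, 324502417704, 348185168944,
    360630885100, 406699499344, 445987327040, 501705867264, 550475399628, 617876966700, 668521836816,
    754682338179, 835584684300, 945390912900, 1033466381360, 1176287535296, 1301308078024, 1493109148248,
    1668315703504, 1928440315904, 2181413187360, 2535225834914, 2888196555648, 3383335681625, 3899076328800,
    4604214874464, 5320007507663, 6125623875584, 6025411731904, 6868983866940, 62688110482812]
  wB := [36265984, 9778020, 10694948, 13745962, 15493322, 17541344, 19024212, 19994346, 21124998, 21755462,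
    22762462, 23281052, 24076288, 24379311, 25157520, 25426620, 26246303, 26440830, 26981465, 26438196,
    26775236, 26176300, 27863764, 28840360, 30621696, 31713066, 33598530, 34311324, 36558753, 38206890,
    40802370, 42099820, 45227912, 47227556, 51146136, 53940176, 58851328, 62835960, 68927594, 74117136,
    81950725, 89142120, 99355104, 108357079, 117764224, 109336256, 117647790, 1013419614]
  MU := 124990481106088
  M1 := 3033423464
  Nn := 45098402499938753706717227201563392808930246812587350
  Fn := 6715659759413687870417986499765591262379268
  up1 := [268435456, 17179869184, 1099511627776, 70368744177664, 4503599627370496, 288230376151711744,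
    18446744073709551616, 1180591620717411303424, 75557863725914323419136]
  lo1 := [263758689, 16961712650, 1090013218225, 69996524500108, 4491443655423618, 287965701793445709,
    18446744073709551616, 1180591620717411303424, 75484076749619485212672]
  up2 := [186580498, 12687473816, 862748219465, 58666878923614, 3989347766805699, 271275648142787524,
    18446744073709551616, 1254378597012249509888, 85297744596832966672384]
  lo2 := [182602169, 12498104058, 854334684555, 58330437083423, 3978135809089490, 271026542864419491,
    18446744073709551616, 1254378597012249509888, 85223957620538128465920]
  c1 := 2517010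
  c2 := 2572020

set_option maxRecDepth 1000000 in
theorem ok0 : okDat dat0 64 68 = true := by decide +kernel

set_option maxRecDepth 1000000 in
theorem chk0 : (List.range 24).all (chkX dat0) = true := by decide +kernel

end Pool.Agent.MinMod
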