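import Pool.Agent.MinMod.OkDat

/-!
Data for the interval `[68, 76]` of `rho`, and the check.
-/

namespace Pool.Agent.MinMod

/-- The data. -/
def dat1 : Dat where
  m2 := [8296, 2089, 2176, 2561, 2733, 2969, 3054, 3038, 3035, 2949, 2915, 2811, 2746, 2624, 2548, 2406, 2329,
    2188, 2091, 1894, 1776, 1779, 1815, 1770, 1776, 1713, 1733, 1704, 1724, 1686, 1704, 1659, 1680, 1650,
    1698, 1703, 1763, 1774, 1844, 1873, 1963, 2021, 2136, 2209, 2256, 1960, 1997, 16383]
  wA := [139183783936, 39347568400, 46004130304, 60763927601, 72795972093, 88770202256, 102488724846,
    114419492222, 128307672140, 139954588629, 155255243660, 168052329264, 184280940544, 197652907584,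
    215428367700, 228345192984, 248092162489, 261628404300, 280637762475, 285333137944, 300328732416,
    337664391891, 386673437040, 423269473920, 476741369856, 516127180932, 586086909300, 646883140224,
    734654066076, 806408573400, 914790525600, 999720540336, 1136378987520, 1252717811400, 1447088660802,
    1629094978823, 1893006835712, 2138025963744, 2494640576084, 2844159909952, 3345837754675, 3866552139600,
    4587034968216, 5324828538481, 6103978561536, 5952523686760, 6807623217012, 62688110482812]
  wB := [33980416, 9066260, 10005248, 12474631, 14105013, 16234492, 17691822, 18644206, 19733570, 20315661,
    21273670, 21734652, 22495232, 22773696, 23428860, 23439252, 24037609, 23925780, 24224235, 23246956,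
    23095104, 24509283, 26491740, 27371280, 29097984, 29734254, 31869870, 33200736, 35588532, 36872820,
    39481680, 40725132, 43693440, 45464100, 49569714, 52672087, 57769984, 61586184, 67824164, 72987064,
    81042455, 88398540, 98984376, 108455273, 117348096, 108013640, 116596842, 1013419614]
  MU := 123797693925491
  M1 := 2964695249
  Nn := 28279546153231819445625893163638296097435600390420083
  Fn := 8941254172173974980448388798351074256933219
  up1 := [186580498, 12687473816, 862748219465, 58666878923614, 3989347766805699, 271275648142787524,
    18446744073709551616, 1254378597012249509888, 85297744596832966672384]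
  lo1 := [176548275, 12181831029, 838957406578, 57659254488511, 3953777450640764, 270438377623828303,
    18446744073709551616, 1254378597012249509888, 85002596691653613846528]
  up2 := [95727820, 7275314319, 552923888230, 42022215505426, 3193688378412319, 242720316759336206,
    18446744073709551616, 1401952549601925922816, 106548393769746370134016]
  lo2 := [88274137, 6885382756, 533881986004, 41185181777507, 3163021960512611, 241971179979214797,
    18446744073709551616, 1401952549601925922816, 106253245864567017308160]
  c1 := 2573067
  c2 := 2673918

set_option maxRecDepth 1000000 in
theorem ok1 : okDat dat1 68 76 = true := by decide +kernel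

set_option maxRecDepth 1000000 in
theorem chk1 : (List.range 24).all (chkX dat1) = true := by decide +kernel

end Pool.Agent.MinMod
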