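import Pool.Agent.MinMod.OkDat

/-!
Data for the interval `[76, 90]` of `rho`, and the check.
-/

namespace Pool.Agent.MinMod

/-- The data. -/
def dat2 : Dat where
  m2 := [7468, 1896, 1941, 2196, 2333, 2586, 2680, 2683, 2689, 2610, 2582, 2481, 2420, 2298, 2213, 2040, 1938,
    1739, 1608, 1637, 1689, 1617, 1647, 1621, 1649, 1605, 1631, 1584, 1606, 1559, 1598, 1586, 1630, 1615,
    1660, 1644, 1701, 1710, 1791, 1826, 1928, 1992, 2123, 2214, 2263, 1947, 1987, 16383]
  wA := [125292249088, 35712297600, 41035853364, 52103703636, 62141603693, 77318876064, 89937715320,
    101049209227, 113680174756, 123866217810, 137519395928, 148323667344, 162403450880, 173096944218,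
    187104779325, 193609390560, 206441653458, 207939577275, 215813257800, 246615811412, 285616683024,
    306915863793, 350882176752, 387638314816, 442650066944, 483586763220, 551591315100, 601327989504,
    684370319094, 745664867100, 857884542200, 955730426144, 1102558184320, 1226145009340, 1414703873340,
    1572655399404, 1826434842624, 2060893121760, 2422939952151, 2772790173824, 3286181961800, 3811069699200,
    4559117620563, 5336881115526, 6122918211328, 5913042662307, 6773533967052, 62688110482812]
  wB := [30588928, 8228640, 8924718, 10696716, 12040613, 14140248, 15525240, 16465571, 17483878, 17980290,
    18843436, 19183092, 19824640, 19944342, 20348535, 19873680, 20002098, 19015965, 18628680, 20092538,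
    21963756, 22277409, 24039612, 25067144, 27017216, 27859590, 29994090, 30862656, 33152658, 34095330,
    37025660, 38933128, 42393040, 44499710, 48460380, 50847276, 55738368, 59364360, 65874771, 71155568,
    79597480, 87130080, 98381943, 108700758, 117712208, 107297223, 116012982, 1013419614]
  MU := 122244841433800
  M1 := 2866705858
  Nn := 12159046732949068906202009630172789637588030710054546
  Fn := 13768803880817345826362166375129180532513103
  up1 := [95727820, 7275314319, 552923888230, 42022215505426, 3193688378412319, 242720316759336206,
    18446744073709551616, 1401952549601925922816, 106548393769746370134016]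
  lo1 := [84973418, 6657837263, 519819107685, 40424130968851, 3129371907982914, 240993898480746065,
    18446744073709551616, 1401952549601925922816, 105644503310134602104832]
  up2 := [34710804, 3123972307, 281157507602, 25304175684101, 2277375811569081, 204963823041217241,
    18446744073709551616, 1660206966633859645440, 149418626997047368089600]
  lo2 := [27871281, 2708272785, 257568026330, 24099001154507, 2226048058255887, 203505958717074455,
    18446744073709551616, 1660206966633859645440, 148514736537435600060416]
  c1 := 2675989
  c2 := 2829089

set_option maxRecDepth 1000000 in
theorem ok2 : okDat dat2 76 90 = true := by decide +kernel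

set_option maxRecDepth 1000000 in
theorem chk2 : (List.range 24).all (chkX dat2) = true := by decide +kernel

end Pool.Agent.MinMod
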