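import Pool.Agent.MinMod.OkDat

/-!
Data for the interval `[90, 112]` of `rho`, and the check.
-/

namespace Pool.Agent.MinMod

/-- The data. -/
def dat3 : Dat where
  m2 := [6237, 1689, 1799, 1940, 1971, 2031, 2098, 2153, 2174, 2098, 2060, 1914, 1850, 1715, 1627, 1420, 1504,
    1471, 1508, 1460, 1491, 1441, 1477, 1424, 1456, 1401, 1448, 1426, 1477, 1450, 1504, 1482, 1539, 1527,
    1590, 1586, 1657, 1668, 1747, 1765, 1869, 1935, 2083, 2186, 2260, 1972, 2020, 16383]
  wA := [104639496192, 31813328400, 38033745596, 46029683540, 52499400291, 60724917744, 70406465202,
    81087941657, 91908032696, 99567557458, 109717256240, 114426239136, 124151398400, 129182445315,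
    137559636675, 134767320880, 160210653664, 175893684975, 202392035300, 219950570960, 252134087856,
    273510055489, 314664830032, 340528661504, 390842023936, 422121529764, 489702160800, 541347041056,
    629399104173, 693530505000, 807420745600, 893059578528, 1041004322496, 1159333392732, 1355047685910,
    1517172423026, 1779190202368, 2010274694208, 2363414905867, 2680161367360, 3185619339525, 3702018006000,
    4473218089323, 5269386684074, 6114801218560, 5988967709332, 6886028491920, 62688110482812]
  wB := [25546752, 7330260, 8271802, 9449740, 10172331, 11105508, 12153714, 13212961, 14135348, 14453122,
    15033880, 14799048, 15155200, 14884485, 14960265, 13833640, 15522784, 16085385, 17470180, 17920040,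
    19388964, 19852657, 21558292, 22020736, 23855104, 24318558, 26628720, 27784184, 30489711, 31711500,
    34847680, 36380136, 40026312, 42074958, 46416870, 49053394, 54296576, 57906288, 64256407, 68778520,
    77161665, 84636900, 96528303, 107326042, 117556160, 108674948, 117939720, 1013419614]
  MU := 120446971149572
  M1 := 2746385364
  Nn := 3424710753596123012162013839352552589140718165749352
  Fn := 23901876912880395764154957988497807240077543
  up1 := [34710804, 3123972307, 281157507602, 25304175684101, 2277375811569081, 204963823041217241,
    18446744073709551616, 1660206966633859645440, 149418626997047368089600]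
  lo1 := [28733370, 2710916108, 254495938495, 23754124355883, 2202220051292073, 202532627806633641,
    18446744073709551616, 1660206966633859645440, 147186570964128512344064]
  up2 := [9345695, 1046717799, 117232393466, 13130028068136, 1470563143631183, 164703072086692426,
    18446744073709551616, 2066035336255469780992, 231395957660612615471104]
  lo2 := [6021963, 799372698, 100043230994, 12054331762687, 1414434016683527, 162749433058902033,
    18446744073709551616, 2066035336255469780992, 229163901627693759725568]
  c1 := 2831841
  c2 := 3029550

set_option maxRecDepth 1000000 in
theorem ok3 : okDat dat3 90 112 = true := by decide +kernel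

set_option maxRecDepth 1000000 in
theorem chk3 : (List.range 24).all (chkX dat3) = true := by decide +kernel

end Pool.Agent.MinMod
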