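import Pool.Agent.MinMod.OkDat

/-!
Data for the interval `[112, 134]` of `rho`, and the check.
-/

namespace Pool.Agent.MinMod

/-- The data. -/
def dat4 : Dat where
  m2 := [5214, 1348, 1458, 1572, 1608, 1605, 1625, 1582, 1584, 1494, 1442, 1291, 1378, 1341, 1389, 1334, 1375,
    1315, 1352, 1291, 1320, 1248, 1291, 1253, 1301, 1260, 1320, 1293, 1355, 1328, 1394, 1374, 1443, 1432,
    1507, 1506, 1591, 1605, 1701, 1735, 1850, 1911, 2049, 2123, 2207, 1935, 2002, 16383]
  wA := [87476404224, 25390388800, 30824458632, 37298279652, 42830560968, 47987933520, 54533129625,
    59582500558, 66965190336, 70902731574, 76802079368, 77180916784, 92476014592, 101010879981, 117437206725,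
    126605356376, 146469181375, 157240105875, 181454928200, 194490539116, 223217301120, 236877549792,
    275038791856, 299636525888, 349234528256, 379638206640, 446413572000, 490856749008, 577410823395,
    635178283200, 748367366600, 827978313696, 976068380352, 1087207215712, 1284312492243, 1440644179746,
    1708323241984, 1934347052880, 2301184175661, 2634606216640, 3153234766250, 3656101503600, 4400203487769,
    5117524213307, 5971401012992, 5876598639735, 6824667841992, 62688110482812]
  wB := [21356544, 5850320, 6703884, 7657212, 8298888, 8776140, 9413625, 9708734, 10299168, 10292166,
    10523716, 9982012, 11288576, 11638539, 12771855, 12995828, 14191375, 14379525, 15662920, 15845734,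
    17165280, 17193696, 18843436, 19376392, 21315584, 21871080, 24274800, 25192812, 27971265, 29043360,
    32298980, 33728952, 37529544, 39457328, 43993851, 46579074, 52133888, 55719180, 62564481, 67609480,
    76377250, 83587140, 94952709, 104232931, 114799312, 106635915, 116888772, 1013419614]
  MU := 118339341701407
  M1 := 2632392867
  Nn := 681271990769628612891748691510062356333864861502435
  Fn := 36856282777651548581193483709211759446334707
  up1 := [9345695, 1046717799, 117232393466, 13130028068136, 1470563143631183, 164703072086692426,
    18446744073709551616, 2066035336255469780992, 231395957660612615471104]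
  lo1 := [8185510, 948219879, 109423508697, 12572564580117, 1437382623630751, 163385795880565795,
    18446744073709551616, 2066035336255469780992, 229163901627693759725568]
  up2 := [3186332, 426968397, 57213765161, 7666644531454, 1027330367214834, 137662269206787699,
    18446744073709551616, 2471863705877079916544, 331229736587528708816896]
  lo2 := [2468645, 362241302, 51763216689, 7253402642375, 1001211344735902, 136561262228532604,
    18446744073709551616, 2471863705877079916544, 328997680554609853071360]
  c1 := 3028391
  c2 := 3190737

set_option maxRecDepth 1000000 in
theorem ok4 : okDat dat4 112 134 = true := by decide +kernel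

set_option maxRecDepth 1000000 in
theorem chk4 : (List.range 24).all (chkX dat4) = true := by decide +kernel

end Pool.Agent.MinMod
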