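import Pool.Agent.MinMod.OkDat

/-!
Data for the interval `[134, 145]` of `rho`, and the check.
-/

namespace Pool.Agent.MinMod

/-- The data. -/
def dat5 : Dat where
  m2 := [4448, 1208, 1313, 1363, 1401, 1356, 1379, 1305, 1337, 1272, 1323, 1273, 1318, 1260, 1304, 1242, 1286,
    1222, 1259, 1183, 1229, 1190, 1245, 1208, 1260, 1217, 1271, 1229, 1295, 1274, 1347, 1327, 1402, 1391,
    1473, 1471, 1562, 1577, 1679, 1713, 1835, 1900, 2049, 2134, 2211, 1913, 1985, 16383]
  wA := [74625056768, 22753404800, 27758926052, 32339411683, 37316925321, 40543076544, 46277652771,
    49149913545, 56523017348, 60366984312, 70464043692, 76104807952, 88449482752, 94909551660, 110250624600,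
    117873952488, 136988630726, 146119702950, 168973191275, 178220222908, 207828835664, 225868817510,
    265238803920, 288875437568, 338228674560, 366682299588, 429842159100, 466560668624, 551842816455,
    609350250600, 723135468300, 799655911408, 948335321728, 1056079076156, 1255336629777, 1407163073311,
    1677184729088, 1900601434512, 2271421652519, 2601199106112, 3127667997875, 3635056440000, 4400203487769,
    5144039882806, 5982223670016, 5809784598353, 6766716117060, 62688110482812]
  wB := [18219008, 5242720, 6037174, 6639173, 7230561, 7414608, 7988547, 8008785, 8693174, 8762808, 9655254,
    9842836, 10797056, 10935540, 11990280, 12099564, 13272806, 13362570, 14585515, 14520142, 15981916,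
    16394630, 18172020, 18680512, 20643840, 21124686, 23373690, 23945836, 26732685, 27862380, 31209990,
    32575196, 36463216, 38327614, 43001289, 45496559, 51183616, 54747132, 61755299, 66752184, 75757975,
    83106000, 94952709, 104772998, 115007376, 105423517, 115896210, 1013419614]
  MU := 117580242423338
  M1 := 2588058810
  Nn := 185785810394421212275447687591496697801640641430334
  Fn := 44524212507235129567766325218875626621832521
  up1 := [3186332, 426968397, 57213765161, 7666644531454, 1027330367214834, 137662269206787699,
    18446744073709551616, 2471863705877079916544, 331229736587528708816896]
  lo1 := [3095204, 418014116, 56392482197, 7598843328656, 1022665487014785, 137448279990641691,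
    18446744073709551616, 2471863705877079916544, 330671722579298994880512]
  up2 := [1984777, 287792659, 41729935511, 6050840649050, 877371894112226, 127218924646272770,
    18446744073709551616, 2674777890687884984320, 387842794149743322726400]
  lo2 := [1910952, 280344796, 41028586118, 5991395701440, 873172857683720, 127021169094799908,
    18446744073709551616, 2674777890687884984320, 387284780141513608790016]
  c1 := 3188035
  c2 := 3259607

set_option maxRecDepth 1000000 in
theorem ok5 : okDat dat5 134 145 = true := by decide +kernel

set_option maxRecDepth 1000000 in
theorem chk5 : (List.range 24).all (chkX dat5) = true := by decide +kernel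

end Pool.Agent.MinMod
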