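import Pool.Agent.MinMod.OkDat

/-!
Data for the interval `[145, 151]` of `rho`, and the check.
-/

namespace Pool.Agent.MinMod

/-- The data. -/
def dat6 : Dat where
  m2 := [4223, 1120, 1222, 1275, 1317, 1260, 1291, 1246, 1298, 1239, 1291, 1233, 1278, 1217, 1264, 1200, 1244,
    1175, 1216, 1148, 1201, 1168, 1228, 1187, 1242, 1202, 1257, 1212, 1278, 1251, 1327, 1309, 1387, 1376,
    1460, 1459, 1552, 1567, 1672, 1706, 1831, 1897, 2051, 2144, 2218, 1905, 1979, 16383]
  wA := [70850183168, 21095872000, 25835040088, 30251467275, 35079507957, 37672770240, 43324474059,
    46927810174, 54874253192, 58800859719, 68759697964, 73713454992, 85765128192, 91670574897, 106868703600,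
    113887876800, 132514663004, 140499714375, 163202065600, 172947435248, 203093923216, 221693091472,
    261617069248, 283853596352, 333396836352, 362162797128, 425107469700, 460107022272, 544598547822,
    598349421900, 712398490300, 788809033936, 938189080768, 1044690732416, 1244257623540, 1395683836819,
    1666447310848, 1888549427952, 2261951758792, 2590569570944, 3120850192975, 3629316877200, 4404498464331,
    5168145036896, 6001163319808, 5785488583305, 6746262567084, 62688110482812]
  wB := [17297408, 4860800, 5618756, 6210525, 6797037, 6889680, 7478763, 7646702, 8439596, 8535471, 9421718,
    9533556, 10469376, 10562343, 11622480, 11690400, 12839324, 12848625, 14087360, 14090552, 15617804,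
    16091536, 17923888, 18355768, 20348928, 20864316, 23116230, 23614608, 26381754, 27359370, 30746590,
    32133332, 36073096, 37914304, 42621780, 45125411, 50855936, 54399972, 61497832, 66479408, 75592835,
    82974780, 95045391, 105263968, 115371488, 104982645, 115545894, 1013419614]
  MU := 117343903718732
  M1 := 2572658950
  Nn := 105228575421197975192731559883407269665516482100249
  Fn := 49422361856075936504346793177043095616933767
  up1 := [1984777, 287792659, 41729935511, 6050840649050, 877371894112226, 127218924646272770,
    18446744073709551616, 2674777890687884984320, 387842794149743322726400]
  lo1 := [1968773, 286112633, 41565319981, 6036323594373, 876305015050709, 127166652443852369,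
    18446744073709551616, 2674777890687884984320, 387676773453079936761856]
  up2 := [1556174, 234982212, 35482313875, 5357829395106, 809032238661004, 122163868037811601,
    18446744073709551616, 2785458355130142294016, 420604211624651486396416]
  lo2 := [1541810, 233453866, 35330521984, 5344261016674, 808021507384420, 122113672876546977,
    18446744073709551616, 2785458355130142294016, 420438190927988100431872]
  c1 := 3259109
  c2 := 3295906

set_option maxRecDepth 1000000 in
theorem ok6 : okDat dat6 145 151 = true := by decide +kernel

set_option maxRecDepth 1000000 in
theorem chk6 : (List.range 24).all (chkX dat6) = true := by decide +kernel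

end Pool.Agent.MinMod
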