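import Pool.Agent.MinMod.OkDat

/-!
Data for the interval `[151, 160]` of `rho`, and the check.
-/

namespace Pool.Agent.MinMod

/-- The data. -/
def dat7 : Dat where
  m2 := [4245, 1114, 1220, 1253, 1301, 1255, 1301, 1248, 1298, 1238, 1290, 1231, 1276, 1215, 1262, 1198, 1241,
    1172, 1212, 1141, 1192, 1153, 1218, 1179, 1240, 1200, 1261, 1219, 1281, 1244, 1322, 1305, 1387, 1375,
    1463, 1459, 1556, 1569, 1678, 1711, 1840, 1904, 2063, 2157, 2240, 1940, 2013, 16383]
  wA := [71219281920, 20982858400, 25792756880, 29729481173, 34653333221, 37523275120, 43660062549,
    47003135712, 54874253192, 58753401398, 68706437160, 73593887344, 85630910464, 91519924815, 106699607550,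
    113698063672, 132195093881, 140140991700, 162665216700, 171892877716, 201571987072, 218846005537,
    259486637088, 281940513984, 332859965440, 361560196800, 426460238100, 462764406064, 545876948169,
    595001343600, 709714245800, 786398616720, 938189080768, 1043931509500, 1246814317287, 1395683836819,
    1670742278144, 1890959829264, 2270068810558, 2598162096064, 3136190254000, 3642709190400, 4430268323703,
    5199481737213, 6060687933440, 5891783649140, 6862166016948, 62688110482812]
  wB := [17387520, 4834760, 5609560, 6103363, 6714461, 6862340, 7536693, 7658976, 8439596, 8528582, 9414420,
    9518092, 10452992, 10544985, 11604090, 11670916, 12808361, 12815820, 14041020, 14004634, 15500768,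
    15884881, 17777928, 18232056, 20316160, 20829600, 23189790, 23750996, 26443683, 27206280, 30630740,
    32035140, 36073096, 37886750, 42709359, 45125411, 50987008, 54469404, 61718518, 66674248, 75964400,
    83280960, 95601483, 105902229, 116515840, 106911460, 117531018, 1013419614]
  MU := 117719365301001
  M1 := 2579120001
  Nn := 79036062319094900190184659359703790372419481640953
  Fn := 58970519208902390671296156815965148401164488
  up1 := [1556174, 234982212, 35482313875, 5357829395106, 809032238661004, 122163868037811601,
    18446744073709551616, 2785458355130142294016, 420604211624651486396416]
  lo1 := [1531333, 232250878, 35201991587, 5331935088826, 807038855552730, 122061560645300534,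
    18446744073709551616, 2785458355130142294016, 420230665057158867976192]
  up2 := [1099512, 175921861, 28147497672, 4503599627371, 720575940379280, 115292150460684698,
    18446744073709551616, 2951479051793528258560, 472236648286964521369600]
  lo2 := [1078226, 173535768, 27897831949, 4480087471085, 718730652513526, 115195597859002379,
    18446744073709551616, 2951479051793528258560, 471863101719471902949376]
  c1 := 3294199
  c2 := 3294199

set_option maxRecDepth 1000000 in
theorem ok7 : okDat dat7 151 160 = true := by decide +kernel

set_option maxRecDepth 1000000 in
theorem chk7 : (List.range 24).all (chkX dat7) = true := by decide +kernel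

end Pool.Agent.MinMod
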