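import Pool.Agent.MinMod.OkDat

/-!
Data for the interval `[160, 196]` of `rho`, and the check.
-/

namespace Pool.Agent.MinMod

/-- The data. -/
def dat8 : Dat where
  m2 := [3951, 1045, 1148, 1169, 1224, 1172, 1223, 1172, 1225, 1163, 1218, 1157, 1204, 1141, 1188, 1121, 1161,
    1078, 1128, 1078, 1118, 1086, 1169, 1122, 1198, 1152, 1231, 1188, 1267, 1229, 1310, 1275, 1357, 1327,
    1426, 1417, 1528, 1535, 1657, 1682, 1824, 1882, 2055, 2142, 2243, 1944, 2035, 16383]
  wA := [66286780416, 19683202000, 24270561392, 27736443329, 32602367304, 35041656128, 41042472327,
    44140765268, 51788104900, 55194027323, 64871659272, 69169884368, 80799072256, 85945871781, 100443053700,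
    106390258244, 123673250601, 128901014550, 151391389800, 162401859928, 189058289888, 206129021694,
    249047519504, 268309802112, 321585676288, 347097788928, 416314475100, 450995992128, 539911079883,
    587826890100, 703272059000, 768320487600, 917896598848, 1007488809532, 1215281761074, 1355506509097,
    1640677507072, 1849983006960, 2241659129377, 2554125450368, 3108919034400, 3600619063200, 4413088417455,
    5163324006078, 6068804926208, 5903931656664, 6937162366860, 62688110482812]
  wB := [16183296, 4535300, 5278504, 5694199, 6317064, 6408496, 7084839, 7192564, 7964950, 8011907, 8888964,
    8945924, 9863168, 9902739, 10923660, 10920782, 11982681, 11787930, 13067880, 13231372, 14538472, 14961822,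
    17062724, 17350608, 19628032, 19996416, 22638090, 23146992, 26154681, 26878230, 30352700, 31298700,
    35292856, 36564158, 41629218, 43826393, 50069504, 53289060, 60946117, 65544176, 75303840, 82318680,
    95230755, 105165774, 116671888, 107131896, 118815510, 1013419614]
  MU := 117186221503117
  M1 := 2549413125
  Nn := 51749603561394359274573271331810018493409269571912
  Fn := 106177035821196201141142172045917104324413476
  up1 := [1099512, 175921861, 28147497672, 4503599627371, 720575940379280, 115292150460684698,
    18446744073709551616, 2951479051793528258560, 472236648286964521369600]
  lo1 := [931849, 155429876, 25808319089, 4263121380519, 699960429425592, 114113175055140516,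
    18446744073709551616, 2951479051793528258560, 466259903207082626646016]
  up2 := [325375, 63773370, 12499580478, 2449917773647, 480183883634672, 94116041192395672,
    18446744073709551616, 3615561838447072116736, 708650120335626134880256]
  lo2 := [228075, 51036675, 10942727294, 2278564875794, 464459724198290, 93153612289910625,
    18446744073709551616, 3615561838447072116736, 702673375255744240156672]
  c1 := 3294199
  c2 := 3294199

set_option maxRecDepth 1000000 in
theorem ok8 : okDat dat8 160 196 = true := by decide +kernel

set_option maxRecDepth 1000000 in
theorem chk8 : (List.range 24).all (chkX dat8) = true := by decide +kernel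

end Pool.Agent.MinMod
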