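import Pool.Agent.MinMod.OkDat

/-!
Data for the interval `[196, 256]` of `rho`, and the check.
-/

namespace Pool.Agent.MinMod

/-- The data. -/
def dat9 : Dat where
  m2 := [3106, 838, 940, 937, 1002, 942, 1005, 945, 1007, 936, 993, 910, 967, 904, 969, 903, 950, 896, 1004,
    938, 1034, 968, 1067, 1004, 1101, 1042, 1143, 1088, 1190, 1141, 1248, 1206, 1315, 1282, 1398, 1374, 1499,
    1490, 1625, 1633, 1785, 1817, 2012, 2091, 2219, 1916, 2044, 16383]
  wA := [52110032896, 15784232800, 19873107760, 22231862617, 26689192842, 28164880608, 33726643245,
    35591316705, 42571936028, 44420988456, 52887978372, 54403279840, 64894271488, 68093837064, 81927036225,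
    85700627292, 101196888950, 107138505600, 134749073900, 141310709288, 174853552544, 183731945672,
    227317111472, 240091837184, 295547437056, 313954770888, 386553570300, 413033366528, 507098804310,
    545736762900, 669987427200, 726740790624, 889487124160, 973323778312, 1191419286102, 1314372578334,
    1609538994176, 1795748977440, 2198368186625, 2479718704192, 3042445436625, 3476261869200, 4320746421372,
    5040387720219, 6003868984064, 5818895603996, 6967842691824, 62688110482812]
  wB := [12722176, 3636920, 4322120, 4564127, 5171322, 5150856, 5821965, 5799465, 6547514, 6448104, 7246914,
    7036120, 7921664, 7845816, 8909955, 8797026, 9804950, 9797760, 11631340, 11513012, 13446136, 13336136,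
    15573932, 15525856, 18038784, 18087036, 21019770, 21198592, 24565170, 24953670, 28916160, 29604888,
    34200520, 35324228, 40811814, 42496446, 49119232, 51726840, 59769125, 63634744, 73693725, 79475580,
    93238092, 102661827, 115423504, 105588844, 119340984, 1013419614]
  MU := 115708650618107
  M1 := 2474880375
  Nn := 11893083730855062496298310416268116023342707134864
  Fn := 221285532466721770539975583646316886104980412
  up1 := [325375, 63773370, 12499580478, 2449917773647, 480183883634672, 94116041192395672,
    18446744073709551616, 3615561838447072116736, 708650120335626134880256]
  lo1 := [248706, 52054338, 10825641115, 2234462387010, 457046553312617, 92457641218373506,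
    18446744073709551616, 3615561838447072116736, 692048050669287538425856]
  up2 := [65536, 16777216, 4294967296, 1099511627776, 281474976710656, 72057594037927936,
    18446744073709551616, 4722366482869645213696, 1208925819614629174706176]
  lo2 := [28178, 10521621, 3316525890, 961667356434, 265278768705925, 70787881557817215, 18446744073709551616,
    4722366482869645213696, 1192323749948290578251776]
  c1 := 3294199
  c2 := 3294199

set_option maxRecDepth 1000000 in
theorem ok9 : okDat dat9 196 256 = true := by decide +kernel

set_option maxRecDepth 1000000 in
theorem chk9 : (List.range 24).all (chkX dat9) = true := by decide +kernel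

end Pool.Agent.MinMod
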