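import Mathlib

/-!
# MinMod (problem MP_b22b9c_an): minimum modulus against the Nevanlinna characteristic

Main definitions: minimum modulus `m0`, maximum modulus `mM`, characteristic `T`, lower order, and the best constant
`D lam`.  Then the canonical products used for the upper bound of `D lam`, `3/2 ≤ lam < 2`:
zeros at `(-16)^l * b g` (`l ≥ 0`, `g < G`, `b g ∈ [1, 16]`), with multiplicity `⌈mu g * rho^l⌉`, `rho = 16^lam`.
So for `r` in `[16^k, 16^(k+1)]` the zeros near the circle of radius `r` lie on the ray `(-1)^k * (0, ∞)`.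
-/

namespace Pool.Agent.MinMod

/-- The minimum modulus `m_0(r, f)`. -/
noncomputable def m0 (f : ℂ → ℂ) (r : ℝ) : ℝ := sInf ((fun z : ℂ => ‖f z‖) '' Metric.sphere (0 : ℂ) r)

/-- The maximum modulus `M(r, f)`. -/
noncomputable def mM (f : ℂ → ℂ) (r : ℝ) : ℝ := sSup ((fun z : ℂ => ‖f z‖) '' Metric.sphere (0 : ℂ) r)

/-- The Nevanlinna characteristic of an entire function. -/
noncomputable def T (f : ℂ → ℂ) (r : ℝ) : ℝ :=
  (2 * Real.pi)⁻¹ * ∫ t in (0 : ℝ)..(2 * Real.pi), max (Real.log ‖f (circleMap 0 r t)‖) 0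

/-- The lower order. -/
noncomputable def lowerOrder (f : ℂ → ℂ) : EReal :=
  Filter.liminf (fun r : ℝ => ((Real.log (Real.log (mM f r)) / Real.log r : ℝ) : EReal)) Filter.atTop

/-- The quotient `log m_0(r, f) / T(r, f)` (an extended real number; `log 0 = -∞`). -/
noncomputable def quot (f : ℂ → ℂ) (r : ℝ) : EReal :=
  ENNReal.log (ENNReal.ofReal (m0 f r)) / ((T f r : ℝ) : EReal)

/-- The best constant `D(lam)`: the infimum of `limsup (log m_0 / T)` over all non-constant entire functions of lower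
order `lam`. -/
noncomputable def D (lam : ℝ) : EReal :=
  sInf {v : EReal | ∃ f : ℂ → ℂ, Differentiable ℂ f ∧ (¬ ∃ c : ℂ, ∀ z, f z = c) ∧ lowerOrder f = (lam : EReal) ∧
    v = Filter.limsup (quot f) Filter.atTop}

/-- The Weierstrass factor of genus one. -/
noncomputable def E1 (w : ℂ) : ℂ := (1 - w) * Complex.exp w

/-- The zeros `(-16)^l * b g`. -/
noncomputable def zp (b : ℕ → ℝ) (l : ℤ) (g : ℕ) : ℂ := (-16 : ℂ) ^ l * (b g : ℂ)

/-- The partial products. -/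
noncomputable def PP (G : ℕ) (b mu : ℕ → ℝ) (rho : ℝ) (L : ℕ) (z : ℂ) : ℂ :=
  ∏ l ∈ Finset.range L, ∏ g ∈ Finset.range G, E1 (z / zp b (l : ℤ) g) ^ ⌈mu g * rho ^ l⌉₊

/-- Conditions on the parameters. -/
structure Good (G : ℕ) (b mu : ℕ → ℝ) : Prop where
  b1 : ∀ g < G, 1 ≤ b g
  b16 : ∀ g < G, b g ≤ 16
  mu0 : ∀ g < G, 0 ≤ mu g
  pos : ∃ g < G, 0 < mu g

/-- `f` is the canonical product. -/
def IsF (G : ℕ) (b mu : ℕ → ℝ) (rho : ℝ) (f : ℂ → ℂ) : Prop :=
  Differentiable ℂ f ∧ ∀ z, Filter.Tendsto (fun L => PP G b mu rho L z) Filter.atTop (nhds (f z))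

/-- Error bound for the zeros near the origin. -/
noncomputable def nearC (G : ℕ) (b mu : ℕ → ℝ) (K1 : ℕ) (rho : ℝ) : ℝ :=
  2 * (∑ g ∈ Finset.range G, mu g / b g) * ((16 / rho) ^ (K1 + 1) / (1 - 16 / rho))

/-- Error bound for the zeros far from the origin. -/
noncomputable def farC (G : ℕ) (b mu : ℕ → ℝ) (K0 : ℕ) (rho : ℝ) : ℝ :=
  (∑ g ∈ Finset.range G, mu g / b g ^ 3) / 2 * ((rho / 4096) ^ K0 / (1 - rho / 4096))

/-- `v` is an upper bound of the normalised potential at `ζ`: the window `-K1 ≤ p < K0` (written `p = i - K1`) is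
bounded factor by factor, the other zeros by `nearC` and `farC`. -/
def UB (G : ℕ) (b mu : ℕ → ℝ) (K0 K1 : ℕ) (rho : ℝ) (ζ : ℂ) (v : ℝ) : Prop :=
  ∃ maj : ℕ → ℕ → ℝ,
    (∀ i < K0 + K1, ∀ g < G, ‖E1 (ζ / zp b ((i : ℤ) - K1) g)‖ ≤ Real.exp (maj i g)) ∧
      (∑ i ∈ Finset.range (K0 + K1), rho ^ ((i : ℤ) - K1) * ∑ g ∈ Finset.range G, mu g * maj i g) +
        (‖ζ‖ * nearC G b mu K1 rho + ‖ζ‖ ^ 3 * farC G b mu K0 rho) ≤ v

/-- Affine interpolation (in the variable `c = cos t`) on the cell `j`. -/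
noncomputable def chord (lo hi p q : ℕ → ℝ) (j : ℕ) (c : ℝ) : ℝ :=
  (p j * (c - lo (j + 1)) + q j * (hi j - c)) / (hi j - lo (j + 1))

/-- First quadrature weight of the cell `j`. -/
noncomputable def wA (M : ℕ) (lo hi : ℕ → ℝ) (j : ℕ) : ℝ :=
  (Real.sin (Real.pi * ((j : ℝ) + 1) / M) - Real.sin (Real.pi * j / M) - lo (j + 1) * (Real.pi / M)) /
    (hi j - lo (j + 1)) / Real.pi

/-- Second quadrature weight of the cell `j`. -/
noncomputable def wB (M : ℕ) (lo hi : ℕ → ℝ) (j : ℕ) : ℝ :=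
  (hi j * (Real.pi / M) - (Real.sin (Real.pi * ((j : ℝ) + 1) / M) - Real.sin (Real.pi * j / M))) /
    (hi j - lo (j + 1)) / Real.pi

end Pool.Agent.MinMod
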