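import Pool.Agent.MinMod.Fac

/-!
EstNear: the zeros near the origin.

PROOF.  `‖ζ / zp b (l - k) g‖ = ‖ζ‖ 16^(k-l) / b g`, `norm_E1_two`, `⌈mu g rho^l⌉ ≤ mu g rho^l + 1`.  So the product is at most
`exp (∑_{l<k-K1} ∑_g (mu g rho^l + 1) * 2 ‖ζ‖ 16^(k-l) / b g)`.  With `l = k - q`, `q` from `K1 + 1` to `k`:
`∑ mu g rho^(k-q) * 2 ‖ζ‖ 16^q / b g ≤ rho^k * ‖ζ‖ * 2 (∑ mu g / b g) ∑_{q ≥ K1+1} (16/rho)^q = rho^k ‖ζ‖ nearC`, and
`∑ 2 ‖ζ‖ 16^(k-l) / b g ≤ 32 G 16^k ∑_{l ≥ 0} 16^(-l) ≤ 35 G 16^k`.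
-/

namespace Pool.Agent.MinMod

private theorem en_geom {x : ℝ} (h0 : 0 ≤ x) (h1 : x < 1) (n : ℕ) :
    ∑ j ∈ Finset.range n, x ^ j ≤ 1 / (1 - x) := by
  rw [le_div_iff₀ (by linarith), geom_sum_mul_neg]
  have := pow_nonneg h0 n
  linarith

private theorem en_norm {b : ℕ → ℝ} {g l k : ℕ} (hb : 1 ≤ b g) (hl : l ≤ k) (ζ : ℂ) :
    ‖ζ / zp b ((l : ℤ) - k) g‖ = ‖ζ‖ * 16 ^ (k - l) / b g := by
  have hb0 : 0 < b g := by linarith
  have h1 : (l : ℤ) - k = -((k - l : ℕ) : ℤ) := by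
    push_cast [Nat.cast_sub hl]
    ring
  unfold zp
  rw [norm_div, norm_mul, norm_zpow, norm_neg, h1, zpow_neg, zpow_natCast, Complex.norm_real,
    Real.norm_of_nonneg hb0.le]
  have h2 : ‖(16 : ℂ)‖ = 16 := by simp
  rw [h2]
  field_simp

private theorem en_factor {b mu : ℕ → ℝ} {rho : ℝ} {g l k : ℕ} (hb : 1 ≤ b g) (hmu : 0 ≤ mu g)
    (h0 : 0 ≤ rho) (hl : l ≤ k) (ζ : ℂ) :
    ‖E1 (ζ / zp b ((l : ℤ) - k) g)‖ ^ ⌈mu g * rho ^ l⌉₊ ≤
      Real.exp ((mu g * rho ^ l + 1) * (2 * (‖ζ‖ * 16 ^ (k - l) / b g))) := by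
  have h1 := norm_E1_two (ζ / zp b ((l : ℤ) - k) g)
  rw [en_norm hb hl] at h1
  have hb0 : 0 < b g := by linarith
  refine (pow_le_pow_left₀ (norm_nonneg _) h1 _).trans ?_
  rw [← Real.exp_nat_mul]
  refine Real.exp_le_exp.2 (mul_le_mul_of_nonneg_right ?_ (by positivity))
  exact (Nat.ceil_lt_add_one (mul_nonneg hmu (pow_nonneg h0 l))).le

private theorem en_sum1 {rho : ℝ} (h0 : 16 < rho) {K1 k : ℕ} (hk : K1 ≤ k) :
    ∑ l ∈ Finset.range (k - K1), rho ^ l * 16 ^ (k - l) ≤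
      rho ^ k * ((16 / rho) ^ (K1 + 1) / (1 - 16 / rho)) := by
  have hρ : 0 < rho := by linarith
  have hx0 : 0 ≤ 16 / rho := by positivity
  have hx1 : 16 / rho < 1 := by
    rw [div_lt_one hρ]
    exact h0
  have e1 : ∀ l ∈ Finset.range (k - K1), rho ^ l * 16 ^ (k - l) =
      rho ^ k * (16 / rho) ^ (k - l) := by
    intro l hl
    have hl' := Finset.mem_range.1 hl
    have e2 : rho ^ k = rho ^ l * rho ^ (k - l) := by
      rw [← pow_add]
      congr 1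
      omega
    rw [e2, div_pow]
    field_simp
  have e3 : ∑ l ∈ Finset.range (k - K1), (16 / rho) ^ (k - l) =
      (16 / rho) ^ (K1 + 1) * ∑ j ∈ Finset.range (k - K1), (16 / rho) ^ j := by
    rw [Finset.mul_sum, ← Finset.sum_range_reflect]
    refine Finset.sum_congr rfl fun j hj => ?_
    have hj' := Finset.mem_range.1 hj
    rw [← pow_add]
    congr 1
    omega
  rw [Finset.sum_congr rfl e1, ← Finset.mul_sum, e3]
  refine mul_le_mul_of_nonneg_left ?_ (by positivity)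
  have h3 := mul_le_mul_of_nonneg_left (en_geom hx0 hx1 (k - K1)) (pow_nonneg hx0 (K1 + 1))
  refine h3.trans (le_of_eq ?_)
  ring

private theorem en_sum2 {K1 k : ℕ} :
    ∑ l ∈ Finset.range (k - K1), (16 : ℝ) ^ (k - l) ≤ 16 ^ k * (16 / 15) := by
  have e1 : ∀ l ∈ Finset.range (k - K1), (16 : ℝ) ^ (k - l) = 16 ^ k * (1 / 16) ^ l := by
    intro l hl
    have hl' := Finset.mem_range.1 hl
    have e2 : (16 : ℝ) ^ k = 16 ^ l * 16 ^ (k - l) := by
      rw [← pow_add]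
      congr 1
      omega
    rw [e2, div_pow, one_pow]
    field_simp
  rw [Finset.sum_congr rfl e1, ← Finset.mul_sum]
  refine mul_le_mul_of_nonneg_left ?_ (by positivity)
  refine (en_geom (by norm_num) (by norm_num) _).trans (le_of_eq ?_)
  norm_num

theorem est_near {G : ℕ} {b mu : ℕ → ℝ} {rho : ℝ} (h : Good G b mu) (h0 : 16 < rho) {K1 k : ℕ} (hk : K1 ≤ k) {ζ : ℂ}
    (hζ : ‖ζ‖ ≤ 16) :
    ∏ l ∈ Finset.range (k - K1), ∏ g ∈ Finset.range G,
        ‖E1 (ζ / zp b ((l : ℤ) - k) g)‖ ^ ⌈mu g * rho ^ l⌉₊ ≤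
      Real.exp (rho ^ k * (‖ζ‖ * nearC G b mu K1 rho) + 35 * G * 16 ^ k) := by
  have hρ : 0 < rho := by linarith
  have hkk : ∀ l ∈ Finset.range (k - K1), l ≤ k := fun l hl => by
    have := Finset.mem_range.1 hl
    omega
  have hprod : ∏ l ∈ Finset.range (k - K1), ∏ g ∈ Finset.range G,
        ‖E1 (ζ / zp b ((l : ℤ) - k) g)‖ ^ ⌈mu g * rho ^ l⌉₊ ≤
      Real.exp (∑ l ∈ Finset.range (k - K1), ∑ g ∈ Finset.range G,
        (mu g * rho ^ l + 1) * (2 * (‖ζ‖ * 16 ^ (k - l) / b g))) := by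
    rw [Real.exp_sum]
    refine Finset.prod_le_prod (fun l _ => Finset.prod_nonneg fun g _ =>
      pow_nonneg (norm_nonneg _) _) fun l hl => ?_
    rw [Real.exp_sum]
    refine Finset.prod_le_prod (fun g _ => pow_nonneg (norm_nonneg _) _) fun g hg => ?_
    have hg' := Finset.mem_range.1 hg
    exact en_factor (h.b1 g hg') (h.mu0 g hg') hρ.le (hkk l hl) ζ
  refine hprod.trans (Real.exp_le_exp.2 ?_)
  have hsplit : ∑ l ∈ Finset.range (k - K1), ∑ g ∈ Finset.range G,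
        (mu g * rho ^ l + 1) * (2 * (‖ζ‖ * 16 ^ (k - l) / b g)) =
      (2 * ‖ζ‖ * ∑ g ∈ Finset.range G, mu g / b g) *
        (∑ l ∈ Finset.range (k - K1), rho ^ l * 16 ^ (k - l)) +
      ∑ l ∈ Finset.range (k - K1), ∑ g ∈ Finset.range G, 2 * (‖ζ‖ * 16 ^ (k - l) / b g) := by
    rw [Finset.mul_sum, ← Finset.sum_add_distrib]
    refine Finset.sum_congr rfl fun l _ => ?_
    rw [mul_comm (2 * ‖ζ‖) _, mul_assoc, Finset.sum_mul, ← Finset.sum_add_distrib]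
    refine Finset.sum_congr rfl fun g _ => ?_
    ring
  rw [hsplit]
  refine add_le_add ?_ ?_
  · have hmu : 0 ≤ ∑ g ∈ Finset.range G, mu g / b g := Finset.sum_nonneg fun g hg => by
      have hg' := Finset.mem_range.1 hg
      exact div_nonneg (h.mu0 g hg') (le_trans zero_le_one (h.b1 g hg'))
    refine (mul_le_mul_of_nonneg_left (en_sum1 h0 hk) (by positivity)).trans (le_of_eq ?_)
    unfold nearC
    ring
  · calc ∑ l ∈ Finset.range (k - K1), ∑ g ∈ Finset.range G, 2 * (‖ζ‖ * 16 ^ (k - l) / b g)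
        ≤ ∑ l ∈ Finset.range (k - K1), ∑ _g ∈ Finset.range G, 32 * (16 : ℝ) ^ (k - l) := by
          refine Finset.sum_le_sum fun l _ => Finset.sum_le_sum fun g hg => ?_
          have hg' := Finset.mem_range.1 hg
          have hb := h.b1 g hg'
          have h2 : ‖ζ‖ * 16 ^ (k - l) / b g ≤ ‖ζ‖ * 16 ^ (k - l) :=
            div_le_self (by positivity) hb
          have h3 : ‖ζ‖ * 16 ^ (k - l) ≤ 16 * 16 ^ (k - l) :=
            mul_le_mul_of_nonneg_right hζ (by positivity)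
          linarith
      _ = 32 * G * ∑ l ∈ Finset.range (k - K1), (16 : ℝ) ^ (k - l) := by
          rw [Finset.mul_sum]
          refine Finset.sum_congr rfl fun l _ => ?_
          rw [Finset.sum_const, Finset.card_range, nsmul_eq_mul]
          ring
      _ ≤ 32 * G * (16 ^ k * (16 / 15)) := mul_le_mul_of_nonneg_left en_sum2 (by positivity)
      _ ≤ 35 * G * 16 ^ k := by
          have h4 : (0 : ℝ) ≤ G * 16 ^ k := by positivity
          nlinarith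

end Pool.Agent.MinMod
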