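import Pool.Agent.MinMod.Defs

/-!
Fac: bounds for the Weierstrass factor `E1 w = (1 - w) e^w`.

PROOFS.  `‖E1 w‖ = ‖1 - w‖ * exp (w.re)`.
* `norm_E1_node`: with `y = ‖1 - w‖^2`, `y * exp (-l) ≤ r y ≤ exp (r y - 1)` (`Real.add_one_le_exp`), so `y ≤ exp (l - 1 + r y)`,
  take the square root.
* `norm_E1_axis`: the same with `y = |1 - w|`.
* `norm_E1_sq`: `norm_E1_node` with `r = 1`, `l = 0` (`‖1 - w‖^2 = 1 - 2 w.re + ‖w‖^2`).
* `norm_E1_two`: `‖1 - w‖ ≤ 1 + ‖w‖ ≤ exp ‖w‖` and `w.re ≤ ‖w‖`.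
* `norm_E1_far`: `(1 - w) e^(w + w^2/2) = exp (log (1 - w) + w + w^2/2)`, and
  `‖log (1 - w) + w + w^2/2‖ ≤ ‖w‖^3 / (3 (1 - ‖w‖)) ≤ ‖w‖^3 / 2` (`Complex.norm_log_sub_logTaylor_le` at `-w` with `n = 2`).
* `norm_E1_sub_one`: `E1 w - 1 = (1 - w) (e^w - 1 - w) - w^2` and `Complex.norm_exp_sub_one_sub_id_le`.
* `one_le_norm_E1_im`: `‖E1 (t I)‖^2 = 1 + t^2`.
-/

namespace Pool.Agent.MinMod

private theorem fac_exp {r l y : ℝ} (h : Real.exp (-l) ≤ r) (hy : 0 ≤ y) :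
    y ≤ Real.exp (l - 1 + r * y) := by
  have h1 : y * Real.exp (-l) ≤ r * y := by
    rw [mul_comm r y]
    exact mul_le_mul_of_nonneg_left h hy
  have h2 := Real.add_one_le_exp (r * y - 1)
  have h3 : y * Real.exp (-l) ≤ Real.exp (r * y - 1) := by linarith
  have h4 : y = y * Real.exp (-l) * Real.exp l := by
    rw [mul_assoc, ← Real.exp_add]
    simp
  rw [h4]
  refine (mul_le_mul_of_nonneg_right h3 (Real.exp_pos l).le).trans ?_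
  rw [← Real.exp_add, ← h4]
  refine Real.exp_le_exp.2 (le_of_eq ?_)
  ring

private theorem fac_sq (w : ℂ) : ‖1 - w‖ ^ 2 = 1 - 2 * w.re + ‖w‖ ^ 2 := by
  rw [← Complex.normSq_eq_norm_sq, ← Complex.normSq_eq_norm_sq, Complex.normSq_apply,
    Complex.normSq_apply]
  simp
  ring

theorem norm_E1 (w : ℂ) : ‖E1 w‖ = ‖1 - w‖ * Real.exp w.re := by
  unfold E1
  rw [norm_mul, Complex.norm_exp]

theorem norm_E1_two (w : ℂ) : ‖E1 w‖ ≤ Real.exp (2 * ‖w‖) := by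
  rw [norm_E1, two_mul, Real.exp_add]
  refine mul_le_mul ?_ (Real.exp_le_exp.2 (Complex.re_le_norm w)) (Real.exp_pos _).le
    (Real.exp_pos _).le
  have h1 : ‖1 - w‖ ≤ ‖(1 : ℂ)‖ + ‖w‖ := norm_sub_le _ _
  rw [norm_one] at h1
  have h2 := Real.add_one_le_exp ‖w‖
  linarith

theorem norm_E1_sq (w : ℂ) : ‖E1 w‖ ≤ Real.exp (‖w‖ ^ 2 / 2) := by
  have h1 : ‖1 - w‖ ^ 2 = 1 - 2 * w.re + ‖w‖ ^ 2 := fac_sq w
  have h2 : ‖1 - w‖ ≤ Real.exp ((0 - 1 + 1 * (1 - 2 * w.re + ‖w‖ ^ 2)) / 2) := by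
    have h3 := fac_exp (r := 1) (l := 0) (by simp) (sq_nonneg ‖1 - w‖)
    have h4 : |‖1 - w‖| ≤ Real.exp ((0 - 1 + 1 * (1 - 2 * w.re + ‖w‖ ^ 2)) / 2) := by
      refine abs_le_of_sq_le_sq ?_ (Real.exp_pos _).le
      rw [← Real.exp_nat_mul, ← h1]
      refine h3.trans (Real.exp_le_exp.2 (le_of_eq ?_))
      push_cast
      ring
    rwa [abs_of_nonneg (norm_nonneg _)] at h4
  rw [norm_E1]
  refine (mul_le_mul_of_nonneg_right h2 (Real.exp_pos _).le).trans ?_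
  rw [← Real.exp_add]
  refine Real.exp_le_exp.2 (le_of_eq ?_)
  ring

theorem norm_E1_node {r l : ℝ} (h : Real.exp (-l) ≤ r) (w : ℂ) :
    ‖E1 w‖ ≤ Real.exp ((l - 1 + r * (1 - 2 * w.re + ‖w‖ ^ 2)) / 2 + w.re) := by
  have h1 := fac_sq w
  have h3 := fac_exp h (sq_nonneg ‖1 - w‖)
  have h2 : ‖1 - w‖ ≤ Real.exp ((l - 1 + r * (1 - 2 * w.re + ‖w‖ ^ 2)) / 2) := by
    have h4 : |‖1 - w‖| ≤ Real.exp ((l - 1 + r * (1 - 2 * w.re + ‖w‖ ^ 2)) / 2) := by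
      refine abs_le_of_sq_le_sq ?_ (Real.exp_pos _).le
      rw [← Real.exp_nat_mul, ← h1]
      refine h3.trans (Real.exp_le_exp.2 (le_of_eq ?_))
      push_cast
      ring
    rwa [abs_of_nonneg (norm_nonneg _)] at h4
  rw [norm_E1, Real.exp_add]
  exact mul_le_mul_of_nonneg_right h2 (Real.exp_pos _).le

theorem norm_E1_axis {r l : ℝ} (h : Real.exp (-l) ≤ r) (w : ℝ) :
    ‖E1 (w : ℂ)‖ ≤ Real.exp (l - 1 + r * |1 - w| + w) := by
  have h1 : ‖(1 : ℂ) - (w : ℂ)‖ = |1 - w| := by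
    rw [← Complex.ofReal_one, ← Complex.ofReal_sub, Complex.norm_real, Real.norm_eq_abs]
  rw [norm_E1, h1, Complex.ofReal_re, Real.exp_add]
  exact mul_le_mul_of_nonneg_right (fac_exp h (abs_nonneg _)) (Real.exp_pos _).le

theorem norm_E1_far (w : ℂ) (h : ‖w‖ ≤ 1 / 8) : ‖E1 w‖ ≤ Real.exp (-(w ^ 2).re / 2 + ‖w‖ ^ 3 / 2) := by
  have hw1 : ‖w‖ < 1 := by linarith
  have hne : (1 : ℂ) + -w ≠ 0 := by
    intro h0
    have h1 : w = 1 := by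
      have := sub_eq_zero.1 (show (1 : ℂ) - w = 0 by rw [sub_eq_add_neg]; exact h0)
      exact this.symm
    rw [h1, norm_one] at hw1
    linarith
  have h1 := Complex.norm_log_sub_logTaylor_le 2 (z := -w) (by rw [norm_neg]; exact hw1)
  have h2 : Complex.logTaylor (2 + 1) (-w) = -w - w ^ 2 / 2 := by
    simp [Complex.logTaylor, Finset.sum_range_succ]
    ring
  rw [h2, norm_neg] at h1
  have h3 : ‖w‖ ^ (2 + 1) * (1 - ‖w‖)⁻¹ / ((2 : ℕ) + 1 : ℝ) ≤ ‖w‖ ^ 3 / 2 := by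
    have h4 : (1 - ‖w‖)⁻¹ ≤ 8 / 7 := by
      rw [inv_le_comm₀ (by linarith) (by norm_num)]
      norm_num
      linarith
    have h5 : 0 ≤ ‖w‖ ^ 3 := by positivity
    push_cast
    nlinarith
  have h6 : ‖Complex.log (1 + -w) - (-w - w ^ 2 / 2)‖ ≤ ‖w‖ ^ 3 / 2 := h1.trans h3
  have h7 : E1 w = Complex.exp (Complex.log (1 + -w) - (-w - w ^ 2 / 2)) *
      Complex.exp (-(w ^ 2 / 2)) := by
    rw [← Complex.exp_add]
    have h8 : Complex.log (1 + -w) - (-w - w ^ 2 / 2) + -(w ^ 2 / 2) =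
        Complex.log (1 + -w) + w := by ring
    rw [h8, Complex.exp_add, Complex.exp_log hne]
    unfold E1
    ring
  rw [h7, norm_mul, Complex.norm_exp, Complex.norm_exp, ← Real.exp_add]
  refine Real.exp_le_exp.2 ?_
  have h9 := (Complex.re_le_norm (Complex.log (1 + -w) - (-w - w ^ 2 / 2))).trans h6
  have h10 : (-(w ^ 2 / 2)).re = -(w ^ 2).re / 2 := by
    have h11 : w ^ 2 / 2 = w ^ 2 / ((2 : ℝ) : ℂ) := by norm_num
    rw [h11, Complex.neg_re, Complex.div_ofReal_re]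
    ring
  rw [h10]
  linarith

theorem norm_E1_sub_one (w : ℂ) (h : ‖w‖ ≤ 1) : ‖E1 w - 1‖ ≤ 3 * ‖w‖ ^ 2 := by
  have h1 : E1 w - 1 = (1 - w) * (Complex.exp w - 1 - w) - w ^ 2 := by
    unfold E1
    ring
  have h2 := Complex.norm_exp_sub_one_sub_id_le h
  have h3 : ‖1 - w‖ ≤ 2 := by
    have h4 : ‖1 - w‖ ≤ ‖(1 : ℂ)‖ + ‖w‖ := norm_sub_le _ _
    rw [norm_one] at h4
    linarith
  rw [h1]
  refine (norm_sub_le _ _).trans ?_
  rw [norm_mul, norm_pow]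
  have h5 : ‖1 - w‖ * ‖Complex.exp w - 1 - w‖ ≤ 2 * ‖w‖ ^ 2 :=
    mul_le_mul h3 h2 (norm_nonneg _) (by norm_num)
  linarith

theorem norm_E1_im (t : ℝ) : ‖E1 ((t : ℂ) * Complex.I)‖ = Real.sqrt (1 + t ^ 2) := by
  have h1 : ((t : ℂ) * Complex.I).re = 0 := by simp
  have h2 := fac_sq ((t : ℂ) * Complex.I)
  have h3 : ‖(t : ℂ) * Complex.I‖ ^ 2 = t ^ 2 := by
    rw [norm_mul, Complex.norm_I, mul_one, Complex.norm_real, Real.norm_eq_abs, sq_abs]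
  rw [norm_E1, h1, Real.exp_zero, mul_one]
  rw [h1, h3] at h2
  rw [← Real.sqrt_sq (norm_nonneg (1 - (t : ℂ) * Complex.I)), h2]
  congr 1
  ring

end Pool.Agent.MinMod
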