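import Pool.Agent.MinMod.Sem

/-!
OkDat: the conditions `DatOK` as a check in natural numbers (end points `R1`, `R2` natural numbers, `S = R1 + R2`, `d = R2 - R1`,
`rm = S / 2`).

PROOF.  The fields `len`, `wA`, `wB`, `MU`, `M1`, `m2lt`, `m2pos`, `lu1`, `lu2` are read off.  `up`: for `i ≤ 6`, `q = 6 - i`, `R^(i-6) = 1 / R^q ≤ up / 2^64`
iff `2^64 ≤ up * R^q`; for `i = 7, 8`: `R^(i-6) ≤ up / 2^64`; both are `2^64 * R^(i-6) ≤ up * R^(6-i)` with truncated subtractions (cases on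
`i`: `interval_cases i`).  `lo`: with `(R - rm)/rm = ± d / S`: for `i ≤ 6`, `rm^(-q) (1 - q (R - rm)/rm) = 2^q / S^q * (S ∓ q d) / S`; for `i = 6 + p`:
`rm^p (1 + p (R - rm)/rm) = S^p / 2^p * (S ± p d) / S`.  `Nn`: `(16/R)^7 / (1 - 16/R) = 16^7 / (R^6 (R - 16))`.
`Fn`: `(R/4096)^3 / (1 - R/4096) = R^3 / (4096^2 (4096 - R))`.
-/

namespace Pool.Agent.MinMod

/-- The check of the data. -/
def okDat (A : Dat) (R1 R2 : ℕ) : Bool :=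
  decide (A.m2.length = 48) &&
  decide (A.wA = (List.range 48).map (fun g => A.m2.getD g 0 * tabB.getD g 0 ^ 2)) &&
  decide (A.wB = (List.range 48).map (fun g => A.m2.getD g 0 * tabB.getD g 0)) &&
  decide (A.MU = (A.wA).sum) && decide (A.M1 = (A.wB).sum) &&
  A.m2.all (fun m => Nat.blt m (2 ^ 14)) && Nat.blt 0 (A.m2.getD 0 0) &&
  Nat.blt 16 R1 && Nat.blt R1 R2 && Nat.ble R2 256 &&
  Nat.ble (2 * A.M1 * 16 ^ 7 * 2 ^ 168) (A.Nn * 2 ^ 12 * R1 ^ 6 * (R1 - 16)) &&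
  Nat.ble (A.m2.sum * R2 ^ 3 * 2 ^ 144) (2 * A.Fn * 4096 ^ 2 * (4096 - R2)) &&
  (List.range 9).all (fun i =>
    Nat.ble (2 ^ 64 * R1 ^ (i - 6)) (A.up1.getD i 0 * R1 ^ (6 - i)) &&
    Nat.ble (2 ^ 64 * R2 ^ (i - 6)) (A.up2.getD i 0 * R2 ^ (6 - i)) &&
    Nat.ble (A.lo1.getD i 0) (A.up1.getD i 0) && Nat.ble (A.lo2.getD i 0) (A.up2.getD i 0)) &&
  (List.range 7).all (fun i =>
    Nat.ble ((6 - i) * (R2 - R1)) (R1 + R2) &&
    Nat.ble (A.lo1.getD i 0 * (R1 + R2) ^ (6 - i + 1)) (2 ^ (64 + (6 - i)) * (R1 + R2 + (6 - i) * (R2 - R1))) &&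
    Nat.ble (A.lo2.getD i 0 * (R1 + R2) ^ (6 - i + 1)) (2 ^ (64 + (6 - i)) * (R1 + R2 - (6 - i) * (R2 - R1)))) &&
  (List.range 2).all (fun p =>
    Nat.ble ((p + 1) * (R2 - R1)) (R1 + R2) &&
    Nat.ble (A.lo1.getD (7 + p) 0 * (2 ^ (p + 1) * (R1 + R2))) (2 ^ 64 * (R1 + R2) ^ (p + 1) * (R1 + R2 - (p + 1) * (R2 - R1))) &&
    Nat.ble (A.lo2.getD (7 + p) 0 * (2 ^ (p + 1) * (R1 + R2))) (2 ^ 64 * (R1 + R2) ^ (p + 1) * (R1 + R2 + (p + 1) * (R2 - R1))))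

private lemma zpDat {R : ℝ} (hR : 0 < R) (i : ℕ) : R ^ ((i : ℤ) - 6) * R ^ (6 - i) = R ^ (i - 6) := by
  rcases le_total i 6 with h | h
  · obtain ⟨k, hk⟩ := Nat.exists_eq_add_of_le h
    have e1 : ((i : ℤ) - 6) = -(k : ℤ) := by omega
    have e2 : 6 - i = k := by omega
    have e3 : i - 6 = 0 := by omega
    rw [e1, e2, e3, zpow_neg, zpow_natCast, pow_zero]
    exact inv_mul_cancel₀ (pow_ne_zero _ hR.ne')
  · obtain ⟨k, hk⟩ := Nat.exists_eq_add_of_le h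
    have e1 : ((i : ℤ) - 6) = (k : ℤ) := by omega
    have e2 : 6 - i = 0 := by omega
    have e3 : i - 6 = k := by omega
    rw [e1, e2, e3, zpow_natCast, pow_zero, mul_one]

private lemma up_of {R : ℕ} (hR : 0 < R) {a i : ℕ} (h : 2 ^ 64 * R ^ (i - 6) ≤ a * R ^ (6 - i)) :
    (R : ℝ) ^ ((i : ℤ) - 6) ≤ (a : ℝ) / 2 ^ 64 := by
  have hR' : (0 : ℝ) < R := by exact_mod_cast hR
  have h1 : (2 : ℝ) ^ 64 * (R : ℝ) ^ (i - 6) ≤ a * (R : ℝ) ^ (6 - i) := by exact_mod_cast h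
  rw [← zpDat hR' i] at h1
  have h2 : (0 : ℝ) < (R : ℝ) ^ (6 - i) := pow_pos hR' _
  rw [le_div_iff₀ (by positivity)]
  have h3 : ((R : ℝ) ^ ((i : ℤ) - 6) * 2 ^ 64) * (R : ℝ) ^ (6 - i) ≤ a * (R : ℝ) ^ (6 - i) := by
    calc ((R : ℝ) ^ ((i : ℤ) - 6) * 2 ^ 64) * (R : ℝ) ^ (6 - i)
        = (2 : ℝ) ^ 64 * ((R : ℝ) ^ ((i : ℤ) - 6) * (R : ℝ) ^ (6 - i)) := by ring
      _ ≤ _ := h1
  exact le_of_mul_le_mul_right h3 h2

private lemma lo_neg {a S w : ℝ} {q : ℕ} (hS : 0 < S) (h : a * S ^ (q + 1) ≤ 2 ^ (64 + q) * (S + w)) :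
    a / 2 ^ 64 ≤ (S / 2) ^ (-(q : ℤ)) * (1 + w / S) := by
  rw [zpow_neg, zpow_natCast, div_le_iff₀ (by positivity)]
  have e : ((S / 2) ^ q)⁻¹ * (1 + w / S) * 2 ^ 64 = (2 ^ (64 + q) * (S + w)) / S ^ (q + 1) := by
    have : S ≠ 0 := hS.ne'
    rw [div_pow, inv_div, pow_add, pow_succ]
    field_simp
    ring
  rw [e, le_div_iff₀ (pow_pos hS _)]
  exact h

private lemma lo_pos {a S w : ℝ} {p : ℕ} (hS : 0 < S) (h : a * (2 ^ p * S) ≤ 2 ^ 64 * S ^ p * (S + w)) :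
    a / 2 ^ 64 ≤ (S / 2) ^ (p : ℤ) * (1 + w / S) := by
  rw [zpow_natCast, div_le_iff₀ (by positivity)]
  have e : (S / 2) ^ p * (1 + w / S) * 2 ^ 64 = (2 ^ 64 * S ^ p * (S + w)) / (2 ^ p * S) := by
    have : S ≠ 0 := hS.ne'
    rw [div_pow]
    field_simp
  rw [e, le_div_iff₀ (by positivity)]
  exact h

private lemma sum_map_range (f : ℕ → ℕ) (n : ℕ) : ((List.range n).map f).sum = ∑ g ∈ Finset.range n, f g := by
  induction n with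
  | zero => simp
  | succ n ih => rw [List.range_succ, List.map_append, List.sum_append, ih, Finset.sum_range_succ]; simp

private lemma sum_getD (l : List ℕ) : ∑ g ∈ Finset.range l.length, l.getD g 0 = l.sum := by
  induction l with
  | nil => simp
  | cons a l ih =>
    rw [List.length_cons, Finset.sum_range_succ', List.sum_cons, ← ih]
    simp [add_comm]

theorem datOK_of {A : Dat} {R1 R2 : ℕ} (h : okDat A R1 R2 = true) : DatOK A (R1 : ℝ) (R2 : ℝ) := by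
  unfold okDat at h
  simp only [Bool.and_eq_true, decide_eq_true_eq, List.all_eq_true, List.mem_range] at h
  obtain ⟨⟨⟨⟨⟨⟨⟨⟨⟨⟨⟨⟨⟨⟨hlen, hwA⟩, hwB⟩, hMU⟩, hM1⟩, hm⟩, hm0⟩, hR16⟩, hR12⟩, hR256⟩, hNn⟩, hFn⟩, h9⟩, h7⟩, h2⟩ := h
  have hb : ∀ {a b : ℕ}, Nat.ble a b = true → a ≤ b := fun h => Nat.le_of_ble_eq_true h
  have hb' : ∀ {a b : ℕ}, Nat.blt a b = true → a < b := fun h => Nat.le_of_ble_eq_true h
  have r16 := hb' hR16
  have r12 := hb' hR12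
  have r256 := hb hR256
  have r16' : (16 : ℝ) < R1 := by exact_mod_cast r16
  have r12' : (R1 : ℝ) < R2 := by exact_mod_cast r12
  have r256' : (R2 : ℝ) ≤ 256 := by exact_mod_cast r256
  have hS : (0 : ℝ) < (R1 : ℝ) + R2 := by linarith
  have hSne : ((R1 : ℝ) + R2) ≠ 0 := hS.ne'
  have e1 : ∀ c : ℝ, (c * ((R1 : ℝ) - ((R1 : ℝ) + R2) / 2) / (((R1 : ℝ) + R2) / 2)) =
      (-(c * ((R2 : ℝ) - R1))) / ((R1 : ℝ) + R2) := by
    intro c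
    field_simp
    ring
  have e2 : ∀ c : ℝ, (c * ((R2 : ℝ) - ((R1 : ℝ) + R2) / 2) / (((R1 : ℝ) + R2) / 2)) =
      ((c * ((R2 : ℝ) - R1))) / ((R1 : ℝ) + R2) := by
    intro c
    field_simp
    ring
  have hd : ((R2 - R1 : ℕ) : ℝ) = (R2 : ℝ) - R1 := by
    rw [Nat.cast_sub r12.le]
  refine ⟨hlen, hwA, hwB, ?_, ?_, ?_, ?_, r16', r12', r256', ?_, ?_, ?_, ?_, ?_, ?_, ?_, ?_⟩
  · rw [hMU, hwA, sum_map_range]
  · rw [hM1, hwB, sum_map_range]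
  · intro g hg
    have hg' : g < A.m2.length := by rw [hlen]; exact hg
    rw [List.getD_eq_getElem _ _ hg']
    exact hb' (hm _ (List.getElem_mem hg'))
  · exact ⟨0, by norm_num, hb' hm0⟩
  · have h3 := hb hNn
    have h4 : 2 * (A.M1 : ℝ) * 16 ^ 7 * 2 ^ 168 ≤ (A.Nn : ℝ) * 2 ^ 12 * (R1 : ℝ) ^ 6 * ((R1 : ℝ) - 16) := by
      have : ((R1 - 16 : ℕ) : ℝ) = (R1 : ℝ) - 16 := by
        rw [Nat.cast_sub r16.le]; norm_num
      rw [← this]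
      exact_mod_cast h3
    have hR : (0 : ℝ) < R1 := by linarith
    have hR' : (0 : ℝ) < (R1 : ℝ) - 16 := by linarith
    have e3 : (16 / (R1 : ℝ)) ^ 7 / (1 - 16 / R1) = 16 ^ 7 / ((R1 : ℝ) ^ 6 * ((R1 : ℝ) - 16)) := by
      have h5 : (R1 : ℝ) ≠ 0 := hR.ne'
      have h6 : (R1 : ℝ) - 16 ≠ 0 := hR'.ne'
      field_simp
    rw [e3]
    have e4 : 2 * ((A.M1 : ℝ) / 2 ^ 12) * (16 ^ 7 / ((R1 : ℝ) ^ 6 * ((R1 : ℝ) - 16))) =
        (2 * (A.M1 : ℝ) * 16 ^ 7) / (2 ^ 12 * (R1 : ℝ) ^ 6 * ((R1 : ℝ) - 16)) := by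
      field_simp
    rw [e4, div_le_div_iff₀ (by positivity) (by positivity)]
    calc 2 * (A.M1 : ℝ) * 16 ^ 7 * 2 ^ 168 ≤ (A.Nn : ℝ) * 2 ^ 12 * (R1 : ℝ) ^ 6 * ((R1 : ℝ) - 16) := h4
      _ = _ := by ring
  · have h3 := hb hFn
    have h4 : ((A.m2.sum : ℕ) : ℝ) * (R2 : ℝ) ^ 3 * 2 ^ 144 ≤ 2 * (A.Fn : ℝ) * 4096 ^ 2 * (4096 - (R2 : ℝ)) := by
      have : ((4096 - R2 : ℕ) : ℝ) = 4096 - (R2 : ℝ) := by
        rw [Nat.cast_sub (by omega)]; norm_num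
      rw [← this]
      exact_mod_cast h3
    have hR' : (0 : ℝ) < 4096 - (R2 : ℝ) := by linarith
    have e3 : ((R2 : ℝ) / 4096) ^ 3 / (1 - R2 / 4096) = (R2 : ℝ) ^ 3 / (4096 ^ 2 * (4096 - (R2 : ℝ))) := by
      have h6 : 4096 - (R2 : ℝ) ≠ 0 := hR'.ne'
      have h7 : 1 - (R2 : ℝ) / 4096 = (4096 - (R2 : ℝ)) / 4096 := by ring
      rw [h7]
      field_simp
    have e5 : ∑ g ∈ Finset.range 48, m2R A g = ((A.m2.sum : ℕ) : ℝ) := by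
      rw [← sum_getD, hlen]
      push_cast
      rfl
    rw [e3, e5]
    have e4 : ((A.m2.sum : ℕ) : ℝ) / 2 * ((R2 : ℝ) ^ 3 / (4096 ^ 2 * (4096 - (R2 : ℝ)))) =
        (((A.m2.sum : ℕ) : ℝ) * (R2 : ℝ) ^ 3) / (2 * 4096 ^ 2 * (4096 - (R2 : ℝ))) := by
      field_simp
    rw [e4, div_le_div_iff₀ (by positivity) (by positivity)]
    calc ((A.m2.sum : ℕ) : ℝ) * (R2 : ℝ) ^ 3 * 2 ^ 144 ≤ 2 * (A.Fn : ℝ) * 4096 ^ 2 * (4096 - (R2 : ℝ)) := h4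
      _ = _ := by ring
  · intro i hi
    exact up_of (by omega) (hb (h9 i hi).1.1.1)
  · intro i hi
    exact up_of (by omega) (hb (h9 i hi).1.1.2)
  · intro i hi
    rw [e1]
    rcases Nat.lt_or_ge i 7 with h6 | h6
    · obtain ⟨⟨k1, k2⟩, k3⟩ := h7 i h6
      have k4 := hb k2
      have e3 : ((i : ℤ) - 6) = -((6 - i : ℕ) : ℤ) := by omega
      have e4 : ((i : ℝ) - 6) = -((6 - i : ℕ) : ℝ) := by
        rw [Nat.cast_sub (by omega)]; push_cast; ring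
      rw [e3, e4]
      apply lo_neg hS
      rw [← hd]
      have k5 : (A.lo1.getD i 0 : ℝ) * ((R1 : ℝ) + R2) ^ (6 - i + 1) ≤
          2 ^ (64 + (6 - i)) * ((R1 : ℝ) + R2 + ((6 - i : ℕ) : ℝ) * ((R2 - R1 : ℕ) : ℝ)) := by
        exact_mod_cast k4
      calc _ ≤ _ := k5
        _ = _ := by ring
    · obtain ⟨p, rfl⟩ := Nat.exists_eq_add_of_le h6
      obtain ⟨⟨k1, k2⟩, k3⟩ := h2 p (by omega)
      have k4 := hb k2
      have k0 := hb k1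
      have e3 : (((7 + p : ℕ) : ℤ) - 6) = ((p + 1 : ℕ) : ℤ) := by push_cast; ring
      have e4 : (((7 + p : ℕ) : ℝ) - 6) = ((p + 1 : ℕ) : ℝ) := by push_cast; ring
      rw [e3, e4]
      apply lo_pos hS
      have k5 : (A.lo1.getD (7 + p) 0 : ℝ) * (2 ^ (p + 1) * ((R1 : ℝ) + R2)) ≤
          2 ^ 64 * ((R1 : ℝ) + R2) ^ (p + 1) * (((R1 + R2 - (p + 1) * (R2 - R1) : ℕ)) : ℝ) := by
        exact_mod_cast k4
      rw [Nat.cast_sub k0, Nat.cast_mul, hd] at k5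
      calc _ ≤ _ := k5
        _ = _ := by push_cast; ring
  · intro i hi
    rw [e2]
    rcases Nat.lt_or_ge i 7 with h6 | h6
    · obtain ⟨⟨k1, k2⟩, k3⟩ := h7 i h6
      have k4 := hb k3
      have k0 := hb k1
      have e3 : ((i : ℤ) - 6) = -((6 - i : ℕ) : ℤ) := by omega
      have e4 : ((i : ℝ) - 6) = -((6 - i : ℕ) : ℝ) := by
        rw [Nat.cast_sub (by omega)]; push_cast; ring
      rw [e3, e4]
      apply lo_neg hS
      have k5 : (A.lo2.getD i 0 : ℝ) * ((R1 : ℝ) + R2) ^ (6 - i + 1) ≤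
          2 ^ (64 + (6 - i)) * (((R1 + R2 - (6 - i) * (R2 - R1) : ℕ)) : ℝ) := by
        exact_mod_cast k4
      rw [Nat.cast_sub k0, Nat.cast_mul, hd] at k5
      calc _ ≤ _ := k5
        _ = _ := by push_cast; ring
    · obtain ⟨p, rfl⟩ := Nat.exists_eq_add_of_le h6
      obtain ⟨⟨k1, k2⟩, k3⟩ := h2 p (by omega)
      have k4 := hb k3
      have e3 : (((7 + p : ℕ) : ℤ) - 6) = ((p + 1 : ℕ) : ℤ) := by push_cast; ring
      have e4 : (((7 + p : ℕ) : ℝ) - 6) = ((p + 1 : ℕ) : ℝ) := by push_cast; ring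
      rw [e3, e4]
      apply lo_pos hS
      rw [← hd]
      have k5 : (A.lo2.getD (7 + p) 0 : ℝ) * (2 ^ (p + 1) * ((R1 : ℝ) + R2)) ≤
          2 ^ 64 * ((R1 : ℝ) + R2) ^ (p + 1) * ((R1 : ℝ) + R2 + ((p + 1 : ℕ) : ℝ) * ((R2 - R1 : ℕ) : ℝ)) := by
        exact_mod_cast k4
      exact k5
  · intro i hi
    exact hb (h9 i hi).1.2
  · intro i hi
    exact hb (h9 i hi).2

end Pool.Agent.MinMod
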