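import Pool.Agent.MinMod.Sound
import Pool.Agent.MinMod.OkDat
import Pool.Agent.MinMod.Dat0
import Pool.Agent.MinMod.Dat1
import Pool.Agent.MinMod.Dat2
import Pool.Agent.MinMod.Dat3
import Pool.Agent.MinMod.Dat4
import Pool.Agent.MinMod.Dat5
import Pool.Agent.MinMod.Dat6
import Pool.Agent.MinMod.Dat7
import Pool.Agent.MinMod.Dat8
import Pool.Agent.MinMod.Dat9

/-!
Fin: the ten intervals cover `64 ≤ rho < 256`.
-/

namespace Pool.Agent.MinMod

theorem log_le_of {x q : ℝ} (hx : 0 < x) (hq : 0 ≤ q) (h : x ≤ ∑ k ∈ Finset.range 14, q ^ k / (k.factorial : ℝ)) :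
    Real.log x ≤ q := by
  rw [Real.log_le_iff_le_exp hx]
  exact h.trans (Real.sum_le_exp_of_nonneg hq 14)

/-- One interval. -/
theorem one {A : Dat} {R1 R2 : ℕ} (hok : okDat A R1 R2 = true) (hchk : (List.range 24).all (chkX A) = true)
    {lam c : ℝ} (h1 : (R1 : ℝ) ≤ (16 : ℝ) ^ lam) (h2 : (16 : ℝ) ^ lam ≤ R2) (h256 : (16 : ℝ) ^ lam < 256) (hR : R1 < R2)
    (hc : 0 < c) (hcpi : c ≤ Real.pi)
    (hcc : c * ((R2 : ℝ) - R1) ≤ ((R2 : ℝ) - (16 : ℝ) ^ lam) * ((A.c1 : ℝ) / 2 ^ 20) +
      ((16 : ℝ) ^ lam - R1) * ((A.c2 : ℝ) / 2 ^ 20)) :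
    D lam ≤ ((-c : ℝ) : EReal) := by
  have hR' : (0 : ℝ) < (R2 : ℝ) - R1 := by
    have : (R1 : ℝ) < R2 := by exact_mod_cast hR
    linarith
  set s : ℝ := ((16 : ℝ) ^ lam - R1) / ((R2 : ℝ) - R1) with hs
  have hs0 : 0 ≤ s := div_nonneg (by linarith) hR'.le
  have hs1 : s ≤ 1 := (div_le_one hR').2 (by linarith)
  have hsm : s * ((R2 : ℝ) - R1) = (16 : ℝ) ^ lam - R1 := div_mul_cancel₀ _ hR'.ne'
  have hr : (16 : ℝ) ^ lam = (1 - s) * R1 + s * R2 := by linarith
  refine sound (datOK_of hok) hchk hs0 hs1 hr (by linarith) hc hcpi ?_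
  have h3 : (1 - s) * ((R2 : ℝ) - R1) = (R2 : ℝ) - (16 : ℝ) ^ lam := by linarith
  rw [← h3, ← hsm] at hcc
  have h4 : c * ((R2 : ℝ) - R1) ≤ ((1 - s) * ((A.c1 : ℝ) / 2 ^ 20) + s * ((A.c2 : ℝ) / 2 ^ 20)) * ((R2 : ℝ) - R1) := by
    linarith
  exact le_of_mul_le_mul_right h4 hR'

/-- The linear bound for `12/5 * (lam - 1/2)`. -/
theorem lin_le {lam rm q : ℝ} (h64 : 64 ≤ (16 : ℝ) ^ lam) (hrm : 0 < rm) (hq : Real.log (rm / 64) ≤ q) :
    12 / 5 * (lam - 1 / 2) ≤ 12 / 5 + 12 / 5 * (1000000000 / 2772588721) * (q + ((16 : ℝ) ^ lam - rm) / rm) := by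
  set r : ℝ := (16 : ℝ) ^ lam with hr
  have hrpos : 0 < r := by linarith
  have hlog : Real.log r = lam * Real.log 16 := by rw [hr, Real.log_rpow (by norm_num)]
  have h16 : Real.log 16 = 4 * Real.log 2 := by
    rw [show (16 : ℝ) = 2 ^ 4 by norm_num, Real.log_pow]; norm_num
  have h64' : Real.log 64 = 6 * Real.log 2 := by
    rw [show (64 : ℝ) = 2 ^ 6 by norm_num, Real.log_pow]; norm_num
  have h2 := Real.log_two_gt_d9
  have hx : Real.log (r / 64) = (lam - 3 / 2) * (4 * Real.log 2) := by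
    rw [Real.log_div hrpos.ne' (by norm_num), hlog, h16, h64']; ring
  have hx0 : 0 ≤ Real.log (r / 64) := Real.log_nonneg (by rw [le_div_iff₀ (by norm_num)]; linarith)
  have hub : Real.log (r / 64) ≤ q + (r - rm) / rm := by
    have e : r / 64 = (rm / 64) * (r / rm) := by field_simp
    rw [e, Real.log_mul (by positivity) (by positivity)]
    have := Real.log_le_sub_one_of_pos (show 0 < r / rm by positivity)
    have e2 : (r - rm) / rm = r / rm - 1 := by field_simp
    rw [e2]; linarith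
  have hl : (lam - 3 / 2) * (4 * (6931471803 / 10000000000)) ≤ Real.log (r / 64) := by
    have hpos : 0 ≤ lam - 3 / 2 := by
      by_contra hneg
      push Not at hneg
      have : (lam - 3 / 2) * (4 * Real.log 2) < 0 := mul_neg_of_neg_of_pos hneg (by positivity)
      linarith [hx ▸ hx0]
    rw [hx]
    exact mul_le_mul_of_nonneg_left (by linarith) hpos
  have hfin : lam - 3 / 2 ≤ 1000000000 / 2772588721 * (q + (r - rm) / rm) := by
    have h5 : (lam - 3 / 2) * (4 * (6931471803 / 10000000000)) ≤ q + (r - rm) / rm := hl.trans hub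
    have h6 : 0 ≤ q + (r - rm) / rm := hx0.trans hub
    nlinarith
  linarith

theorem D_le_min {lam : ℝ} (h1 : 3 / 2 ≤ lam) (h2 : lam < 2) :
    D lam ≤ ((-(min Real.pi (12 / 5 * (lam - 1 / 2))) : ℝ) : EReal) := by
  have h64 : (64 : ℝ) ≤ (16 : ℝ) ^ lam := by
    have : (16 : ℝ) ^ (3 / 2 : ℝ) = 64 := by
      rw [show (16 : ℝ) = 4 ^ (2 : ℝ) by norm_num, ← Real.rpow_mul (by norm_num)]; norm_num
    rw [← this]
    exact Real.rpow_le_rpow_of_exponent_le (by norm_num) h1
  have h256 : (16 : ℝ) ^ lam < 256 := by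
    have : (16 : ℝ) ^ (2 : ℝ) = 256 := by norm_num
    rw [← this]
    exact Real.rpow_lt_rpow_of_exponent_lt (by norm_num) h2
  have hc : 0 < min Real.pi (12 / 5 * (lam - 1 / 2)) := lt_min Real.pi_pos (by linarith)
  have hcpi : min Real.pi (12 / 5 * (lam - 1 / 2)) ≤ Real.pi := min_le_left _ _
  have hcB : min Real.pi (12 / 5 * (lam - 1 / 2)) ≤ 12 / 5 * (lam - 1 / 2) := min_le_right _ _
  have hpi := Real.pi_lt_d20
  generalize hc' : min Real.pi (12 / 5 * (lam - 1 / 2)) = c at *
  have key : ∀ rm q : ℝ, 0 < rm → Real.log (rm / 64) ≤ q →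
      c ≤ 12 / 5 + 12 / 5 * (1000000000 / 2772588721) * (q + ((16 : ℝ) ^ lam - rm) / rm) :=
    fun rm q h3 h4 => hcB.trans (lin_le h64 h3 h4)
  rcases le_or_gt ((16 : ℝ) ^ lam) 68 with h | h0
  · refine one ok0 chk0 (by exact_mod_cast h64) (by exact_mod_cast h) h256 (by norm_num) hc hcpi ?_
    have k := key 66 (30771659 / 1000000000) (by norm_num)
      (log_le_of (by norm_num) (by norm_num) (by norm_num [Finset.sum_range_succ, Nat.factorial]))
    simp only [dat0]
    push_cast
    nlinarith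
  rcases le_or_gt ((16 : ℝ) ^ lam) 76 with h | h1
  · refine one ok1 chk1 (by exact_mod_cast h0.le) (by exact_mod_cast h) h256 (by norm_num) hc hcpi ?_
    have k := key 72 (117783036 / 1000000000) (by norm_num)
      (log_le_of (by norm_num) (by norm_num) (by norm_num [Finset.sum_range_succ, Nat.factorial]))
    have hl := h0.le
    simp only [dat1]
    push_cast
    nlinarith
  rcases le_or_gt ((16 : ℝ) ^ lam) 90 with h | h2
  · refine one ok2 chk2 (by exact_mod_cast h1.le) (by exact_mod_cast h) h256 (by norm_num) hc hcpi ?_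
    have k := key 83 (259957525 / 1000000000) (by norm_num)
      (log_le_of (by norm_num) (by norm_num) (by norm_num [Finset.sum_range_succ, Nat.factorial]))
    have hl := h1.le
    simp only [dat2]
    push_cast
    nlinarith
  rcases le_or_gt ((16 : ℝ) ^ lam) 112 with h | h3
  · refine one ok3 chk3 (by exact_mod_cast h2.le) (by exact_mod_cast h) h256 (by norm_num) hc hcpi ?_
    have k := key 101 (456237435 / 1000000000) (by norm_num)
      (log_le_of (by norm_num) (by norm_num) (by norm_num [Finset.sum_range_succ, Nat.factorial]))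
    have hl := h2.le
    simp only [dat3]
    push_cast
    nlinarith
  rcases le_or_gt ((16 : ℝ) ^ lam) 134 with h | h4
  · refine one ok4 chk4 (by exact_mod_cast h3.le) (by exact_mod_cast h) h256 (by norm_num) hc hcpi ?_
    have k := key 123 (653301273 / 1000000000) (by norm_num)
      (log_le_of (by norm_num) (by norm_num) (by norm_num [Finset.sum_range_succ, Nat.factorial]))
    have hl := h3.le
    simp only [dat4]
    push_cast
    nlinarith
  rcases le_or_gt ((16 : ℝ) ^ lam) 145 with h | h5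
  · refine one ok5 chk5 (by exact_mod_cast h4.le) (by exact_mod_cast h) h256 (by norm_num) hc hcpi ?_
    have k := key (279 / 2) (779181519 / 1000000000) (by norm_num)
      (log_le_of (by norm_num) (by norm_num) (by norm_num [Finset.sum_range_succ, Nat.factorial]))
    have hl := h4.le
    simp only [dat5]
    push_cast
    nlinarith
  rcases le_or_gt ((16 : ℝ) ^ lam) 151 with h | h6
  · refine one ok6 chk6 (by exact_mod_cast h5.le) (by exact_mod_cast h) h256 (by norm_num) hc hcpi ?_
    have k := key 148 (838329191 / 1000000000) (by norm_num)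
      (log_le_of (by norm_num) (by norm_num) (by norm_num [Finset.sum_range_succ, Nat.factorial]))
    have hl := h5.le
    simp only [dat6]
    push_cast
    nlinarith
  rcases le_or_gt ((16 : ℝ) ^ lam) 160 with h | h7
  · refine one ok7 chk7 (by exact_mod_cast h6.le) (by exact_mod_cast h) h256 (by norm_num) hc hcpi ?_
    simp only [dat7]
    push_cast
    nlinarith
  rcases le_or_gt ((16 : ℝ) ^ lam) 196 with h | h8
  · refine one ok8 chk8 (by exact_mod_cast h7.le) (by exact_mod_cast h) h256 (by norm_num) hc hcpi ?_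
    simp only [dat8]
    push_cast
    nlinarith
  refine one ok9 chk9 (by exact_mod_cast h8.le) (by exact_mod_cast h256.le) h256 (by norm_num) hc hcpi ?_
  simp only [dat9]
  push_cast
  nlinarith

/-- The new bound is better than the known one. -/
theorem better {lam : ℝ} (h1 : 3 / 2 ≤ lam) (h2 : lam < 2) :
    Real.pi * lam / 2 < min Real.pi (12 / 5 * (lam - 1 / 2)) := by
  have hpi := Real.pi_lt_d20
  have hpi0 := Real.pi_pos
  refine lt_min ?_ ?_
  · nlinarith
  · nlinarith

end Pool.Agent.MinMod
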