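import Pool.Agent.MinMod.TabR
import Pool.Agent.MinMod.TabA
import Pool.Agent.MinMod.TabL

/-!
Num: the integer check.  Everything is natural number arithmetic.
-/

namespace Pool.Agent.MinMod

/-- Digit `j` in base `2^112`. -/
def dg (n j : ℕ) : ℕ := Nat.mod (Nat.shiftRight n (Nat.mul 112 j)) (Nat.pow 2 112)

/-- Scalar product (`w` not longer than `t`). -/
def dot (w t : List ℕ) : ℕ :=
  List.rec (motive := fun _ => List ℕ → ℕ) (fun _ => 0)
    (fun a _ ih t => List.rec (motive := fun _ => ℕ) 0 (fun b bs _ => Nat.add (Nat.mul a b) (ih bs)) t) w t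

/-- `n` windows, 48 apart, of a table, each reduced to its scalar product with `w`. -/
def dots (w : List ℕ) (n : ℕ) (L : List ℕ) : List ℕ :=
  Nat.rec (motive := fun _ => List ℕ → List ℕ) (fun _ => [])
    (fun _ ih L => dot w L :: ih (List.drop 48 L)) n L

/-- The boundaries of the cells in `x` (scale `2^12`): the points `y k`, `k ≤ 48`. -/
def tabY : List ℕ := [3979, 4216, 4467, 4732, 5014, 5312, 5628, 5962, 6317, 6693, 7090, 7512, 7959, 8432, 8933, 9465,
  10027, 10624, 11255, 11925, 12634, 13385, 14181, 15024, 15918, 16864, 17867, 18929, 20055, 21247, 22511, 23849,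
  25268, 26770, 28362, 30048, 31835, 33728, 35734, 37859, 40110, 42495, 45022, 47699, 50535, 53540, 56724, 60097, 63664]

/-- The zeros `b g`, `g < 48` (scale `2^12`). -/
def tabB : List ℕ := [4096, 4340, 4598, 4871, 5161, 5468, 5793, 6137, 6502, 6889, 7298, 7732, 8192, 8679, 9195, 9742,
  10321, 10935, 11585, 12274, 13004, 13777, 14596, 15464, 16384, 17358, 18390, 19484, 20643, 21870, 23170, 24548,
  26008, 27554, 29193, 30929, 32768, 34716, 36781, 38968, 41285, 43740, 46341, 49097, 52016, 55109, 58386, 61858]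

/-- Upper bounds of `|cos (π j / 24)|` for the left ends (`hi j`), with sign: `(negative?, |hi j|)`, scale `2^20`. -/
def tabH : List (Bool × ℕ) := [(false, 1048576), (false, 1039606), (false, 1012847), (false, 968758), (false, 908094),
  (false, 831892), (false, 741456), (false, 638333), (false, 524289), (false, 401273), (false, 271392), (false, 136867),
  (false, 1), (true, 136866), (true, 271391), (true, 401272), (true, 524287), (true, 638332), (true, 741455),
  (true, 831891), (true, 908093), (true, 968757), (true, 1012846), (true, 1039605)]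

/-- The right ends (`lo (j + 1)`), with sign, scale `2^20`. -/
def tabLo : List (Bool × ℕ) := [(false, 1039605), (false, 1012846), (false, 968757), (false, 908093), (false, 831891),
  (false, 741455), (false, 638332), (false, 524288), (false, 401272), (false, 271391), (false, 136866), (false, 0),
  (true, 136867), (true, 271392), (true, 401273), (true, 524288), (true, 638333), (true, 741456), (true, 831892),
  (true, 908094), (true, 968758), (true, 1012847), (true, 1039606), (true, 1048576)]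

/-- Quadrature weights (scale `2^24`). -/
def tabWA : List ℕ := [465910, 387871, 372001, 364996, 360941, 358222, 356215, 354622, 353287, 352116, 351044, 350026,
  349025, 348009, 346937, 345763, 344428, 342838, 340831, 338113, 334058, 327053, 311183, 233144]

/-- Quadrature weights (scale `2^24`). -/
def tabWB : List ℕ := [233144, 311183, 327053, 334058, 338113, 340831, 342838, 344431, 345766, 346937, 348009, 349028,
  350028, 351044, 352116, 353290, 354625, 356215, 358222, 360941, 364996, 372001, 387871, 465910]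

/-- The data of one interval of `rho`. -/
structure Dat where
  /-- the weights -/
  m2 : List ℕ
  /-- `m2 * B^2` -/
  wA : List ℕ
  /-- `m2 * B` -/
  wB : List ℕ
  MU : ℕ
  M1 : ℕ
  Nn : ℕ
  Fn : ℕ
  up1 : List ℕ
  lo1 : List ℕ
  up2 : List ℕ
  lo2 : List ℕ
  c1 : ℕ
  c2 : ℕ

/-- The error term at `x` (scale `2^180`). -/
def tailN (D : Dat) (x : ℕ) : ℕ := Nat.add (Nat.mul x D.Nn) (Nat.mul (Nat.mul x (Nat.mul x x)) D.Fn)

/-- The list of pairs `(P, N)` for the window, `P - N` is the value of the part `i` (scale `2^116`).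
Arguments: the digit `j`, sign of `cos`, `xc = x * |c|`, `x2 = x * x`. -/
def pnT (M1 j : ℕ) (neg : Bool) (xc x2 : ℕ) (SA S1 S2 : List ℕ) : List (ℕ × ℕ) :=
  List.rec (motive := fun _ => List ℕ → List ℕ → ℕ → Bool → List (ℕ × ℕ)) (fun _ _ _ _ => [])
    (fun sa _ ih S1 S2 k odd =>
      let jj := bif odd then Nat.sub 23 j else j
      let u := Nat.mul (Nat.mul xc (Nat.pow 16 k)) (Nat.mul M1 (Nat.pow 2 64))
      let v := Nat.mul (Nat.mul xc (Nat.pow 16 k)) (dg (List.headD S1 0) jj)
      let q := Nat.add (Nat.mul (dg sa jj) (Nat.pow 2 44))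
        (Nat.mul (Nat.mul x2 (dg (List.headD S2 0) jj)) (Nat.mul (Nat.pow 256 k) (Nat.pow 2 11)))
      (bif (bne odd neg) then (Nat.add q v, u) else (Nat.add q u, v)) ::
        ih (List.tail S1) (List.tail S2) (Nat.pred k) (not odd)) SA S1 S2 8 false

/-- The same on the axis. -/
def pnL (MU M1 y : ℕ) (SA SB : List ℕ) : List (ℕ × ℕ) :=
  List.rec (motive := fun _ => List ℕ → ℕ → Bool → List (ℕ × ℕ)) (fun _ _ _ => [])
    (fun sa _ ih SB k odd =>
      let ys := Nat.mul y (Nat.pow 16 k)
      let a := dg sa (bif odd then 2 else 0)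
      let s := dg (List.headD SB 0) (bif odd then 3 else 1)
      (Nat.add (Nat.mul a (Nat.pow 2 44)) (Nat.mul ys (Nat.mul s (Nat.pow 2 36))),
        Nat.mul 64 (Nat.add (Nat.mul MU (Nat.pow 2 92)) (Nat.mul ys (Nat.mul M1 (Nat.pow 2 84))))) ::
        ih (List.tail SB) (Nat.pred k) (not odd)) SA SB 8 false

/-- `∑ up * (P - N)` -/
def posS (l : List (ℕ × ℕ)) (up : List ℕ) : ℕ :=
  List.rec (motive := fun _ => List ℕ → ℕ) (fun _ => 0)
    (fun p _ ih up => Nat.add (Nat.mul (List.headD up 0) (Nat.sub p.1 p.2)) (ih (List.tail up))) l up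

/-- `∑ lo * (N - P)` -/
def negS (l : List (ℕ × ℕ)) (lo : List ℕ) : ℕ :=
  List.rec (motive := fun _ => List ℕ → ℕ) (fun _ => 0)
    (fun p _ ih lo => Nat.add (Nat.mul (List.headD lo 0) (Nat.sub p.2 p.1)) (ih (List.tail lo))) l lo

/-- The positive part of the potential at a corner. -/
def corner (t : ℕ) (up lo : List ℕ) (l : List (ℕ × ℕ)) : ℕ := Nat.sub (Nat.add t (posS l up)) (negS l lo)

/-- Sum over the cells `j` (counted by the lists `H`, `L`, `A`, `B`). -/
def sumT (t M1 x : ℕ) (up lo SA S1 S2 : List ℕ) : ℕ :=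
  List.rec (motive := fun _ => List (Bool × ℕ) → List ℕ → List ℕ → ℕ → ℕ) (fun _ _ _ _ => 0)
    (fun h _ ih L A B j =>
      Nat.add (Nat.add
        (Nat.mul (List.headD A 0) (corner t up lo (pnT M1 j h.1 (Nat.mul x h.2) (Nat.mul x x) SA S1 S2)))
        (Nat.mul (List.headD B 0) (corner t up lo (pnT M1 j (List.headD L (false, 0)).1
          (Nat.mul x (List.headD L (false, 0)).2) (Nat.mul x x) SA S1 S2))))
        (ih (List.tail L) (List.tail A) (List.tail B) (Nat.succ j))) tabH tabLo tabWA tabWB 0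

/-- The inequality at a point `y` of the axis. -/
def cond (D : Dat) (x0 x1 y T01 T02 T11 T12 : ℕ) (l : List (ℕ × ℕ)) : Bool :=
  let t := tailN D y
  let p1 := Nat.add t (posS l D.up1)
  let p2 := Nat.add t (posS l D.up2)
  let n1 := negS l D.lo1
  let n2 := negS l D.lo2
  let w := Nat.mul (Nat.sub x1 x0) (Nat.pow 2 44)
  let TT1 := Nat.add (Nat.mul (Nat.sub x1 y) T01) (Nat.mul (Nat.sub y x0) T11)
  let TT2 := Nat.add (Nat.mul (Nat.sub x1 y) T02) (Nat.mul (Nat.sub y x0) T12)
  and (Nat.blt (Nat.add (Nat.mul w p1) (Nat.mul D.c1 TT1)) (Nat.mul w n1))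
    (and (Nat.blt (Nat.add (Nat.mul w p2) (Nat.mul D.c2 TT2)) (Nat.mul w n2))
      (Nat.blt (Nat.add (Nat.mul w (Nat.add p1 p2)) (Nat.add (Nat.mul D.c1 TT2) (Nat.mul D.c2 TT1)))
        (Nat.mul w (Nat.add n1 n2))))

/-- The inequality on the half cell `[yl, yr]` (index `k`). -/
def half (D : Dat) (x0 x1 T01 T02 T11 T12 k yl yr : ℕ) : Bool :=
  let SA := dots D.wA 9 (List.drop (Nat.sub 48 k) tabL)
  let SB := dots D.wB 9 (List.drop (Nat.sub 48 k) tabL)
  and (cond D x0 x1 yl T01 T02 T11 T12 (pnL D.MU D.M1 yl SA SB))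
    (cond D x0 x1 yr T01 T02 T11 T12 (pnL D.MU D.M1 yr SA SB))

/-- The check for the cell `X`. -/
def chkX (D : Dat) (X : ℕ) : Bool :=
  let x0 := tabY.getD (2 * X) 0
  let x1 := tabY.getD (2 * X + 2) 0
  let b0 := tabB.getD (2 * X) 0
  let y1 := tabY.getD (2 * X + 1) 0
  let b1 := tabB.getD (2 * X + 1) 0
  let SA := dots D.wA 9 (List.drop (46 - 2 * X) tabA)
  let S1 := dots D.wB 9 (List.drop (46 - 2 * X) tabR)
  let S2 := dots D.m2 9 (List.drop (46 - 2 * X) tabR)
  let T01 := sumT (tailN D x0) D.M1 x0 D.up1 D.lo1 SA S1 S2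
  let T02 := sumT (tailN D x0) D.M1 x0 D.up2 D.lo2 SA S1 S2
  let T11 := sumT (tailN D x1) D.M1 x1 D.up1 D.lo1 SA S1 S2
  let T12 := sumT (tailN D x1) D.M1 x1 D.up2 D.lo2 SA S1 S2
  and (half D x0 x1 T01 T02 T11 T12 (2 * X) x0 b0)
    (and (half D x0 x1 T01 T02 T11 T12 (2 * X + 1) b0 y1)
      (and (half D x0 x1 T01 T02 T11 T12 (2 * X + 1) y1 b1)
        (half D x0 x1 T01 T02 T11 T12 (2 * X + 2) b1 x1)))

end Pool.Agent.MinMod
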