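import Pool.Agent.MinMod.Sem

/-!
NumLem: the list functions of `Num.lean` as sums and explicit entries.

PROOFS.  All are inductions on a list with the other lists (and the counters `k`, `odd`, `j`) generalised; the functions are
defined with `List.rec` and `Nat.rec`, so every step is `rfl` (`Nat.add a b = a + b`, `Nat.mul a b = a * b` are `rfl` too).
For `pnT`, `pnL` prove first the generalised statement for the `List.rec` with start values `k`, `odd` (entry `i` has counter
`k - i` and parity `odd` xor `i` odd), then specialise to `8`, `false`.  `dot_eq`: if `t` is empty all `t.getD g 0 = 0`.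
-/

namespace Pool.Agent.MinMod

theorem dot_nil (t : List ℕ) : dot [] t = 0 := rfl

theorem dot_cons_nil (a : ℕ) (w : List ℕ) : dot (a :: w) [] = 0 := rfl

theorem dot_cons_cons (a : ℕ) (w : List ℕ) (b : ℕ) (t : List ℕ) :
    dot (a :: w) (b :: t) = a * b + dot w t := rfl

theorem dot_eq (w t : List ℕ) : dot w t = ∑ g ∈ Finset.range w.length, w.getD g 0 * t.getD g 0 := by
  induction w generalizing t with
  | nil => simp [dot_nil]
  | cons a w ih =>
    cases t with
    | nil =>
      rw [dot_cons_nil]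
      simp
    | cons b t =>
      rw [dot_cons_cons, ih, List.length_cons, Finset.sum_range_succ']
      simp only [List.getD_cons_succ, List.getD_cons_zero]
      ring

theorem dots_zero (w L : List ℕ) : dots w 0 L = [] := rfl

theorem dots_succ (w : List ℕ) (n : ℕ) (L : List ℕ) :
    dots w (n + 1) L = dot w L :: dots w n (L.drop 48) := rfl

theorem dots_length (w : List ℕ) (n : ℕ) (L : List ℕ) : (dots w n L).length = n := by
  induction n generalizing L with
  | zero => rfl
  | succ n ih => rw [dots_succ, List.length_cons, ih]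

theorem dots_getD (w : List ℕ) (n : ℕ) (L : List ℕ) (i : ℕ) (hi : i < n) :
    (dots w n L).getD i 0 = dot w (L.drop (48 * i)) := by
  induction n generalizing L i with
  | zero => omega
  | succ n ih =>
    rw [dots_succ]
    cases i with
    | zero => simp
    | succ i =>
      rw [List.getD_cons_succ, ih (L.drop 48) i (by omega), List.drop_drop]
      congr 2
      ring

theorem getD_tail_succ {α : Type*} (l : List α) (d : α) (i : ℕ) :
    l.getD (i + 1) d = l.tail.getD i d := by
  cases l <;> simp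

theorem getD_zero_headD {α : Type*} (l : List α) (d : α) : l.getD 0 d = l.headD d := by
  cases l <;> simp

theorem posS_nil (up : List ℕ) : posS [] up = 0 := rfl

theorem posS_cons (p : ℕ × ℕ) (l : List (ℕ × ℕ)) (up : List ℕ) :
    posS (p :: l) up = up.headD 0 * (p.1 - p.2) + posS l up.tail := rfl

theorem posS_eq (l : List (ℕ × ℕ)) (up : List ℕ) :
    posS l up = ∑ i ∈ Finset.range l.length, up.getD i 0 * ((l.getD i (0, 0)).1 - (l.getD i (0, 0)).2) := by
  induction l generalizing up with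
  | nil => simp [posS_nil]
  | cons p l ih =>
    rw [posS_cons, ih, List.length_cons, Finset.sum_range_succ']
    simp only [List.getD_cons_succ, List.getD_cons_zero, getD_tail_succ up, getD_zero_headD up]
    ring

theorem negS_nil (lo : List ℕ) : negS [] lo = 0 := rfl

theorem negS_cons (p : ℕ × ℕ) (l : List (ℕ × ℕ)) (lo : List ℕ) :
    negS (p :: l) lo = lo.headD 0 * (p.2 - p.1) + negS l lo.tail := rfl

theorem negS_eq (l : List (ℕ × ℕ)) (lo : List ℕ) :
    negS l lo = ∑ i ∈ Finset.range l.length, lo.getD i 0 * ((l.getD i (0, 0)).2 - (l.getD i (0, 0)).1) := by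
  induction l generalizing lo with
  | nil => simp [negS_nil]
  | cons p l ih =>
    rw [negS_cons, ih, List.length_cons, Finset.sum_range_succ']
    simp only [List.getD_cons_succ, List.getD_cons_zero, getD_tail_succ lo, getD_zero_headD lo]
    ring

/-- one entry of `pnT` -/
def pnTe (M1 j : ℕ) (neg : Bool) (xc x2 : ℕ) (sa s1 s2 k : ℕ) (odd : Bool) : ℕ × ℕ :=
  let jj := bif odd then Nat.sub 23 j else j
  let u := Nat.mul (Nat.mul xc (Nat.pow 16 k)) (Nat.mul M1 (Nat.pow 2 64))
  let v := Nat.mul (Nat.mul xc (Nat.pow 16 k)) (dg s1 jj)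
  let q := Nat.add (Nat.mul (dg sa jj) (Nat.pow 2 44))
    (Nat.mul (Nat.mul x2 (dg s2 jj)) (Nat.mul (Nat.pow 256 k) (Nat.pow 2 11)))
  bif (bne odd neg) then (Nat.add q v, u) else (Nat.add q u, v)

/-- `pnT` with general start values -/
def pnTg (M1 j : ℕ) (neg : Bool) (xc x2 : ℕ) (SA S1 S2 : List ℕ) (k : ℕ) (odd : Bool) :
    List (ℕ × ℕ) :=
  List.rec (motive := fun _ => List ℕ → List ℕ → ℕ → Bool → List (ℕ × ℕ)) (fun _ _ _ _ => [])
    (fun sa _ ih S1 S2 k odd =>
      pnTe M1 j neg xc x2 sa (List.headD S1 0) (List.headD S2 0) k odd ::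
        ih (List.tail S1) (List.tail S2) (Nat.pred k) (not odd)) SA S1 S2 k odd

theorem pnT_eq_pnTg (M1 j : ℕ) (neg : Bool) (xc x2 : ℕ) (SA S1 S2 : List ℕ) :
    pnT M1 j neg xc x2 SA S1 S2 = pnTg M1 j neg xc x2 SA S1 S2 8 false := rfl

theorem pnTg_nil (M1 j : ℕ) (neg : Bool) (xc x2 : ℕ) (S1 S2 : List ℕ) (k : ℕ) (odd : Bool) :
    pnTg M1 j neg xc x2 [] S1 S2 k odd = [] := rfl

theorem pnTg_cons (M1 j : ℕ) (neg : Bool) (xc x2 : ℕ) (sa : ℕ) (SA S1 S2 : List ℕ) (k : ℕ) (odd : Bool) :
    pnTg M1 j neg xc x2 (sa :: SA) S1 S2 k odd =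
      pnTe M1 j neg xc x2 sa (S1.headD 0) (S2.headD 0) k odd ::
        pnTg M1 j neg xc x2 SA S1.tail S2.tail (k - 1) (!odd) := rfl

theorem pnTg_length (M1 j : ℕ) (neg : Bool) (xc x2 : ℕ) (SA S1 S2 : List ℕ) (k : ℕ) (odd : Bool) :
    (pnTg M1 j neg xc x2 SA S1 S2 k odd).length = SA.length := by
  induction SA generalizing S1 S2 k odd with
  | nil => rfl
  | cons sa SA ih => rw [pnTg_cons, List.length_cons, List.length_cons, ih]

theorem xor_step (odd : Bool) (i : ℕ) :
    Bool.xor (!odd) (decide (i % 2 = 1)) = Bool.xor odd (decide ((i + 1) % 2 = 1)) := by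
  rcases Nat.mod_two_eq_zero_or_one i with h | h
  · have h1 : (i + 1) % 2 = 1 := by omega
    rw [h, h1]
    cases odd <;> rfl
  · have h1 : (i + 1) % 2 = 0 := by omega
    rw [h, h1]
    cases odd <;> rfl

theorem pnTg_getD (M1 j : ℕ) (neg : Bool) (xc x2 : ℕ) (SA S1 S2 : List ℕ) (k : ℕ) (odd : Bool) (i : ℕ)
    (hi : i < SA.length) :
    (pnTg M1 j neg xc x2 SA S1 S2 k odd).getD i (0, 0) =
      pnTe M1 j neg xc x2 (SA.getD i 0) (S1.getD i 0) (S2.getD i 0) (k - i)
        (Bool.xor odd (decide (i % 2 = 1))) := by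
  induction SA generalizing S1 S2 k odd i with
  | nil => simp at hi
  | cons sa SA ih =>
    rw [pnTg_cons]
    cases i with
    | zero =>
      rw [List.getD_cons_zero, List.getD_cons_zero, getD_zero_headD, getD_zero_headD]
      simp
    | succ i =>
      rw [List.getD_cons_succ, List.getD_cons_succ, ih _ _ _ _ i (by simpa using hi),
        ← getD_tail_succ, ← getD_tail_succ, xor_step]
      congr 1
      omega

theorem pnT_length (M1 j : ℕ) (neg : Bool) (xc x2 : ℕ) (SA S1 S2 : List ℕ) :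
    (pnT M1 j neg xc x2 SA S1 S2).length = SA.length := by
  rw [pnT_eq_pnTg, pnTg_length]

theorem pnT_getD (M1 j : ℕ) (neg : Bool) (xc x2 : ℕ) (SA S1 S2 : List ℕ) (i : ℕ) (hi : i < SA.length) :
    (pnT M1 j neg xc x2 SA S1 S2).getD i (0, 0) =
      if decide (i % 2 = 1) = neg then
        (dg (SA.getD i 0) (jj i j) * 2 ^ 44 + x2 * dg (S2.getD i 0) (jj i j) * (256 ^ (8 - i) * 2 ^ 11) +
          xc * 16 ^ (8 - i) * (M1 * 2 ^ 64), xc * 16 ^ (8 - i) * dg (S1.getD i 0) (jj i j))
      else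
        (dg (SA.getD i 0) (jj i j) * 2 ^ 44 + x2 * dg (S2.getD i 0) (jj i j) * (256 ^ (8 - i) * 2 ^ 11) +
          xc * 16 ^ (8 - i) * dg (S1.getD i 0) (jj i j), xc * 16 ^ (8 - i) * (M1 * 2 ^ 64)) := by
  rw [pnT_eq_pnTg, pnTg_getD M1 j neg xc x2 SA S1 S2 8 false i hi, Bool.false_xor]
  have hjj : (bif decide (i % 2 = 1) then Nat.sub 23 j else j) = jj i j := by
    unfold jj
    by_cases h : i % 2 = 1
    · rw [decide_eq_true h, if_pos h]
      rfl
    · rw [decide_eq_false h, if_neg h]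
      rfl
  unfold pnTe
  rw [hjj]
  by_cases hn : decide (i % 2 = 1) = neg
  · rw [if_pos hn, hn]
    have : bne neg neg = false := by cases neg <;> rfl
    rw [this]
    rfl
  · rw [if_neg hn]
    have : bne (decide (i % 2 = 1)) neg = true := by
      rw [bne_iff_ne]
      exact hn
    rw [this]
    rfl

/-- one entry of `pnL` -/
def pnLe (MU M1 y : ℕ) (sa sb k : ℕ) (odd : Bool) : ℕ × ℕ :=
  let ys := Nat.mul y (Nat.pow 16 k)
  let a := dg sa (bif odd then 2 else 0)
  let s := dg sb (bif odd then 3 else 1)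
  (Nat.add (Nat.mul a (Nat.pow 2 44)) (Nat.mul ys (Nat.mul s (Nat.pow 2 36))),
    Nat.mul 64 (Nat.add (Nat.mul MU (Nat.pow 2 92)) (Nat.mul ys (Nat.mul M1 (Nat.pow 2 84)))))

/-- `pnL` with general start values -/
def pnLg (MU M1 y : ℕ) (SA SB : List ℕ) (k : ℕ) (odd : Bool) : List (ℕ × ℕ) :=
  List.rec (motive := fun _ => List ℕ → ℕ → Bool → List (ℕ × ℕ)) (fun _ _ _ => [])
    (fun sa _ ih SB k odd =>
      pnLe MU M1 y sa (List.headD SB 0) k odd :: ih (List.tail SB) (Nat.pred k) (not odd)) SA SB k odd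

theorem pnL_eq_pnLg (MU M1 y : ℕ) (SA SB : List ℕ) :
    pnL MU M1 y SA SB = pnLg MU M1 y SA SB 8 false := rfl

theorem pnLg_cons (MU M1 y : ℕ) (sa : ℕ) (SA SB : List ℕ) (k : ℕ) (odd : Bool) :
    pnLg MU M1 y (sa :: SA) SB k odd =
      pnLe MU M1 y sa (SB.headD 0) k odd :: pnLg MU M1 y SA SB.tail (k - 1) (!odd) := rfl

theorem pnLg_length (MU M1 y : ℕ) (SA SB : List ℕ) (k : ℕ) (odd : Bool) :
    (pnLg MU M1 y SA SB k odd).length = SA.length := by
  induction SA generalizing SB k odd with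
  | nil => rfl
  | cons sa SA ih => rw [pnLg_cons, List.length_cons, List.length_cons, ih]

theorem pnLg_getD (MU M1 y : ℕ) (SA SB : List ℕ) (k : ℕ) (odd : Bool) (i : ℕ) (hi : i < SA.length) :
    (pnLg MU M1 y SA SB k odd).getD i (0, 0) =
      pnLe MU M1 y (SA.getD i 0) (SB.getD i 0) (k - i) (Bool.xor odd (decide (i % 2 = 1))) := by
  induction SA generalizing SB k odd i with
  | nil => simp at hi
  | cons sa SA ih =>
    rw [pnLg_cons]
    cases i with
    | zero =>
      rw [List.getD_cons_zero, List.getD_cons_zero, getD_zero_headD]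
      simp
    | succ i =>
      rw [List.getD_cons_succ, List.getD_cons_succ, ih _ _ _ i (by simpa using hi),
        ← getD_tail_succ, xor_step]
      congr 1
      omega

theorem pnL_length (MU M1 y : ℕ) (SA SB : List ℕ) : (pnL MU M1 y SA SB).length = SA.length := by
  rw [pnL_eq_pnLg, pnLg_length]

theorem pnL_getD (MU M1 y : ℕ) (SA SB : List ℕ) (i : ℕ) (hi : i < SA.length) :
    (pnL MU M1 y SA SB).getD i (0, 0) =
      (dg (SA.getD i 0) (if i % 2 = 1 then 2 else 0) * 2 ^ 44 +
        y * 16 ^ (8 - i) * (dg (SB.getD i 0) (if i % 2 = 1 then 3 else 1) * 2 ^ 36),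
        64 * (MU * 2 ^ 92 + y * 16 ^ (8 - i) * (M1 * 2 ^ 84))) := by
  rw [pnL_eq_pnLg, pnLg_getD MU M1 y SA SB 8 false i hi, Bool.false_xor]
  unfold pnLe
  by_cases h : i % 2 = 1
  · rw [decide_eq_true h, if_pos h, if_pos h]
    rfl
  · rw [decide_eq_false h, if_neg h, if_neg h]
    rfl

/-- `sumT` with general lists -/
def sumTg (t M1 x : ℕ) (up lo SA S1 S2 : List ℕ) (H L : List (Bool × ℕ)) (A B : List ℕ) (j : ℕ) : ℕ :=
  List.rec (motive := fun _ => List (Bool × ℕ) → List ℕ → List ℕ → ℕ → ℕ) (fun _ _ _ _ => 0)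
    (fun h _ ih L A B j =>
      Nat.add (Nat.add
        (Nat.mul (List.headD A 0) (corner t up lo (pnT M1 j h.1 (Nat.mul x h.2) (Nat.mul x x) SA S1 S2)))
        (Nat.mul (List.headD B 0) (corner t up lo (pnT M1 j (List.headD L (false, 0)).1
          (Nat.mul x (List.headD L (false, 0)).2) (Nat.mul x x) SA S1 S2))))
        (ih (List.tail L) (List.tail A) (List.tail B) (Nat.succ j))) H L A B j

theorem sumT_eq_sumTg (t M1 x : ℕ) (up lo SA S1 S2 : List ℕ) :
    sumT t M1 x up lo SA S1 S2 = sumTg t M1 x up lo SA S1 S2 tabH tabLo tabWA tabWB 0 := rfl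

theorem sumTg_cons (t M1 x : ℕ) (up lo SA S1 S2 : List ℕ) (h : Bool × ℕ) (H L : List (Bool × ℕ))
    (A B : List ℕ) (j : ℕ) :
    sumTg t M1 x up lo SA S1 S2 (h :: H) L A B j =
      (A.headD 0 * corner t up lo (pnT M1 j h.1 (x * h.2) (x * x) SA S1 S2) +
        B.headD 0 * corner t up lo (pnT M1 j (L.headD (false, 0)).1
          (x * (L.headD (false, 0)).2) (x * x) SA S1 S2)) +
      sumTg t M1 x up lo SA S1 S2 H L.tail A.tail B.tail (j + 1) := rfl

theorem sumTg_eq (t M1 x : ℕ) (up lo SA S1 S2 : List ℕ) (H L : List (Bool × ℕ))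
    (A B : List ℕ) (j : ℕ) :
    sumTg t M1 x up lo SA S1 S2 H L A B j = ∑ i ∈ Finset.range H.length,
      (A.getD i 0 * corner t up lo (pnT M1 (j + i) (H.getD i (false, 0)).1 (x * (H.getD i (false, 0)).2) (x * x) SA S1 S2) +
        B.getD i 0 * corner t up lo (pnT M1 (j + i) (L.getD i (false, 0)).1 (x * (L.getD i (false, 0)).2) (x * x) SA S1 S2)) := by
  induction H generalizing L A B j with
  | nil => rfl
  | cons h H ih =>
    rw [sumTg_cons, ih, List.length_cons, Finset.sum_range_succ', Nat.add_comm]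
    refine congrArg₂ HAdd.hAdd (Finset.sum_congr rfl fun i _ => ?_) ?_
    · rw [getD_tail_succ A, getD_tail_succ B, getD_tail_succ L, List.getD_cons_succ,
        show j + 1 + i = j + (i + 1) by ring]
    · rw [getD_zero_headD A, getD_zero_headD B, getD_zero_headD L, List.getD_cons_zero, Nat.add_zero]

theorem sumT_eq (t M1 x : ℕ) (up lo SA S1 S2 : List ℕ) :
    sumT t M1 x up lo SA S1 S2 = ∑ j ∈ Finset.range 24,
      (tabWA.getD j 0 * corner t up lo (pnT M1 j (tabH.getD j (false, 0)).1 (x * (tabH.getD j (false, 0)).2) (x * x) SA S1 S2) +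
        tabWB.getD j 0 * corner t up lo (pnT M1 j (tabLo.getD j (false, 0)).1 (x * (tabLo.getD j (false, 0)).2) (x * x) SA S1 S2)) := by
  rw [sumT_eq_sumTg, sumTg_eq]
  have h : tabH.length = 24 := rfl
  rw [h]
  refine Finset.sum_congr rfl fun i _ => ?_
  rw [Nat.zero_add]

end Pool.Agent.MinMod
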