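import Pool.Agent.MinMod.NumLem

/-!
NumPack: digits of a scalar product of packed numbers.

PROOF.  `dg n j = n / 2^(112 j) % 2^112`.  A number `e < 2^(112 n)` is `∑_{j<n} dg e j * 2^(112 j)` (induction on `n`).  By `dot_eq`,
`dot w t = ∑_{j<n} (∑_g w g * dg (t g) j) * 2^(112 j)`, and each inner sum is at most `(∑ w g) * (2^d - 1) < 2^112` (if `∑ w = 0` it is `0`).
Uniqueness of digits: `(∑_{j<n} a_j X^j) / X^k % X = a_k` if all `a_j < X`, `k < n` (induction, or `Nat.ofDigits`).
-/

namespace Pool.Agent.MinMod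

private lemma digits_sum {X : ℕ} (hX : 0 < X) (n : ℕ) : ∀ e : ℕ, e < X ^ n →
    e = ∑ j ∈ Finset.range n, (e / X ^ j % X) * X ^ j := by
  induction n with
  | zero => intro e he; simp at he; simp [he]
  | succ n ih =>
    intro e he
    have h1 : e / X < X ^ n := by
      rw [Nat.div_lt_iff_lt_mul hX, ← pow_succ]; exact he
    have h2 := ih (e / X) h1
    rw [Finset.sum_range_succ']
    have h3 : ∀ j ∈ Finset.range n, (e / X ^ (j + 1) % X) * X ^ (j + 1) = X * ((e / X / X ^ j % X) * X ^ j) := by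
      intro j _
      rw [pow_succ', ← Nat.div_div_eq_div_mul]; ring
    rw [Finset.sum_congr rfl h3, ← Finset.mul_sum, ← h2]
    simp only [pow_zero, Nat.div_one, mul_one]
    exact (Nat.div_add_mod e X).symm

private lemma sum_digit {X : ℕ} (n : ℕ) : ∀ (a : ℕ → ℕ), (∀ j < n, a j < X) → ∀ k < n,
    (∑ j ∈ Finset.range n, a j * X ^ j) / X ^ k % X = a k := by
  induction n with
  | zero => intro a _ k hk; omega
  | succ n ih =>
    intro a ha k hk
    have hX : 0 < X := lt_of_le_of_lt (Nat.zero_le _) (ha 0 (by omega))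
    rw [Finset.sum_range_succ']
    have h3 : ∀ j ∈ Finset.range n, a (j + 1) * X ^ (j + 1) = X * (a (j + 1) * X ^ j) := by
      intro j _
      rw [pow_succ']; ring
    rw [Finset.sum_congr rfl h3, ← Finset.mul_sum]
    simp only [pow_zero, mul_one]
    cases k with
    | zero =>
      simp only [pow_zero, Nat.div_one]
      rw [Nat.mul_add_mod]
      exact Nat.mod_eq_of_lt (ha 0 (by omega))
    | succ k =>
      rw [pow_succ', ← Nat.div_div_eq_div_mul]
      have : (X * ∑ j ∈ Finset.range n, a (j + 1) * X ^ j + a 0) / X = ∑ j ∈ Finset.range n, a (j + 1) * X ^ j := by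
        rw [Nat.mul_add_div hX, Nat.div_eq_of_lt (ha 0 (by omega)), add_zero]
      rw [this]
      exact ih (fun j => a (j + 1)) (fun j hj => ha (j + 1) (by omega)) k (by omega)

private lemma dg_eq (n j : ℕ) : dg n j = n / (2 ^ 112) ^ j % 2 ^ 112 := by
  unfold dg
  change (n >>> (112 * j)) % 2 ^ 112 = _
  rw [Nat.shiftRight_eq_div_pow, pow_mul]

theorem dg_dot (w t : List ℕ) (n d : ℕ) (h1 : ∀ g < w.length, t.getD g 0 < 2 ^ (112 * n))
    (h2 : ∀ g < w.length, ∀ j < n, dg (t.getD g 0) j < 2 ^ d)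
    (h3 : (∑ g ∈ Finset.range w.length, w.getD g 0) * 2 ^ d ≤ 2 ^ 112) (j : ℕ) (hj : j < n) :
    dg (dot w t) j = ∑ g ∈ Finset.range w.length, w.getD g 0 * dg (t.getD g 0) j := by
  have e1 : dot w t = ∑ i ∈ Finset.range n, (∑ g ∈ Finset.range w.length, w.getD g 0 * dg (t.getD g 0) i) * (2 ^ 112) ^ i := by
    rw [dot_eq]
    simp_rw [Finset.sum_mul]
    rw [Finset.sum_comm]
    refine Finset.sum_congr rfl fun g hg => ?_
    have hg' := Finset.mem_range.1 hg
    have := digits_sum (X := 2 ^ 112) (by positivity) n (t.getD g 0) (by rw [← pow_mul]; exact h1 g hg')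
    conv_lhs => rw [this]
    rw [Finset.mul_sum]
    refine Finset.sum_congr rfl fun i _ => ?_
    rw [dg_eq]; ring
  rw [dg_eq, e1]
  refine sum_digit n _ (fun i hi => ?_) j hj
  rcases Nat.eq_zero_or_pos (∑ g ∈ Finset.range w.length, w.getD g 0) with h0 | hpos
  · have : ∑ g ∈ Finset.range w.length, w.getD g 0 * dg (t.getD g 0) i = 0 := by
      refine Finset.sum_eq_zero fun g hg => ?_
      rw [Finset.sum_eq_zero_iff] at h0
      rw [h0 g hg, zero_mul]
    rw [this]; positivity
  · calc ∑ g ∈ Finset.range w.length, w.getD g 0 * dg (t.getD g 0) i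
        < ∑ g ∈ Finset.range w.length, w.getD g 0 * 2 ^ d := by
          refine Finset.sum_lt_sum (fun g hg => Nat.mul_le_mul_left _ (h2 g (Finset.mem_range.1 hg) i hi).le) ?_
          obtain ⟨g, hg, hne⟩ := Finset.exists_ne_zero_of_sum_ne_zero hpos.ne'
          exact ⟨g, hg, Nat.mul_lt_mul_of_pos_left (h2 g (Finset.mem_range.1 hg) i hi) (Nat.pos_of_ne_zero hne)⟩
      _ = (∑ g ∈ Finset.range w.length, w.getD g 0) * 2 ^ d := by rw [Finset.sum_mul]
      _ ≤ 2 ^ 112 := h3

end Pool.Agent.MinMod
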