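import Pool.Agent.MinMod.Fac

/-!
OrdUp: growth from above.

PROOF.  Let `‖z‖ ≥ 1`, `16^k ≤ ‖z‖ < 16^(k+1)` (`k` natural).  `‖z / zp b l g‖ ≤ ‖z‖ / 16^l ≤ 16 * 16^k / 16^l`.  For `l < k` use
`norm_E1_two`, for `l ≥ k` use `norm_E1_sq`; `⌈mu g rho^l⌉ ≤ mu g rho^l + 1 ≤ (mu g + 1) rho^l`.  With `S = ∑_g (mu g + 1)`:
`log ‖PP L z‖ ≤ ∑_{l<k} S rho^l * 32 * 16^(k-l) + ∑_{l≥k} S rho^l * 128 * 256^(k-l)`
`≤ rho^k S (32 ∑_{q≥1} (16/rho)^q + 128 ∑_{j≥0} (rho/256)^j) =: C rho^k` and `rho^k = (16^k)^lam ≤ ‖z‖^lam` (`rho = 16^lam`).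
Let `L → ∞` (if some factor vanishes the norm is zero; it is best to argue multiplicatively with `Real.exp`).
-/

namespace Pool.Agent.MinMod

private theorem ou_norm_zp {b : ℕ → ℝ} {g : ℕ} (hb : 1 ≤ b g) (l : ℕ) :
    (16 : ℝ) ^ l ≤ ‖zp b (l : ℤ) g‖ := by
  unfold zp
  rw [zpow_natCast, norm_mul, norm_pow, norm_neg, Complex.norm_real, Real.norm_eq_abs,
    abs_of_nonneg (by linarith : (0 : ℝ) ≤ b g)]
  have h1 : ‖(16 : ℂ)‖ = 16 := by norm_num
  rw [h1]
  exact le_mul_of_one_le_right (by positivity) hb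

/-- the exponent bound of one factor -/
private noncomputable def ouA (k l : ℕ) : ℝ :=
  if l < k then 32 * (16 : ℝ) ^ k / 16 ^ l else 128 * (256 : ℝ) ^ k / 256 ^ l

private theorem ouA_nonneg (k l : ℕ) : 0 ≤ ouA k l := by
  unfold ouA
  split_ifs <;> positivity

private theorem ou_factor {b : ℕ → ℝ} {g : ℕ} (hb : 1 ≤ b g) {z : ℂ} {k : ℕ}
    (hz : ‖z‖ ≤ 16 * 16 ^ k) (l : ℕ) : ‖E1 (z / zp b (l : ℤ) g)‖ ≤ Real.exp (ouA k l) := by
  have h16 : (0 : ℝ) < 16 ^ l := by positivity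
  have h1 : ‖z / zp b (l : ℤ) g‖ ≤ 16 * 16 ^ k / 16 ^ l := by
    rw [norm_div]
    exact div_le_div₀ (by positivity) hz h16 (ou_norm_zp hb l)
  unfold ouA
  split_ifs with hlk
  · refine (norm_E1_two _).trans (Real.exp_le_exp.2 ?_)
    calc 2 * ‖z / zp b (l : ℤ) g‖ ≤ 2 * (16 * 16 ^ k / 16 ^ l) :=
          mul_le_mul_of_nonneg_left h1 (by norm_num)
      _ = 32 * (16 : ℝ) ^ k / 16 ^ l := by ring
  · refine (norm_E1_sq _).trans (Real.exp_le_exp.2 ?_)
    have h2 : ‖z / zp b (l : ℤ) g‖ ^ 2 ≤ (16 * 16 ^ k / 16 ^ l) ^ 2 :=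
      pow_le_pow_left₀ (norm_nonneg _) h1 2
    have h3 : ((16 : ℝ) * 16 ^ k / 16 ^ l) ^ 2 = 256 * 256 ^ k / 256 ^ l := by
      rw [div_pow, mul_pow, ← pow_mul, ← pow_mul, mul_comm k 2, mul_comm l 2, pow_mul, pow_mul]
      norm_num
    rw [h3] at h2
    calc ‖z / zp b (l : ℤ) g‖ ^ 2 / 2 ≤ (256 * 256 ^ k / 256 ^ l) / 2 := by linarith
      _ = 128 * (256 : ℝ) ^ k / 256 ^ l := by ring

private theorem ou_sum {rho : ℝ} (h0 : 16 < rho) (h1 : rho < 256) (k L : ℕ) :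
    ∑ l ∈ Finset.range L, rho ^ l * ouA k l ≤
      (32 / (rho / 16 - 1) + 128 / (1 - rho / 256)) * rho ^ k := by
  have hA : ∀ l, rho ^ l * ouA k l =
      if l < k then 32 * 16 ^ k * (rho / 16) ^ l else 128 * 256 ^ k * (rho / 256) ^ l := by
    intro l
    unfold ouA
    split_ifs
    · rw [div_pow]
      ring
    · rw [div_pow]
      ring
  rw [Finset.sum_congr rfl fun l _ => hA l, Finset.sum_ite, add_mul]
  have hr0 : 0 < rho := by linarith
  apply add_le_add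
  · have h2 : ∑ l ∈ (Finset.range L).filter (fun l => l < k), (32 * 16 ^ k * (rho / 16) ^ l : ℝ) ≤
        ∑ l ∈ Finset.range k, 32 * 16 ^ k * (rho / 16) ^ l := by
      apply Finset.sum_le_sum_of_subset_of_nonneg
      · intro l hl
        rw [Finset.mem_filter] at hl
        exact Finset.mem_range.2 hl.2
      · intro l _ _
        positivity
    refine h2.trans ?_
    rw [← Finset.mul_sum, geom_sum_eq (by intro h; linarith [(div_eq_one_iff_eq (by norm_num : (16 : ℝ) ≠ 0)).1 h])]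
    have h3 : (0 : ℝ) < rho / 16 - 1 := by linarith
    have h4 : ((rho / 16) ^ k - 1) / (rho / 16 - 1) ≤ (rho / 16) ^ k / (rho / 16 - 1) :=
      div_le_div_of_nonneg_right (by linarith) h3.le
    calc 32 * 16 ^ k * (((rho / 16) ^ k - 1) / (rho / 16 - 1))
        ≤ 32 * 16 ^ k * ((rho / 16) ^ k / (rho / 16 - 1)) :=
          mul_le_mul_of_nonneg_left h4 (by positivity)
      _ = 32 / (rho / 16 - 1) * (16 ^ k * (rho / 16) ^ k) := by ring
      _ = 32 / (rho / 16 - 1) * rho ^ k := by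
          rw [← mul_pow]
          congr 2
          ring
  · have h2 : (Finset.range L).filter (fun l => ¬ l < k) = Finset.Ico k L := by
      ext l
      rw [Finset.mem_filter, Finset.mem_range, Finset.mem_Ico]
      omega
    rw [h2, ← Finset.mul_sum]
    have h3 : (0 : ℝ) < 1 - rho / 256 := by linarith
    have h4 := geom_sum_Ico_le_of_lt_one (x := rho / 256) (m := k) (n := L) (by positivity)
      (by linarith)
    calc 128 * 256 ^ k * ∑ i ∈ Finset.Ico k L, (rho / 256) ^ i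
        ≤ 128 * 256 ^ k * ((rho / 256) ^ k / (1 - rho / 256)) :=
          mul_le_mul_of_nonneg_left h4 (by positivity)
      _ = 128 / (1 - rho / 256) * (256 ^ k * (rho / 256) ^ k) := by ring
      _ = 128 / (1 - rho / 256) * rho ^ k := by
          rw [← mul_pow]
          congr 2
          ring

theorem ord_up {G : ℕ} {b mu : ℕ → ℝ} {rho lam : ℝ} (h : Good G b mu) (h0 : 16 < rho) (h1 : rho < 256)
    (hl : rho = (16 : ℝ) ^ lam) {f : ℂ → ℂ} (hf : IsF G b mu rho f) :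
    ∃ C : ℝ, 0 < C ∧ ∀ z : ℂ, 1 ≤ ‖z‖ → ‖f z‖ ≤ Real.exp (C * ‖z‖ ^ lam) := by
  have hlam : 0 ≤ lam := by
    by_contra hneg
    push Not at hneg
    have h2 : (16 : ℝ) ^ lam ≤ 1 := Real.rpow_le_one_of_one_le_of_nonpos (by norm_num) hneg.le
    linarith
  have hr1 : 1 ≤ rho := by linarith
  have hr0 : 0 < rho := by linarith
  set S : ℝ := ∑ g ∈ Finset.range G, (mu g + 1) with hS
  have hS0 : 0 ≤ S := Finset.sum_nonneg fun g hg => by
    have := h.mu0 g (Finset.mem_range.1 hg)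
    linarith
  set D : ℝ := 32 / (rho / 16 - 1) + 128 / (1 - rho / 256) with hD
  have hD0 : 0 ≤ D := by
    have h2 : (0 : ℝ) < rho / 16 - 1 := by linarith
    have h3 : (0 : ℝ) < 1 - rho / 256 := by linarith
    positivity
  refine ⟨S * D + 1, by positivity, ?_⟩
  intro z hz
  obtain ⟨k, hk1, hk2⟩ := exists_nat_pow_near hz (by norm_num : (1 : ℝ) < 16)
  have hz2 : ‖z‖ ≤ 16 * 16 ^ k := by
    rw [pow_succ, mul_comm] at hk2
    exact hk2.le
  -- bound of the partial products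
  have hPP : ∀ L, ‖PP G b mu rho L z‖ ≤ Real.exp (S * (D * rho ^ k)) := by
    intro L
    unfold PP
    rw [norm_prod]
    have hfac : ∀ l ∈ Finset.range L,
        ‖∏ g ∈ Finset.range G, E1 (z / zp b (l : ℤ) g) ^ ⌈mu g * rho ^ l⌉₊‖ ≤
          Real.exp (S * (rho ^ l * ouA k l)) := by
      intro l _
      rw [norm_prod, hS, Finset.sum_mul, Real.exp_sum]
      refine Finset.prod_le_prod (fun g _ => norm_nonneg _) ?_
      intro g hg
      have hg' := Finset.mem_range.1 hg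
      have hmu := h.mu0 g hg'
      rw [norm_pow]
      have hb := ou_factor (z := z) (k := k) (h.b1 g hg') hz2 l
      refine (pow_le_pow_left₀ (norm_nonneg _) hb _).trans ?_
      rw [← Real.exp_nat_mul]
      refine Real.exp_le_exp.2 ?_
      have h5 : (⌈mu g * rho ^ l⌉₊ : ℝ) ≤ (mu g + 1) * rho ^ l := by
        have h6 : (⌈mu g * rho ^ l⌉₊ : ℝ) < mu g * rho ^ l + 1 :=
          Nat.ceil_lt_add_one (by positivity)
        have h7 : (1 : ℝ) ≤ rho ^ l := one_le_pow₀ hr1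
        linarith
      calc (⌈mu g * rho ^ l⌉₊ : ℝ) * ouA k l ≤ (mu g + 1) * rho ^ l * ouA k l :=
            mul_le_mul_of_nonneg_right h5 (ouA_nonneg k l)
        _ = (mu g + 1) * (rho ^ l * ouA k l) := by ring
    refine (Finset.prod_le_prod (fun l _ => norm_nonneg _) hfac).trans ?_
    rw [← Real.exp_sum]
    refine Real.exp_le_exp.2 ?_
    rw [← Finset.mul_sum]
    exact mul_le_mul_of_nonneg_left (ou_sum h0 h1 k L) hS0
  have hlim : ‖f z‖ ≤ Real.exp (S * (D * rho ^ k)) :=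
    le_of_tendsto (hf.2 z).norm (Filter.Eventually.of_forall hPP)
  refine hlim.trans (Real.exp_le_exp.2 ?_)
  have hrk : rho ^ k ≤ ‖z‖ ^ lam := by
    have h2 : rho ^ k = ((16 : ℝ) ^ k) ^ lam := by
      rw [hl, ← Real.rpow_natCast ((16 : ℝ) ^ lam) k, ← Real.rpow_natCast (16 : ℝ) k,
        ← Real.rpow_mul (by norm_num), ← Real.rpow_mul (by norm_num), mul_comm]
    rw [h2]
    exact Real.rpow_le_rpow (by positivity) hk1 hlam
  have hzl : 0 ≤ ‖z‖ ^ lam := Real.rpow_nonneg (norm_nonneg _) _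
  calc S * (D * rho ^ k) = S * D * rho ^ k := by ring
    _ ≤ S * D * ‖z‖ ^ lam := mul_le_mul_of_nonneg_left hrk (by positivity)
    _ ≤ (S * D + 1) * ‖z‖ ^ lam := by linarith

end Pool.Agent.MinMod
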