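import Pool.Agent.MinMod.NumPack
import Pool.Agent.MinMod.NumTab

/-!
PnT: the integers `P - N` of `pnT` are `2^116 * FT`.

PROOF.  `pnT_getD`, `dots_getD` (`48 i`-th drop of `tabA.drop (46 - 2X)` is the drop of `48 i + (46 - 2X)`), `dg_dot` with `n = 24` and
`d = 55` (`tabA`), `d = 72` (`tabR`): the weights are `D.wA`, `D.wB`, `D.m2`, of length 48, with `m2 < 2^14`, `tabB ≤ 2^16` so the sums of the weights are
`< 48 * 2^46`, `48 * 2^30`, `48 * 2^14` and `h3` of `dg_dot` holds.  With `B = 2^12 bR`, `A = 2^48 aR`, `R = 2^64 rR` and `k = 8 - i`,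
`16^(8-i) = 2^8 16^(6-i)`, `256^(8-i) = 2^16 256^(6-i)`:
`SA 2^44 = 2^116 ∑ muR aR`, `x^2 S2 256^(8-i) 2^11 = 2^116 (256^(6-i) x^2 / 2) ∑ m2R rR`,
`xc 16^(8-i) (M1 2^64 - S1) = 2^116 16^(6-i) x |c| ∑ m2R bR (1 - rR)`, with the sign `(-1)^i * (-1)^neg`.
-/

namespace Pool.Agent.MinMod

private theorem pnt_getD_drop (l : List ℕ) (a g : ℕ) : (l.drop a).getD g 0 = l.getD (a + g) 0 := by
  simp [List.getD_eq_getElem?_getD, List.getElem?_drop]

private theorem pnt_map (f : ℕ → ℕ) (g : ℕ) (hg : g < 48) : ((List.range 48).map f).getD g 0 = f g := by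
  simp [List.getD_eq_getElem?_getD, hg]

private theorem pnt_dig (w tab : List ℕ) (hlen : w.length = 48) (d W : ℕ) (hw : ∀ g < 48, w.getD g 0 ≤ W)
    (hWd : 48 * W * 2 ^ d ≤ 2 ^ 112)
    (htab : ∀ idx < 478, tab.getD idx 0 < 2 ^ (112 * 24) ∧ ∀ j < 24, dg (tab.getD idx 0) j < 2 ^ d)
    {X i j : ℕ} (hX : X < 24) (hi : i < 9) (hj : j < 24) :
    dg ((dots w 9 (tab.drop (46 - 2 * X))).getD i 0) j =
      ∑ g ∈ Finset.range 48, w.getD g 0 * dg (tab.getD (48 * i + (46 - 2 * X) + g) 0) j := by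
  rw [dots_getD _ _ _ _ hi, List.drop_drop]
  have hidx : ∀ g < 48, 46 - 2 * X + 48 * i + g < 478 := by
    intro g hg
    omega
  rw [dg_dot w _ 24 d ?_ ?_ ?_ j hj, hlen]
  · refine Finset.sum_congr rfl fun g _ => ?_
    rw [pnt_getD_drop, Nat.add_comm (46 - 2 * X) (48 * i)]
  · intro g hg
    rw [hlen] at hg
    rw [pnt_getD_drop]
    exact (htab _ (hidx g hg)).1
  · intro g hg k hk
    rw [hlen] at hg
    rw [pnt_getD_drop]
    exact (htab _ (hidx g hg)).2 k hk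
  · rw [hlen]
    refine le_trans (Nat.mul_le_mul_right _ ?_) hWd
    calc ∑ g ∈ Finset.range 48, w.getD g 0 ≤ ∑ _g ∈ Finset.range 48, W :=
          Finset.sum_le_sum fun g hg => hw g (Finset.mem_range.1 hg)
      _ = 48 * W := by simp

private theorem pnt_jj {i j : ℕ} (hj : j < 24) : jj i j < 24 := by
  unfold jj
  split_ifs <;> omega

private theorem pnt_tabB {g : ℕ} (hg : g < 48) : tabB.getD g 0 ≤ 2 ^ 16 := by
  have h := (tab_order.2.1 g hg).2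
  unfold bR at h
  rw [div_le_iff₀ (by positivity)] at h
  have h2 : ((tabB.getD g 0 : ℕ) : ℝ) ≤ ((2 ^ 16 : ℕ) : ℝ) := by
    push_cast
    linarith
  exact_mod_cast h2

private theorem pnt_A {D : Dat} {r1 r2 : ℝ} (hD : DatOK D r1 r2) {X i j : ℕ} (hX : X < 24) (hi : i < 9) (hj : j < 24) :
    ((dg ((dots D.wA 9 (tabA.drop (46 - 2 * X))).getD i 0) j : ℕ) : ℝ) =
      2 ^ 72 * ∑ g ∈ Finset.range 48, muR D g * aR (48 * i + (46 - 2 * X) + g) j := by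
  have hlen : D.wA.length = 48 := by rw [hD.wA]; simp
  have hget : ∀ g < 48, D.wA.getD g 0 = D.m2.getD g 0 * tabB.getD g 0 ^ 2 := by
    intro g hg
    rw [hD.wA, pnt_map _ g hg]
  rw [pnt_dig D.wA tabA hlen 55 (2 ^ 46) ?_ (by norm_num) tabA_lt hX hi hj, Nat.cast_sum, Finset.mul_sum]
  · refine Finset.sum_congr rfl fun g hg => ?_
    rw [hget g (Finset.mem_range.1 hg)]
    unfold muR m2R bR aR
    push_cast
    ring
  · intro g hg
    rw [hget g hg]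
    calc D.m2.getD g 0 * tabB.getD g 0 ^ 2 ≤ 2 ^ 14 * (2 ^ 16) ^ 2 :=
          Nat.mul_le_mul (hD.m2lt g hg).le (Nat.pow_le_pow_left (pnt_tabB hg) 2)
      _ = 2 ^ 46 := by norm_num

private theorem pnt_B {D : Dat} {r1 r2 : ℝ} (hD : DatOK D r1 r2) {X i j : ℕ} (hX : X < 24) (hi : i < 9) (hj : j < 24) :
    (D.M1 : ℝ) * 2 ^ 64 - ((dg ((dots D.wB 9 (tabR.drop (46 - 2 * X))).getD i 0) j : ℕ) : ℝ) =
      2 ^ 76 * ∑ g ∈ Finset.range 48, m2R D g * bR g * (1 - rR (48 * i + (46 - 2 * X) + g) j) := by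
  have hlen : D.wB.length = 48 := by rw [hD.wB]; simp
  have hget : ∀ g < 48, D.wB.getD g 0 = D.m2.getD g 0 * tabB.getD g 0 := by
    intro g hg
    rw [hD.wB, pnt_map _ g hg]
  rw [pnt_dig D.wB tabR hlen 72 (2 ^ 30) ?_ (by norm_num) tabR_lt hX hi hj, hD.M1, Nat.cast_sum, Nat.cast_sum,
    Finset.sum_mul, ← Finset.sum_sub_distrib, Finset.mul_sum]
  · refine Finset.sum_congr rfl fun g hg => ?_
    rw [hget g (Finset.mem_range.1 hg)]
    unfold m2R bR rR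
    push_cast
    ring
  · intro g hg
    rw [hget g hg]
    calc D.m2.getD g 0 * tabB.getD g 0 ≤ 2 ^ 14 * 2 ^ 16 :=
          Nat.mul_le_mul (hD.m2lt g hg).le (pnt_tabB hg)
      _ = 2 ^ 30 := by norm_num

private theorem pnt_C {D : Dat} {r1 r2 : ℝ} (hD : DatOK D r1 r2) {X i j : ℕ} (hX : X < 24) (hi : i < 9) (hj : j < 24) :
    ((dg ((dots D.m2 9 (tabR.drop (46 - 2 * X))).getD i 0) j : ℕ) : ℝ) =
      2 ^ 64 * ∑ g ∈ Finset.range 48, m2R D g * rR (48 * i + (46 - 2 * X) + g) j := by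
  rw [pnt_dig D.m2 tabR hD.len 72 (2 ^ 14) (fun g hg => (hD.m2lt g hg).le) (by norm_num) tabR_lt hX hi hj,
    Nat.cast_sum, Finset.mul_sum]
  refine Finset.sum_congr rfl fun g hg => ?_
  unfold m2R rR
  push_cast
  ring

private theorem pnt_pow16 {i : ℕ} (hi : i < 9) : ((16 : ℝ) ^ (8 - i)) = 2 ^ 8 * (16 : ℝ) ^ ((6 : ℤ) - i) := by
  have h1 : ((16 : ℝ) ^ (8 - i)) = (16 : ℝ) ^ ((8 : ℤ) - i) := by
    rw [← zpow_natCast, Nat.cast_sub (by omega : i ≤ 8)]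
    rfl
  have h2 : (16 : ℝ) ^ ((8 : ℤ) - i) = (16 : ℝ) ^ ((6 : ℤ) - i) * (16 : ℝ) ^ (2 : ℤ) := by
    rw [← zpow_add₀ (by norm_num)]
    congr 1
    ring
  rw [h1, h2]
  norm_num
  ring

private theorem pnt_pow256 {i : ℕ} (hi : i < 9) :
    ((256 : ℝ) ^ (8 - i)) = 2 ^ 16 * (256 : ℝ) ^ ((6 : ℤ) - i) := by
  have h1 : ((256 : ℝ) ^ (8 - i)) = (256 : ℝ) ^ ((8 : ℤ) - i) := by
    rw [← zpow_natCast, Nat.cast_sub (by omega : i ≤ 8)]
    rfl
  have h2 : (256 : ℝ) ^ ((8 : ℤ) - i) = (256 : ℝ) ^ ((6 : ℤ) - i) * (256 : ℝ) ^ (2 : ℤ) := by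
    rw [← zpow_add₀ (by norm_num)]
    congr 1
    ring
  rw [h1, h2]
  norm_num
  ring

theorem pnT_val {D : Dat} {r1 r2 : ℝ} (hD : DatOK D r1 r2) {X i j : ℕ} (hX : X < 24) (hi : i < 9) (hj : j < 24)
    (neg : Bool) (c x : ℕ) :
    (((pnT D.M1 j neg (x * c) (x * x) (dots D.wA 9 (tabA.drop (46 - 2 * X))) (dots D.wB 9 (tabR.drop (46 - 2 * X)))
        (dots D.m2 9 (tabR.drop (46 - 2 * X)))).getD i (0, 0)).1 : ℝ) -
      (((pnT D.M1 j neg (x * c) (x * x) (dots D.wA 9 (tabA.drop (46 - 2 * X))) (dots D.wB 9 (tabR.drop (46 - 2 * X)))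
        (dots D.m2 9 (tabR.drop (46 - 2 * X)))).getD i (0, 0)).2 : ℝ) =
      2 ^ 116 * FT D X i j ((x : ℝ) / 2 ^ 12) (sv (neg, c)) := by
  have hjj : jj i j < 24 := pnt_jj hj
  have eA := pnt_A hD hX hi hjj
  have eB := pnt_B hD hX hi hjj
  have eC := pnt_C hD hX hi hjj
  rw [pnT_getD _ _ _ _ _ _ _ _ i (by rw [dots_length]; exact hi)]
  unfold FT sv
  have hsA : ∑ g ∈ Finset.range 48, muR D g * aR (48 * i + (46 - 2 * X) + g) (jj i j) =
      ((dg ((dots D.wA 9 (tabA.drop (46 - 2 * X))).getD i 0) (jj i j) : ℕ) : ℝ) / 2 ^ 72 := by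
    rw [eA]; field_simp
  have hsB : ∑ g ∈ Finset.range 48, m2R D g * bR g * (1 - rR (48 * i + (46 - 2 * X) + g) (jj i j)) =
      ((D.M1 : ℝ) * 2 ^ 64 - ((dg ((dots D.wB 9 (tabR.drop (46 - 2 * X))).getD i 0) (jj i j) : ℕ) : ℝ)) / 2 ^ 76 := by
    rw [eB]; field_simp
  have hsC : ∑ g ∈ Finset.range 48, m2R D g * rR (48 * i + (46 - 2 * X) + g) (jj i j) =
      ((dg ((dots D.m2 9 (tabR.drop (46 - 2 * X))).getD i 0) (jj i j) : ℕ) : ℝ) / 2 ^ 64 := by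
    rw [eC]; field_simp
  rw [hsA, hsB, hsC]
  generalize dg ((dots D.wA 9 (tabA.drop (46 - 2 * X))).getD i 0) (jj i j) = a
  generalize dg ((dots D.wB 9 (tabR.drop (46 - 2 * X))).getD i 0) (jj i j) = b
  generalize dg ((dots D.m2 9 (tabR.drop (46 - 2 * X))).getD i 0) (jj i j) = e
  have p16 := pnt_pow16 hi
  have p256 := pnt_pow256 hi
  have h16 : (16 : ℝ) ^ ((6 : ℤ) - i) = (16 : ℝ) ^ (8 - i) / 2 ^ 8 := by rw [p16]; field_simp
  have h256 : (256 : ℝ) ^ ((6 : ℤ) - i) = (256 : ℝ) ^ (8 - i) / 2 ^ 16 := by rw [p256]; field_simp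
  rw [h16, h256]
  generalize (8 - i) = k
  by_cases hp : i % 2 = 1
  · have hs : ((-1 : ℝ)) ^ i = -1 := Odd.neg_one_pow (Nat.odd_iff.2 hp)
    cases neg
    · rw [if_neg (by simp [hp])]
      rw [hs]
      push_cast
      norm_num
      ring
    · rw [if_pos (by simp [hp])]
      rw [hs]
      push_cast
      norm_num
      ring
  · have hs : ((-1 : ℝ)) ^ i = 1 := Even.neg_one_pow (Nat.even_iff.2 (by omega))
    cases neg
    · rw [if_pos (by simp [hp])]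
      rw [hs]
      push_cast
      norm_num
      ring
    · rw [if_neg (by simp [hp])]
      rw [hs]
      push_cast
      norm_num
      ring

end Pool.Agent.MinMod
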