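import Pool.Agent.MinMod.Defs

/-!
Red: reduction of an upper bound for `D lam` to one function (extended real arithmetic).

PROOF.  For `r ≥ R`: `ENNReal.log (ENNReal.ofReal (m0 f r)) ≤ ENNReal.log (ENNReal.ofReal (exp (-c T))) = (-(c T) : ℝ)`
(`ENNReal.log` is monotone; value at `ofReal (exp x)`), division by the positive real number `T f r` is monotone, and
`(-(c T)) / T = -c`.  So `quot f r ≤ -c` eventually, hence `limsup ≤ -c` and `sInf ≤ limsup`.
-/

namespace Pool.Agent.MinMod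

theorem D_le_of_eventually {f : ℂ → ℂ} {lam c R : ℝ} (hf : Differentiable ℂ f) (hc : ¬ ∃ c : ℂ, ∀ z, f z = c)
    (hlo : lowerOrder f = (lam : EReal)) (h : ∀ r, R ≤ r → 0 < T f r ∧ m0 f r ≤ Real.exp (-(c * T f r))) :
    D lam ≤ ((-c : ℝ) : EReal) := by
  have h1 : D lam ≤ Filter.limsup (quot f) Filter.atTop := sInf_le ⟨f, hf, hc, hlo, rfl⟩
  refine h1.trans ?_
  refine Filter.limsup_le_of_le (by isBoundedDefault) ?_
  filter_upwards [Filter.eventually_ge_atTop R] with r hr
  obtain ⟨hT, hm⟩ := h r hr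
  unfold quot
  have h2 : ENNReal.log (ENNReal.ofReal (m0 f r)) ≤ ((-(c * T f r) : ℝ) : EReal) := by
    have h3 : ENNReal.log (ENNReal.ofReal (m0 f r)) ≤
        ENNReal.log (ENNReal.ofReal (Real.exp (-(c * T f r)))) :=
      ENNReal.log_monotone (ENNReal.ofReal_le_ofReal hm)
    rw [ENNReal.log_ofReal_of_pos (Real.exp_pos _), Real.log_exp] at h3
    exact h3
  rw [EReal.div_le_iff_le_mul (by exact_mod_cast hT) (EReal.coe_ne_top _)]
  refine h2.trans (le_of_eq ?_)
  rw [← EReal.coe_mul]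
  congr 1
  ring

end Pool.Agent.MinMod
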