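import Pool.Agent.MinMod.NumTab

/-!
RhoInt: interpolation in `rho` and the error term.

PROOF.  `rho_int`: let `p = i - 6 ∈ {-6, ..., 2}`, `rho = (1-s) r1 + s r2`, `rm = (r1+r2)/2`.  Convexity of `t ↦ t^p` on `(0, ∞)` (`convexOn_zpow`) gives
`rho^p ≤ (1-s) r1^p + s r2^p ≤ (1-s) up1 + s up2`.  Lower bound: `y^p ≥ 1 + p (y - 1)` for `y > 0` and `p ≤ 0` or `p ≥ 1` (Bernoulli; for `p = -q`:
`y^(-q) = (1/y)^q ≥ 1 + q (1/y - 1) ≥ 1 + q (1 - y)`), with `y = rho / rm`: `rho^p ≥ rm^p (1 + p (rho - rm)/rm)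
= (1-s) rm^p (1 + p (r1 - rm)/rm) + s rm^p (1 + p (r2 - rm)/rm) ≥ (1-s) lo1 + s lo2`.
Then `rho^p F ≤ (1-s) (up1 F⁺ - lo1 F⁻) + s (up2 F⁺ - lo2 F⁻)`.
`tail_le`: `nearC = 2 (∑ muR/bR) (16/rho)^7 / (1 - 16/rho)`, decreasing in `rho`; `∑ muR/bR = ∑ m2R bR = M1 / 2^12`.  `farC = (∑ muR/bR^3)/2 * ..`, `muR/bR^3 = m2R/bR ≤ m2R`,
increasing in `rho`.
-/

namespace Pool.Agent.MinMod

/-- Bernoulli's inequality for integer exponents. -/
private theorem bern (i : ℕ) {y : ℝ} (hy : 0 < y) : 1 + ((i : ℝ) - 6) * (y - 1) ≤ y ^ ((i : ℤ) - 6) := by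
  rcases le_or_gt 6 i with h | h
  · obtain ⟨n, rfl⟩ := Nat.exists_eq_add_of_le h
    have e1 : ((6 + n : ℕ) : ℤ) - 6 = (n : ℤ) := by
      push_cast
      ring
    have e2 : ((6 + n : ℕ) : ℝ) - 6 = (n : ℝ) := by
      push_cast
      ring
    rw [e1, e2, zpow_natCast]
    have h1 := one_add_mul_le_pow (a := y - 1) (by linarith) n
    have e3 : (1 + (y - 1)) = y := by ring
    rw [e3] at h1
    exact h1
  · obtain ⟨q, hq⟩ : ∃ q : ℕ, i + q = 6 := ⟨6 - i, by omega⟩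
    have e1 : (i : ℤ) - 6 = -(q : ℤ) := by
      have : (i : ℤ) + q = 6 := by exact_mod_cast hq
      linarith
    have e2 : (i : ℝ) - 6 = -(q : ℝ) := by
      have : (i : ℝ) + q = 6 := by exact_mod_cast hq
      linarith
    rw [e1, e2, zpow_neg, zpow_natCast, ← inv_pow]
    have hy' : 0 < y⁻¹ := inv_pos.2 hy
    have h1 := one_add_mul_le_pow (a := y⁻¹ - 1) (by linarith) q
    have e3 : (1 + (y⁻¹ - 1)) = y⁻¹ := by ring
    rw [e3] at h1
    have h2 : 1 - y ≤ y⁻¹ - 1 := by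
      have h3 : y * y⁻¹ = 1 := mul_inv_cancel₀ hy.ne'
      have h4 : 0 ≤ (y - 1) ^ 2 * y⁻¹ := by positivity
      have h5 : (y - 1) ^ 2 * y⁻¹ = y + y⁻¹ - 2 := by
        field_simp
        ring
      linarith
    have h3 : (q : ℝ) * (1 - y) ≤ (q : ℝ) * (y⁻¹ - 1) := mul_le_mul_of_nonneg_left h2 (by positivity)
    linarith

private theorem part_le {a u1 u2 l1 l2 s F : ℝ} (hu : a ≤ (1 - s) * u1 + s * u2)
    (hl : (1 - s) * l1 + s * l2 ≤ a) :
    a * F ≤ (1 - s) * (u1 * max F 0 - l1 * max (-F) 0) + s * (u2 * max F 0 - l2 * max (-F) 0) := by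
  have hp : 0 ≤ max F 0 := le_max_right _ _
  have hn : 0 ≤ max (-F) 0 := le_max_right _ _
  have hF : F = max F 0 - max (-F) 0 := by
    rcases le_total 0 F with h | h
    · rw [max_eq_left h, max_eq_right (by linarith)]
      ring
    · rw [max_eq_right h, max_eq_left (by linarith)]
      ring
  have h1 := mul_le_mul_of_nonneg_right hu hp
  have h2 := mul_le_mul_of_nonneg_right hl hn
  have h3 : a * F = a * max F 0 - a * max (-F) 0 := by
    conv_lhs => rw [hF]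
    ring
  rw [h3]
  linarith

theorem rho_int {D : Dat} {r1 r2 : ℝ} (hD : DatOK D r1 r2) {s : ℝ} (hs0 : 0 ≤ s) (hs1 : s ≤ 1) (t : ℝ) (F : ℕ → ℝ) :
    (∑ i ∈ Finset.range 9, ((1 - s) * r1 + s * r2) ^ ((i : ℤ) - 6) * F i) + t ≤
      (1 - s) * VV D.up1 D.lo1 t F + s * VV D.up2 D.lo2 t F := by
  have hr1 : 0 < r1 := by linarith [hD.r16]
  have hr2 : 0 < r2 := by linarith [hD.r12]
  have hs1' : 0 ≤ 1 - s := by linarith
  obtain ⟨rho, hrho⟩ : ∃ rho, rho = (1 - s) * r1 + s * r2 := ⟨_, rfl⟩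
  obtain ⟨rm, hrm⟩ : ∃ rm, rm = (r1 + r2) / 2 := ⟨_, rfl⟩
  have hrm0 : 0 < rm := by rw [hrm]; linarith
  have hrho0 : 0 < rho := by
    rw [hrho]
    have h12 := hD.r12
    nlinarith
  rw [← hrho]
  have key : ∀ i ∈ Finset.range 9, rho ^ ((i : ℤ) - 6) * F i ≤
      (1 - s) * ((D.up1.getD i 0 : ℝ) / 2 ^ 64 * max (F i) 0 -
        (D.lo1.getD i 0 : ℝ) / 2 ^ 64 * max (-F i) 0) +
      s * ((D.up2.getD i 0 : ℝ) / 2 ^ 64 * max (F i) 0 -
        (D.lo2.getD i 0 : ℝ) / 2 ^ 64 * max (-F i) 0) := by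
    intro i hi
    rw [Finset.mem_range] at hi
    refine part_le ?_ ?_
    · have h1 := (convexOn_zpow ((i : ℤ) - 6)).2 (Set.mem_Ioi.2 hr1) (Set.mem_Ioi.2 hr2) hs1' hs0
        (by ring)
      simp only [smul_eq_mul] at h1
      rw [← hrho] at h1
      have h2 := mul_le_mul_of_nonneg_left (hD.up1 i hi) hs1'
      have h3 := mul_le_mul_of_nonneg_left (hD.up2 i hi) hs0
      linarith
    · have h1 := mul_le_mul_of_nonneg_left (hD.lo1 i hi) hs1'
      have h2 := mul_le_mul_of_nonneg_left (hD.lo2 i hi) hs0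
      rw [← hrm] at h1 h2
      have h3 := bern i (y := rho / rm) (by positivity)
      have h4 : 0 < rm ^ ((i : ℤ) - 6) := zpow_pos hrm0 _
      have h5 := mul_le_mul_of_nonneg_left h3 h4.le
      have h6 : rm ^ ((i : ℤ) - 6) * (rho / rm) ^ ((i : ℤ) - 6) = rho ^ ((i : ℤ) - 6) := by
        rw [← mul_zpow, mul_div_cancel₀ _ hrm0.ne']
      rw [h6] at h5
      have h7 : (1 - s) * (rm ^ ((i : ℤ) - 6) * (1 + ((i : ℝ) - 6) * (r1 - rm) / rm)) +
          s * (rm ^ ((i : ℤ) - 6) * (1 + ((i : ℝ) - 6) * (r2 - rm) / rm)) =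
          rm ^ ((i : ℤ) - 6) * (1 + ((i : ℝ) - 6) * (rho / rm - 1)) := by
        rw [hrho]
        field_simp
        ring
      linarith
  have hsum := Finset.sum_le_sum key
  rw [Finset.sum_add_distrib, ← Finset.mul_sum, ← Finset.mul_sum] at hsum
  unfold VV
  linarith

private theorem bR_pos {g : ℕ} (hg : g < 48) : 1 ≤ bR g := (tab_order.2.1 g hg).1

private theorem frac_mono {a b : ℝ} (ha : 0 ≤ a) (hab : a ≤ b) (hb : b < 1) (n : ℕ) :
    a ^ n / (1 - a) ≤ b ^ n / (1 - b) :=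
  div_le_div₀ (pow_nonneg (ha.trans hab) n) (pow_le_pow_left₀ ha hab n) (by linarith) (by linarith)

theorem tail_le {D : Dat} {r1 r2 : ℝ} (hD : DatOK D r1 r2) {rho x : ℝ} (h1 : r1 ≤ rho) (h2 : rho ≤ r2) (hx : 0 ≤ x) :
    x * nearC 48 bR (muR D) 6 rho + x ^ 3 * farC 48 bR (muR D) 3 rho ≤ tailR D x := by
  have hr1 := hD.r16
  have hr2 := hD.r256
  have hm2 : ∀ g, 0 ≤ m2R D g := fun g => by unfold m2R; positivity
  have hn : nearC 48 bR (muR D) 6 rho ≤ (D.Nn : ℝ) / 2 ^ 168 := by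
    refine le_trans ?_ hD.Nn
    unfold nearC
    have e1 : ∑ g ∈ Finset.range 48, muR D g / bR g = (D.M1 : ℝ) / 2 ^ 12 := by
      rw [hD.M1]
      push_cast
      rw [Finset.sum_div]
      refine Finset.sum_congr rfl fun g hg => ?_
      have hb : bR g ≠ 0 := by
        have := bR_pos (Finset.mem_range.1 hg)
        linarith
      have e2 : muR D g / bR g = m2R D g * bR g := by
        unfold muR
        field_simp
      rw [e2]
      unfold m2R bR
      ring
    rw [e1]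
    have h3 : 0 ≤ 2 * ((D.M1 : ℝ) / 2 ^ 12) := by positivity
    refine mul_le_mul_of_nonneg_left ?_ h3
    have h16 : 0 ≤ 16 / rho := by
      have : 0 < rho := by linarith
      positivity
    refine frac_mono h16 ?_ ?_ 7
    · exact div_le_div_of_nonneg_left (by norm_num) (by linarith) h1
    · rw [div_lt_one (by linarith)]
      exact hr1
  have hf : farC 48 bR (muR D) 3 rho ≤ (D.Fn : ℝ) / 2 ^ 144 := by
    refine le_trans ?_ hD.Fn
    unfold farC
    have e1 : ∑ g ∈ Finset.range 48, muR D g / bR g ^ 3 ≤ ∑ g ∈ Finset.range 48, m2R D g := by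
      refine Finset.sum_le_sum fun g hg => ?_
      have hb := bR_pos (Finset.mem_range.1 hg)
      have e2 : muR D g / bR g ^ 3 = m2R D g / bR g := by
        unfold muR
        have : bR g ≠ 0 := by linarith
        field_simp
      rw [e2]
      exact div_le_self (hm2 g) hb
    have h3 : 0 ≤ (rho / 4096) ^ 3 / (1 - rho / 4096) := by
      have h4 : 0 ≤ rho / 4096 := by
        have : 0 ≤ rho := by linarith
        positivity
      have h5 : 0 < 1 - rho / 4096 := by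
        have : rho / 4096 ≤ 1 / 16 := by
          rw [div_le_iff₀ (by norm_num)]
          linarith
        linarith
      positivity
    have h4 : 0 ≤ (∑ g ∈ Finset.range 48, m2R D g) / 2 := by
      have : 0 ≤ ∑ g ∈ Finset.range 48, m2R D g := Finset.sum_nonneg fun g _ => hm2 g
      positivity
    refine mul_le_mul (by linarith) ?_ h3 h4
    refine frac_mono ?_ ?_ ?_ 3
    · have : 0 ≤ rho := by linarith
      positivity
    · exact div_le_div_of_nonneg_right h2 (by norm_num)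
    · rw [div_lt_one (by norm_num)]
      linarith
  unfold tailR
  have h3 := mul_le_mul_of_nonneg_left hn hx
  have h4 := mul_le_mul_of_nonneg_left hf (pow_nonneg hx 3)
  linarith

end Pool.Agent.MinMod
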