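import Pool.Agent.MinMod.Defs
import Pool.Agent.MinMod.Num

/-!
Sem: the real numbers behind the integer check of `Num.lean` (`G = 48`, `K0 = 3`, `K1 = 6`, `M = 24`).
-/

namespace Pool.Agent.MinMod

/-- The zeros. -/
noncomputable def bR (g : ℕ) : ℝ := (tabB.getD g 0 : ℝ) / 2 ^ 12

/-- The weights `m2`. -/
noncomputable def m2R (D : Dat) (g : ℕ) : ℝ := (D.m2.getD g 0 : ℝ)

/-- The masses. -/
noncomputable def muR (D : Dat) (g : ℕ) : ℝ := m2R D g * bR g ^ 2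

/-- Cell boundaries. -/
noncomputable def yR (k : ℕ) : ℝ := (tabY.getD k 0 : ℝ) / 2 ^ 12

/-- A signed number of scale `2^20`. -/
noncomputable def sv (p : Bool × ℕ) : ℝ := (if p.1 then -1 else 1) * ((p.2 : ℝ) / 2 ^ 20)

/-- Left ends in `c` of the cells. -/
noncomputable def hiR (j : ℕ) : ℝ := sv (tabH.getD j (false, 0))

/-- Right ends in `c` of the cells, `loR (j + 1)` belongs to the cell `j`. -/
noncomputable def loR (j : ℕ) : ℝ := sv (tabLo.getD (j - 1) (false, 0))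

/-- Quadrature weight. -/
noncomputable def waR (j : ℕ) : ℝ := (tabWA.getD j 0 : ℝ) / 2 ^ 24

/-- Quadrature weight. -/
noncomputable def wbR (j : ℕ) : ℝ := (tabWB.getD j 0 : ℝ) / 2 ^ 24

/-- Node parameter `r`. -/
noncomputable def rR (idx j : ℕ) : ℝ := (dg (tabR.getD idx 0) j : ℝ) / 2 ^ 64

/-- Node parameter `a`. -/
noncomputable def aR (idx j : ℕ) : ℝ := (dg (tabA.getD idx 0) j : ℝ) / 2 ^ 48

/-- Digit used in the half period `i`. -/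
def jj (i j : ℕ) : ℕ := if i % 2 = 1 then 23 - j else j

/-- The part `i` of the majorant in the cell `(X, j)` at `(x, c)`. -/
noncomputable def FT (D : Dat) (X i j : ℕ) (x c : ℝ) : ℝ :=
  (∑ g ∈ Finset.range 48, muR D g * aR (48 * i + (46 - 2 * X) + g) (jj i j)) +
    (-1) ^ i * (16 : ℝ) ^ ((6 : ℤ) - i) * x * c *
      (∑ g ∈ Finset.range 48, m2R D g * bR g * (1 - rR (48 * i + (46 - 2 * X) + g) (jj i j))) +
    (256 : ℝ) ^ ((6 : ℤ) - i) * x ^ 2 / 2 *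
      (∑ g ∈ Finset.range 48, m2R D g * rR (48 * i + (46 - 2 * X) + g) (jj i j))

/-- Axis table: `alpha` for the half period `i` (digit 0 or 2). -/
noncomputable def alR (idx i : ℕ) : ℝ := (dg (tabL.getD idx 0) (if i % 2 = 1 then 2 else 0) : ℝ) / 2 ^ 48 - 64

/-- Axis table: slope for the half period `i` (digit 1 or 3). -/
noncomputable def slR (idx i : ℕ) : ℝ := (dg (tabL.getD idx 0) (if i % 2 = 1 then 3 else 1) : ℝ) / 2 ^ 48 - 64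

/-- The part `i` of the majorant on the axis, half cells next to `y k`. -/
noncomputable def FL (D : Dat) (k i : ℕ) (x : ℝ) : ℝ :=
  (∑ g ∈ Finset.range 48, muR D g * alR (48 * i + (48 - k) + g) i) +
    (16 : ℝ) ^ ((6 : ℤ) - i) * x * (∑ g ∈ Finset.range 48, m2R D g * bR g * slR (48 * i + (48 - k) + g) i)

/-- The error term. -/
noncomputable def tailR (D : Dat) (x : ℝ) : ℝ := x * ((D.Nn : ℝ) / 2 ^ 168) + x ^ 3 * ((D.Fn : ℝ) / 2 ^ 144)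

/-- Sum of the parts with the bounds `up`, `lo` of the powers of `rho`. -/
noncomputable def VV (up lo : List ℕ) (t : ℝ) (F : ℕ → ℝ) : ℝ :=
  t + ∑ i ∈ Finset.range 9, ((up.getD i 0 : ℝ) / 2 ^ 64 * max (F i) 0 - (lo.getD i 0 : ℝ) / 2 ^ 64 * max (-F i) 0)

/-- The bound of the mean at `x` (cell `X`, data `up`, `lo`). -/
noncomputable def TT (D : Dat) (up lo : List ℕ) (X : ℕ) (x : ℝ) : ℝ :=
  ∑ j ∈ Finset.range 24, (waR j * max 0 (VV up lo (tailR D x) (fun i => FT D X i j x (hiR j))) +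
    wbR j * max 0 (VV up lo (tailR D x) (fun i => FT D X i j x (loR (j + 1)))))

/-- What is needed of the data for the interval `[r1, r2]`. -/
structure DatOK (D : Dat) (r1 r2 : ℝ) : Prop where
  len : D.m2.length = 48
  wA : D.wA = (List.range 48).map (fun g => D.m2.getD g 0 * tabB.getD g 0 ^ 2)
  wB : D.wB = (List.range 48).map (fun g => D.m2.getD g 0 * tabB.getD g 0)
  MU : D.MU = ∑ g ∈ Finset.range 48, D.m2.getD g 0 * tabB.getD g 0 ^ 2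
  M1 : D.M1 = ∑ g ∈ Finset.range 48, D.m2.getD g 0 * tabB.getD g 0
  m2lt : ∀ g < 48, D.m2.getD g 0 < 2 ^ 14
  m2pos : ∃ g < 48, 0 < D.m2.getD g 0
  r16 : 16 < r1
  r12 : r1 < r2
  r256 : r2 ≤ 256
  Nn : 2 * ((D.M1 : ℝ) / 2 ^ 12) * ((16 / r1) ^ 7 / (1 - 16 / r1)) ≤ (D.Nn : ℝ) / 2 ^ 168
  Fn : (∑ g ∈ Finset.range 48, m2R D g) / 2 * ((r2 / 4096) ^ 3 / (1 - r2 / 4096)) ≤ (D.Fn : ℝ) / 2 ^ 144
  up1 : ∀ i : ℕ, i < 9 → r1 ^ ((i : ℤ) - 6) ≤ (D.up1.getD i 0 : ℝ) / 2 ^ 64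
  up2 : ∀ i : ℕ, i < 9 → r2 ^ ((i : ℤ) - 6) ≤ (D.up2.getD i 0 : ℝ) / 2 ^ 64
  lo1 : ∀ i : ℕ, i < 9 → (D.lo1.getD i 0 : ℝ) / 2 ^ 64 ≤ ((r1 + r2) / 2) ^ ((i : ℤ) - 6) *
    (1 + ((i : ℝ) - 6) * (r1 - (r1 + r2) / 2) / ((r1 + r2) / 2))
  lo2 : ∀ i : ℕ, i < 9 → (D.lo2.getD i 0 : ℝ) / 2 ^ 64 ≤ ((r1 + r2) / 2) ^ ((i : ℤ) - 6) *
    (1 + ((i : ℝ) - 6) * (r2 - (r1 + r2) / 2) / ((r1 + r2) / 2))
  lu1 : ∀ i < 9, D.lo1.getD i 0 ≤ D.up1.getD i 0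
  lu2 : ∀ i < 9, D.lo2.getD i 0 ≤ D.up2.getD i 0

end Pool.Agent.MinMod
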