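import Pool.Agent.MinMod.Sem

/-!
Trig: enclosures of `cos (π j / 24)` and of the quadrature weights.

PROOF.  Values: `hiR j`, `loR (j+1)` are `cos` rounded up/down at scale `2^20` (`hiR 0 = 1`, `loR 24 = -1` exactly), `waR`, `wbR` are
the weights rounded up at scale `2^24` plus one or two units (slack at least `2^-24`; the weights are about `0.0138 .. 0.0278`).
One needs enclosures of `cos (π j / 24)`, `0 ≤ j ≤ 12`, with error about `10^-10` (`sin (π j / 24) = cos (π (12 - j) / 24)`,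
`cos (π (24 - j) / 24) = -cos (π j / 24)`).  They are all expressions in square roots: `cos (π/24)^2 = (1 + cos (π/12))/2`,
`cos (π/12)^2 = (1 + cos (π/6))/2`, `cos (π/6) = √3/2`, `cos (π/8) = √(2+√2)/2`, addition formulas; or: Taylor
(`Real.cos_bound`, `Complex.exp_bound'`) for `j = 1` with `Real.pi_gt_d20`, `Real.pi_lt_d20`, and then Chebyshev recursion
`cos ((j+1) t) = 2 cos t cos (j t) - cos ((j-1) t)` with interval arithmetic; or half angle formulas with `Real.sqrt` enclosures
(`Real.le_sqrt`, `Real.sqrt_le_left`, checked by squaring rational numbers).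
Then `wA 24 loR hiR j ≤ waR j` is `sin (π (j+1)/24) - sin (π j/24) - loR (j+1) π/24 ≤ waR j * π * (hiR j - loR (j+1))`, a numerical
inequality in each of the 24 cases (`interval_cases j`), with slack at least `2^-24 * 3 * 0.008 > 10^-9`.
-/

namespace Pool.Agent.MinMod

/-- lower bounds of `10^16 cos (π k / 24)` -/
private def tgL : List ℤ := [
  10000000000000000, 9914448613738103, 9659258262890682, 9238795325112867, 8660254037844386,
  7933533402912351, 7071067811865475, 6087614290087205, 5000000000000000, 3826834323650897,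
  2588190451025207, 1305261922200513, 0, -1305261922200518, -2588190451025209, -3826834323650898,
  -5000000000000000, -6087614290087207, -7071067811865476, -7933533402912353, -8660254037844387,
  -9238795325112868, -9659258262890684, -9914448613738105, -10000000000000000]

/-- upper bounds of `10^16 cos (π k / 24)` -/
private def tgH : List ℤ := [
  10000000000000000, 9914448613738105, 9659258262890684, 9238795325112868, 8660254037844387,
  7933533402912353, 7071067811865476, 6087614290087207, 5000000000000000, 3826834323650898,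
  2588190451025209, 1305261922200518, 0, -1305261922200513, -2588190451025207, -3826834323650897,
  -5000000000000000, -6087614290087205, -7071067811865475, -7933533402912351, -8660254037844386,
  -9238795325112867, -9659258262890682, -9914448613738103, -10000000000000000]

private def cL (k : ℕ) : ℤ := tgL.getD k 0

private def cH (k : ℕ) : ℤ := tgH.getD k 0

private def zv (p : Bool × ℕ) : ℤ := if p.1 then -(p.2 : ℤ) else p.2

private theorem sv_eq (p : Bool × ℕ) : sv p = (zv p : ℝ) / 2 ^ 20 := by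
  unfold sv zv
  split_ifs <;> push_cast <;> ring

private def Bd (k : ℕ) : Prop :=
  (cL k : ℝ) / 10 ^ 16 ≤ Real.cos (Real.pi * k / 24) ∧
    Real.cos (Real.pi * k / 24) ≤ (cH k : ℝ) / 10 ^ 16

private theorem bd_half (k : ℕ) (hk : k ≤ 12) (h : Bd (2 * k))
    (c1 : 2 * cL k ^ 2 ≤ 10 ^ 32 + cL (2 * k) * 10 ^ 16) (c2 : 0 ≤ cH k)
    (c3 : 10 ^ 32 + cH (2 * k) * 10 ^ 16 ≤ 2 * cH k ^ 2) : Bd k := by
  obtain ⟨h1, h2⟩ := h
  have hx : Real.cos (Real.pi * ((2 * k : ℕ) : ℝ) / 24) =
      2 * Real.cos (Real.pi * k / 24) ^ 2 - 1 := by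
    rw [← Real.cos_two_mul]
    congr 1
    push_cast
    ring
  have hk' : (k : ℝ) ≤ 12 := by exact_mod_cast hk
  have hpi := Real.pi_pos
  have hcos : 0 ≤ Real.cos (Real.pi * k / 24) := by
    apply Real.cos_nonneg_of_neg_pi_div_two_le_of_le
    · have : 0 ≤ Real.pi * k / 24 := by positivity
      linarith
    · rw [div_le_div_iff₀ (by norm_num) (by norm_num)]
      nlinarith
  rw [hx] at h1 h2
  have c1' : 2 * (cL k : ℝ) ^ 2 ≤ 10 ^ 32 + (cL (2 * k) : ℝ) * 10 ^ 16 := by exact_mod_cast c1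
  have c2' : 0 ≤ (cH k : ℝ) := by exact_mod_cast c2
  have c3' : 10 ^ 32 + (cH (2 * k) : ℝ) * 10 ^ 16 ≤ 2 * (cH k : ℝ) ^ 2 := by exact_mod_cast c3
  set C := Real.cos (Real.pi * k / 24) with hC
  constructor
  · by_contra hcon
    push Not at hcon
    have e1 : C ^ 2 < ((cL k : ℝ) / 10 ^ 16) ^ 2 := pow_lt_pow_left₀ hcon hcos (by norm_num)
    have e2 : ((cL k : ℝ) / 10 ^ 16) ^ 2 * (2 * 10 ^ 32) = 2 * (cL k : ℝ) ^ 2 := by ring
    have e3 : (cL (2 * k) : ℝ) / 10 ^ 16 * 10 ^ 32 = (cL (2 * k) : ℝ) * 10 ^ 16 := by ring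
    nlinarith
  · by_contra hcon
    push Not at hcon
    have e1 : ((cH k : ℝ) / 10 ^ 16) ^ 2 < C ^ 2 :=
      pow_lt_pow_left₀ hcon (by positivity) (by norm_num)
    have e2 : ((cH k : ℝ) / 10 ^ 16) ^ 2 * (2 * 10 ^ 32) = 2 * (cH k : ℝ) ^ 2 := by ring
    have e3 : (cH (2 * k) : ℝ) / 10 ^ 16 * 10 ^ 32 = (cH (2 * k) : ℝ) * 10 ^ 16 := by ring
    nlinarith

private theorem bd_refl (k : ℕ) (hk : k ≤ 24) (h : Bd k) (c1 : cL (24 - k) ≤ -cH k)
    (c2 : -cL k ≤ cH (24 - k)) : Bd (24 - k) := by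
  obtain ⟨h1, h2⟩ := h
  have hx : Real.cos (Real.pi * ((24 - k : ℕ) : ℝ) / 24) = -Real.cos (Real.pi * k / 24) := by
    rw [← Real.cos_pi_sub]
    congr 1
    rw [Nat.cast_sub hk]
    push_cast
    ring
  have c1' : (cL (24 - k) : ℝ) ≤ -(cH k : ℝ) := by exact_mod_cast c1
  have c2' : -(cL k : ℝ) ≤ (cH (24 - k) : ℝ) := by exact_mod_cast c2
  constructor
  · rw [hx]
    have e1 : (cL (24 - k) : ℝ) / 10 ^ 16 ≤ -(cH k : ℝ) / 10 ^ 16 :=
      div_le_div_of_nonneg_right c1' (by norm_num)
    have e2 : -(cH k : ℝ) / 10 ^ 16 = -((cH k : ℝ) / 10 ^ 16) := by ring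
    linarith
  · rw [hx]
    have e1 : -(cL k : ℝ) / 10 ^ 16 ≤ (cH (24 - k) : ℝ) / 10 ^ 16 :=
      div_le_div_of_nonneg_right c2' (by norm_num)
    have e2 : -(cL k : ℝ) / 10 ^ 16 = -((cL k : ℝ) / 10 ^ 16) := by ring
    linarith

private theorem bd_exact (k : ℕ) (v : ℝ) (h : Real.cos (Real.pi * k / 24) = v)
    (h1 : (cL k : ℝ) = v * 10 ^ 16) (h2 : (cH k : ℝ) = v * 10 ^ 16) : Bd k := by
  constructor
  · rw [h, h1]
    apply le_of_eq
    field_simp
  · rw [h, h2]
    apply le_of_eq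
    field_simp

private theorem bd_all (k : ℕ) (hk : k ≤ 24) : Bd k := by
  have b0 : Bd 0 := bd_exact 0 1 (by simp) (by
    rw [show cL 0 = 10000000000000000 by decide]; norm_num) (by
    rw [show cH 0 = 10000000000000000 by decide]; norm_num)
  have b12 : Bd 12 := bd_exact 12 0 (by
    rw [show Real.pi * ((12 : ℕ) : ℝ) / 24 = Real.pi / 2 by push_cast; ring, Real.cos_pi_div_two])
    (by rw [show cL 12 = 0 by decide]; norm_num) (by rw [show cH 12 = 0 by decide]; norm_num)
  have b8 : Bd 8 := bd_exact 8 (1 / 2) (by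
    rw [show Real.pi * ((8 : ℕ) : ℝ) / 24 = Real.pi / 3 by push_cast; ring, Real.cos_pi_div_three])
    (by rw [show cL 8 = 5000000000000000 by decide]; norm_num)
    (by rw [show cH 8 = 5000000000000000 by decide]; norm_num)
  have b4 : Bd 4 := bd_half 4 (by norm_num) b8 (by decide) (by decide) (by decide)
  have b2 : Bd 2 := bd_half 2 (by norm_num) b4 (by decide) (by decide) (by decide)
  have b1 : Bd 1 := bd_half 1 (by norm_num) b2 (by decide) (by decide) (by decide)
  have b20 : Bd 20 := bd_refl 4 (by norm_num) b4 (by decide) (by decide)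
  have b10 : Bd 10 := bd_half 10 (by norm_num) b20 (by decide) (by decide) (by decide)
  have b5 : Bd 5 := bd_half 5 (by norm_num) b10 (by decide) (by decide) (by decide)
  have b14 : Bd 14 := bd_refl 10 (by norm_num) b10 (by decide) (by decide)
  have b7 : Bd 7 := bd_half 7 (by norm_num) b14 (by decide) (by decide) (by decide)
  have b22 : Bd 22 := bd_refl 2 (by norm_num) b2 (by decide) (by decide)
  have b11 : Bd 11 := bd_half 11 (by norm_num) b22 (by decide) (by decide) (by decide)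
  have b6 : Bd 6 := bd_half 6 (by norm_num) b12 (by decide) (by decide) (by decide)
  have b3 : Bd 3 := bd_half 3 (by norm_num) b6 (by decide) (by decide) (by decide)
  have b18 : Bd 18 := bd_refl 6 (by norm_num) b6 (by decide) (by decide)
  have b9 : Bd 9 := bd_half 9 (by norm_num) b18 (by decide) (by decide) (by decide)
  have b24 : Bd 24 := bd_refl 0 (by norm_num) b0 (by decide) (by decide)
  have b16 : Bd 16 := bd_refl 8 (by norm_num) b8 (by decide) (by decide)
  have b13 : Bd 13 := bd_refl 11 (by norm_num) b11 (by decide) (by decide)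
  have b15 : Bd 15 := bd_refl 9 (by norm_num) b9 (by decide) (by decide)
  have b17 : Bd 17 := bd_refl 7 (by norm_num) b7 (by decide) (by decide)
  have b19 : Bd 19 := bd_refl 5 (by norm_num) b5 (by decide) (by decide)
  have b21 : Bd 21 := bd_refl 3 (by norm_num) b3 (by decide) (by decide)
  have b23 : Bd 23 := bd_refl 1 (by norm_num) b1 (by decide) (by decide)
  interval_cases k <;> assumption

private def dd (k : ℕ) : ℕ := if k ≤ 12 then 12 - k else k - 12

private theorem sn_eq (k : ℕ) (hk : k ≤ 24) :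
    Real.sin (Real.pi * k / 24) = Real.cos (Real.pi * (dd k : ℕ) / 24) := by
  unfold dd
  split_ifs with h
  · rw [← Real.cos_pi_div_two_sub]
    congr 1
    rw [Nat.cast_sub h]
    push_cast
    ring
  · rw [← Real.cos_pi_div_two_sub, ← Real.cos_neg]
    congr 1
    rw [Nat.cast_sub (by omega)]
    push_cast
    ring

private theorem sn_bd (k : ℕ) (hk : k ≤ 24) :
    (cL (dd k) : ℝ) / 10 ^ 16 ≤ Real.sin (Real.pi * k / 24) ∧
      Real.sin (Real.pi * k / 24) ≤ (cH (dd k) : ℝ) / 10 ^ 16 := by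
  rw [sn_eq k hk]
  apply bd_all
  unfold dd
  split_ifs <;> omega

private theorem pi_lin {s v : ℝ} (h1 : s ≤ 314159265358979323846 / 10 ^ 20 * v)
    (h2 : s ≤ 314159265358979323847 / 10 ^ 20 * v) : s ≤ Real.pi * v := by
  have p1 : (314159265358979323846 : ℝ) / 10 ^ 20 ≤ Real.pi := by
    have := Real.pi_gt_d20
    norm_num at this ⊢
    linarith
  have p2 : Real.pi ≤ (314159265358979323847 : ℝ) / 10 ^ 20 := by
    have := Real.pi_lt_d20
    norm_num at this ⊢
    linarith
  rcases le_total 0 v with hv | hv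
  · exact h1.trans (mul_le_mul_of_nonneg_right p1 hv)
  · exact h2.trans (mul_le_mul_of_nonpos_right p2 hv)

private theorem chk_lo : ∀ j < 24, zv (tabLo.getD j (false, 0)) * 10 ^ 16 ≤ cL (j + 1) * 2 ^ 20 := by
  decide +kernel

private theorem chk_hi : ∀ j < 24, cH j * 2 ^ 20 ≤ zv (tabH.getD j (false, 0)) * 10 ^ 16 := by
  decide +kernel

private theorem chk_lt : ∀ j < 24, zv (tabLo.getD j (false, 0)) < zv (tabH.getD j (false, 0)) := by
  decide +kernel

private theorem chk_wa : ∀ j < 24, ∀ p ∈ [(314159265358979323846 : ℤ), 314159265358979323847],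
    (cH (dd (j + 1)) - cL (dd j)) * (24 * 2 ^ 44 * 10 ^ 20) ≤
      p * (24 * (tabWA.getD j 0 : ℤ) * (zv (tabH.getD j (false, 0)) - zv (tabLo.getD j (false, 0))) +
        zv (tabLo.getD j (false, 0)) * 2 ^ 24) * 10 ^ 16 := by
  decide +kernel

private theorem chk_wb : ∀ j < 24, ∀ p ∈ [(314159265358979323846 : ℤ), 314159265358979323847],
    (cH (dd j) - cL (dd (j + 1))) * (24 * 2 ^ 44 * 10 ^ 20) ≤
      p * (24 * (tabWB.getD j 0 : ℤ) * (zv (tabH.getD j (false, 0)) - zv (tabLo.getD j (false, 0))) -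
        zv (tabH.getD j (false, 0)) * 2 ^ 24) * 10 ^ 16 := by
  decide +kernel

private theorem lo_eq (j : ℕ) : loR (j + 1) = (zv (tabLo.getD j (false, 0)) : ℝ) / 2 ^ 20 := by
  unfold loR
  rw [sv_eq, Nat.add_sub_cancel]

private theorem hi_eq (j : ℕ) : hiR j = (zv (tabH.getD j (false, 0)) : ℝ) / 2 ^ 20 := by
  unfold hiR
  rw [sv_eq]

theorem trig_lo (j : ℕ) (h : j < 24) : loR (j + 1) ≤ Real.cos (Real.pi * ((j : ℝ) + 1) / 24) := by
  have h1 := (bd_all (j + 1) (by omega)).1
  have h2 := chk_lo j h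
  rw [lo_eq]
  push_cast at h1
  refine le_trans ?_ h1
  rw [div_le_div_iff₀ (by norm_num) (by norm_num)]
  exact_mod_cast h2

theorem trig_hi (j : ℕ) (h : j < 24) : Real.cos (Real.pi * j / 24) ≤ hiR j := by
  have h1 := (bd_all j (by omega)).2
  have h2 := chk_hi j h
  rw [hi_eq]
  refine le_trans h1 ?_
  rw [div_le_div_iff₀ (by norm_num) (by norm_num)]
  exact_mod_cast h2

theorem trig_lt (j : ℕ) (h : j < 24) : loR (j + 1) < hiR j := by
  have h2 := chk_lt j h
  rw [hi_eq, lo_eq]
  apply div_lt_div_of_pos_right _ (by norm_num)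
  exact_mod_cast h2

theorem trig_wA (j : ℕ) (h : j < 24) : wA 24 loR hiR j ≤ waR j := by
  have hlt := trig_lt j h
  have hd : 0 < hiR j - loR (j + 1) := by linarith
  have hpi := Real.pi_pos
  unfold wA
  push_cast
  rw [div_div, div_le_iff₀ (by positivity)]
  have h1 := (sn_bd (j + 1) (by omega)).2
  have h0 := (sn_bd j (by omega)).1
  push_cast at h1
  have hc := chk_wa j h
  have ha := hc _ (List.mem_cons_self)
  have hb := hc _ (List.mem_cons_of_mem _ List.mem_cons_self)
  have ha' : ((cH (dd (j + 1)) : ℝ) - cL (dd j)) * (24 * 2 ^ 44 * 10 ^ 20) ≤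
      314159265358979323846 * (24 * (tabWA.getD j 0 : ℝ) *
        ((zv (tabH.getD j (false, 0)) : ℝ) - zv (tabLo.getD j (false, 0))) +
        zv (tabLo.getD j (false, 0)) * 2 ^ 24) * 10 ^ 16 := by exact_mod_cast ha
  have hb' : ((cH (dd (j + 1)) : ℝ) - cL (dd j)) * (24 * 2 ^ 44 * 10 ^ 20) ≤
      314159265358979323847 * (24 * (tabWA.getD j 0 : ℝ) *
        ((zv (tabH.getD j (false, 0)) : ℝ) - zv (tabLo.getD j (false, 0))) +
        zv (tabLo.getD j (false, 0)) * 2 ^ 24) * 10 ^ 16 := by exact_mod_cast hb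
  have hv : waR j * (hiR j - loR (j + 1)) + loR (j + 1) / 24 =
      (24 * (tabWA.getD j 0 : ℝ) *
        ((zv (tabH.getD j (false, 0)) : ℝ) - zv (tabLo.getD j (false, 0))) +
        zv (tabLo.getD j (false, 0)) * 2 ^ 24) / (24 * 2 ^ 44) := by
    rw [hi_eq, lo_eq]
    unfold waR
    ring
  have key : ((cH (dd (j + 1)) : ℝ) - cL (dd j)) / 10 ^ 16 ≤
      Real.pi * (waR j * (hiR j - loR (j + 1)) + loR (j + 1) / 24) := by
    apply pi_lin
    · rw [hv, div_mul_div_comm, div_le_div_iff₀ (by norm_num) (by norm_num)]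
      linarith
    · rw [hv, div_mul_div_comm, div_le_div_iff₀ (by norm_num) (by norm_num)]
      linarith
  have e1 : ((cH (dd (j + 1)) : ℝ) - cL (dd j)) / 10 ^ 16 =
      (cH (dd (j + 1)) : ℝ) / 10 ^ 16 - (cL (dd j) : ℝ) / 10 ^ 16 := by ring
  rw [e1] at key
  linarith

theorem trig_wB (j : ℕ) (h : j < 24) : wB 24 loR hiR j ≤ wbR j := by
  have hlt := trig_lt j h
  have hd : 0 < hiR j - loR (j + 1) := by linarith
  have hpi := Real.pi_pos
  unfold wB
  push_cast
  rw [div_div, div_le_iff₀ (by positivity)]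
  have h1 := (sn_bd (j + 1) (by omega)).1
  have h0 := (sn_bd j (by omega)).2
  push_cast at h1
  have hc := chk_wb j h
  have ha := hc _ (List.mem_cons_self)
  have hb := hc _ (List.mem_cons_of_mem _ List.mem_cons_self)
  have ha' : ((cH (dd j) : ℝ) - cL (dd (j + 1))) * (24 * 2 ^ 44 * 10 ^ 20) ≤
      314159265358979323846 * (24 * (tabWB.getD j 0 : ℝ) *
        ((zv (tabH.getD j (false, 0)) : ℝ) - zv (tabLo.getD j (false, 0))) -
        zv (tabH.getD j (false, 0)) * 2 ^ 24) * 10 ^ 16 := by exact_mod_cast ha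
  have hb' : ((cH (dd j) : ℝ) - cL (dd (j + 1))) * (24 * 2 ^ 44 * 10 ^ 20) ≤
      314159265358979323847 * (24 * (tabWB.getD j 0 : ℝ) *
        ((zv (tabH.getD j (false, 0)) : ℝ) - zv (tabLo.getD j (false, 0))) -
        zv (tabH.getD j (false, 0)) * 2 ^ 24) * 10 ^ 16 := by exact_mod_cast hb
  have hv : wbR j * (hiR j - loR (j + 1)) - hiR j / 24 =
      (24 * (tabWB.getD j 0 : ℝ) *
        ((zv (tabH.getD j (false, 0)) : ℝ) - zv (tabLo.getD j (false, 0))) -
        zv (tabH.getD j (false, 0)) * 2 ^ 24) / (24 * 2 ^ 44) := by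
    rw [hi_eq, lo_eq]
    unfold wbR
    ring
  have key : ((cH (dd j) : ℝ) - cL (dd (j + 1))) / 10 ^ 16 ≤
      Real.pi * (wbR j * (hiR j - loR (j + 1)) - hiR j / 24) := by
    apply pi_lin
    · rw [hv, div_mul_div_comm, div_le_div_iff₀ (by norm_num) (by norm_num)]
      linarith
    · rw [hv, div_mul_div_comm, div_le_div_iff₀ (by norm_num) (by norm_num)]
      linarith
  have e1 : ((cH (dd j) : ℝ) - cL (dd (j + 1))) / 10 ^ 16 =
      (cH (dd j) : ℝ) / 10 ^ 16 - (cL (dd (j + 1)) : ℝ) / 10 ^ 16 := by ring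
  rw [e1] at key
  linarith

end Pool.Agent.MinMod
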