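import Pool.Agent.MinMod.NumTab
import Pool.Agent.MinMod.Fac

/-!
UbL: the majorant of the potential on the positive axis, between the zeros `b (k-1)` and `b k`.

PROOF.  For `i < 9`, `g < 48`: `w = x / zp bR (i-6) g` is real, `w = (-1)^i u`, `u = 16^(6-i) x / bR g > 0`, `idx = 48 i + (48 - k) + g < 480`,
`s = slR idx i`, `al = alR idx i`; claim `‖E1 w‖ ≤ exp (al + s u)`.
* `i` odd: `nodeL_odd`, `norm_E1_axis` at `-u` with `r = 1 + s`, `l = al - s`: `l - 1 + r (1 + u) - u = al + s u`.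
* `i` even, `336 ≤ idx`: then `w = u ≤ 1` (`i = 6`: `g ≥ k`, so `x ≤ bR g`; `i = 8`: `u = x / (256 bR g)`), `nodeL_out`, `r = 1 - s`, `l = al + s`:
  `l - 1 + r (1 - u) + u = al + s u`.
* `i` even, `idx < 336`: then `u ≥ 1` (`i = 6`: `g < k`, `bR g ≤ x`; `i ≤ 4`: `u = 16^(6-i) x / bR g ≥ 256 * 0.9 / 16`), `nodeL_in`, `r = s - 1`,
  `l = al + s`: `l - 1 + r (u - 1) + u = al + s u`.
`muR * (al + s u) = muR al + 16^(6-i) x * (m2R bR s)`; sum over `g`: `FL D k i x`.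
-/

namespace Pool.Agent.MinMod

private theorem ubL_exp {r l : ℝ} (hr : 0 < r) (h : -Real.log r ≤ l) : Real.exp (-l) ≤ r := by
  rw [← Real.le_log_iff_exp_le hr]
  linarith

/-- the argument of the factor -/
private theorem ubL_arg (b : ℕ → ℝ) (i g : ℕ) (x : ℝ) :
    (x : ℂ) / zp b ((i : ℤ) - (6 : ℕ)) g =
      (((-1) ^ i * ((16 : ℝ) ^ ((6 : ℤ) - i) * x / b g) : ℝ) : ℂ) := by
  unfold zp
  have h1 : (-16 : ℂ) ^ ((i : ℤ) - (6 : ℕ)) = (-1) ^ i * (16 : ℂ) ^ ((i : ℤ) - 6) := by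
    have e : (-16 : ℂ) = (-1) * 16 := by ring
    rw [e, mul_zpow]
    congr 1
    rw [zpow_sub₀ (by norm_num), zpow_natCast]
    norm_num
  have h2 : (16 : ℂ) ^ ((6 : ℤ) - i) = ((16 : ℂ) ^ ((i : ℤ) - 6))⁻¹ := by
    rw [← zpow_neg]
    congr 1
    ring
  have h3 : ((-1 : ℂ) ^ i)⁻¹ = (-1) ^ i := by
    rw [← inv_pow]
    norm_num
  rw [h1]
  push_cast
  rw [h2, div_eq_mul_inv, mul_inv, mul_inv, h3]
  ring

private theorem ubL_factor {idx i : ℕ} {u : ℝ} (hidx : idx < 480) (hu0 : 0 ≤ u)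
    (hout : i % 2 = 0 → 336 ≤ idx → u ≤ 1) (hin : i % 2 = 0 → idx < 336 → 1 ≤ u) :
    ‖E1 ((((-1) ^ i * u : ℝ) : ℂ))‖ ≤ Real.exp (alR idx i + slR idx i * u) := by
  rcases Nat.mod_two_eq_zero_or_one i with hi | hi
  · have e1 : (-1 : ℝ) ^ i = 1 := Even.neg_one_pow (Nat.even_iff.2 hi)
    rw [e1, one_mul]
    rcases Nat.lt_or_ge idx 336 with h | h
    · obtain ⟨p1, p2⟩ := nodeL_in idx i hi h
      have hu := hin hi h
      refine (norm_E1_axis (ubL_exp p1 p2) u).trans (le_of_eq ?_)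
      rw [abs_of_nonpos (by linarith)]
      congr 1
      ring
    · obtain ⟨p1, p2⟩ := nodeL_out idx i hidx hi h
      have hu := hout hi h
      refine (norm_E1_axis (ubL_exp p1 p2) u).trans (le_of_eq ?_)
      rw [abs_of_nonneg (by linarith)]
      congr 1
      ring
  · have e1 : (-1 : ℝ) ^ i = -1 := Odd.neg_one_pow (Nat.odd_iff.2 hi)
    rw [e1]
    obtain ⟨p1, p2⟩ := nodeL_odd idx i hidx hi
    refine (norm_E1_axis (ubL_exp p1 p2) (-1 * u)).trans (le_of_eq ?_)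
    rw [abs_of_nonneg (by linarith)]
    congr 1
    ring

theorem ubL (D : Dat) {k : ℕ} (hk : k ≤ 48) (rho x : ℝ) (h0 : yR 0 ≤ x) (h16 : x ≤ 16 * yR 0)
    (hin : ∀ g < 48, g < k → bR g ≤ x) (hout : ∀ g < 48, k ≤ g → x ≤ bR g) :
    UB 48 bR (muR D) 3 6 rho (x : ℂ) ((∑ i ∈ Finset.range 9, rho ^ ((i : ℤ) - 6) * FL D k i x) +
      (x * nearC 48 bR (muR D) 6 rho + x ^ 3 * farC 48 bR (muR D) 3 rho)) := by
  obtain ⟨_, hb, _, hy1, hy2⟩ := tab_order
  have hx0 : 0 < x := by linarith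
  have hnorm : ‖(x : ℂ)‖ = x := by
    rw [Complex.norm_real, Real.norm_eq_abs, abs_of_pos hx0]
  refine ⟨fun i g => alR (48 * i + (48 - k) + g) i + slR (48 * i + (48 - k) + g) i *
    ((16 : ℝ) ^ ((6 : ℤ) - i) * x / bR g), ?_, ?_⟩
  · intro i hi g hg
    have hi9 : i < 9 := hi
    obtain ⟨b1, b2⟩ := hb g hg
    have hb0 : 0 < bR g := by linarith
    rw [ubL_arg]
    have hp : 0 < (16 : ℝ) ^ ((6 : ℤ) - i) := by positivity
    refine ubL_factor (by omega) (by positivity) ?_ ?_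
    · intro hev h
      have hi68 : i = 6 ∨ i = 8 := by omega
      rcases hi68 with rfl | rfl
      · have hkg : k ≤ g := by omega
        have hx := hout g hg hkg
        rw [div_le_one hb0]
        simpa using hx
      · rw [div_le_one hb0]
        have e : (16 : ℝ) ^ ((6 : ℤ) - (8 : ℕ)) = 1 / 256 := by norm_num
        rw [e]
        linarith
    · intro hev h
      have hi6 : i = 6 ∨ i = 4 ∨ i = 2 ∨ i = 0 := by omega
      rw [one_le_div hb0]
      rcases hi6 with rfl | rfl | rfl | rfl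
      · have hkg : g < k := by omega
        have hx := hin g hg hkg
        simpa using hx
      · have e : (16 : ℝ) ^ ((6 : ℤ) - (4 : ℕ)) = 256 := by norm_num
        rw [e]
        linarith
      · have e : (16 : ℝ) ^ ((6 : ℤ) - (2 : ℕ)) = 65536 := by norm_num
        rw [e]
        linarith
      · have e : (16 : ℝ) ^ ((6 : ℤ) - (0 : ℕ)) = 16777216 := by norm_num
        rw [e]
        linarith
  · rw [hnorm]
    refine add_le_add (le_of_eq ?_) le_rfl
    refine Finset.sum_congr rfl fun i _ => ?_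
    have e6 : ((i : ℤ) - (6 : ℕ)) = (i : ℤ) - 6 := by norm_num
    rw [e6]
    congr 1
    unfold FL
    rw [Finset.mul_sum, ← Finset.sum_add_distrib]
    refine Finset.sum_congr rfl fun g hg => ?_
    obtain ⟨b1, _⟩ := hb g (Finset.mem_range.1 hg)
    have hb0 : bR g ≠ 0 := by linarith
    unfold muR
    field_simp

end Pool.Agent.MinMod
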