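import Pool.Agent.MinMod.NumTab
import Pool.Agent.MinMod.Fac

/-!
UbT: the majorant of the potential in the cell `(X, j)` (it is valid for every `ζ`).

PROOF.  For `i < 9`, `g < 48` let `w = ζ / zp bR (i - 6) g`, `zp = (-16)^(i-6) * bR g`, `idx = 48 i + (46 - 2 X) + g < 478`, `r = rR idx (jj i j)`,
`a = aR idx (jj i j)` (`jj i j < 24`).  By `nodeT` and `norm_E1_node` with `l = 2 a + 1 - r` (`exp (-l) ≤ r` because `-log r ≤ l`):
`‖E1 w‖ ≤ exp ((l - 1 + r (1 - 2 w.re + ‖w‖^2)) / 2 + w.re) = exp (a + (1 - r) w.re + r ‖w‖^2 / 2) =: exp (maj i g)`.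
Here `w.re = (-1)^i * 16^(6-i) * x c / bR g` and `‖w‖ = 16^(6-i) x / bR g` (`i - 6` has the parity of `i`), so
`muR * maj = muR a + (-1)^i 16^(6-i) x c (m2R bR (1 - r)) + 256^(6-i) x^2/2 * m2R r` (`muR = m2R bR^2`, `bR > 0`), and
the sum over `g` is `FT D X i j x c`.
-/

namespace Pool.Agent.MinMod

private theorem ubt_jj {i j : ℕ} (hj : j < 24) : jj i j < 24 := by
  unfold jj
  split_ifs <;> omega

private theorem ubt_node (D : Dat) {X j i g : ℕ} (hX : X < 24) (hj : j < 24) (hi : i < 9)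
    (hg : g < 48) (x c : ℝ) (ζ : ℂ) (h1 : ‖ζ‖ = x) (h2 : ζ.re = x * c) :
    let r := rR (48 * i + (46 - 2 * X) + g) (jj i j)
    let a := aR (48 * i + (46 - 2 * X) + g) (jj i j)
    let m := a + (1 - r) * ((-1) ^ i * (16 : ℝ) ^ ((6 : ℤ) - i) * x * c / bR g) +
      r * ((256 : ℝ) ^ ((6 : ℤ) - i) * x ^ 2 / bR g ^ 2) / 2
    ‖E1 (ζ / zp bR ((i : ℤ) - 6) g)‖ ≤ Real.exp m ∧
      muR D g * m = muR D g * a +
        (-1) ^ i * (16 : ℝ) ^ ((6 : ℤ) - i) * x * c * (m2R D g * bR g * (1 - r)) +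
        (256 : ℝ) ^ ((6 : ℤ) - i) * x ^ 2 / 2 * (m2R D g * r) := by
  intro r a m
  have hb : 1 ≤ bR g := (tab_order.2.1 g hg).1
  have hb0 : 0 < bR g := by linarith
  have hidx : 48 * i + (46 - 2 * X) + g < 478 := by omega
  obtain ⟨hr, hlog⟩ := nodeT (48 * i + (46 - 2 * X) + g) (jj i j) hidx (ubt_jj hj)
  set t : ℝ := (-16 : ℝ) ^ ((i : ℤ) - 6) * bR g with ht
  have hz : zp bR ((i : ℤ) - 6) g = (t : ℂ) := by
    unfold zp
    rw [ht]
    push_cast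
    rfl
  have hpow : ((-16 : ℝ) ^ ((i : ℤ) - 6))⁻¹ = (-1) ^ i * (16 : ℝ) ^ ((6 : ℤ) - i) := by
    rw [← zpow_neg, neg_sub]
    have e : (-16 : ℝ) = (-1) * 16 := by norm_num
    rw [e, mul_zpow]
    congr 1
    rw [sub_eq_add_neg, zpow_add₀ (by norm_num), zpow_neg, zpow_natCast]
    have h6 : ((-1 : ℝ) ^ (6 : ℤ)) = 1 := by norm_num
    rw [h6, one_mul]
    rcases Nat.even_or_odd i with h | h
    · rw [h.neg_one_pow]; norm_num
    · rw [h.neg_one_pow]; norm_num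
  have hre : (ζ / zp bR ((i : ℤ) - 6) g).re = (-1) ^ i * (16 : ℝ) ^ ((6 : ℤ) - i) * x * c / bR g := by
    rw [hz, Complex.div_ofReal_re, h2, ht, div_mul_eq_div_div, div_eq_mul_inv (x * c), hpow]
    ring
  have hsq : ‖ζ / zp bR ((i : ℤ) - 6) g‖ ^ 2 = (256 : ℝ) ^ ((6 : ℤ) - i) * x ^ 2 / bR g ^ 2 := by
    rw [hz, norm_div, Complex.norm_real, Real.norm_eq_abs, h1, div_pow, sq_abs, ht, mul_pow]
    have e : ((-16 : ℝ) ^ ((i : ℤ) - 6)) ^ 2 = ((256 : ℝ) ^ ((6 : ℤ) - i))⁻¹ := by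
      rw [← zpow_natCast, ← zpow_mul, ← zpow_neg, neg_sub, mul_comm, zpow_mul]
      norm_num
    rw [e]
    have h256 : (0 : ℝ) < (256 : ℝ) ^ ((6 : ℤ) - i) := by positivity
    field_simp
  constructor
  · have hexp : Real.exp (-(2 * a + 1 - r)) ≤ r := by
      rw [← Real.le_log_iff_exp_le hr]
      linarith
    refine (norm_E1_node hexp _).trans (Real.exp_le_exp.2 (le_of_eq ?_))
    rw [hre, hsq]
    ring
  · unfold muR
    show m2R D g * bR g ^ 2 * (a + (1 - r) * ((-1) ^ i * (16 : ℝ) ^ ((6 : ℤ) - i) * x * c / bR g) +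
      r * ((256 : ℝ) ^ ((6 : ℤ) - i) * x ^ 2 / bR g ^ 2) / 2) = _
    field_simp

theorem ubT (D : Dat) {X j : ℕ} (hX : X < 24) (hj : j < 24) (rho x c : ℝ) (ζ : ℂ) (h1 : ‖ζ‖ = x) (h2 : ζ.re = x * c) :
    UB 48 bR (muR D) 3 6 rho ζ ((∑ i ∈ Finset.range 9, rho ^ ((i : ℤ) - 6) * FT D X i j x c) +
      (x * nearC 48 bR (muR D) 6 rho + x ^ 3 * farC 48 bR (muR D) 3 rho)) := by
  refine ⟨fun i g => aR (48 * i + (46 - 2 * X) + g) (jj i j) +
      (1 - rR (48 * i + (46 - 2 * X) + g) (jj i j)) *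
        ((-1) ^ i * (16 : ℝ) ^ ((6 : ℤ) - i) * x * c / bR g) +
      rR (48 * i + (46 - 2 * X) + g) (jj i j) * ((256 : ℝ) ^ ((6 : ℤ) - i) * x ^ 2 / bR g ^ 2) / 2,
    ?_, ?_⟩
  · intro i hi g hg
    exact (ubt_node D hX hj (by omega) hg x c ζ h1 h2).1
  · rw [h1]
    refine add_le_add (le_of_eq ?_) le_rfl
    refine Finset.sum_congr rfl fun i hi => ?_
    have hi' : i < 9 := by simpa using hi
    congr 1
    unfold FT
    rw [Finset.mul_sum, Finset.mul_sum, ← Finset.sum_add_distrib, ← Finset.sum_add_distrib]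
    refine Finset.sum_congr rfl fun g hg => ?_
    exact (ubt_node D hX hj hi' (Finset.mem_range.1 hg) x c ζ h1 h2).2

end Pool.Agent.MinMod
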