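import Pool.Agent.MinMod.Crit
import Pool.Agent.MinMod.CornT
import Pool.Agent.MinMod.Conv
import Pool.Agent.MinMod.RhoInt
import Pool.Agent.MinMod.Trig
import Pool.Agent.MinMod.UbT
import Pool.Agent.MinMod.UbL

/-!
Sound: the integer check implies the bound for `D lam`.
-/

namespace Pool.Agent.MinMod

theorem UB_mono {G : ℕ} {b mu : ℕ → ℝ} {K0 K1 : ℕ} {rho : ℝ} {ζ : ℂ} {v w : ℝ} (h : UB G b mu K0 K1 rho ζ v)
    (hvw : v ≤ w) : UB G b mu K0 K1 rho ζ w := by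
  obtain ⟨maj, h1, h2⟩ := h
  exact ⟨maj, h1, h2.trans hvw⟩

theorem good_dat {A : Dat} {r1 r2 : ℝ} (hA : DatOK A r1 r2) : Good 48 bR (muR A) := by
  obtain ⟨_, hb, _, _, _⟩ := tab_order
  refine ⟨fun g hg => (hb g hg).1, fun g hg => (hb g hg).2, fun g hg => ?_, ?_⟩
  · unfold muR m2R
    positivity
  · obtain ⟨g, hg, h⟩ := hA.m2pos
    refine ⟨g, hg, ?_⟩
    have := (hb g hg).1
    unfold muR m2R
    have h' : (0 : ℝ) < (A.m2.getD g 0 : ℝ) := by exact_mod_cast h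
    positivity

/-- Endpoints of the half cells. -/
noncomputable def zR (h : ℕ) : ℝ := if h % 2 = 0 then yR (h / 2) else bR (h / 2)

theorem zR_lt {h : ℕ} (hh : h < 96) : zR h < zR (h + 1) := by
  obtain ⟨ho, _, _, _, _⟩ := tab_order
  rcases Nat.even_or_odd' h with ⟨m, rfl | rfl⟩
  · have e1 : zR (2 * m) = yR m := by
      unfold zR; rw [if_pos (by omega)]; congr 1; omega
    have e2 : zR (2 * m + 1) = bR m := by
      unfold zR; rw [if_neg (by omega)]; congr 1; omega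
    rw [e1, e2]; exact (ho m (by omega)).1
  · have e1 : zR (2 * m + 1) = bR m := by
      unfold zR; rw [if_neg (by omega)]; congr 1; omega
    have e2 : zR (2 * m + 1 + 1) = yR (m + 1) := by
      unfold zR; rw [if_pos (by omega)]; congr 1; omega
    rw [e1, e2]; exact (ho m (by omega)).2

theorem zR_mono {h h' : ℕ} (hh : h ≤ h') (h2 : h' ≤ 96) : zR h ≤ zR h' := by
  induction h', hh using Nat.le_induction with
  | base => exact le_refl _
  | succ n hn ih => exact (ih (by omega)).trans (zR_lt (by omega)).le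

theorem exists_half {x : ℝ} (n : ℕ) (hn : 0 < n) (h0 : zR 0 ≤ x) (h1 : x ≤ zR n) : ∃ h < n, zR h ≤ x ∧ x ≤ zR (h + 1) := by
  induction n with
  | zero => omega
  | succ n ih =>
    by_cases hx : zR n ≤ x
    · exact ⟨n, by omega, hx, h1⟩
    · push Not at hx
      rcases Nat.eq_zero_or_pos n with rfl | hpos
      · exact absurd h0 (not_le.2 hx)
      · obtain ⟨h, hh, h2⟩ := ih hpos hx.le
        exact ⟨h, by omega, h2⟩

theorem unif {P : ℕ → ℝ → Prop} (hmono : ∀ i e e', 0 < e' → e' ≤ e → P i e → P i e') (n : ℕ)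
    (h : ∀ i < n, ∃ e, 0 < e ∧ P i e) : ∃ e, 0 < e ∧ ∀ i < n, P i e := by
  induction n with
  | zero => exact ⟨1, one_pos, fun i hi => absurd hi (Nat.not_lt_zero i)⟩
  | succ n ih =>
    obtain ⟨e, he, h1⟩ := ih (fun i hi => h i (by omega))
    obtain ⟨e', he', h2⟩ := h n (by omega)
    refine ⟨min e e', lt_min he he', fun i hi => ?_⟩
    rcases Nat.lt_succ_iff_lt_or_eq.1 hi with hi | rfl
    · exact hmono i e _ (lt_min he he') (min_le_left _ _) (h1 i hi)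
    · exact hmono i e' _ (lt_min he he') (min_le_right _ _) h2

/-- The quantity to be bounded on the axis. -/
noncomputable def gg (A : Dat) (s x0 x1 t01 t02 t11 t12 : ℝ) (k : ℕ) (x : ℝ) : ℝ :=
  (1 - s) * VV A.up1 A.lo1 (tailR A x) (fun i => FL A k i x) + s * VV A.up2 A.lo2 (tailR A x) (fun i => FL A k i x) +
    ((1 - s) * ((A.c1 : ℝ) / 2 ^ 20) + s * ((A.c2 : ℝ) / 2 ^ 20)) *
      ((1 - s) * ((x1 - x) / (x1 - x0) * t01 + (x - x0) / (x1 - x0) * t11) +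
        s * ((x1 - x) / (x1 - x0) * t02 + (x - x0) / (x1 - x0) * t12))

theorem gg_conv {A : Dat} {r1 r2 : ℝ} (hA : DatOK A r1 r2) {s x0 x1 t01 t02 t11 t12 : ℝ} {k : ℕ} (hs0 : 0 ≤ s) (hs1 : s ≤ 1)
    {a b u : ℝ} (ha : 0 ≤ a) (hb : 0 ≤ b) (hu0 : 0 ≤ u) (hu1 : u ≤ 1) :
    gg A s x0 x1 t01 t02 t11 t12 k ((1 - u) * a + u * b) ≤
      (1 - u) * gg A s x0 x1 t01 t02 t11 t12 k a + u * gg A s x0 x1 t01 t02 t11 t12 k b := by
  have h1 := convL A A.up1 A.lo1 hA.lu1 k ha hb hu0 hu1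
  have h2 := convL A A.up2 A.lo2 hA.lu2 k ha hb hu0 hu1
  unfold gg
  have h3 := mul_le_mul_of_nonneg_left h1 (sub_nonneg.2 hs1)
  have h4 := mul_le_mul_of_nonneg_left h2 hs0
  generalize (VV A.up1 A.lo1 (tailR A a) fun i => FL A k i a) = Va at *
  generalize (VV A.up1 A.lo1 (tailR A b) fun i => FL A k i b) = Vb at *
  generalize (VV A.up2 A.lo2 (tailR A a) fun i => FL A k i a) = Wa at *
  generalize (VV A.up2 A.lo2 (tailR A b) fun i => FL A k i b) = Wb at *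
  generalize (VV A.up1 A.lo1 (tailR A ((1 - u) * a + u * b)) fun i => FL A k i ((1 - u) * a + u * b)) = V at *
  generalize (VV A.up2 A.lo2 (tailR A ((1 - u) * a + u * b)) fun i => FL A k i ((1 - u) * a + u * b)) = W at *
  generalize ((1 - s) * ((A.c1 : ℝ) / 2 ^ 20) + s * ((A.c2 : ℝ) / 2 ^ 20)) = c at *
  have e : c * ((1 - s) * ((x1 - ((1 - u) * a + u * b)) / (x1 - x0) * t01 + (((1 - u) * a + u * b) - x0) / (x1 - x0) * t11) +
        s * ((x1 - ((1 - u) * a + u * b)) / (x1 - x0) * t02 + (((1 - u) * a + u * b) - x0) / (x1 - x0) * t12)) =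
      (1 - u) * (c * ((1 - s) * ((x1 - a) / (x1 - x0) * t01 + (a - x0) / (x1 - x0) * t11) +
        s * ((x1 - a) / (x1 - x0) * t02 + (a - x0) / (x1 - x0) * t12))) +
      u * (c * ((1 - s) * ((x1 - b) / (x1 - x0) * t01 + (b - x0) / (x1 - x0) * t11) +
        s * ((x1 - b) / (x1 - x0) * t02 + (b - x0) / (x1 - x0) * t12))) := by
    simp only [div_eq_mul_inv]
    ring
  rw [e]
  linarith

theorem gg_neg {A : Dat} {s x0 x1 t01 t02 t11 t12 : ℝ} {k : ℕ} (hs0 : 0 ≤ s) (hs1 : s ≤ 1) {y : ℝ}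
    (h1 : VV A.up1 A.lo1 (tailR A y) (fun i => FL A k i y) + (A.c1 : ℝ) / 2 ^ 20 *
        ((x1 - y) / (x1 - x0) * t01 + (y - x0) / (x1 - x0) * t11) < 0)
    (h2 : VV A.up2 A.lo2 (tailR A y) (fun i => FL A k i y) + (A.c2 : ℝ) / 2 ^ 20 *
        ((x1 - y) / (x1 - x0) * t02 + (y - x0) / (x1 - x0) * t12) < 0)
    (h3 : VV A.up1 A.lo1 (tailR A y) (fun i => FL A k i y) + VV A.up2 A.lo2 (tailR A y) (fun i => FL A k i y) +
        ((A.c1 : ℝ) / 2 ^ 20 * ((x1 - y) / (x1 - x0) * t02 + (y - x0) / (x1 - x0) * t12) +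
          (A.c2 : ℝ) / 2 ^ 20 * ((x1 - y) / (x1 - x0) * t01 + (y - x0) / (x1 - x0) * t11)) < 0) :
    gg A s x0 x1 t01 t02 t11 t12 k y < 0 := by
  unfold gg
  generalize (VV A.up1 A.lo1 (tailR A y) fun i => FL A k i y) = V at *
  generalize (VV A.up2 A.lo2 (tailR A y) fun i => FL A k i y) = W at *
  generalize ((x1 - y) / (x1 - x0) * t01 + (y - x0) / (x1 - x0) * t11) = T1 at *
  generalize ((x1 - y) / (x1 - x0) * t02 + (y - x0) / (x1 - x0) * t12) = T2 at *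
  generalize ((A.c1 : ℝ) / 2 ^ 20) = c at *
  generalize ((A.c2 : ℝ) / 2 ^ 20) = d at *
  have e : (1 - s) * V + s * W + ((1 - s) * c + s * d) * ((1 - s) * T1 + s * T2) =
      (1 - s) ^ 2 * (V + c * T1) + s ^ 2 * (W + d * T2) + s * (1 - s) * (V + W + (c * T2 + d * T1)) := by ring
  rw [e]
  have hs2 : 0 ≤ 1 - s := sub_nonneg.2 hs1
  rcases eq_or_lt_of_le hs0 with h | h
  · rw [← h]; nlinarith
  · have a1 : s ^ 2 * (W + d * T2) < 0 := mul_neg_of_pos_of_neg (by positivity) h2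
    have a2 : (1 - s) ^ 2 * (V + c * T1) ≤ 0 := mul_nonpos_of_nonneg_of_nonpos (by positivity) h1.le
    have a3 : s * (1 - s) * (V + W + (c * T2 + d * T1)) ≤ 0 :=
      mul_nonpos_of_nonneg_of_nonpos (mul_nonneg hs0 hs2) h3.le
    linarith

theorem cond_gg {A : Dat} {r1 r2 : ℝ} (hA : DatOK A r1 r2) {x0 x1 T01 T02 T11 T12 k y : ℕ} {t01 t02 t11 t12 s : ℝ}
    (h : cond A x0 x1 y T01 T02 T11 T12 (pnL A.MU A.M1 y (dots A.wA 9 (tabL.drop (48 - k))) (dots A.wB 9 (tabL.drop (48 - k)))) = true)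
    (hk : k ≤ 48) (h0 : x0 ≤ y) (h1 : y ≤ x1) (h01 : x0 < x1)
    (e01 : (T01 : ℝ) = 2 ^ 204 * t01) (e02 : (T02 : ℝ) = 2 ^ 204 * t02) (e11 : (T11 : ℝ) = 2 ^ 204 * t11)
    (e12 : (T12 : ℝ) = 2 ^ 204 * t12) (hs0 : 0 ≤ s) (hs1 : s ≤ 1) :
    gg A s ((x0 : ℝ) / 2 ^ 12) ((x1 : ℝ) / 2 ^ 12) t01 t02 t11 t12 k ((y : ℝ) / 2 ^ 12) < 0 := by
  have hc := cond_real (F := fun i => FL A k i ((y : ℝ) / 2 ^ 12)) h h0 h1 h01 e01 e02 e11 e12
    (by rw [pnL_length, dots_length]) (fun i hi => pnL_val hA hk hi y)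
  have q1 : ((x1 : ℝ) / 2 ^ 12 - (y : ℝ) / 2 ^ 12) / ((x1 : ℝ) / 2 ^ 12 - (x0 : ℝ) / 2 ^ 12) = ((x1 : ℝ) - y) / (x1 - x0) := by
    rw [← sub_div, ← sub_div, div_div_div_cancel_right₀ (by positivity)]
  have q2 : ((y : ℝ) / 2 ^ 12 - (x0 : ℝ) / 2 ^ 12) / ((x1 : ℝ) / 2 ^ 12 - (x0 : ℝ) / 2 ^ 12) = ((y : ℝ) - x0) / (x1 - x0) := by
    rw [← sub_div, ← sub_div, div_div_div_cancel_right₀ (by positivity)]
  refine gg_neg hs0 hs1 ?_ ?_ ?_
  · rw [q1, q2]; exact hc.1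
  · rw [q1, q2]; exact hc.2.1
  · rw [q1, q2]; exact hc.2.2

theorem half_gg {A : Dat} {r1 r2 : ℝ} (hA : DatOK A r1 r2) {x0 x1 T01 T02 T11 T12 k yl yr : ℕ} {t01 t02 t11 t12 s : ℝ}
    (h : half A x0 x1 T01 T02 T11 T12 k yl yr = true)
    (hk : k ≤ 48) (h0 : x0 ≤ yl) (hlr : yl ≤ yr) (h1 : yr ≤ x1) (h01 : x0 < x1)
    (e01 : (T01 : ℝ) = 2 ^ 204 * t01) (e02 : (T02 : ℝ) = 2 ^ 204 * t02) (e11 : (T11 : ℝ) = 2 ^ 204 * t11)
    (e12 : (T12 : ℝ) = 2 ^ 204 * t12) (hs0 : 0 ≤ s) (hs1 : s ≤ 1) :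
    gg A s ((x0 : ℝ) / 2 ^ 12) ((x1 : ℝ) / 2 ^ 12) t01 t02 t11 t12 k ((yl : ℝ) / 2 ^ 12) < 0 ∧
      gg A s ((x0 : ℝ) / 2 ^ 12) ((x1 : ℝ) / 2 ^ 12) t01 t02 t11 t12 k ((yr : ℝ) / 2 ^ 12) < 0 := by
  have h' : cond A x0 x1 yl T01 T02 T11 T12 (pnL A.MU A.M1 yl (dots A.wA 9 (tabL.drop (48 - k))) (dots A.wB 9 (tabL.drop (48 - k)))) = true ∧
      cond A x0 x1 yr T01 T02 T11 T12 (pnL A.MU A.M1 yr (dots A.wA 9 (tabL.drop (48 - k))) (dots A.wB 9 (tabL.drop (48 - k)))) = true :=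
    (Bool.and_eq_true _ _).mp h
  exact ⟨cond_gg hA h'.1 hk h0 (hlr.trans h1) h01 e01 e02 e11 e12 hs0 hs1,
    cond_gg hA h'.2 hk (h0.trans hlr) h1 h01 e01 e02 e11 e12 hs0 hs1⟩

theorem tab_nat (g : ℕ) (hg : g < 48) : tabY.getD g 0 < tabB.getD g 0 ∧ tabB.getD g 0 < tabY.getD (g + 1) 0 := by
  obtain ⟨h, _⟩ := tab_order
  have := h g hg
  unfold yR bR at this
  have h2 : (0 : ℝ) < 2 ^ 12 := by positivity
  exact ⟨by exact_mod_cast (div_lt_div_iff_of_pos_right h2).1 this.1,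
    by exact_mod_cast (div_lt_div_iff_of_pos_right h2).1 this.2⟩

/-- The bounds of the mean at the ends of the cell `X`. -/
noncomputable def ggX (A : Dat) (s : ℝ) (X k : ℕ) (x : ℝ) : ℝ :=
  gg A s (yR (2 * X)) (yR (2 * X + 2)) (TT A A.up1 A.lo1 X (yR (2 * X))) (TT A A.up2 A.lo2 X (yR (2 * X)))
    (TT A A.up1 A.lo1 X (yR (2 * X + 2))) (TT A A.up2 A.lo2 X (yR (2 * X + 2))) k x

theorem chk_ends {A : Dat} {r1 r2 : ℝ} (hA : DatOK A r1 r2) {X : ℕ} (hX : X < 24) (hchk : chkX A X = true)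
    {s : ℝ} (hs0 : 0 ≤ s) (hs1 : s ≤ 1) :
    (ggX A s X (2 * X) (yR (2 * X)) < 0 ∧ ggX A s X (2 * X) (bR (2 * X)) < 0) ∧
    (ggX A s X (2 * X + 1) (bR (2 * X)) < 0 ∧ ggX A s X (2 * X + 1) (yR (2 * X + 1)) < 0) ∧
    (ggX A s X (2 * X + 1) (yR (2 * X + 1)) < 0 ∧ ggX A s X (2 * X + 1) (bR (2 * X + 1)) < 0) ∧
    (ggX A s X (2 * X + 2) (bR (2 * X + 1)) < 0 ∧ ggX A s X (2 * X + 2) (yR (2 * X + 2)) < 0) := by
  obtain ⟨a1, a2⟩ := tab_nat (2 * X) (by omega)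
  obtain ⟨a3, a4'⟩ := tab_nat (2 * X + 1) (by omega)
  have a4 : tabB.getD (2 * X + 1) 0 < tabY.getD (2 * X + 2) 0 := a4'
  have e01 := sumT_val hA hX A.up1 A.lo1 (tabY.getD (2 * X) 0)
  have e02 := sumT_val hA hX A.up2 A.lo2 (tabY.getD (2 * X) 0)
  have e11 := sumT_val hA hX A.up1 A.lo1 (tabY.getD (2 * X + 2) 0)
  have e12 := sumT_val hA hX A.up2 A.lo2 (tabY.getD (2 * X + 2) 0)
  have h := hchk
  unfold chkX at h
  simp only [Bool.and_eq_true] at h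
  obtain ⟨c1, c2, c3, c4⟩ := h
  exact ⟨half_gg hA c1 (by omega) (le_refl _) a1.le (by omega) (by omega) e01 e02 e11 e12 hs0 hs1,
    half_gg hA c2 (by omega) (by omega) a2.le (by omega) (by omega) e01 e02 e11 e12 hs0 hs1,
    half_gg hA c3 (by omega) (by omega) a3.le (by omega) (by omega) e01 e02 e11 e12 hs0 hs1,
    half_gg hA c4 (by omega) (by omega) a4.le (le_refl _) (by omega) e01 e02 e11 e12 hs0 hs1⟩

/-- One half cell: uniform negativity. -/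
theorem half_unif {A : Dat} {r1 r2 : ℝ} (hA : DatOK A r1 r2) {s : ℝ} (hs0 : 0 ≤ s) (hs1 : s ≤ 1) {X k : ℕ} {a b : ℝ}
    (ha : 0 ≤ a) (hab : a < b) (h1 : ggX A s X k a < 0) (h2 : ggX A s X k b < 0) :
    ∃ e : ℝ, 0 < e ∧ ∀ x, a ≤ x → x ≤ b → ggX A s X k x ≤ -e := by
  refine ⟨min (-ggX A s X k a) (-ggX A s X k b), lt_min (by linarith) (by linarith), fun x hx1 hx2 => ?_⟩
  have hba : 0 < b - a := sub_pos.2 hab
  set u : ℝ := (x - a) / (b - a) with hu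
  have hu0 : 0 ≤ u := div_nonneg (by linarith) hba.le
  have hu1 : u ≤ 1 := (div_le_one hba).2 (by linarith)
  have hx : (1 - u) * a + u * b = x := by
    have : u * (b - a) = x - a := div_mul_cancel₀ _ hba.ne'
    linarith
  have hc := gg_conv hA (x0 := yR (2 * X)) (x1 := yR (2 * X + 2)) (t01 := TT A A.up1 A.lo1 X (yR (2 * X)))
    (t02 := TT A A.up2 A.lo2 X (yR (2 * X))) (t11 := TT A A.up1 A.lo1 X (yR (2 * X + 2)))
    (t12 := TT A A.up2 A.lo2 X (yR (2 * X + 2))) (k := k) hs0 hs1 ha (ha.trans hab.le) hu0 hu1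
  rw [hx] at hc
  change ggX A s X k x ≤ (1 - u) * ggX A s X k a + u * ggX A s X k b at hc
  have m1 := min_le_left (-ggX A s X k a) (-ggX A s X k b)
  have m2 := min_le_right (-ggX A s X k a) (-ggX A s X k b)
  nlinarith [mul_nonneg (sub_nonneg.2 hu1) (sub_nonneg.2 m1), mul_nonneg hu0 (sub_nonneg.2 m2)]

/-- The bilinear value at the left end of the cell in `c`. -/
noncomputable def pF (A : Dat) (s : ℝ) (X : ℕ) (u c : ℝ) (j : ℕ) : ℝ :=
  (1 - s) * ((1 - u) * max 0 (VV A.up1 A.lo1 (tailR A (yR (2 * X))) (fun i => FT A X i j (yR (2 * X)) c)) +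
      u * max 0 (VV A.up1 A.lo1 (tailR A (yR (2 * X + 2))) (fun i => FT A X i j (yR (2 * X + 2)) c))) +
    s * ((1 - u) * max 0 (VV A.up2 A.lo2 (tailR A (yR (2 * X))) (fun i => FT A X i j (yR (2 * X)) c)) +
      u * max 0 (VV A.up2 A.lo2 (tailR A (yR (2 * X + 2))) (fun i => FT A X i j (yR (2 * X + 2)) c)))

theorem pF_nonneg (A : Dat) {s : ℝ} (hs0 : 0 ≤ s) (hs1 : s ≤ 1) (X : ℕ) {u : ℝ} (hu0 : 0 ≤ u) (hu1 : u ≤ 1) (c : ℝ) (j : ℕ) :
    0 ≤ pF A s X u c j := by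
  have h1 : 0 ≤ 1 - s := sub_nonneg.2 hs1
  have h2 : 0 ≤ 1 - u := sub_nonneg.2 hu1
  unfold pF
  positivity

theorem yR_nonneg (k : ℕ) : 0 ≤ yR k := by
  unfold yR
  positivity

/-- The bound in one cell. -/
theorem cellT {A : Dat} {r1 r2 : ℝ} (hA : DatOK A r1 r2) {s : ℝ} (hs0 : 0 ≤ s) (hs1 : s ≤ 1) {X j : ℕ} (hX : X < 24)
    (hj : j < 24) {u : ℝ} (hu0 : 0 ≤ u) (hu1 : u ≤ 1) {c : ℝ} (hc1 : loR (j + 1) ≤ c) (hc2 : c ≤ hiR j) {x : ℝ}
    (hx : x = (1 - u) * yR (2 * X) + u * yR (2 * X + 2)) (ζ : ℂ) (h1 : ‖ζ‖ = x) (h2 : ζ.re = x * c) :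
    UB 48 bR (muR A) 3 6 ((1 - s) * r1 + s * r2) ζ
      (chord loR hiR (fun j => pF A s X u (hiR j) j) (fun j => pF A s X u (loR (j + 1)) j) j c) := by
  have hlt := trig_lt j hj
  have hd : 0 < hiR j - loR (j + 1) := sub_pos.2 hlt
  have hy0 := yR_nonneg (2 * X)
  have hy1 := yR_nonneg (2 * X + 2)
  have hx0 : 0 ≤ x := by
    rw [hx]; exact add_nonneg (mul_nonneg (sub_nonneg.2 hu1) hy0) (mul_nonneg hu0 hy1)
  refine UB_mono (ubT A hX hj _ x c ζ h1 h2) ?_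
  set v : ℝ := (hiR j - c) / (hiR j - loR (j + 1)) with hv
  have hv0 : 0 ≤ v := div_nonneg (by linarith) hd.le
  have hv1 : v ≤ 1 := (div_le_one hd).2 (by linarith)
  have hcv : (1 - v) * hiR j + v * loR (j + 1) = c := by
    have : v * (hiR j - loR (j + 1)) = hiR j - c := div_mul_cancel₀ _ hd.ne'
    linarith
  have hr1 : r1 ≤ (1 - s) * r1 + s * r2 := by nlinarith [hA.r12]
  have hr2 : (1 - s) * r1 + s * r2 ≤ r2 := by nlinarith [hA.r12]
  have ht := tail_le hA hr1 hr2 hx0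
  have hi := rho_int hA hs0 hs1 (tailR A x) (fun i => FT A X i j x c)
  have k1 := convT A A.up1 A.lo1 hA.lu1 X j (c0 := hiR j) (c1 := loR (j + 1)) hy0 hy1 hu0 hu1 hv0 hv1
  have k2 := convT A A.up2 A.lo2 hA.lu2 X j (c0 := hiR j) (c1 := loR (j + 1)) hy0 hy1 hu0 hu1 hv0 hv1
  rw [hcv, ← hx] at k1 k2
  have hch : chord loR hiR (fun j => pF A s X u (hiR j) j) (fun j => pF A s X u (loR (j + 1)) j) j c =
      (1 - v) * pF A s X u (hiR j) j + v * pF A s X u (loR (j + 1)) j := by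
    have e1 : (c - loR (j + 1)) / (hiR j - loR (j + 1)) = 1 - v := by
      rw [hv, eq_sub_iff_add_eq, ← add_div, div_eq_one_iff_eq hd.ne']; ring
    unfold chord
    rw [add_div, mul_div_assoc, mul_div_assoc, e1]
    ring
  rw [hch]
  unfold pF
  have k3 := mul_le_mul_of_nonneg_left k1 (sub_nonneg.2 hs1)
  have k4 := mul_le_mul_of_nonneg_left k2 hs0
  linarith

/-- The value of the quadrature sum. -/
theorem sum_pF (A : Dat) (s : ℝ) (X : ℕ) (u : ℝ) :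
    ∑ j ∈ Finset.range 24, (waR j * pF A s X u (hiR j) j + wbR j * pF A s X u (loR (j + 1)) j) =
      (1 - s) * ((1 - u) * TT A A.up1 A.lo1 X (yR (2 * X)) + u * TT A A.up1 A.lo1 X (yR (2 * X + 2))) +
        s * ((1 - u) * TT A A.up2 A.lo2 X (yR (2 * X)) + u * TT A A.up2 A.lo2 X (yR (2 * X + 2))) := by
  unfold TT pF
  simp only [Finset.mul_sum, ← Finset.sum_add_distrib]
  refine Finset.sum_congr rfl fun j _ => ?_
  ring

theorem zR_even (m : ℕ) : zR (2 * m) = yR m := by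
  unfold zR; rw [if_pos (by omega)]; congr 1; omega

theorem zR_odd (m : ℕ) : zR (2 * m + 1) = bR m := by
  unfold zR; rw [if_neg (by omega)]; congr 1; omega

theorem all_half {A : Dat} {r1 r2 : ℝ} (hA : DatOK A r1 r2) (hchk : (List.range 24).all (chkX A) = true)
    {s : ℝ} (hs0 : 0 ≤ s) (hs1 : s ≤ 1) :
    ∃ e : ℝ, 0 < e ∧ ∀ h < 96, ∀ x, zR h ≤ x → x ≤ zR (h + 1) → ggX A s (h / 4) ((h + 1) / 2) x ≤ -e := by
  refine unif (P := fun h e => ∀ x, zR h ≤ x → x ≤ zR (h + 1) → ggX A s (h / 4) ((h + 1) / 2) x ≤ -e)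
    (fun i e e' _ hee hP x h1 h2 => (hP x h1 h2).trans (neg_le_neg hee)) 96 fun h hh => ?_
  have hX : h / 4 < 24 := by omega
  have hck : chkX A (h / 4) = true := List.all_eq_true.1 hchk _ (List.mem_range.2 hX)
  obtain ⟨c1, c2, c3, c4⟩ := chk_ends hA hX hck hs0 hs1
  have hlt := zR_lt hh
  have hz0 : 0 ≤ zR h := by
    have : zR 0 = yR 0 := zR_even 0
    have h3 := zR_mono (Nat.zero_le h) (by omega)
    rw [this] at h3
    exact (yR_nonneg 0).trans h3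
  obtain ⟨X, hX4⟩ : ∃ X, X = h / 4 := ⟨_, rfl⟩
  have hr : h = 4 * X ∨ h = 4 * X + 1 ∨ h = 4 * X + 2 ∨ h = 4 * X + 3 := by omega
  rw [← hX4] at c1 c2 c3 c4 ⊢
  rcases hr with e | e | e | e
  · have e1 : zR h = yR (2 * X) := by rw [e, show 4 * X = 2 * (2 * X) by ring]; exact zR_even _
    have e2 : zR (h + 1) = bR (2 * X) := by rw [e, show 4 * X + 1 = 2 * (2 * X) + 1 by ring]; exact zR_odd _
    have e3 : (h + 1) / 2 = 2 * X := by omega
    rw [e3]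
    rw [e1] at hz0 hlt ⊢
    rw [e2] at hlt ⊢
    exact half_unif hA hs0 hs1 hz0 hlt c1.1 c1.2
  · have e1 : zR h = bR (2 * X) := by rw [e, show 4 * X + 1 = 2 * (2 * X) + 1 by ring]; exact zR_odd _
    have e2 : zR (h + 1) = yR (2 * X + 1) := by rw [e, show 4 * X + 1 + 1 = 2 * (2 * X + 1) by ring]; exact zR_even _
    have e3 : (h + 1) / 2 = 2 * X + 1 := by omega
    rw [e3]
    rw [e1] at hz0 hlt ⊢
    rw [e2] at hlt ⊢
    exact half_unif hA hs0 hs1 hz0 hlt c2.1 c2.2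
  · have e1 : zR h = yR (2 * X + 1) := by rw [e, show 4 * X + 2 = 2 * (2 * X + 1) by ring]; exact zR_even _
    have e2 : zR (h + 1) = bR (2 * X + 1) := by rw [e, show 4 * X + 2 + 1 = 2 * (2 * X + 1) + 1 by ring]; exact zR_odd _
    have e3 : (h + 1) / 2 = 2 * X + 1 := by omega
    rw [e3]
    rw [e1] at hz0 hlt ⊢
    rw [e2] at hlt ⊢
    exact half_unif hA hs0 hs1 hz0 hlt c3.1 c3.2
  · have e1 : zR h = bR (2 * X + 1) := by rw [e, show 4 * X + 3 = 2 * (2 * X + 1) + 1 by ring]; exact zR_odd _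
    have e2 : zR (h + 1) = yR (2 * X + 2) := by rw [e, show 4 * X + 3 + 1 = 2 * (2 * X + 2) by ring]; exact zR_even _
    have e3 : (h + 1) / 2 = 2 * X + 2 := by omega
    rw [e3]
    rw [e1] at hz0 hlt ⊢
    rw [e2] at hlt ⊢
    exact half_unif hA hs0 hs1 hz0 hlt c4.1 c4.2

/-- The integer check implies the bound. -/
theorem sound {A : Dat} {r1 r2 : ℝ} (hA : DatOK A r1 r2) (hchk : (List.range 24).all (chkX A) = true)
    {s lam : ℝ} (hs0 : 0 ≤ s) (hs1 : s ≤ 1) (hr : (16 : ℝ) ^ lam = (1 - s) * r1 + s * r2)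
    (h256 : (1 - s) * r1 + s * r2 < 256)
    {c : ℝ} (hc : 0 < c) (hcpi : c ≤ Real.pi)
    (hcc : c ≤ (1 - s) * ((A.c1 : ℝ) / 2 ^ 20) + s * ((A.c2 : ℝ) / 2 ^ 20)) :
    D lam ≤ ((-c : ℝ) : EReal) := by
  obtain ⟨e, he, hall⟩ := all_half hA hchk hs0 hs1
  obtain ⟨_, _, h48, hy0, hy1⟩ := tab_order
  have h16 : 16 < (1 - s) * r1 + s * r2 := by nlinarith [hA.r16, hA.r12]
  refine crit (good_dat hA) h16 h256 hr.symm (K0 := 3) (K1 := 6) (by norm_num) hc hcpi (y0 := yR 0) (by linarith) hy1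
    (M := 24) (by norm_num) loR hiR ?_ ?_ he ?_
  · intro j hj
    have := trig_lo j hj
    exact_mod_cast this
  · intro j hj
    have := trig_hi j hj
    exact_mod_cast this
  intro x hx0 hx1
  have hz0 : zR 0 = yR 0 := zR_even 0
  have hz96 : zR 96 = 16 * yR 0 := by rw [← h48]; exact zR_even 48
  obtain ⟨h, hh, hzx, hxz⟩ := exists_half (x := x) 96 (by norm_num) (hz0.trans_le hx0) (hx1.trans_eq hz96.symm)
  have hg := hall h hh x hzx hxz
  obtain ⟨X, hX4⟩ : ∃ X, X = h / 4 := ⟨_, rfl⟩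
  obtain ⟨k, hk⟩ : ∃ k, k = (h + 1) / 2 := ⟨_, rfl⟩
  rw [← hX4, ← hk] at hg
  have hX : X < 24 := by omega
  have hx0' : yR (2 * X) ≤ x := by
    have e1 : zR (4 * X) = yR (2 * X) := by rw [show 4 * X = 2 * (2 * X) by ring]; exact zR_even _
    rw [← e1]
    exact (zR_mono (h := 4 * X) (h' := h) (by omega) (by omega)).trans hzx
  have hx1' : x ≤ yR (2 * X + 2) := by
    have e1 : zR (4 * X + 4) = yR (2 * X + 2) := by rw [show 4 * X + 4 = 2 * (2 * X + 2) by ring]; exact zR_even _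
    rw [← e1]
    exact hxz.trans (zR_mono (h := h + 1) (h' := 4 * X + 4) (by omega) (by omega))
  have hlt : yR (2 * X) < yR (2 * X + 2) := by
    have e1 : zR (4 * X) = yR (2 * X) := by rw [show 4 * X = 2 * (2 * X) by ring]; exact zR_even _
    have e2 : zR (4 * X + 4) = yR (2 * X + 2) := by rw [show 4 * X + 4 = 2 * (2 * X + 2) by ring]; exact zR_even _
    rw [← e1, ← e2]
    exact (zR_lt (by omega)).trans_le (zR_mono (by omega) (by omega))
  have hd : 0 < yR (2 * X + 2) - yR (2 * X) := sub_pos.2 hlt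
  set u : ℝ := (x - yR (2 * X)) / (yR (2 * X + 2) - yR (2 * X)) with hu
  have hu0 : 0 ≤ u := div_nonneg (by linarith) hd.le
  have hu1 : u ≤ 1 := (div_le_one hd).2 (by linarith)
  have hxu : x = (1 - u) * yR (2 * X) + u * yR (2 * X + 2) := by
    have : u * (yR (2 * X + 2) - yR (2 * X)) = x - yR (2 * X) := div_mul_cancel₀ _ hd.ne'
    linarith
  have hxpos : 0 ≤ x := by linarith
  refine ⟨fun j => pF A s X u (hiR j) j, fun j => pF A s X u (loR (j + 1)) j,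
    fun j _ => pF_nonneg A hs0 hs1 X hu0 hu1 _ _, fun j _ => pF_nonneg A hs0 hs1 X hu0 hu1 _ _, ?_, ?_⟩
  · intro j hj t ht1 ht2 ζ hζ1 hζ2
    have hcast : ((24 : ℕ) : ℝ) = 24 := by norm_num
    rw [hcast] at ht1 ht2
    have hjr : (j : ℝ) + 1 ≤ 24 := by exact_mod_cast hj
    have hpi := Real.pi_pos
    have hjn : (0 : ℝ) ≤ j := Nat.cast_nonneg j
    have ht0 : 0 ≤ t := le_trans (by positivity) ht1
    have htpi : Real.pi * ((j : ℝ) + 1) / 24 ≤ Real.pi := by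
      rw [div_le_iff₀ (by norm_num)]
      exact mul_le_mul_of_nonneg_left hjr hpi.le
    have c1 : loR (j + 1) ≤ Real.cos t :=
      (trig_lo j hj).trans (Real.cos_le_cos_of_nonneg_of_le_pi ht0 htpi ht2)
    have c2 : Real.cos t ≤ hiR j :=
      (Real.cos_le_cos_of_nonneg_of_le_pi (by positivity) (ht2.trans htpi) ht1).trans (trig_hi j hj)
    exact cellT hA hs0 hs1 hX hj hu0 hu1 c1 c2 hxu ζ hζ1 hζ2
  · have hr1 : r1 ≤ (1 - s) * r1 + s * r2 := by nlinarith [hA.r12]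
    have hr2 : (1 - s) * r1 + s * r2 ≤ r2 := by nlinarith [hA.r12]
    have ht := tail_le hA hr1 hr2 hxpos
    have hi := rho_int hA hs0 hs1 (tailR A x) (fun i => FL A k i x)
    have hub := ubL A (k := k) (by omega) ((1 - s) * r1 + s * r2) x hx0 hx1
      (fun g hg' hgk => by
        rw [← zR_odd g]
        exact (zR_mono (h := 2 * g + 1) (h' := h) (by omega) (by omega)).trans hzx)
      (fun g hg' hgk => by
        rw [← zR_odd g]
        exact hxz.trans (zR_mono (h := h + 1) (h' := 2 * g + 1) (by omega) (by omega)))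
    refine ⟨_, UB_mono hub (w := (1 - s) * VV A.up1 A.lo1 (tailR A x) (fun i => FL A k i x) +
      s * VV A.up2 A.lo2 (tailR A x) (fun i => FL A k i x)) (by linarith), ?_⟩
    have hS : ∑ j ∈ Finset.range 24, (wA 24 loR hiR j * pF A s X u (hiR j) j + wB 24 loR hiR j * pF A s X u (loR (j + 1)) j) ≤
        ∑ j ∈ Finset.range 24, (waR j * pF A s X u (hiR j) j + wbR j * pF A s X u (loR (j + 1)) j) := by
      refine Finset.sum_le_sum fun j hj => ?_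
      have hj' := Finset.mem_range.1 hj
      exact add_le_add (mul_le_mul_of_nonneg_right (trig_wA j hj') (pF_nonneg A hs0 hs1 X hu0 hu1 _ _))
        (mul_le_mul_of_nonneg_right (trig_wB j hj') (pF_nonneg A hs0 hs1 X hu0 hu1 _ _))
    rw [sum_pF] at hS
    have h1u : (yR (2 * X + 2) - x) / (yR (2 * X + 2) - yR (2 * X)) = 1 - u := by
      rw [hu, eq_sub_iff_add_eq, ← add_div, div_eq_one_iff_eq hd.ne']; ring
    unfold ggX gg at hg
    rw [h1u] at hg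
    have hm := mul_le_mul_of_nonneg_left hS hc.le
    have hpos : 0 ≤ (1 - s) * ((1 - u) * TT A A.up1 A.lo1 X (yR (2 * X)) + u * TT A A.up1 A.lo1 X (yR (2 * X + 2))) +
        s * ((1 - u) * TT A A.up2 A.lo2 X (yR (2 * X)) + u * TT A A.up2 A.lo2 X (yR (2 * X + 2))) := by
      rw [← sum_pF]
      refine Finset.sum_nonneg fun j _ => ?_
      have h1 := pF_nonneg A hs0 hs1 X hu0 hu1 (hiR j) j
      have h2 := pF_nonneg A hs0 hs1 X hu0 hu1 (loR (j + 1)) j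
      have h3 : 0 ≤ waR j := by unfold waR; positivity
      have h4 : 0 ≤ wbR j := by unfold wbR; positivity
      positivity
    have hm2 := mul_le_mul_of_nonneg_right hcc hpos
    linarith

end Pool.Agent.MinMod
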